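import Pool.Agent.H26.RL.Classes
import Pool.Agent.H35.AN.Box

/-! Project RL (MP_a3214d), row RL-15: every class of the lattice has its share of the family. -/

set_option autoImplicit false

open Polynomial IsDedekindDomain NumberField Pool.Agent.H35.AN
open Pool.Agent.H67.MU (Bdd)
open Pool.Agent.H92.SQ2 (gg WW)
open Pool.Agent.H98.TQ

namespace Pool.Agent.H26.RL

section

variable (k : Type) [Field k] [NumberField k]

/-- rounding: every element of `k` is an integer plus an element with bounded conjugates -/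
private theorem rl_15_round : ∃ C : ℝ, 0 < C ∧ ∀ c : k, ∃ a : 𝓞 k,
    ∀ φ : k →+* ℂ, ‖φ (c - (a : k))‖ ≤ C := by
  classical
  set Bd : ℝ := ∑ ψ : k →+* ℂ, ∑ i : Idx k, ‖ψ ((RingOfIntegers.basis k i : 𝓞 k) : k)‖ with hBd
  have hBd0 : 0 ≤ Bd := Finset.sum_nonneg (fun ψ _ => Finset.sum_nonneg (fun i _ => norm_nonneg _))
  have hBφ : ∀ φ : k →+* ℂ, ∑ i : Idx k, ‖φ ((RingOfIntegers.basis k i : 𝓞 k) : k)‖ ≤ Bd :=
    fun φ => an27_sum_le φ (fun ψ => ∑ i : Idx k, ‖ψ ((RingOfIntegers.basis k i : 𝓞 k) : k)‖)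
      (fun ψ => Finset.sum_nonneg (fun i _ => norm_nonneg _))
  refine ⟨Bd + 1, by linarith, fun c => ?_⟩
  have hc : c = ∑ i : Idx k, ((integralBasis k).repr c i : k) *
      ((RingOfIntegers.basis k i : 𝓞 k) : k) := by
    conv_lhs => rw [← (integralBasis k).sum_repr c]
    refine Finset.sum_congr rfl fun i _ => ?_
    rw [integralBasis_apply, Algebra.smul_def]
    rfl
  refine ⟨∑ i : Idx k, (⌊(integralBasis k).repr c i⌋ : 𝓞 k) * RingOfIntegers.basis k i, ?_⟩
  intro φ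
  have h1 : c - ((∑ i : Idx k, (⌊(integralBasis k).repr c i⌋ : 𝓞 k) *
      RingOfIntegers.basis k i : 𝓞 k) : k) = ∑ i : Idx k,
        ((Int.fract ((integralBasis k).repr c i) : ℚ) : k) *
          ((RingOfIntegers.basis k i : 𝓞 k) : k) := by
    have h2 : ((∑ i : Idx k, (⌊(integralBasis k).repr c i⌋ : 𝓞 k) *
      RingOfIntegers.basis k i : 𝓞 k) : k) = ∑ i : Idx k,
        ((⌊(integralBasis k).repr c i⌋ : ℤ) : k) * ((RingOfIntegers.basis k i : 𝓞 k) : k) := by
      show algebraMap (𝓞 k) k _ = _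
      rw [map_sum]
      refine Finset.sum_congr rfl fun i _ => ?_
      rw [map_mul, map_intCast]
    rw [h2]
    nth_rewrite 1 [hc]
    rw [← Finset.sum_sub_distrib]
    refine Finset.sum_congr rfl fun i _ => ?_
    rw [← sub_mul, Int.fract]
    push_cast
    rfl
  rw [h1, map_sum]
  refine (norm_sum_le _ _).trans ?_
  refine le_trans ?_ (le_trans (hBφ φ) (by linarith))
  refine Finset.sum_le_sum fun i _ => ?_
  rw [map_mul, norm_mul, map_ratCast]
  refine mul_le_of_le_one_left (norm_nonneg _) ?_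
  rw [Complex.norm_ratCast, abs_of_nonneg (by exact_mod_cast Int.fract_nonneg _)]
  exact_mod_cast (Int.fract_lt_one _).le

/-- the integer with given coordinates -/
private noncomputable def rl_15_e (y : Idx k → ℕ) : 𝓞 k := boxElt k 1 0 0 y

private theorem rl_15_e_inj : Function.Injective (rl_15_e k) := boxElt_inj k one_pos 0 0

/-- the conjugates of an element with small coordinates -/
private theorem rl_15_e_bdd : ∃ D1 : ℕ, 0 < D1 ∧ ∀ (Z : ℕ) (y : Idx k → ℕ),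
    (∀ i, y i ≤ Z / D1) → Bdd ((Z : ℝ) / 4) (rl_15_e k y) := by
  classical
  set Bd : ℝ := ∑ ψ : k →+* ℂ, ∑ i : Idx k, ‖ψ ((RingOfIntegers.basis k i : 𝓞 k) : k)‖ with hBd
  have hBd0 : 0 ≤ Bd := Finset.sum_nonneg (fun ψ _ => Finset.sum_nonneg (fun i _ => norm_nonneg _))
  have hBφ : ∀ φ : k →+* ℂ, ∑ i : Idx k, ‖φ ((RingOfIntegers.basis k i : 𝓞 k) : k)‖ ≤ Bd :=
    fun φ => an27_sum_le φ (fun ψ => ∑ i : Idx k, ‖ψ ((RingOfIntegers.basis k i : 𝓞 k) : k)‖)
      (fun ψ => Finset.sum_nonneg (fun i _ => norm_nonneg _))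
  refine ⟨⌈4 * Bd⌉₊ + 1, Nat.succ_pos _, ?_⟩
  intro Z y hy φ
  set D1 : ℕ := ⌈4 * Bd⌉₊ + 1 with hD1
  have hD1B : 4 * Bd ≤ (D1 : ℝ) := by
    rw [hD1]
    push_cast
    linarith [Nat.le_ceil (4 * Bd)]
  have hD1pos : (0 : ℝ) < (D1 : ℝ) := by rw [hD1]; positivity
  have hyR : ∀ i, (y i : ℝ) ≤ (Z : ℝ) / (D1 : ℝ) := by
    intro i
    have h1 : ((y i : ℕ) : ℝ) ≤ ((Z / D1 : ℕ) : ℝ) := by exact_mod_cast hy i
    exact h1.trans Nat.cast_div_le
  have hval : φ ((rl_15_e k y : 𝓞 k) : k) =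
      ∑ i : Idx k, (y i : ℂ) * φ ((RingOfIntegers.basis k i : 𝓞 k) : k) := by
    unfold rl_15_e boxElt
    simp only [map_mul, map_natCast, map_sum, Nat.cast_zero, zero_add, Nat.cast_one,
      one_mul, add_zero]
  rw [hval]
  calc ‖∑ i : Idx k, (y i : ℂ) * φ ((RingOfIntegers.basis k i : 𝓞 k) : k)‖
      ≤ ∑ i : Idx k, ‖(y i : ℂ) * φ ((RingOfIntegers.basis k i : 𝓞 k) : k)‖ :=
        norm_sum_le _ _
    _ ≤ ∑ i : Idx k, ((Z : ℝ) / (D1 : ℝ)) *
          ‖φ ((RingOfIntegers.basis k i : 𝓞 k) : k)‖ := by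
        apply Finset.sum_le_sum
        intro i _
        rw [norm_mul, Complex.norm_natCast]
        exact mul_le_mul_of_nonneg_right (hyR i) (norm_nonneg _)
    _ = ((Z : ℝ) / (D1 : ℝ)) * ∑ i : Idx k,
          ‖φ ((RingOfIntegers.basis k i : 𝓞 k) : k)‖ := by rw [Finset.mul_sum]
    _ ≤ ((Z : ℝ) / (D1 : ℝ)) * Bd := mul_le_mul_of_nonneg_left (hBφ φ) (by positivity)
    _ ≤ (Z : ℝ) / 4 := by
        rw [div_mul_eq_mul_div, div_le_iff₀ hD1pos]
        have : (0 : ℝ) ≤ Z := Nat.cast_nonneg _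
        nlinarith

/-- representation of a polynomial by multiples of `N0 • y i` over the field -/
private theorem rl_15_repr {N : ℕ} (y : Fin (N + 1) → (𝓞 k)[X]) (hy : LinearIndependent (𝓞 k) y)
    (hd : ∀ i, (y i).natDegree ≤ N) (D : (𝓞 k)[X]) (N0 : ℕ) (hN0 : 0 < N0) :
    ∃ c : Fin (N + 1) → k, ∀ j ≤ N,
      ((D.coeff j : 𝓞 k) : k) = ∑ i, c i * (N0 * (((y i).coeff j : 𝓞 k) : k)) := by
  classical
  let v : Fin (N + 1) → (Fin (N + 1) → k) := fun i j => (((y i).coeff j : 𝓞 k) : k)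
  have hv : LinearIndependent (𝓞 k) v := by
    rw [Fintype.linearIndependent_iff] at hy ⊢
    intro g hg
    apply hy g
    ext j
    rw [Polynomial.finsetSum_coeff, Polynomial.coeff_zero]
    by_cases hj : j < N + 1
    · have h1 := congrFun hg ⟨j, hj⟩
      rw [Finset.sum_apply] at h1
      have h2 : ((∑ i, g i * (y i).coeff j : 𝓞 k) : k) = 0 := by
        show algebraMap (𝓞 k) k _ = _
        rw [map_sum, ← h1.trans (Pi.zero_apply _)]
        refine Finset.sum_congr rfl fun i _ => ?_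
        rw [map_mul, Pi.smul_apply, Algebra.smul_def]
      have h3 : (∑ i, g i * (y i).coeff j : 𝓞 k) = 0 :=
        RingOfIntegers.coe_eq_zero_iff.1 h2
      have h4 : ∑ i, (g i • y i).coeff j = ∑ i, g i * (y i).coeff j :=
        Finset.sum_congr rfl fun i _ => by rw [coeff_smul, smul_eq_mul]
      rw [h4, h3]
    · refine congrArg _ (Finset.sum_eq_zero fun i _ => ?_)
      rw [Polynomial.coeff_smul, Polynomial.coeff_eq_zero_of_natDegree_lt
        (lt_of_le_of_lt (hd i) (by omega)), smul_zero]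
  have hvQ : LinearIndependent k v := (LinearIndependent.iff_fractionRing (𝓞 k) k).1 hv
  have hspan : Submodule.span k (Set.range v) = ⊤ :=
    hvQ.span_eq_top_of_card_eq_finrank' (by simp)
  have hmem : (fun j : Fin (N + 1) => (((D.coeff j : 𝓞 k) : k) / N0)) ∈
      Submodule.span k (Set.range v) := by
    rw [hspan]; trivial
  rw [Submodule.mem_span_range_iff_exists_fun] at hmem
  obtain ⟨c, hc⟩ := hmem
  refine ⟨c, fun j hj => ?_⟩
  have h1 := congrFun hc ⟨j, Nat.lt_succ_of_le hj⟩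
  rw [Finset.sum_apply] at h1
  have hN : (N0 : k) ≠ 0 := Nat.cast_ne_zero.2 hN0.ne'
  have h2 : ((D.coeff j : 𝓞 k) : k) = N0 * (((D.coeff j : 𝓞 k) : k) / N0) := by field_simp
  rw [h2, ← h1, Finset.mul_sum]
  refine Finset.sum_congr rfl fun i _ => ?_
  simp only [v, Pi.smul_apply, smul_eq_mul]
  ring

/-- the sum of the exponents -/
private theorem rl_15_expsum (N : ℕ) :
    ∑ i : Fin (N + 1), (N + 2 - (i : ℕ)) = (N + 2) * (N + 3) / 2 - 1 := by
  rw [Fin.sum_univ_eq_sum_range (fun i => N + 2 - i)]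
  have h1 : ∑ i ∈ Finset.range (N + 1), (N + 2 - i) = ∑ i ∈ Finset.range (N + 1), (i + 2) := by
    rw [← Finset.sum_range_reflect]
    refine Finset.sum_congr rfl fun i hi => ?_
    rw [Finset.mem_range] at hi
    omega
  rw [h1]
  have h2 : ∀ N : ℕ, 2 * (∑ i ∈ Finset.range (N + 1), (i + 2) + 1) = (N + 2) * (N + 3) := by
    intro N
    induction N with
    | zero => simp
    | succ k ih =>
      rw [Finset.sum_range_succ]
      calc 2 * (∑ i ∈ Finset.range (k + 1), (i + 2) + (k + 1 + 2) + 1)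
          = 2 * (∑ i ∈ Finset.range (k + 1), (i + 2) + 1) + 2 * (k + 3) := by ring
        _ = _ := by rw [ih]; ring
  have h3 := h2 N
  omega

variable {k} in
/-- the polynomial with given lower coefficients -/
private noncomputable def rl_15_f {N : ℕ} (a : 𝓞 k) (u : Fin (N + 1) → 𝓞 k) : (𝓞 k)[X] :=
  X ^ (N + 2) + C a * X ^ (N + 1) + ∑ i : Fin (N + 1), C (u i) * X ^ (i : ℕ)

variable {k} in
private theorem rl_15_f_coeff {N : ℕ} (a : 𝓞 k) (u : Fin (N + 1) → 𝓞 k) (j : ℕ) :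
    (rl_15_f a u).coeff j = (if j = N + 2 then 1 else 0) + (if j = N + 1 then a else 0) +
      (if hj : j < N + 1 then u ⟨j, hj⟩ else 0) := by
  classical
  unfold rl_15_f
  rw [coeff_add, coeff_add, coeff_X_pow, coeff_C_mul, coeff_X_pow, finsetSum_coeff]
  congr 1
  · congr 1
    split_ifs <;> simp
  · by_cases hj : j < N + 1
    · rw [dif_pos hj, Finset.sum_eq_single ⟨j, hj⟩]
      · rw [coeff_C_mul, coeff_X_pow, if_pos rfl, mul_one]
      · intro i _ hi
        rw [coeff_C_mul, coeff_X_pow, if_neg, mul_zero]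
        intro h
        exact hi (Fin.ext h.symm)
      · intro h
        exact absurd (Finset.mem_univ _) h
    · rw [dif_neg hj]
      refine Finset.sum_eq_zero fun i _ => ?_
      rw [coeff_C_mul, coeff_X_pow, if_neg, mul_zero]
      have := i.2
      omega

private theorem rl_15_main (N N0 b t : ℕ) (s : (𝓞 k)[X]) (τ : Fin t → Bool) (hN0 : 0 < N0)
    (hs : s.Monic) (hsn : s.natDegree = N + 2) (hN : 1 ≤ N) (hb : 1 ≤ b) (D1 : ℕ) (hD1 : 0 < D1)
    (hDb : ∀ (Z : ℕ) (y : Idx k → ℕ), (∀ i, y i ≤ Z / D1) → Bdd ((Z : ℝ) / 4) (rl_15_e k y))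
    (Cr : ℝ) (hCr0 : 0 < Cr) (hCr : ∀ c : k, ∃ a : 𝓞 k, ∀ φ : k →+* ℂ, ‖φ (c - (a : k))‖ ≤ Cr)
    (h : ℕ) (hh : 4 * Cr * N0 * (N + 1) ≤ (h : ℝ))
    (e : Fin t → HeightOneSpectrum (𝓞 k) × ℕ) (he : Function.Injective fun i => (e i).1)
    (hc : ∀ i, IsCoprime (e i).1.asIdeal (Ideal.span {(N0 : 𝓞 k)}))
    (y : Fin (N + 1) → (𝓞 k)[X]) (hy : LinearIndependent (𝓞 k) y)
    (hyb : ∀ i, InBox h b N (2 * b - 1) (y i) ∧ y i ∈ LL τ e) :
    ∃ T : Finset (𝓞 k)[X], (∀ f ∈ T, FamH (N + 2) N0 s b h f ∧ f ∈ LL τ e) ∧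
        h ^ (Module.finrank ℚ k * (b * ((N + 2) * (N + 3) / 2 - 1))) ≤
          D1 ^ (Module.finrank ℚ k * (N + 1)) *
            ((N0 ^ Module.finrank ℚ k) ^ (N + 1) *
              ∏ i, Ideal.absNorm (e i).1.asIdeal ^ ct (τ i)) *
          T.card := by
  classical
  set m := Module.finrank ℚ k with hm
  set a := s.coeff (N + 1) with ha
  set q : ℕ := ∏ i, Ideal.absNorm (e i).1.asIdeal ^ ct (τ i) with hq
  obtain ⟨cl, hcl⟩ := exists_cl τ e
  have hN0' : (N0 : 𝓞 k) ≠ 0 := Nat.cast_ne_zero.2 hN0.ne'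
  have hI0 : Ideal.span {(N0 : 𝓞 k)} ≠ ⊥ := by
    rw [Ne, Ideal.span_singleton_eq_bot]; exact hN0'
  haveI : Finite (𝓞 k ⧸ Ideal.span {(N0 : 𝓞 k)}) := Ideal.finiteQuotientOfFreeOfNeBot _ hI0
  haveI : Fintype (𝓞 k ⧸ Ideal.span {(N0 : 𝓞 k)}) := Fintype.ofFinite _
  -- the box
  set U : Finset (Fin (N + 1) → (Idx k → ℕ)) := Fintype.piFinset
    (fun i : Fin (N + 1) => box k (h ^ (b * (N + 2 - (i : ℕ))) / D1 + 1)) with hU
  have hUcard : h ^ (m * (b * ((N + 2) * (N + 3) / 2 - 1))) ≤ D1 ^ (m * (N + 1)) * U.card := by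
    rw [hU, Fintype.card_piFinset]
    have h1 : D1 ^ (m * (N + 1)) = ∏ _i : Fin (N + 1), D1 ^ m := by simp [pow_mul]
    rw [h1, ← Finset.prod_mul_distrib, ← rl_15_expsum N, Finset.mul_sum, Finset.mul_sum,
      ← Finset.prod_pow_eq_pow_sum]
    refine Finset.prod_le_prod' fun i _ => ?_
    rw [card_box, ← hm, ← mul_pow, mul_comm m, pow_mul]
    refine Nat.pow_le_pow_left ?_ _
    exact (Nat.lt_mul_div_succ _ hD1).le
  -- the key
  let fu : (Fin (N + 1) → (Idx k → ℕ)) → (𝓞 k)[X] := fun u => rl_15_f a (fun i => rl_15_e k (u i))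
  have hfu : ∀ u j, (fu u).coeff j = (if j = N + 2 then 1 else 0) + (if j = N + 1 then a else 0) +
      (if hj : j < N + 1 then rl_15_e k (u ⟨j, hj⟩) else 0) := fun u j => rl_15_f_coeff _ _ _
  let key : (Fin (N + 1) → (Idx k → ℕ)) → (Fin (N + 1) → 𝓞 k ⧸ Ideal.span {(N0 : 𝓞 k)}) ×
      Fin q := fun u =>
    (fun i => Ideal.Quotient.mk _ (rl_15_e k (u i)), cl (fu u))
  have hcardI : ∀ I : Ideal (𝓞 k), ∀ _ : Fintype (𝓞 k ⧸ I),
      Fintype.card (𝓞 k ⧸ I) = Ideal.absNorm I := by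
    intro I _
    rw [Ideal.absNorm_apply, Submodule.cardQuot_apply, Nat.card_eq_fintype_card]
  have hcardkey : Fintype.card ((Fin (N + 1) → 𝓞 k ⧸ Ideal.span {(N0 : 𝓞 k)}) × Fin q) =
      (N0 ^ m) ^ (N + 1) * q := by
    rw [Fintype.card_prod, Fintype.card_fun, hcardI, Fintype.card_fin, Fintype.card_fin,
      Ideal.absNorm_span_natCast, RingOfIntegers.rank]
  have hUpos : 0 < U.card := by
    rw [hU, Fintype.card_piFinset]
    refine Finset.prod_pos fun i _ => ?_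
    rw [card_box]
    positivity
  have hUne : U.Nonempty := Finset.card_pos.1 hUpos
  have hpig : ∃ κ ∈ (Finset.univ : Finset ((Fin (N + 1) → 𝓞 k ⧸ Ideal.span {(N0 : 𝓞 k)}) ×
      Fin q)),
      U.card ≤ (N0 ^ m) ^ (N + 1) * q * (U.filter fun u => key u = κ).card := by
    obtain ⟨u1, -⟩ := hUne
    refine Finset.exists_le_of_sum_le ⟨key u1, Finset.mem_univ _⟩ ?_
    rw [← Finset.mul_sum, ← Finset.card_eq_sum_card_fiberwise (fun u _ => Finset.mem_univ _),
      Finset.sum_const, smul_eq_mul, Finset.card_univ, hcardkey]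
  obtain ⟨κ, -, hk⟩ := hpig
  set K := U.filter fun u => key u = κ with hK
  have hKne : K.Nonempty := by
    rw [← Finset.card_pos]
    rcases Nat.eq_zero_or_pos K.card with h0 | h0
    · rw [h0, mul_zero] at hk
      omega
    · exact h0
  obtain ⟨u0, hu0⟩ := hKne
  -- the target
  obtain ⟨g, hg1, hg2⟩ := exists_base k τ e he N0 hc s
  set g0 : (𝓞 k)[X] := C (N0 : 𝓞 k) * g with hg0
  have hg0c : ∀ j, (N0 : 𝓞 k) ∣ g0.coeff j := by
    intro j
    rw [hg0, coeff_C_mul]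
    exact dvd_mul_right _ _
  have hg0h : ∀ j, 1 < j → g0.coeff j = 0 := by
    intro j hj
    rw [hg0, coeff_C_mul, Polynomial.coeff_eq_zero_of_natDegree_lt (lt_of_le_of_lt hg1 hj),
      mul_zero]
  set D : (𝓞 k)[X] := s + g0 - fu u0 with hD
  have hDc : ∀ j, D.coeff j = s.coeff j + g0.coeff j - (fu u0).coeff j := by
    intro j
    rw [hD, coeff_sub, coeff_add]
  have hDh : ∀ j, N < j → D.coeff j = 0 := by
    intro j hj
    rw [hDc, hg0h j (by omega), hfu, dif_neg (by omega)]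
    rcases lt_trichotomy j (N + 2) with hj2 | hj2 | hj2
    · have hj3 : j = N + 1 := by omega
      subst hj3
      rw [if_neg (by omega), if_pos rfl, ha]
      ring
    · subst hj2
      rw [if_pos rfl, if_neg (by omega)]
      have : s.coeff (N + 2) = 1 := by
        rw [← hsn]; exact hs
      rw [this]; ring
    · rw [if_neg (by omega), if_neg (by omega),
        Polynomial.coeff_eq_zero_of_natDegree_lt (by omega)]
      ring
  obtain ⟨c, hcD⟩ := rl_15_repr k y hy (fun i => (hyb i).1.1) D N0 hN0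
  choose fl hfl using hCr
  set t : (𝓞 k)[X] := D - ∑ i, C (fl (c i) * (N0 : 𝓞 k)) * y i with ht
  have htc : ∀ j ≤ N, ((t.coeff j : 𝓞 k) : k) =
      ∑ i, (c i - (fl (c i) : k)) * (N0 * (((y i).coeff j : 𝓞 k) : k)) := by
    intro j hj
    have h1 : ((t.coeff j : 𝓞 k) : k) = ((D.coeff j : 𝓞 k) : k) -
        ∑ i, ((fl (c i) : k) * N0) * (((y i).coeff j : 𝓞 k) : k) := by
      show algebraMap (𝓞 k) k _ = _
      rw [ht, coeff_sub, finsetSum_coeff, map_sub, map_sum]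
      congr 1
      refine Finset.sum_congr rfl fun i _ => ?_
      rw [coeff_C_mul, map_mul, map_mul, map_natCast]
    rw [h1, hcD j hj, ← Finset.sum_sub_distrib]
    refine Finset.sum_congr rfl fun i _ => ?_
    ring
  have hth : ∀ j, N < j → t.coeff j = 0 := by
    intro j hj
    rw [ht, coeff_sub, hDh j hj, finsetSum_coeff, Finset.sum_eq_zero, sub_zero]
    intro i _
    rw [coeff_C_mul, Polynomial.coeff_eq_zero_of_natDegree_lt
      (lt_of_le_of_lt (hyb i).1.1 hj), mul_zero]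
  have htb : ∀ j ≤ N, Bdd ((h : ℝ) ^ (b * (N + 2 - j)) / 4) (t.coeff j) := by
    intro j hj φ
    have h1 : ‖φ ((t.coeff j : 𝓞 k) : k)‖ ≤
        (N + 1) * (Cr * (N0 * (h : ℝ) ^ (2 * b - 1 + b * (N - j)))) := by
      rw [htc j hj, map_sum]
      refine (norm_sum_le _ _).trans ?_
      have h2 : ∀ i ∈ (Finset.univ : Finset (Fin (N + 1))),
          ‖φ ((c i - (fl (c i) : k)) * (N0 * (((y i).coeff j : 𝓞 k) : k)))‖ ≤
            Cr * (N0 * (h : ℝ) ^ (2 * b - 1 + b * (N - j))) := by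
        intro i _
        rw [map_mul, map_mul, norm_mul, norm_mul, map_natCast, Complex.norm_natCast]
        have h3 := (hyb i).1.2 j hj φ
        have h4 := hfl (c i) φ
        exact mul_le_mul h4 (mul_le_mul_of_nonneg_left h3 (Nat.cast_nonneg _)) (by positivity)
          hCr0.le
      refine (Finset.sum_le_sum h2).trans ?_
      simp
    refine h1.trans ?_
    have h7 : b * (N + 2 - j) = (2 * b - 1 + b * (N - j)) + 1 := by
      have : N + 2 - j = (N - j) + 2 := by omega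
      rw [this, mul_add]
      omega
    rw [h7, pow_succ]
    have h9 : (0 : ℝ) ≤ (h : ℝ) ^ (2 * b - 1 + b * (N - j)) := by positivity
    nlinarith [mul_le_mul_of_nonneg_left hh h9]
  have htL : fu u0 + t ∈ LL τ e := by
    have h1 : fu u0 + t = (s + g0) - ∑ i, (fl (c i) * (N0 : 𝓞 k)) • y i := by
      rw [ht, hD]
      have h2 : ∑ i, C (fl (c i) * (N0 : 𝓞 k)) * y i =
          ∑ i, (fl (c i) * (N0 : 𝓞 k)) • y i :=
        Finset.sum_congr rfl fun i _ => by rw [smul_eq_C_mul]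
      rw [h2]
      ring
    rw [h1]
    exact Submodule.sub_mem _ hg2 (Submodule.sum_mem _ fun i _ =>
      Submodule.smul_mem _ _ (hyb i).2)
  have htN : ∀ j, (N0 : 𝓞 k) ∣ t.coeff j - D.coeff j := by
    intro j
    rw [ht, coeff_sub, finsetSum_coeff]
    have : (N0 : 𝓞 k) ∣ ∑ i, (C (fl (c i) * (N0 : 𝓞 k)) * y i).coeff j := by
      refine Finset.dvd_sum fun i _ => ?_
      rw [coeff_C_mul]
      exact (dvd_mul_left _ _).mul_right _
    have h2 : D.coeff j - ∑ i, (C (fl (c i) * (N0 : 𝓞 k)) * y i).coeff j - D.coeff j =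
      -∑ i, (C (fl (c i) * (N0 : 𝓞 k)) * y i).coeff j := by ring
    rw [h2]
    exact (dvd_neg).2 this
  -- the set
  have hinj : ∀ u1 ∈ K, ∀ u2 ∈ K, fu u1 + t = fu u2 + t → u1 = u2 := by
    intro u1 _ u2 _ h12
    have h3 : fu u1 = fu u2 := add_right_cancel h12
    funext i
    have h4 := congrArg (fun p : (𝓞 k)[X] => p.coeff (i : ℕ)) h3
    simp only [hfu, dif_pos i.2] at h4
    exact rl_15_e_inj k (add_left_cancel h4)
  refine ⟨K.image fun u => fu u + t, ?_, ?_⟩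
  · intro f hf
    rw [Finset.mem_image] at hf
    obtain ⟨u, huK, rfl⟩ := hf
    have huU : u ∈ U := (Finset.mem_filter.1 huK).1
    have hukey : key u = key u0 := by
      rw [(Finset.mem_filter.1 huK).2, (Finset.mem_filter.1 hu0).2]
    have hk1 : ∀ i, rl_15_e k (u i) - rl_15_e k (u0 i) ∈ Ideal.span {(N0 : 𝓞 k)} := fun i =>
      Ideal.Quotient.eq.1 (congrFun (congrArg Prod.fst hukey) i)
    have hk2 : fu u - fu u0 ∈ LL τ e := hcl _ _ (congrArg Prod.snd hukey)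
    have hcoef : ∀ j, (fu u + t).coeff j = (fu u).coeff j + t.coeff j :=
      fun j => coeff_add _ _ _
    have htop : (fu u + t).coeff (N + 2) = 1 := by
      rw [hcoef, hth _ (by omega), hfu]
      simp
    have hdeg : (fu u + t).natDegree = N + 2 := by
      refine le_antisymm ?_ ?_
      · rw [Polynomial.natDegree_le_iff_coeff_eq_zero]
        intro j hj
        rw [hcoef, hth _ (by omega), hfu, dif_neg (by omega), if_neg (by omega),
          if_neg (by omega)]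
        simp
      · refine Polynomial.le_natDegree_of_ne_zero ?_
        rw [htop]; exact one_ne_zero
    refine ⟨⟨hdeg, ?_, ?_, ?_, ?_⟩, ?_⟩
    · rw [Monic, leadingCoeff, hdeg, htop]
    · show (fu u + t).coeff (N + 1) = s.coeff (N + 1)
      rw [hcoef, hth _ (by omega), hfu]
      simp [ha]
    · intro i hi φ
      have hi' : i ≤ N := hi
      have h0 : (fu u + t).coeff i = rl_15_e k (u ⟨i, Nat.lt_succ_of_le hi'⟩) + t.coeff i := by
        rw [hcoef, hfu, dif_pos (Nat.lt_succ_of_le hi'), if_neg (by omega),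
          if_neg (by omega), zero_add, zero_add]
      rw [h0]
      have h1 := htb i hi' φ
      have h2 := hDb (h ^ (b * (N + 2 - i))) (u ⟨i, Nat.lt_succ_of_le hi'⟩) (by
        intro j
        have h3 := (Fintype.mem_piFinset.1 huU) ⟨i, Nat.lt_succ_of_le hi'⟩
        unfold box at h3
        rw [Fintype.mem_piFinset] at h3
        have h4 := Finset.mem_range.1 (h3 j)
        exact Nat.lt_succ_iff.1 h4) φ
      have h5 : ((rl_15_e k (u ⟨i, Nat.lt_succ_of_le hi'⟩) + t.coeff i : 𝓞 k) : k) =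
          ((rl_15_e k (u ⟨i, Nat.lt_succ_of_le hi'⟩) : 𝓞 k) : k) + ((t.coeff i : 𝓞 k) : k) := rfl
      rw [h5, map_add]
      refine (norm_add_le _ _).trans ?_
      push_cast at h2
      linarith
    · intro j
      have h1 := htN j
      have h2 : (N0 : 𝓞 k) ∣ (fu u).coeff j - (fu u0).coeff j := by
        rw [hfu, hfu]
        by_cases hj : j < N + 1
        · rw [dif_pos hj, dif_pos hj]
          have h3 := Ideal.mem_span_singleton.1 (hk1 ⟨j, hj⟩)
          have h4 : ((if j = N + 2 then (1 : 𝓞 k) else 0) + (if j = N + 1 then a else 0) +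
              rl_15_e k (u ⟨j, hj⟩)) - ((if j = N + 2 then (1 : 𝓞 k) else 0) +
              (if j = N + 1 then a else 0) + rl_15_e k (u0 ⟨j, hj⟩)) =
              rl_15_e k (u ⟨j, hj⟩) - rl_15_e k (u0 ⟨j, hj⟩) := by ring
          rw [h4]
          exact h3
        · rw [dif_neg hj, dif_neg hj, sub_self]
          exact dvd_zero _
      have h3 := hg0c j
      have h4 : (fu u + t).coeff j - s.coeff j =
          ((fu u).coeff j - (fu u0).coeff j) + (t.coeff j - D.coeff j) +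
            g0.coeff j := by
        rw [hcoef, hDc]
        ring
      rw [h4]
      exact dvd_add (dvd_add h2 h1) h3
    · have h4 : fu u + t = (fu u - fu u0) + (fu u0 + t) := by ring
      rw [h4]
      exact Submodule.add_mem _ hk2 htL
  · rw [Finset.card_image_of_injOn (fun u1 h1 u2 h2 h12 => hinj u1 h1 u2 h2 h12)]
    calc h ^ (m * (b * ((N + 2) * (N + 3) / 2 - 1))) ≤ D1 ^ (m * (N + 1)) * U.card := hUcard
      _ ≤ D1 ^ (m * (N + 1)) * ((N0 ^ m) ^ (N + 1) * q * K.card) := Nat.mul_le_mul_left _ hk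
      _ = _ := by ring

theorem class_countN (n N0 b t : ℕ) (s : (𝓞 k)[X]) (τ : Fin t → Bool) (hn : 4 ≤ n)
    (hN0 : 0 < N0) (hs : s.Monic) (hsn : s.natDegree = n) (hb : 1 ≤ b) :
    ∃ c : ℝ, 0 < c ∧ ∃ h0 : ℕ, ∀ h ≥ h0, ∀ e : Fin t → HeightOneSpectrum (𝓞 k) × ℕ,
      (Function.Injective fun i => (e i).1) →
      (∀ i, IsCoprime (e i).1.asIdeal (Ideal.span {(N0 : 𝓞 k)})) →
      ∀ y : Fin (n - 1) → (𝓞 k)[X], LinearIndependent (𝓞 k) y →
      (∀ i, InBox h b (n - 2) (2 * b - 1) (y i) ∧ y i ∈ LL τ e) →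
      ∃ T : Finset (𝓞 k)[X], (∀ f ∈ T, FamH n N0 s b h f ∧ f ∈ LL τ e) ∧
        c * (h : ℝ) ^ (Module.finrank ℚ k * (b * (n * (n + 1) / 2 - 1))) ≤
          ((∏ i, Ideal.absNorm (e i).1.asIdeal ^ ct (τ i) : ℕ) : ℝ) * T.card := by
  obtain ⟨N, rfl⟩ : ∃ N, n = N + 2 := ⟨n - 2, by omega⟩
  obtain ⟨D1, hD1, hDb⟩ := rl_15_e_bdd k
  obtain ⟨Cr, hCr0, hCr⟩ := rl_15_round k
  set m := Module.finrank ℚ k with hm
  have h2 : (0 : ℝ) < (D1 : ℝ) ^ (m * (N + 1)) * ((N0 : ℝ) ^ m) ^ (N + 1) := by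
    have h3 : (0 : ℝ) < D1 := by exact_mod_cast hD1
    have h4 : (0 : ℝ) < N0 := by exact_mod_cast hN0
    positivity
  refine ⟨1 / ((D1 : ℝ) ^ (m * (N + 1)) * ((N0 : ℝ) ^ m) ^ (N + 1)), by positivity,
    ⌈4 * Cr * N0 * (N + 1)⌉₊, ?_⟩
  intro h hh e he hc y hy hyb
  have hh' : 4 * Cr * N0 * (N + 1) ≤ (h : ℝ) := (Nat.le_ceil _).trans (by exact_mod_cast hh)
  obtain ⟨T, hT, hcard⟩ := rl_15_main k N N0 b t s τ hN0 hs hsn (by omega) hb D1 hD1 hDb Cr hCr0
    hCr h hh' e he hc y hy hyb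
  refine ⟨T, hT, ?_⟩
  have h1 : ((h : ℝ) ^ (m * (b * ((N + 2) * (N + 3) / 2 - 1)))) ≤
      (D1 : ℝ) ^ (m * (N + 1)) * (((N0 : ℝ) ^ m) ^ (N + 1) *
        ((∏ i, Ideal.absNorm (e i).1.asIdeal ^ ct (τ i) : ℕ) : ℝ)) * T.card := by
    exact_mod_cast hcard
  show 1 / ((D1 : ℝ) ^ (m * (N + 1)) * ((N0 : ℝ) ^ m) ^ (N + 1)) *
    (h : ℝ) ^ (m * (b * ((N + 2) * (N + 3) / 2 - 1))) ≤ _
  rw [div_mul_eq_mul_div, one_mul, div_le_iff₀ h2]
  calc ((h : ℝ) ^ (m * (b * ((N + 2) * (N + 3) / 2 - 1)))) ≤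
      (D1 : ℝ) ^ (m * (N + 1)) * (((N0 : ℝ) ^ m) ^ (N + 1) *
        ((∏ i, Ideal.absNorm (e i).1.asIdeal ^ ct (τ i) : ℕ) : ℝ)) * T.card := h1
    _ = _ := by ring

end

end Pool.Agent.H26.RL
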