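import Pool.Agent.H26.RL.Defs

/-! Project RL (MP_a3214d), row RL-12: classes modulo the lattice of all conditions. -/

set_option autoImplicit false

open Polynomial IsDedekindDomain NumberField Pool.Agent.H35.AN
open Pool.Agent.H67.MU (Bdd)
open Pool.Agent.H92.SQ2 (gg WW)
open Pool.Agent.H98.TQ

namespace Pool.Agent.H26.RL

section

variable (k : Type) [Field k] [NumberField k]

variable {k} in
private theorem rl_12_ct (τ : Bool) : ct τ = cond τ 2 1 + 1 := by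
  cases τ <;> rfl

variable {k} in
private theorem rl_12_mem {τ : Bool} {p : Ideal (𝓞 k)} {x : 𝓞 k} {g : (𝓞 k)[X]} :
    g ∈ cut τ p x ↔ g.eval x ∈ p ^ (cond τ 2 1) ∧ g.derivative.eval x ∈ p := Iff.rfl

variable {k} in
/-- the space of classes -/
private abbrev Rl12Q {t : ℕ} (τ : Fin t → Bool) (e : Fin t → HeightOneSpectrum (𝓞 k) × ℕ) : Type :=
  ∀ i, (𝓞 k ⧸ (e i).1.asIdeal ^ (cond (τ i) 2 1)) × (𝓞 k ⧸ (e i).1.asIdeal)

variable {k} in
private theorem rl_12_equiv {t : ℕ} (τ : Fin t → Bool) (e : Fin t → HeightOneSpectrum (𝓞 k) × ℕ) :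
    Nonempty (Rl12Q τ e ≃ Fin (∏ i, Ideal.absNorm (e i).1.asIdeal ^ ct (τ i))) := by
  classical
  haveI h1 : ∀ i, Finite (𝓞 k ⧸ (e i).1.asIdeal ^ (cond (τ i) 2 1)) := fun i =>
    Ideal.finiteQuotientOfFreeOfNeBot _ (pow_ne_zero _ (e i).1.ne_bot)
  haveI h2 : ∀ i, Finite (𝓞 k ⧸ (e i).1.asIdeal) := fun i =>
    Ideal.finiteQuotientOfFreeOfNeBot _ (e i).1.ne_bot
  haveI : ∀ i, Fintype (𝓞 k ⧸ (e i).1.asIdeal ^ (cond (τ i) 2 1)) := fun i => Fintype.ofFinite _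
  haveI : ∀ i, Fintype (𝓞 k ⧸ (e i).1.asIdeal) := fun i => Fintype.ofFinite _
  have hcard : Nat.card (Rl12Q τ e) = ∏ i, Ideal.absNorm (e i).1.asIdeal ^ ct (τ i) := by
    rw [Nat.card_pi]
    refine Finset.prod_congr rfl fun i _ => ?_
    rw [Nat.card_prod, rl_12_ct, pow_succ, ← map_pow]
    rfl
  have hfin : Finite (Rl12Q τ e) := inferInstance
  exact ⟨(Finite.equivFinOfCardEq hcard)⟩

variable {k} in
theorem exists_cl {t : ℕ} (τ : Fin t → Bool) (e : Fin t → HeightOneSpectrum (𝓞 k) × ℕ) :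
    ∃ cl : (𝓞 k)[X] → Fin (∏ i, Ideal.absNorm (e i).1.asIdeal ^ ct (τ i)),
      ∀ g g', cl g = cl g' → g - g' ∈ LL τ e := by
  obtain ⟨E⟩ := rl_12_equiv τ e
  refine ⟨fun g => E fun i => (Ideal.Quotient.mk _ (g.eval ((e i).2 : 𝓞 k)),
    Ideal.Quotient.mk _ (g.derivative.eval ((e i).2 : 𝓞 k))), fun g g' h => ?_⟩
  have h1 := E.injective h
  rw [mem_LL]
  intro i
  have h2 := congrFun h1 i
  rw [Prod.mk.injEq] at h2
  rw [rl_12_mem, eval_sub, derivative_sub, eval_sub]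
  exact ⟨Ideal.Quotient.eq.1 h2.1, Ideal.Quotient.eq.1 h2.2⟩

variable {k} in
private theorem rl_12_crt {t : ℕ} (e : Fin t → HeightOneSpectrum (𝓞 k) × ℕ)
    (he : Function.Injective fun i => (e i).1) (c : Fin t → ℕ) (a : Fin t → 𝓞 k) :
    ∃ A : 𝓞 k, ∀ i, A - a i ∈ (e i).1.asIdeal ^ c i := by
  classical
  obtain ⟨A, hA⟩ := IsDedekindDomain.exists_forall_sub_mem_ideal (s := Finset.univ)
    (fun i => (e i).1.asIdeal) c (fun i _ => (e i).1.prime)
    (fun i _ j _ hij h => hij (he (HeightOneSpectrum.ext h))) (fun i => a i)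
  exact ⟨A, fun i => hA i (Finset.mem_univ _)⟩

variable {k} in
/-- a polynomial of degree at most one with given classes -/
private theorem rl_12_lin {t : ℕ} (e : Fin t → HeightOneSpectrum (𝓞 k) × ℕ)
    (he : Function.Injective fun i => (e i).1) (c : Fin t → ℕ) (al be : Fin t → 𝓞 k) :
    ∃ g : (𝓞 k)[X], g.natDegree ≤ 1 ∧ ∀ i,
      g.eval ((e i).2 : 𝓞 k) - al i ∈ (e i).1.asIdeal ^ c i ∧
      g.derivative.eval ((e i).2 : 𝓞 k) - be i ∈ (e i).1.asIdeal := by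
  obtain ⟨B, hB⟩ := rl_12_crt e he (fun _ => 1) be
  obtain ⟨A, hA⟩ := rl_12_crt e he c (fun i => al i - B * ((e i).2 : 𝓞 k))
  refine ⟨C B * X + C A, natDegree_linear_le, fun i => ⟨?_, ?_⟩⟩
  · have h1 := hA i
    have h2 : (C B * X + C A).eval ((e i).2 : 𝓞 k) - al i =
        A - (al i - B * ((e i).2 : 𝓞 k)) := by
      rw [eval_add, eval_C_mul, eval_X, eval_C]
      ring
    rw [h2]
    exact h1
  · have h1 := hB i
    rw [pow_one] at h1
    have h2 : (derivative (C B * X + C A)).eval ((e i).2 : 𝓞 k) = B := by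
      simp
    rw [h2]
    exact h1

variable {k} in
theorem exists_reps {t : ℕ} (τ : Fin t → Bool) (e : Fin t → HeightOneSpectrum (𝓞 k) × ℕ)
    (he : Function.Injective fun i => (e i).1) :
    ∃ z : Fin (∏ i, Ideal.absNorm (e i).1.asIdeal ^ ct (τ i)) → (𝓞 k)[X],
      (∀ i, (z i).natDegree ≤ 1) ∧ ∀ i j, z i - z j ∈ LL τ e → i = j := by
  classical
  obtain ⟨E⟩ := rl_12_equiv τ e
  choose z hz using fun q : Rl12Q τ e => rl_12_lin e he (fun i => cond (τ i) 2 1)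
    (fun i => (q i).1.out) (fun i => (q i).2.out)
  refine ⟨fun j => z (E.symm j), fun j => (hz _).1, fun i j hij => ?_⟩
  apply E.symm.injective
  funext l
  have h0 := (mem_LL.1 hij) l
  rw [rl_12_mem, eval_sub, derivative_sub, eval_sub] at h0
  have h1 := (hz (E.symm i)).2 l
  have h2 := (hz (E.symm j)).2 l
  refine Prod.ext ?_ ?_
  · rw [← Ideal.Quotient.mk_out (E.symm i l).1, ← Ideal.Quotient.mk_out (E.symm j l).1,
      Ideal.Quotient.eq]
    have h3 := Ideal.sub_mem _ (Ideal.add_mem _ h0.1 h2.1) h1.1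
    convert h3 using 1
    ring
  · rw [← Ideal.Quotient.mk_out (E.symm i l).2, ← Ideal.Quotient.mk_out (E.symm j l).2,
      Ideal.Quotient.eq]
    have h3 := Ideal.sub_mem _ (Ideal.add_mem _ h0.2 h2.2) h1.2
    convert h3 using 1
    ring

/-- a polynomial of degree at most `1` with prescribed classes: some `g` of degree at most `1`
makes `s + N0 g` a member of the lattice -/
theorem exists_base {t : ℕ} (τ : Fin t → Bool) (e : Fin t → HeightOneSpectrum (𝓞 k) × ℕ)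
    (he : Function.Injective fun i => (e i).1) (N0 : ℕ)
    (hN0 : ∀ i, IsCoprime (e i).1.asIdeal (Ideal.span {(N0 : 𝓞 k)})) (s : (𝓞 k)[X]) :
    ∃ g : (𝓞 k)[X], g.natDegree ≤ 1 ∧ s + C (N0 : 𝓞 k) * g ∈ LL τ e := by
  classical
  have hu : ∀ i, ∃ u : 𝓞 k, 1 - (N0 : 𝓞 k) * u ∈ (e i).1.asIdeal ^ 2 := by
    intro i
    have h1 : IsCoprime ((e i).1.asIdeal ^ 2) (Ideal.span {(N0 : 𝓞 k)}) := (hN0 i).pow_left
    obtain ⟨a, ha, b, hb, hab⟩ := Ideal.isCoprime_iff_exists.1 h1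
    obtain ⟨u, rfl⟩ := Ideal.mem_span_singleton'.1 hb
    refine ⟨u, ?_⟩
    have h2 : 1 - (N0 : 𝓞 k) * u = a := by
      rw [← hab]
      ring
    rw [h2]
    exact ha
  choose u hu using hu
  obtain ⟨g, hg, hg2⟩ := rl_12_lin e he (fun _ => 2)
    (fun i => - (s.eval ((e i).2 : 𝓞 k) * u i))
    (fun i => - (s.derivative.eval ((e i).2 : 𝓞 k) * u i))
  refine ⟨g, hg, ?_⟩
  rw [mem_LL]
  intro i
  have hle : (e i).1.asIdeal ^ 2 ≤ (e i).1.asIdeal ^ (cond (τ i) 2 1) := by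
    apply Ideal.pow_le_pow_right
    cases τ i <;> simp
  have hle1 : (e i).1.asIdeal ^ 2 ≤ (e i).1.asIdeal := Ideal.pow_le_self two_ne_zero
  rw [rl_12_mem]
  constructor
  · apply hle
    have h1 : (s + C (N0 : 𝓞 k) * g).eval ((e i).2 : 𝓞 k) =
        s.eval ((e i).2 : 𝓞 k) * (1 - (N0 : 𝓞 k) * u i) +
        (N0 : 𝓞 k) * (g.eval ((e i).2 : 𝓞 k) - - (s.eval ((e i).2 : 𝓞 k) * u i)) := by
      rw [eval_add, eval_C_mul]
      ring
    rw [h1]
    exact Ideal.add_mem _ (Ideal.mul_mem_left _ _ (hu i)) (Ideal.mul_mem_left _ _ (hg2 i).1)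
  · have h1 : (derivative (s + C (N0 : 𝓞 k) * g)).eval ((e i).2 : 𝓞 k) =
        s.derivative.eval ((e i).2 : 𝓞 k) * (1 - (N0 : 𝓞 k) * u i) +
        (N0 : 𝓞 k) * (g.derivative.eval ((e i).2 : 𝓞 k) -
          - (s.derivative.eval ((e i).2 : 𝓞 k) * u i)) := by
      rw [derivative_add, derivative_C_mul, eval_add, eval_C_mul]
      ring
    rw [h1]
    exact Ideal.add_mem _ (Ideal.mul_mem_left _ _ (hle1 (hu i)))
      (Ideal.mul_mem_left _ _ (hg2 i).2)

end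

end Pool.Agent.H26.RL
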