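import Pool.Agent.H98.TQ.Defs
import Pool.Agent.H96.T3.Defs

/-!
# Project RL (MP_a3214d): round lattices

Lattices of polynomials over the integers of a number field `k` with conditions at boundedly many
small primes of degree one. The number of lattice points of norm at most `h ^ a0` in a subspace
plays the role of the inverse of the covolume; a lattice is round if these numbers are bounded
by a quadratic exponent in the dimension.
-/

set_option autoImplicit false

open Polynomial IsDedekindDomain NumberField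
open Pool.Agent.H67.MU (Bdd)
open Pool.Agent.H92.SQ2 (gg WW)
open Pool.Agent.H98.TQ

namespace Pool.Agent.H26.RL

section

variable {k : Type} [Field k] [NumberField k]

/-- All conjugates of `g_j` have size at most `T / B ^ j` for all `j < N`. -/
def Bx (B : ℝ) (N : ℕ) (T : ℝ) (g : (𝓞 k)[X]) : Prop :=
  ∀ j < N, ∀ φ : k →+* ℂ, ‖φ (g.coeff j : k)‖ * B ^ j ≤ T

/-- The number of elements of norm at most `T` of a lattice in a subspace. -/
noncomputable def nu (B : ℝ) (N : ℕ) (T : ℝ) (L : Submodule (𝓞 k) (𝓞 k)[X])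
    (V : Submodule k k[X]) : ℕ :=
  Set.ncard {g : (𝓞 k)[X] | g ∈ L ∧ FK g ∈ V ∧ Bx B N T g}

/-- The condition at one prime: `g (x) ∈ p²` and `g' (x) ∈ p` (for `true`), or
`g (x), g' (x) ∈ p` (for `false`). -/
def cut (τ : Bool) (p : Ideal (𝓞 k)) (x : 𝓞 k) : Submodule (𝓞 k) (𝓞 k)[X] where
  carrier := {g | g.eval x ∈ p ^ (cond τ 2 1) ∧ g.derivative.eval x ∈ p}
  zero_mem' := by simp
  add_mem' := by
    rintro f g ⟨hf, hf'⟩ ⟨hg, hg'⟩
    refine ⟨?_, ?_⟩
    · rw [eval_add]; exact Ideal.add_mem _ hf hg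
    · rw [derivative_add, eval_add]; exact Ideal.add_mem _ hf' hg'
  smul_mem' := by
    rintro c g ⟨hg, hg'⟩
    refine ⟨?_, ?_⟩
    · rw [eval_smul, smul_eq_mul]; exact Ideal.mul_mem_left _ _ hg
    · rw [derivative_smul, eval_smul, smul_eq_mul]; exact Ideal.mul_mem_left _ _ hg'

theorem mem_cut_true {p : Ideal (𝓞 k)} {x : 𝓞 k} {g : (𝓞 k)[X]} :
    g ∈ cut true p x ↔ Dbl p x g := Iff.rfl

theorem mem_cut_false {p : Ideal (𝓞 k)} {x : 𝓞 k} {g : (𝓞 k)[X]} :
    g ∈ cut false p x ↔ g.eval x ∈ p ∧ g.derivative.eval x ∈ p := by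
  show g.eval x ∈ p ^ 1 ∧ g.derivative.eval x ∈ p ↔ _
  rw [pow_one]

/-- The exponent of the index of `cut`. -/
def ct (τ : Bool) : ℕ := cond τ 3 2

/-- The lattice of all conditions. -/
noncomputable def LL {t : ℕ} (τ : Fin t → Bool) (e : Fin t → HeightOneSpectrum (𝓞 k) × ℕ) :
    Submodule (𝓞 k) (𝓞 k)[X] :=
  ⨅ i, cut (τ i) (e i).1.asIdeal ((e i).2 : 𝓞 k)

theorem mem_LL {t : ℕ} {τ : Fin t → Bool} {e : Fin t → HeightOneSpectrum (𝓞 k) × ℕ}
    {g : (𝓞 k)[X]} : g ∈ LL τ e ↔ ∀ i, g ∈ cut (τ i) (e i).1.asIdeal ((e i).2 : 𝓞 k) := by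
  rw [LL, Submodule.mem_iInf]

/-- The exponent of the covolume of `LL τ e`. -/
def qq {t : ℕ} (τ : Fin t → Bool) : ℕ := ∑ i, ct (τ i)

/-- The bound for the number of lattice points in one subspace: `q` is the exponent of the
covolume (in units of `N² g`), `E` measures the distance from a round lattice, `s` is the slack. -/
def RdV (h b N g a0 q E s : ℕ) (L : Submodule (𝓞 k) (𝓞 k)[X]) (V : Submodule k k[X]) : Prop :=
  nu ((h : ℝ) ^ (2 * b)) N ((h : ℝ) ^ a0) L V *
      h ^ (E * Module.finrank k V ^ 2 +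
        (N * g * q + Module.finrank ℚ k * (N * b)) * Module.finrank k V) ≤
    h ^ ((Module.finrank ℚ k * (a0 + b) + N * E) * Module.finrank k V + s)

/-- Roundness: the bound holds for all subspaces. -/
def Rd (h b N g a0 q E s : ℕ) (L : Submodule (𝓞 k) (𝓞 k)[X]) : Prop :=
  ∀ V : Submodule k k[X], V ≤ degreeLT k N → RdV h b N g a0 q E s L V

/-- Many lattice points in one subspace. -/
def Big (h b N g a0 q E s : ℕ) (L : Submodule (𝓞 k) (𝓞 k)[X]) (V : Submodule k k[X]) : Prop :=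
  h ^ ((Module.finrank ℚ k * (a0 + b) + N * E) * Module.finrank k V + s + 1) <
    nu ((h : ℝ) ^ (2 * b)) N ((h : ℝ) ^ a0) L V *
      h ^ (E * (Module.finrank k V ^ 2 + 1) +
        (N * g * q + Module.finrank ℚ k * (N * b)) * Module.finrank k V)

/-- Monic polynomials `f` of degree `n`, congruent to `s` modulo `N0`, with the same second
coefficient as `s` and all conjugates of `f_i` of size at most `h ^ (b (n - i)) / 2` for
`i ≤ n - 2`. -/
structure FamH (n N0 : ℕ) (s : (𝓞 k)[X]) (b h : ℕ) (f : (𝓞 k)[X]) : Prop where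
  deg : f.natDegree = n
  monic : f.Monic
  snd : f.coeff (n - 1) = s.coeff (n - 1)
  ht : ∀ i ≤ n - 2, Bdd ((h : ℝ) ^ (b * (n - i)) / 2) (f.coeff i)
  cong : ∀ i, (N0 : 𝓞 k) ∣ f.coeff i - s.coeff i

/-- At each prime of the tuple `f` satisfies the condition, and `f (x)` is not in `p²` if the
type is `false`. -/
def Gt {t : ℕ} (τ : Fin t → Bool) (e : Fin t → HeightOneSpectrum (𝓞 k) × ℕ) (f : (𝓞 k)[X]) :
    Prop :=
  f ∈ LL τ e ∧ ∀ i, τ i = false → f.eval ((e i).2 : 𝓞 k) ∉ (e i).1.asIdeal ^ 2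

/-- `f` has a double root modulo an ideal `m` of norm at least `h ^ (N² g tA)` with `f (x)` in
`m²`, and there are primes of distinct prime norms with product at least `h ^ (N² g tB)` at which
`f` has a double root and `f (x)` is not in the square of the prime. -/
structure Gd (h g N tA tB : ℕ) (f : (𝓞 k)[X]) : Prop where
  pl : ∃ (m : Ideal (𝓞 k)) (x : 𝓞 k), m ≠ ⊥ ∧ h ^ (N ^ 2 * g * tA) ≤ Ideal.absNorm m ∧ Dbl m x f
  rm : ∃ P : Finset (HeightOneSpectrum (𝓞 k)), (∀ l ∈ P, (Ideal.absNorm l.asIdeal).Prime) ∧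
    (∀ l ∈ P, ∀ l' ∈ P, Ideal.absNorm l.asIdeal = Ideal.absNorm l'.asIdeal → l = l') ∧
    h ^ (N ^ 2 * g * tB) ≤ ∏ l ∈ P, Ideal.absNorm l.asIdeal ∧
    ∀ l ∈ P, ∃ r : 𝓞 k, f.eval r ∈ l.asIdeal ∧ f.eval r ∉ l.asIdeal ^ 2 ∧
      f.derivative.eval r ∈ l.asIdeal

end

/-- `a0` is large. -/
def cA (D N b g a0 q E : ℕ) : Prop :=
  2 * b * N + D * (N * b) + N * g * q + D * N * (4 * (N ^ 2 * g) + 10) + N ^ 2 * (3 * g + E) ≤ a0

/-- The distance from a round lattice after conditions of total exponent `q`. -/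
def Ef (D b N g q : ℕ) : ℕ := max (D * b - g * q) (4 * g * N ^ 2)

/-- The conditions on the parameters: `H = h ^ (2 b)`, the primes have norm about `h ^ (N² g)`,
`N = n - 1`, `tA` of them are planted, `tB` are ramified. -/
structure CondR (D n b g tA tB : ℕ) : Prop where
  cn : 5 ≤ n
  cg : 1 ≤ g
  cq : D * b ≤ g * (3 * tA + 2 * tB)
  cb : 4 * g * (n - 1) ^ 3 + tA + tB + 3 ≤ D * b
  cW : (n - 1) * g * (3 * tA + 2 * tB) + D * (3 * tA + 2 * tB + 4 * g * (n - 1) ^ 4 +
      (n - 1) * (tA + tB + 3) + (n - 1) * D + 3) ≤ D * (b * (n + 2))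

/-- `(W - 4 ∑_{i < n} ⌈i / (r + 1)⌉) / 3` -/
noncomputable def mu4 (n r : ℕ) : ℝ := (WW n - 4 * (gg n (r + 1) : ℝ)) / 3

/-- the exponent of the lower bound -/
noncomputable def ee4 (n r : ℕ) : ℝ :=
  (WW n - mu4 n r * WW n / (WW n - r)) / ((n : ℝ) * (n - 1) - 2 * mu4 n r)

end Pool.Agent.H26.RL
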