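import Pool.Agent.H26.RL.Defs
import Pool.Agent.H98.TQ.DefsL

/-! Project RL (MP_a3214d), row RL-1: the number of lattice points in a box, doubling. -/

set_option autoImplicit false

open Polynomial IsDedekindDomain NumberField Pool.Agent.H35.AN
open Pool.Agent.H67.MU (Bdd)
open Pool.Agent.H92.SQ2 (gg WW)
open Pool.Agent.H98.TQ
open Pool.Agent.H96.T3 (D1)

namespace Pool.Agent.H26.RL

/-- Doubling in a free abelian group of finite rank, by classes modulo `4`. -/
theorem rl_1_dbl {M : Type*} [AddCommGroup M] [Module.Free ℤ M] [Module.Finite ℤ M]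
    (S1 S2 : Set M) (h1 : S1.Finite)
    (h : ∀ g ∈ S2, ∀ g' ∈ S2, ∀ z : M, g - g' = (4 : ℤ) • z → z ∈ S1) :
    S2.ncard ≤ 4 ^ Module.finrank ℤ M * S1.ncard := by
  classical
  let b := Module.finBasis ℤ M
  let φ : M → (Fin (Module.finrank ℤ M) → ZMod 4) := fun x i => (b.repr x i : ZMod 4)
  have hφ : ∀ x y, φ x = φ y → ∃ z : M, x - y = (4 : ℤ) • z := by
    intro x y hxy
    have h2 : ∀ i, ∃ c : ℤ, b.repr x i - b.repr y i = 4 * c := by
      intro i
      have h3 : ((b.repr x i : ℤ) : ZMod 4) = ((b.repr y i : ℤ) : ZMod 4) := congrFun hxy i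
      have h4 := (ZMod.intCast_eq_intCast_iff_dvd_sub _ _ _).mp h3.symm
      exact h4
    choose c hc using h2
    refine ⟨∑ i, c i • b i, ?_⟩
    apply b.repr.injective
    ext i
    rw [map_sub, Finsupp.sub_apply, map_smul, Finsupp.smul_apply, map_sum, hc,
      Finsupp.finsetSum_apply]
    simp [Finsupp.single_apply]
  let g0 : (Fin (Module.finrank ℤ M) → ZMod 4) → M := fun c =>
    if hc : ∃ g ∈ S2, φ g = c then hc.choose else 0
  have hg0 : ∀ g ∈ S2, g0 (φ g) ∈ S2 ∧ φ (g0 (φ g)) = φ g := by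
    intro g hg
    have hc : ∃ g' ∈ S2, φ g' = φ g := ⟨g, hg, rfl⟩
    have h2 : g0 (φ g) = hc.choose := by
      simp only [g0]
      rw [dif_pos hc]
    rw [h2]
    exact hc.choose_spec
  have hz : ∀ g : M, ∃ z : M, g ∈ S2 → g - g0 (φ g) = (4 : ℤ) • z := by
    intro g
    by_cases hg : g ∈ S2
    · obtain ⟨z, hz⟩ := hφ g (g0 (φ g)) (hg0 g hg).2.symm
      exact ⟨z, fun _ => hz⟩
    · exact ⟨0, fun h => absurd h hg⟩
  choose z hz using hz
  have hcard := Set.ncard_le_ncard_of_injOn (s := S2)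
    (t := (Set.univ : Set (Fin (Module.finrank ℤ M) → ZMod 4)) ×ˢ S1) (fun g => (φ g, z g))
    (fun g hg => ⟨Set.mem_univ _, h g hg _ (hg0 g hg).1 _ (hz g hg)⟩)
    (by
      intro g hg g' hg' hgg
      simp only [Prod.mk.injEq] at hgg
      have h2 := hz g hg
      have h3 := hz g' hg'
      rw [← hgg.1, ← hgg.2, ← h2] at h3
      exact (sub_left_inj.mp h3).symm)
    (Set.finite_univ.prod h1)
  rw [Set.ncard_prod, Set.ncard_univ, Nat.card_fun, Nat.card_zmod, Nat.card_fin] at hcard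
  exact hcard

section

variable {k : Type} [Field k] [NumberField k]

/-- The lattice points as a subgroup. -/
noncomputable def rl_1_gam (L : Submodule (𝓞 k) (𝓞 k)[X]) (V : Submodule k k[X]) :
    Submodule ℤ (𝓞 k)[X] where
  carrier := {g | g ∈ L ∧ FK g ∈ V}
  zero_mem' := ⟨L.zero_mem, by simp [FK]⟩
  add_mem' := by
    rintro f g ⟨hf, hf'⟩ ⟨hg, hg'⟩
    refine ⟨L.add_mem hf hg, ?_⟩
    have h1 : FK (f + g) = FK f + FK g := Polynomial.map_add _
    rw [h1]
    exact V.add_mem hf' hg'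
  smul_mem' := by
    rintro c g ⟨hg, hg'⟩
    refine ⟨?_, ?_⟩
    · exact zsmul_mem hg c
    · have h1 : FK (c • g) = c • FK g := by
        unfold FK
        exact map_zsmul (Polynomial.mapRingHom (algebraMap (𝓞 k) k)) c g
      rw [h1]
      exact zsmul_mem hg' c

/-- The coefficients. -/
noncomputable def rl_1_co (k : Type) [Field k] [NumberField k] (N : ℕ) :
    (𝓞 k)[X] →ₗ[ℤ] (Fin N → 𝓞 k) where
  toFun g j := g.coeff j
  map_add' f g := by
    funext j
    simp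
  map_smul' c g := by
    funext j
    simp

omit [NumberField k] in
theorem rl_1_deg {N : ℕ} {V : Submodule k k[X]} (hV : V ≤ degreeLT k N) {g : (𝓞 k)[X]}
    (hg : FK g ∈ V) (j : ℕ) (hj : N ≤ j) : g.coeff j = 0 := by
  have h1 := mem_degreeLT.mp (hV hg)
  have h2 : (FK g).coeff j = 0 := coeff_eq_zero_of_degree_lt (h1.trans_le (by exact_mod_cast hj))
  unfold FK at h2
  rw [coeff_map] at h2
  exact (map_eq_zero_iff _ (FaithfulSMul.algebraMap_injective (𝓞 k) k)).mp h2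

theorem rl_1_inj {N : ℕ} (L : Submodule (𝓞 k) (𝓞 k)[X]) {V : Submodule k k[X]}
    (hV : V ≤ degreeLT k N) :
    Function.Injective ((rl_1_co k N).comp (rl_1_gam L V).subtype) := by
  intro f g hfg
  apply Subtype.ext
  ext j
  by_cases hj : j < N
  · have h1 := congrFun hfg ⟨j, hj⟩
    exact congrArg _ h1
  · rw [rl_1_deg hV f.2.2 j (not_lt.mp hj), rl_1_deg hV g.2.2 j (not_lt.mp hj)]

theorem nu_finite {B : ℝ} (hB : 0 < B) (N : ℕ) (T : ℝ) (L : Submodule (𝓞 k) (𝓞 k)[X])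
    (V : Submodule k k[X]) (hV : V ≤ degreeLT k N) :
    {g : (𝓞 k)[X] | g ∈ L ∧ FK g ∈ V ∧ Bx B N T g}.Finite := by
  have hfin : ∀ C : ℝ, {x : 𝓞 k | ∀ φ : k →+* ℂ, ‖φ (x : k)‖ ≤ C}.Finite := by
    intro C
    have h1 := NumberField.Embeddings.finite_of_norm_le k ℂ C
    refine (h1.preimage (f := fun x : 𝓞 k => (x : k))
      (fun a _ b _ hab => RingOfIntegers.ext hab)).subset ?_
    intro x hx
    exact ⟨x.2, hx⟩
  have h2 : (Set.pi Set.univ fun j : Fin N =>
      {x : 𝓞 k | ∀ φ : k →+* ℂ, ‖φ (x : k)‖ ≤ T / B ^ (j : ℕ)}).Finite :=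
    Set.Finite.pi fun j => hfin _
  refine Set.Finite.of_finite_image (f := rl_1_co k N) (h2.subset ?_) ?_
  · rintro _ ⟨g, ⟨_, _, hg⟩, rfl⟩ j _ φ
    rw [le_div_iff₀ (pow_pos hB _)]
    exact hg j j.2 φ
  · intro f hf g hg hfg
    have h3 := rl_1_inj L hV (a₁ := ⟨f, hf.1, hf.2.1⟩) (a₂ := ⟨g, hg.1, hg.2.1⟩) hfg
    exact congrArg Subtype.val h3

theorem nu_double {B : ℝ} (hB : 0 < B) (N : ℕ) {T : ℝ} (hT : 0 ≤ T)
    (L : Submodule (𝓞 k) (𝓞 k)[X]) (V : Submodule k k[X]) (hV : V ≤ degreeLT k N) :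
    nu B N (2 * T) L V ≤ 4 ^ (Module.finrank ℚ k * N) * nu B N T L V := by
  have hinj := rl_1_inj L hV
  have hfin : Module.Finite ℤ (rl_1_gam L V) := Module.Finite.of_injective _ hinj
  have htf : Module.IsTorsionFree ℤ (rl_1_gam L V) := inferInstance
  have hfree : Module.Free ℤ (rl_1_gam L V) := inferInstance
  have hrank : Module.finrank ℤ (rl_1_gam L V) ≤ Module.finrank ℚ k * N := by
    have h1 := LinearMap.finrank_le_finrank_of_injective hinj
    rw [Module.finrank_pi_fintype] at h1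
    simp only [RingOfIntegers.rank, Finset.sum_const, Finset.card_univ, Fintype.card_fin,
      smul_eq_mul] at h1
    rw [mul_comm] at h1
    exact h1
  have himg : ∀ R : ℝ, nu B N R L V = (Set.ncard {g : rl_1_gam L V | Bx B N R g.1}) := by
    intro R
    rw [← Set.ncard_image_of_injective _ Subtype.val_injective]
    unfold nu
    congr 1
    ext g
    constructor
    · rintro ⟨h1, h2, h3⟩
      exact ⟨⟨g, h1, h2⟩, h3, rfl⟩
    · rintro ⟨g', h3, rfl⟩
      exact ⟨g'.2.1, g'.2.2, h3⟩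
  have hfin1 : {g : rl_1_gam L V | Bx B N T g.1}.Finite := by
    refine Set.Finite.of_finite_image (f := Subtype.val) ((nu_finite hB N T L V hV).subset ?_)
      Subtype.val_injective.injOn
    rintro _ ⟨g, hg, rfl⟩
    exact ⟨g.2.1, g.2.2, hg⟩
  rw [himg, himg]
  refine (rl_1_dbl _ _ hfin1 ?_).trans (Nat.mul_le_mul_right _ (Nat.pow_le_pow_right (by norm_num)
    hrank))
  intro g hg g' hg' z hz j hj φ
  have h1 : (g.1 : (𝓞 k)[X]) - g'.1 = (4 : ℤ) • z.1 := congrArg Subtype.val hz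
  have h2 : g.1.coeff j - g'.1.coeff j = (4 : ℤ) • z.1.coeff j := by
    rw [← coeff_sub, h1, coeff_smul]
  have h3 : φ ((g.1.coeff j : 𝓞 k) : k) - φ ((g'.1.coeff j : 𝓞 k) : k) =
      4 * φ ((z.1.coeff j : 𝓞 k) : k) := by
    have h4 : ((g.1.coeff j : 𝓞 k) : k) - ((g'.1.coeff j : 𝓞 k) : k) =
        4 * ((z.1.coeff j : 𝓞 k) : k) := by
      have h5 := congrArg (algebraMap (𝓞 k) k) h2
      rw [map_sub, map_zsmul, zsmul_eq_mul, Int.cast_ofNat] at h5
      exact h5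
    rw [← map_sub, h4, map_mul, map_ofNat]
  have h5 := hg j hj φ
  have h6 := hg' j hj φ
  have h7 : 4 * ‖φ ((z.1.coeff j : 𝓞 k) : k)‖ ≤
      ‖φ ((g.1.coeff j : 𝓞 k) : k)‖ + ‖φ ((g'.1.coeff j : 𝓞 k) : k)‖ := by
    have h8 := norm_sub_le (φ ((g.1.coeff j : 𝓞 k) : k)) (φ ((g'.1.coeff j : 𝓞 k) : k))
    rw [h3, norm_mul] at h8
    simpa using h8
  have h9 : 0 ≤ B ^ j := (pow_pos hB j).le
  nlinarith [mul_le_mul_of_nonneg_right h7 h9]

end

end Pool.Agent.H26.RL
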