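import Pool.Agent.H26.RL.Classes
import Pool.Agent.H96.T3.CountU
import Pool.Agent.H41.RG.Boxes

/-! Project RL, row RL-14: some small member of the lattice is not divisible by the square of the
prime. -/

set_option autoImplicit false

open Polynomial IsDedekindDomain NumberField Pool.Agent.H35.AN
open Pool.Agent.H67.MU (Bdd)
open Pool.Agent.H92.SQ2 (gg WW)
open Pool.Agent.H98.TQ
open Pool.Agent.H96.T3 (D1)

namespace Pool.Agent.H26.RL

section

variable (k : Type) [Field k] [NumberField k]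

/-- many integers with small conjugates -/
private theorem rl_14_ints : ∃ c : ℝ, 0 < c ∧ ∀ T : ℝ, 1 ≤ T → ∃ A : Finset (𝓞 k),
    (∀ a ∈ A, ∀ φ : k →+* ℂ, ‖φ (a : k)‖ ≤ T / 2) ∧
      c * T ^ Module.finrank ℚ k ≤ (A.card : ℝ) := by
  classical
  obtain ⟨C0, hC0, hbox⟩ := Pool.Agent.H41.RG.box_lower k (s := 1) (fun _ => 1) (M := 1)
    one_pos (fun _ => 0)
  refine ⟨(1 / (2 * C0)) ^ Module.finrank ℚ k, by positivity, fun T hT => ?_⟩
  by_cases h1 : 1 ≤ T / (2 * C0)
  · obtain ⟨S, hS, hc⟩ := hbox _ h1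
    refine ⟨S.image fun u => u 0, ?_, ?_⟩
    · intro a ha φ
      obtain ⟨u, hu, rfl⟩ := Finset.mem_image.1 ha
      have h2 := (hS u hu 0).2 φ
      rw [pow_one] at h2
      refine h2.trans (le_of_eq ?_)
      field_simp
    · rw [Finset.card_image_of_injective]
      · have h3 : (1 / (2 * C0)) ^ Module.finrank ℚ k * T ^ Module.finrank ℚ k =
            (T / (2 * C0)) ^ (Module.finrank ℚ k * ∑ _i : Fin 1, 1) := by
          rw [← mul_pow, Finset.sum_const, Finset.card_univ, Fintype.card_fin, smul_eq_mul,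
            mul_one, mul_one]
          congr 1
          ring
        rw [h3]
        exact hc
      · intro u v huv
        funext j
        rw [Fin.fin_one_eq_zero j]
        exact huv
  · refine ⟨{0}, ?_, ?_⟩
    · intro a ha φ
      rw [Finset.mem_singleton] at ha
      subst ha
      rw [show ((0 : 𝓞 k) : k) = 0 from map_zero (algebraMap (𝓞 k) k), map_zero, norm_zero]
      linarith
    · rw [← mul_pow, Finset.card_singleton, Nat.cast_one]
      refine pow_le_one₀ (by positivity) ?_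
      have h2 : 1 / (2 * C0) * T = T / (2 * C0) := by ring
      rw [h2]
      exact (not_le.1 h1).le

/-- the sum of the exponents -/
private theorem rl_14_expsum (N b ρ : ℕ) (hN : 1 ≤ N) :
    ∑ i : Fin N, (ρ + b * (N - 1 - (i : ℕ))) =
      ρ * (N - 1 + 1) + b * ((N - 1) * (N - 1 + 1) / 2) := by
  obtain ⟨d, rfl⟩ : ∃ d, N = d + 1 := ⟨N - 1, by omega⟩
  rw [Finset.sum_add_distrib, Finset.sum_const, Finset.card_univ, Fintype.card_fin, smul_eq_mul,
    ← Finset.mul_sum, Fin.sum_univ_eq_sum_range (fun i => d + 1 - 1 - i)]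
  have h1 : ∑ i ∈ Finset.range (d + 1), (d + 1 - 1 - i) = ∑ i ∈ Finset.range (d + 1), i := by
    rw [← Finset.sum_range_reflect (fun i => i)]
  rw [h1, Finset.sum_range_id, Nat.add_sub_cancel, mul_comm (d + 1) ρ, mul_comm (d + 1) d]

/-- the polynomial with given coefficients -/
private noncomputable def rl_14_P {N : ℕ} (u : Fin N → 𝓞 k) : (𝓞 k)[X] :=
  ∑ j : Fin N, C (u j) * X ^ (j : ℕ)

omit [NumberField k] in
private theorem rl_14_coeff {N : ℕ} (u : Fin N → 𝓞 k) (j : Fin N) :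
    (rl_14_P k u).coeff (j : ℕ) = u j := by
  unfold rl_14_P
  rw [finsetSum_coeff]
  simp only [coeff_C_mul, coeff_X_pow]
  rw [Finset.sum_eq_single j]
  · simp
  · intro i _ hij
    rw [if_neg (fun h => hij (Fin.ext h.symm)), mul_zero]
  · intro h
    exact absurd (Finset.mem_univ _) h

omit [NumberField k] in
private theorem rl_14_deg {N : ℕ} (u : Fin N → 𝓞 k) : (rl_14_P k u).natDegree ≤ N - 1 := by
  unfold rl_14_P
  refine natDegree_sum_le_of_forall_le _ _ fun t _ => ?_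
  refine (natDegree_C_mul_X_pow_le _ _).trans ?_
  omega

/-- many polynomials of half size -/
private theorem rl_14_box (N b R : ℕ) (hN : 1 ≤ N) : ∃ c : ℝ, 0 < c ∧ ∀ h : ℕ, 1 ≤ h →
    ∃ S : Finset (𝓞 k)[X], (∀ g ∈ S, g.natDegree ≤ N - 1 ∧ ∀ j ≤ N - 1, ∀ φ : k →+* ℂ,
      ‖φ (g.coeff j : k)‖ ≤ (h : ℝ) ^ (R + b * (N - 1 - j)) / 2) ∧
      c * (h : ℝ) ^ (Module.finrank ℚ k * (R * (N - 1 + 1) + b * ((N - 1) * (N - 1 + 1) / 2))) ≤
        (S.card : ℝ) := by
  classical
  obtain ⟨c, hc, hA⟩ := rl_14_ints k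
  refine ⟨c ^ N, by positivity, fun h hh => ?_⟩
  have hh' : (1 : ℝ) ≤ (h : ℝ) := by exact_mod_cast hh
  choose A hA1 hA2 using fun j : Fin N => hA ((h : ℝ) ^ (R + b * (N - 1 - (j : ℕ))))
    (one_le_pow₀ hh')
  refine ⟨(Fintype.piFinset A).image (rl_14_P k), ?_, ?_⟩
  · intro g hg
    obtain ⟨u, hu, rfl⟩ := Finset.mem_image.1 hg
    rw [Fintype.mem_piFinset] at hu
    refine ⟨rl_14_deg k u, fun j hj φ => ?_⟩
    have h1 := rl_14_coeff k u ⟨j, by omega⟩
    simp only at h1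
    rw [h1]
    exact hA1 ⟨j, by omega⟩ _ (hu _) φ
  · rw [Finset.card_image_of_injective _ (fun u v huv => _root_.funext fun j => by
      rw [← rl_14_coeff k u j, ← rl_14_coeff k v j, huv]), Fintype.card_piFinset]
    push_cast
    rw [← rl_14_expsum N b R hN, Finset.mul_sum, ← Finset.prod_pow_eq_pow_sum]
    have h1 : c ^ N = ∏ _j : Fin N, c := by
      rw [Finset.prod_const, Finset.card_univ, Fintype.card_fin]
    rw [h1, ← Finset.prod_mul_distrib]
    refine Finset.prod_le_prod (fun j _ => by positivity) fun j _ => ?_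
    have h2 := hA2 j
    rw [← pow_mul, mul_comm (R + b * (N - 1 - (j : ℕ)))] at h2
    exact h2

theorem exists_z (N b J t R : ℕ) (τ : Fin t → Bool) (hN : 2 ≤ N) (hJ : 2 ≤ J) : ∃ h0 : ℕ,
    ∀ h ≥ h0, ∀ S : Finset (HeightOneSpectrum (𝓞 k)), PS h J S →
      ∀ e : Fin t → HeightOneSpectrum (𝓞 k) × ℕ, (∀ i, (e i).1 ∈ S) →
      (Function.Injective fun i => (e i).1) →
      ∀ y : Fin N → (𝓞 k)[X], LinearIndependent (𝓞 k) y →
      (∀ i, InBox h b (N - 1) R (y i) ∧ y i ∈ LL τ e) → ∀ i, τ i = false →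
      ∃ z : (𝓞 k)[X], z ∈ LL τ e ∧ InBox h b (N - 1) R z ∧
        z.eval ((e i).2 : 𝓞 k) ∉ (e i).1.asIdeal ^ 2 := by
  classical
  obtain ⟨C, hC1, hC⟩ := Pool.Agent.H96.T3.count_upper k (N - 1) b
  obtain ⟨c, hc, hbox⟩ := rl_14_box k N b R (by omega)
  refine ⟨max 1 ⌈C / c⌉₊, fun h hh S hS e heS hinj y hy hyb i hi => ?_⟩
  have hh1 : 1 ≤ h := le_trans (le_max_left _ _) hh
  have hhC : C / c ≤ (h : ℝ) := (Nat.le_ceil _).trans (by
    exact_mod_cast le_trans (le_max_right _ _) hh)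
  have hh' : (1 : ℝ) ≤ (h : ℝ) := by exact_mod_cast hh1
  by_contra hno
  push Not at hno
  -- the stronger lattice
  set τ' : Fin t → Bool := Function.update τ i true with hτ'
  have hup : ∀ z : (𝓞 k)[X], z ∈ LL τ e → InBox h b (N - 1) R z → z ∈ LL τ' e := by
    intro z hz hzb
    have h1 := mem_LL.1 hz
    refine mem_LL.2 fun j => ?_
    by_cases hj : j = i
    · subst hj
      rw [hτ', Function.update_self, mem_cut_true]
      have h2 := h1 j
      rw [hi, mem_cut_false] at h2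
      exact ⟨hno z hz hzb, h2.2⟩
    · rw [hτ', Function.update_of_ne hj]
      exact h1 j
  obtain ⟨zr, hzr1, hzr2⟩ := exists_reps τ' e hinj
  obtain ⟨S1, hS1, hcard1⟩ := hbox h hh1
  -- the norms
  have hNp : ∀ j, 0 < Ideal.absNorm (e j).1.asIdeal := fun j =>
    (hS.prime _ (heS j)).pos
  set Q : ℕ := ∏ j, Ideal.absNorm (e j).1.asIdeal ^ ct (τ j) with hQ
  have hQpos : 0 < Q := Finset.prod_pos fun j _ => pow_pos (hNp j) _
  have hQ' : (∏ j, Ideal.absNorm (e j).1.asIdeal ^ ct (τ' j)) =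
      Q * Ideal.absNorm (e i).1.asIdeal := by
    rw [hQ, ← Finset.mul_prod_erase _ _ (Finset.mem_univ i),
      ← Finset.mul_prod_erase _ (fun j => Ideal.absNorm (e j).1.asIdeal ^ ct (τ j))
        (Finset.mem_univ i)]
    have h1 : ∀ j ∈ Finset.univ.erase i, Ideal.absNorm (e j).1.asIdeal ^ ct (τ' j) =
        Ideal.absNorm (e j).1.asIdeal ^ ct (τ j) := by
      intro j hj
      rw [hτ', Function.update_of_ne (Finset.ne_of_mem_erase hj)]
    rw [Finset.prod_congr rfl h1, hτ', Function.update_self, hi]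
    simp only [ct, cond_true, cond_false]
    ring
  have : Nonempty (Fin Q) := ⟨⟨0, hQpos⟩⟩
  have hclQ : ∃ cl : (𝓞 k)[X] → Fin Q, ∀ g g', cl g = cl g' → g - g' ∈ LL τ e :=
    exists_cl τ e
  obtain ⟨cl, hcl⟩ := hclQ
  -- pigeonhole
  obtain ⟨v, _, hv⟩ := Finset.exists_le_card_fiber_of_nsmul_le_card_of_maps_to
    (s := S1) (t := (Finset.univ : Finset (Fin Q))) (f := cl)
    (b := (S1.card : ℝ) / Q) (fun _ _ => Finset.mem_univ _) Finset.univ_nonempty (by
      rw [Finset.card_univ, Fintype.card_fin, nsmul_eq_mul]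
      rw [mul_div_cancel₀]
      exact_mod_cast hQpos.ne')
  set S2 : Finset (𝓞 k)[X] := S1.filter fun g => cl g = v with hS2
  have hS1pos : (0 : ℝ) < S1.card := lt_of_lt_of_le (by positivity) hcard1
  have hS2pos : (0 : ℝ) < S2.card := lt_of_lt_of_le (by positivity) hv
  have hS2ne : S2.Nonempty := Finset.card_pos.1 (by exact_mod_cast hS2pos)
  obtain ⟨g0, hg0⟩ := hS2ne
  set S0 : Finset (𝓞 k)[X] := S2.image fun g => g - g0 with hS0
  have hS0card : S0.card = S2.card :=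
    Finset.card_image_of_injective _ sub_left_injective
  have hS0mem : ∀ g ∈ S0, InBox h b (N - 1) R g ∧ g ∈ LL τ' e := by
    intro g hg
    obtain ⟨g1, hg1, rfl⟩ := Finset.mem_image.1 hg
    have h1 := Finset.mem_filter.1 hg1
    have h0 := Finset.mem_filter.1 hg0
    have hb : InBox h b (N - 1) R (g1 - g0) := by
      refine ⟨(natDegree_sub_le _ _).trans (max_le (hS1 g1 h1.1).1 (hS1 g0 h0.1).1), ?_⟩
      intro j hj φ
      have h2 := (hS1 g1 h1.1).2 j hj φ
      have h3 := (hS1 g0 h0.1).2 j hj φ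
      have h4 : (((g1 - g0).coeff j : 𝓞 k) : k) = ((g1.coeff j : 𝓞 k) : k) -
          ((g0.coeff j : 𝓞 k) : k) := by
        rw [coeff_sub]
        rfl
      rw [h4, map_sub]
      refine (norm_sub_le _ _).trans ?_
      linarith
    have hl : g1 - g0 ∈ LL τ e := hcl _ _ (h1.2.trans h0.2.symm)
    exact ⟨hb, hup _ hl hb⟩
  have hN1 : N = N - 1 + 1 := by omega
  have hfin := hC h hh1 R (∏ j, Ideal.absNorm (e j).1.asIdeal ^ ct (τ' j)) (LL τ' e)
    (fun j => y (Fin.cast hN1.symm j)) zr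
    (hy.comp _ (Fin.cast_injective _))
    (fun j => ⟨(hyb _).1, hup _ (hyb _).2 (hyb _).1⟩)
    (fun j => (hzr1 j).trans (by omega)) hzr2 S0 hS0mem
  rw [hS0card, hQ'] at hfin
  push_cast at hfin
  set M : ℕ := Module.finrank ℚ k * (R * (N - 1 + 1) + b * ((N - 1) * (N - 1 + 1) / 2)) with hM
  have hQr : (0 : ℝ) < Q := by exact_mod_cast hQpos
  have hNr : (h : ℝ) < (Ideal.absNorm (e i).1.asIdeal : ℝ) := by
    have h1 := hS.lo _ (heS i)
    have h2 : h ≤ h ^ (J - 1) := le_self_pow₀ hh1 (by omega)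
    exact_mod_cast lt_of_le_of_lt h2 h1
  have hhM : (0 : ℝ) < (h : ℝ) ^ M := by positivity
  have h5 : c * (h : ℝ) ^ M * (Ideal.absNorm (e i).1.asIdeal : ℝ) ≤ C * (h : ℝ) ^ M := by
    have h6 : (S1.card : ℝ) / Q * (Q * (Ideal.absNorm (e i).1.asIdeal : ℝ)) ≤
        S2.card * (Q * (Ideal.absNorm (e i).1.asIdeal : ℝ)) :=
      mul_le_mul_of_nonneg_right hv (by positivity)
    have h7 : (S1.card : ℝ) / Q * (Q * (Ideal.absNorm (e i).1.asIdeal : ℝ)) =
        S1.card * (Ideal.absNorm (e i).1.asIdeal : ℝ) := by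
      rw [← mul_assoc, div_mul_cancel₀ _ hQr.ne']
    rw [h7] at h6
    exact (mul_le_mul_of_nonneg_right hcard1 (by positivity)).trans (h6.trans hfin)
  have h8 : c * (Ideal.absNorm (e i).1.asIdeal : ℝ) ≤ C := by
    nlinarith
  have h9 : C ≤ c * (h : ℝ) := by
    rw [div_le_iff₀ hc] at hhC
    linarith
  have h10 : c * (h : ℝ) < c * (Ideal.absNorm (e i).1.asIdeal : ℝ) :=
    mul_lt_mul_of_pos_left hNr hc
  linarith

end

end Pool.Agent.H26.RL
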