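import Pool.Agent.H26.RL.Defs

/-!
# Project RL (MP_a3214d), row RL-18

Few tuples of conditions hold for one member of the family; the properties `Gd` from one tuple.
-/

set_option autoImplicit false

open Polynomial IsDedekindDomain NumberField Pool.Agent.H35.AN
open Pool.Agent.H67.MU (Bdd)
open Pool.Agent.H92.SQ2 (gg WW)
open Pool.Agent.H98.TQ

namespace Pool.Agent.H26.RL

section

variable {k : Type} [Field k] [NumberField k]

/-- residues modulo an ideal of prime norm -/
private theorem rl18_inj {m : Ideal (𝓞 k)} (hp : (Ideal.absNorm m).Prime) {x y : ℕ}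
    (hx : x < Ideal.absNorm m) (hy : y < Ideal.absNorm m)
    (h : Ideal.Quotient.mk m (x : 𝓞 k) = Ideal.Quotient.mk m (y : 𝓞 k)) : x = y := by
  have hne : m ≠ ⊤ := by
    intro h0
    rw [h0, Ideal.absNorm_top] at hp
    exact Nat.not_prime_one hp
  have : Nontrivial (𝓞 k ⧸ m) := Ideal.Quotient.nontrivial_iff.2 hne
  have hchar : CharP (𝓞 k ⧸ m) (Ideal.absNorm m) := by
    rw [CharP.charP_iff_prime_eq_zero hp]
    have h1 := Ideal.absNorm_mem m
    have h2 := Ideal.Quotient.eq_zero_iff_mem.2 h1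
    rwa [map_natCast] at h2
  rw [map_natCast, map_natCast, CharP.natCast_eq_natCast (𝓞 k ⧸ m) (Ideal.absNorm m)] at h
  have h3 : x % Ideal.absNorm m = y % Ideal.absNorm m := h
  rwa [Nat.mod_eq_of_lt hx, Nat.mod_eq_of_lt hy] at h3

open scoped Classical in
/-- a monic polynomial has few roots modulo `m` -/
private theorem rl18_few_roots {m : HeightOneSpectrum (𝓞 k)} {d : ℕ}
    (hp : (Ideal.absNorm m.asIdeal).Prime) {g : (𝓞 k)[X]} (hd : g.natDegree ≤ d)
    (hg : g.Monic) :
    ((Finset.range (Ideal.absNorm m.asIdeal)).filter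
      fun x : ℕ => g.eval (x : 𝓞 k) ∈ m.asIdeal).card ≤ d := by
  have hprime : m.asIdeal.IsPrime := m.isPrime
  have hdom : IsDomain (𝓞 k ⧸ m.asIdeal) := Ideal.Quotient.isDomain m.asIdeal
  set G : (𝓞 k ⧸ m.asIdeal)[X] := g.map (Ideal.Quotient.mk m.asIdeal) with hG
  have hG0 : G ≠ 0 := (hg.map _).ne_zero
  have h1 : ((Finset.range (Ideal.absNorm m.asIdeal)).filter
      fun x : ℕ => g.eval (x : 𝓞 k) ∈ m.asIdeal).card ≤ G.roots.toFinset.card := by
    refine Finset.card_le_card_of_injOn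
      (fun x : ℕ => Ideal.Quotient.mk m.asIdeal (x : 𝓞 k)) ?_ ?_
    · intro x hx
      rw [Finset.mem_coe, Finset.mem_filter] at hx
      rw [Finset.mem_coe, Multiset.mem_toFinset, mem_roots hG0, IsRoot.def, hG, eval_map,
        eval₂_hom]
      exact Ideal.Quotient.eq_zero_iff_mem.2 hx.2
    · intro x hx y hy hxy
      rw [Finset.mem_coe, Finset.mem_filter, Finset.mem_range] at hx hy
      exact rl18_inj hp hx.1 hy.1 hxy
  have h2 : G.roots.toFinset.card ≤ G.natDegree :=
    (Multiset.toFinset_card_le _).trans (card_roots' G)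
  have h3 : G.natDegree ≤ g.natDegree := natDegree_map_le
  omega

open scoped Classical in
theorem few_tuples (n N0 b h J t K1 K2 : ℕ) (s : (𝓞 k)[X]) (τ : Fin t → Bool) (hh : 1 ≤ h)
    (S : Finset (HeightOneSpectrum (𝓞 k))) (hS : PS h J S) (f : (𝓞 k)[X])
    (hf : Fam n N0 s b h f)
    (h1 : (S.filter fun m => ∃ x : 𝓞 k, Dbl m.asIdeal x f).card ≤ K1)
    (h2 : (S.filter fun l => ∃ x : 𝓞 k, f.eval x ∈ l.asIdeal ∧ f.eval x ∉ l.asIdeal ^ 2 ∧
        f.derivative.eval x ∈ l.asIdeal).card ≤ K2)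
    (G : Finset (Fin t → HeightOneSpectrum (𝓞 k) × ℕ))
    (hG : ∀ e ∈ G, (∀ i, (e i).1 ∈ S ∧ (e i).2 < Ideal.absNorm (e i).1.asIdeal) ∧ Gt τ e f) :
    G.card ≤ (n * (K1 + K2)) ^ t := by
  set M1 := S.filter fun m => ∃ x : 𝓞 k, Dbl m.asIdeal x f with hM1
  set M2 := S.filter fun l => ∃ x : 𝓞 k, f.eval x ∈ l.asIdeal ∧ f.eval x ∉ l.asIdeal ^ 2 ∧
        f.derivative.eval x ∈ l.asIdeal with hM2
  set P : Finset (HeightOneSpectrum (𝓞 k) × ℕ) := (M1 ∪ M2).biUnion fun m =>
    ((Finset.range (Ideal.absNorm m.asIdeal)).filter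
      fun x : ℕ => f.eval (x : 𝓞 k) ∈ m.asIdeal).image (Prod.mk m) with hP
  have hPc : P.card ≤ n * (K1 + K2) := by
    refine (Finset.card_biUnion_le_card_mul (M1 ∪ M2) _ n fun m hm => ?_).trans ?_
    · refine Finset.card_image_le.trans ?_
      have hmS : m ∈ S := by
        rcases Finset.mem_union.1 hm with h | h
        · exact (Finset.mem_filter.1 h).1
        · exact (Finset.mem_filter.1 h).1
      exact rl18_few_roots (hS.prime m hmS) hf.deg.le hf.monic
    · rw [mul_comm]
      exact Nat.mul_le_mul_left _ ((Finset.card_union_le _ _).trans (Nat.add_le_add h1 h2))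
  have hGP : G ⊆ Fintype.piFinset fun _ : Fin t => P := by
    intro e he
    rw [Fintype.mem_piFinset]
    intro i
    obtain ⟨he1, he2, he3⟩ := hG e he
    have h3 := mem_LL.1 he2 i
    rw [hP, Finset.mem_biUnion]
    refine ⟨(e i).1, ?_, ?_⟩
    · rw [Finset.mem_union]
      cases hi : τ i with
      | true =>
        left
        rw [hi, mem_cut_true] at h3
        exact Finset.mem_filter.2 ⟨(he1 i).1, _, h3⟩
      | false =>
        right
        rw [hi, mem_cut_false] at h3
        exact Finset.mem_filter.2 ⟨(he1 i).1, _, h3.1, he3 i hi, h3.2⟩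
    · rw [Finset.mem_image]
      refine ⟨(e i).2, ?_, rfl⟩
      rw [Finset.mem_filter, Finset.mem_range]
      refine ⟨(he1 i).2, ?_⟩
      cases hi : τ i with
      | true =>
        rw [hi, mem_cut_true] at h3
        exact Ideal.pow_le_self (by norm_num) h3.1
      | false =>
        rw [hi, mem_cut_false] at h3
        exact h3.1
  calc G.card ≤ (Fintype.piFinset fun _ : Fin t => P).card := Finset.card_le_card hGP
    _ = P.card ^ t := by rw [Fintype.card_piFinset_const]
    _ ≤ (n * (K1 + K2)) ^ t := Nat.pow_le_pow_left hPc t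

theorem gd_of_gt (h g N tA tB : ℕ) (τ : Fin (tA + tB) → Bool)
    (hτA : (Finset.univ.filter fun i => τ i = true).card = tA)
    (hτB : (Finset.univ.filter fun i => τ i = false).card = tB)
    (S : Finset (HeightOneSpectrum (𝓞 k))) (hS : PS h (N ^ 2 * g + 1) S)
    (e : Fin (tA + tB) → HeightOneSpectrum (𝓞 k) × ℕ) (he : ∀ i, (e i).1 ∈ S)
    (hinj : Function.Injective fun i => (e i).1) (f : (𝓞 k)[X]) (hf : Gt τ e f) :
    Gd h g N tA tB f := by
  classical
  have hlo : ∀ i, h ^ (N ^ 2 * g) ≤ Ideal.absNorm (e i).1.asIdeal := by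
    intro i
    have h1 := hS.lo _ (he i)
    rw [Nat.add_sub_cancel] at h1
    exact h1.le
  have hprime : ∀ i ∈ (Finset.univ.filter fun i => τ i = true), Prime (e i).1.asIdeal :=
    fun i _ => (e i).1.prime
  have hcop : ∀ᵉ (i ∈ (Finset.univ.filter fun i => τ i = true))
      (j ∈ (Finset.univ.filter fun i => τ i = true)), i ≠ j →
      (e i).1.asIdeal ≠ (e j).1.asIdeal := by
    intro i _ j _ hij h1
    exact hij (hinj (HeightOneSpectrum.ext h1))
  constructor
  · obtain ⟨x, hx⟩ := IsDedekindDomain.exists_forall_sub_mem_ideal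
      (fun i => (e i).1.asIdeal) (fun _ => 2) hprime hcop
      (fun i => (((e i.1).2 : ℕ) : 𝓞 k))
    refine ⟨∏ i ∈ (Finset.univ.filter fun i => τ i = true), (e i).1.asIdeal, x, ?_, ?_, ?_, ?_⟩
    · rw [← Ideal.zero_eq_bot, Finset.prod_ne_zero_iff]
      intro i _
      rw [Ideal.zero_eq_bot]
      exact (e i).1.ne_bot
    · rw [map_prod]
      calc h ^ (N ^ 2 * g * tA) = (h ^ (N ^ 2 * g)) ^
            (Finset.univ.filter fun i => τ i = true).card := by rw [hτA, ← pow_mul]
        _ ≤ _ := Finset.pow_card_le_prod _ _ _ fun i _ => hlo i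
    · rw [← Finset.prod_pow, ← IsDedekindDomain.inf_pow_eq_prod_of_prime _ _ (fun _ => 2) hprime hcop]
      rw [Submodule.mem_finsetInf]
      intro i hi
      have hi' : τ i = true := (Finset.mem_filter.1 hi).2
      have h3 := mem_LL.1 hf.1 i
      rw [hi', mem_cut_true] at h3
      have h4 := hx i hi
      have h5 : f.eval x - f.eval (((e i).2 : ℕ) : 𝓞 k) ∈ (e i).1.asIdeal ^ 2 :=
        Ideal.mem_of_dvd _ (sub_dvd_eval_sub _ _ _) h4
      have h6 := Ideal.add_mem _ h5 h3.1
      rwa [sub_add_cancel] at h6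
    · have h7 : ∏ i ∈ (Finset.univ.filter fun i => τ i = true), (e i).1.asIdeal =
          ∏ i ∈ (Finset.univ.filter fun i => τ i = true), (e i).1.asIdeal ^ 1 := by
        simp only [pow_one]
      rw [h7, ← IsDedekindDomain.inf_pow_eq_prod_of_prime _ _ (fun _ => 1) hprime hcop]
      rw [Submodule.mem_finsetInf]
      intro i hi
      have hi' : τ i = true := (Finset.mem_filter.1 hi).2
      have h3 := mem_LL.1 hf.1 i
      rw [hi', mem_cut_true] at h3
      have h4 := Ideal.pow_le_self (by norm_num) (hx i hi)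
      rw [pow_one]
      have h5 : f.derivative.eval x - f.derivative.eval (((e i).2 : ℕ) : 𝓞 k) ∈
          (e i).1.asIdeal :=
        Ideal.mem_of_dvd _ (sub_dvd_eval_sub _ _ _) h4
      have h6 := Ideal.add_mem _ h5 h3.2
      rwa [sub_add_cancel] at h6
  · refine ⟨(Finset.univ.filter fun i => τ i = false).image fun i => (e i).1, ?_, ?_, ?_, ?_⟩
    · intro l hl
      obtain ⟨i, _, rfl⟩ := Finset.mem_image.1 hl
      exact hS.prime _ (he i)
    · intro l hl l' hl' hll
      obtain ⟨i, _, rfl⟩ := Finset.mem_image.1 hl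
      obtain ⟨j, _, rfl⟩ := Finset.mem_image.1 hl'
      exact hS.inj _ (he i) _ (he j) hll
    · rw [Finset.prod_image fun i _ j _ hij => hinj hij]
      calc h ^ (N ^ 2 * g * tB) = (h ^ (N ^ 2 * g)) ^
            (Finset.univ.filter fun i => τ i = false).card := by rw [hτB, ← pow_mul]
        _ ≤ _ := Finset.pow_card_le_prod _ _ _ fun i _ => hlo i
    · intro l hl
      obtain ⟨i, hi, rfl⟩ := Finset.mem_image.1 hl
      have hi' : τ i = false := (Finset.mem_filter.1 hi).2
      have h3 := mem_LL.1 hf.1 i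
      rw [hi', mem_cut_false] at h3
      exact ⟨_, h3.1, hf.2 i hi', h3.2⟩

end

end Pool.Agent.H26.RL
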