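import Pool.Agent.H26.RL.Defs

/-! Project RL (MP_a3214d), row RL-16: averaging over shifts -/

set_option autoImplicit false

open Polynomial IsDedekindDomain NumberField
open Pool.Agent.H67.MU (Bdd)
open Pool.Agent.H92.SQ2 (gg WW)
open Pool.Agent.H98.TQ

namespace Pool.Agent.H26.RL

/-- The averaging argument: if for every `f` and `i` at most one value of the coordinate `i` is
bad, some vector is good for at least half of the `f`. -/
theorem rl_16_avg {F : Type*} (T : Finset F) (t : ℕ)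
    (bad : F → (Fin t → Fin (2 * t + 1)) → Fin t → Prop)
    (h : ∀ f ∈ T, ∀ i, ∀ c c' : Fin t → Fin (2 * t + 1), (∀ j, j ≠ i → c j = c' j) →
      bad f c i → bad f c' i → c i = c' i) :
    ∃ (c : Fin t → Fin (2 * t + 1)) (G : Finset F), G ⊆ T ∧ (∀ f ∈ G, ∀ i, ¬ bad f c i) ∧
      T.card ≤ 2 * G.card := by
  classical
  set C : Finset (Fin t → Fin (2 * t + 1)) := Finset.univ with hC
  have hCc : C.card = (2 * t + 1) ^ t := by simp [hC]
  -- one coordinate
  have h1 : ∀ f ∈ T, ∀ i, (C.filter fun c => bad f c i).card * (2 * t + 1) ≤ C.card := by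
    intro f hf i
    have h2 : ((C.filter fun c => bad f c i) ×ˢ (Finset.univ : Finset (Fin (2 * t + 1)))).card ≤
        C.card := by
      refine Finset.card_le_card_of_injOn (fun q => Function.update q.1 i q.2)
        (fun q _ => Finset.mem_coe.mpr (Finset.mem_univ _)) ?_
      rintro ⟨c, a⟩ hq ⟨c', a'⟩ hq' he
      rw [Finset.mem_coe, Finset.mem_product, Finset.mem_filter] at hq hq'
      have hoff : ∀ j, j ≠ i → c j = c' j := by
        intro j hj
        have := congrFun he j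
        simpa [Function.update_of_ne hj] using this
      have ha : a = a' := by
        have := congrFun he i
        simpa using this
      have hci : c i = c' i := h f hf i c c' hoff hq.1.2 hq'.1.2
      have hcc : c = c' := by
        funext j
        by_cases hj : j = i
        · rw [hj]; exact hci
        · exact hoff j hj
      rw [hcc, ha]
    rw [Finset.card_product, Finset.card_univ, Fintype.card_fin] at h2
    exact h2
  have h2 : ∀ f ∈ T, C.card ≤ 2 * (C.filter fun c => ∀ i, ¬ bad f c i).card := by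
    intro f hf
    have h3 : (C.filter fun c => ¬ ∀ i, ¬ bad f c i).card ≤
        ∑ i : Fin t, (C.filter fun c => bad f c i).card := by
      refine (Finset.card_le_card ?_).trans Finset.card_biUnion_le
      intro c hc
      rw [Finset.mem_filter] at hc
      obtain ⟨h4, h5⟩ := hc
      push Not at h5
      obtain ⟨i, hi⟩ := h5
      rw [Finset.mem_biUnion]
      exact ⟨i, Finset.mem_univ i, Finset.mem_filter.mpr ⟨h4, hi⟩⟩
    have h4 : (∑ i : Fin t, (C.filter fun c => bad f c i).card) * (2 * t + 1) ≤ t * C.card := by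
      rw [Finset.sum_mul]
      refine (Finset.sum_le_sum fun i _ => h1 f hf i).trans ?_
      rw [Finset.sum_const, Finset.card_univ, Fintype.card_fin, smul_eq_mul]
    have h5 := Finset.card_filter_add_card_filter_not (s := C) (fun c => ∀ i, ¬ bad f c i)
    set x := (C.filter fun c => ∀ i, ¬ bad f c i).card
    set y := (C.filter fun c => ¬ ∀ i, ¬ bad f c i).card
    have h6 : y * (2 * t + 1) ≤ t * C.card := (Nat.mul_le_mul_right _ h3).trans h4
    have h7 : 2 * y ≤ C.card := by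
      have h8 : (2 * y) * (2 * t + 1) ≤ C.card * (2 * t + 1) := by nlinarith
      exact Nat.le_of_mul_le_mul_right h8 (by omega)
    omega
  have h3 : T.card * C.card ≤ 2 * ∑ c ∈ C, (T.filter fun f => ∀ i, ¬ bad f c i).card := by
    have h4 : ∑ c ∈ C, (T.filter fun f => ∀ i, ¬ bad f c i).card =
        ∑ f ∈ T, (C.filter fun c => ∀ i, ¬ bad f c i).card := by
      simp only [Finset.card_filter]
      exact Finset.sum_comm
    rw [h4, Finset.mul_sum]
    calc T.card * C.card = ∑ f ∈ T, C.card := by rw [Finset.sum_const, smul_eq_mul]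
      _ ≤ _ := Finset.sum_le_sum fun f hf => h2 f hf
  have hCne : C.Nonempty := ⟨fun _ => 0, Finset.mem_univ _⟩
  by_contra hcon
  have h4 : ∀ c ∈ C, 2 * (T.filter fun f => ∀ i, ¬ bad f c i).card < T.card := by
    intro c _
    by_contra h5
    exact hcon ⟨c, T.filter fun f => ∀ i, ¬ bad f c i, Finset.filter_subset _ _,
      fun f hf => (Finset.mem_filter.mp hf).2, not_lt.mp h5⟩
  have h5 : ∑ c ∈ C, 2 * (T.filter fun f => ∀ i, ¬ bad f c i).card < ∑ c ∈ C, T.card :=
    Finset.sum_lt_sum_of_nonempty hCne h4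
  rw [Finset.sum_const, smul_eq_mul, ← Finset.mul_sum] at h5
  rw [mul_comm] at h3
  omega

section

variable {k : Type} [Field k] [NumberField k]

/-- A prime of norm larger than `M`, prime to `N0`, does not contain `N0 d` for `0 < |d| ≤ M`. -/
theorem rl_16_notMem (p : HeightOneSpectrum (𝓞 k)) (N0 M : ℕ)
    (hp : (Ideal.absNorm p.asIdeal).Prime) (hM : M < Ideal.absNorm p.asIdeal)
    (hc : IsCoprime p.asIdeal (Ideal.span {(N0 : 𝓞 k)})) (d : ℤ) (hd : d ≠ 0)
    (hdM : d.natAbs ≤ M) : (N0 : 𝓞 k) * (d : 𝓞 k) ∉ p.asIdeal := by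
  intro h
  have hpr := p.isPrime
  have h1 : (1 : 𝓞 k) ∉ p.asIdeal := fun h1 => hpr.ne_top ((Ideal.eq_top_iff_one _).mpr h1)
  rcases hpr.mem_or_mem h with h2 | h2
  · rw [Ideal.isCoprime_iff_exists] at hc
    obtain ⟨i, hi, j, hj, hij⟩ := hc
    apply h1
    rw [← hij]
    refine Ideal.add_mem _ hi ?_
    obtain ⟨r, rfl⟩ := Ideal.mem_span_singleton.mp hj
    exact Ideal.mul_mem_right _ _ h2
  · have h3 : ((Ideal.absNorm p.asIdeal : ℕ) : 𝓞 k) ∈ p.asIdeal := Ideal.absNorm_mem _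
    have h4 : IsCoprime ((Ideal.absNorm p.asIdeal : ℕ) : ℤ) d := by
      rw [Int.isCoprime_iff_gcd_eq_one, Int.gcd_eq_natAbs, Int.natAbs_natCast]
      refine (Nat.Prime.coprime_iff_not_dvd hp).mpr fun hdvd => ?_
      have h5 := Nat.le_of_dvd (Int.natAbs_pos.mpr hd) hdvd
      omega
    obtain ⟨u, v, huv⟩ := h4
    apply h1
    have h5 : (1 : 𝓞 k) = (u : 𝓞 k) * ((Ideal.absNorm p.asIdeal : ℕ) : 𝓞 k) +
        (v : 𝓞 k) * (d : 𝓞 k) := by
      have := congrArg (fun z : ℤ => (z : 𝓞 k)) huv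
      push_cast at this
      exact this.symm
    rw [h5]
    exact Ideal.add_mem _ (Ideal.mul_mem_left _ _ h3) (Ideal.mul_mem_left _ _ h2)

/-- The shift. -/
noncomputable def rl_16_w (N0 : ℕ) {t : ℕ} (z : Fin t → (𝓞 k)[X])
    (c : Fin t → Fin (2 * t + 1)) : (𝓞 k)[X] :=
  (N0 : 𝓞 k) • ∑ j, (((c j : Fin (2 * t + 1)) : ℕ) : 𝓞 k) • z j

omit [NumberField k] in
theorem rl_16_coeff (N0 : ℕ) {t : ℕ} (z : Fin t → (𝓞 k)[X]) (c : Fin t → Fin (2 * t + 1))
    (m : ℕ) : (rl_16_w N0 z c).coeff m =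
      (N0 : 𝓞 k) * ∑ j, (((c j : Fin (2 * t + 1)) : ℕ) : 𝓞 k) * (z j).coeff m := by
  unfold rl_16_w
  rw [coeff_smul, finset_sum_coeff, smul_eq_mul]
  congr 1

omit [NumberField k] in
theorem rl_16_eval (N0 : ℕ) {t : ℕ} (z : Fin t → (𝓞 k)[X]) (c : Fin t → Fin (2 * t + 1))
    (x : 𝓞 k) : (rl_16_w N0 z c).eval x =
      (N0 : 𝓞 k) * ∑ j, (((c j : Fin (2 * t + 1)) : ℕ) : 𝓞 k) * (z j).eval x := by
  unfold rl_16_w
  rw [eval_smul, eval_finsetSum, smul_eq_mul]
  congr 1
  refine Finset.sum_congr rfl fun j _ => ?_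
  rw [eval_smul, smul_eq_mul]

theorem half_good (n N0 b J t : ℕ) (s : (𝓞 k)[X]) (τ : Fin t → Bool) (hn : 4 ≤ n)
    (hN0 : 0 < N0) (hb : 1 ≤ b) (hJ : 2 ≤ J) : ∃ h0 : ℕ, ∀ h ≥ h0,
    ∀ S : Finset (HeightOneSpectrum (𝓞 k)), PS h J S →
    ∀ e : Fin t → HeightOneSpectrum (𝓞 k) × ℕ, (∀ i, (e i).1 ∈ S) →
      (Function.Injective fun i => (e i).1) →
      (∀ i, IsCoprime (e i).1.asIdeal (Ideal.span {(N0 : 𝓞 k)})) →
      (∀ i, τ i = false → ∃ z : (𝓞 k)[X], z ∈ LL τ e ∧ InBox h b (n - 2) (2 * b - 1) z ∧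
        z.eval ((e i).2 : 𝓞 k) ∉ (e i).1.asIdeal ^ 2) →
      ∀ T : Finset (𝓞 k)[X], (∀ f ∈ T, FamH n N0 s b h f ∧ f ∈ LL τ e) →
      ∃ U : Finset (𝓞 k)[X], (∀ f ∈ U, Fam n N0 s b h f ∧ Gt τ e f) ∧ T.card ≤ 2 * U.card := by
  classical
  refine ⟨4 * N0 * t ^ 2 + 2 * t + 1, fun h hh S hS e heS hinj hcop hz T hT => ?_⟩
  have hh1 : 1 ≤ h := by omega
  have hh2 : 2 * t < h := by omega
  have hh3 : 4 * N0 * t ^ 2 ≤ h := by omega
  -- the norms
  have hNp : ∀ i, 2 * t < Ideal.absNorm (e i).1.asIdeal := by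
    intro i
    have h1 := hS.lo _ (heS i)
    have h2 : h ^ 1 ≤ h ^ (J - 1) := Nat.pow_le_pow_right hh1 (by omega)
    rw [pow_one] at h2
    omega
  -- the polynomials z
  have hz' : ∀ i, ∃ z : (𝓞 k)[X], z ∈ LL τ e ∧ InBox h b (n - 2) (2 * b - 1) z ∧
      (τ i = false → z.eval ((e i).2 : 𝓞 k) ∉ (e i).1.asIdeal ^ 2) := by
    intro i
    by_cases hi : τ i = false
    · obtain ⟨z, h1, h2, h3⟩ := hz i hi
      exact ⟨z, h1, h2, fun _ => h3⟩
    · refine ⟨0, Submodule.zero_mem _, ⟨by simp, fun j _ φ => ?_⟩, fun h => absurd h hi⟩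
      rw [coeff_zero]
      simp only [map_zero, norm_zero]
      positivity
  choose z hzL hzB hzn using hz'
  obtain ⟨c, G, hGT, hG, hcard⟩ := rl_16_avg T t
    (fun f c i => τ i = false ∧ (f + rl_16_w N0 z c).eval ((e i).2 : 𝓞 k) ∈ (e i).1.asIdeal ^ 2)
    (by
      rintro f hf i c c' hoff ⟨hτ, h1⟩ ⟨-, h2⟩
      by_contra hne
      have h3 : (f + rl_16_w N0 z c).eval ((e i).2 : 𝓞 k) -
          (f + rl_16_w N0 z c').eval ((e i).2 : 𝓞 k) =
          ((N0 : 𝓞 k) * (((c i : ℕ) : ℤ) - ((c' i : ℕ) : ℤ) : ℤ)) *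
            (z i).eval ((e i).2 : 𝓞 k) := by
        rw [eval_add, eval_add, rl_16_eval, rl_16_eval]
        have h4 : ∑ j, (((c j : Fin (2 * t + 1)) : ℕ) : 𝓞 k) * (z j).eval ((e i).2 : 𝓞 k) -
            ∑ j, (((c' j : Fin (2 * t + 1)) : ℕ) : 𝓞 k) * (z j).eval ((e i).2 : 𝓞 k) =
            ((((c i : ℕ) : ℤ) - ((c' i : ℕ) : ℤ) : ℤ) : 𝓞 k) * (z i).eval ((e i).2 : 𝓞 k) := by
          rw [← Finset.sum_sub_distrib, Finset.sum_eq_single i]
          · push_cast
            ring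
          · intro j _ hj
            rw [hoff j hj]
            ring
          · intro hi
            exact absurd (Finset.mem_univ i) hi
        rw [mul_assoc, ← h4]
        ring
      have h4 : (f + rl_16_w N0 z c).eval ((e i).2 : 𝓞 k) -
          (f + rl_16_w N0 z c').eval ((e i).2 : 𝓞 k) ∈ (e i).1.asIdeal ^ 2 :=
        Ideal.sub_mem _ h1 h2
      rw [h3] at h4
      haveI : (e i).1.asIdeal.IsMaximal := (e i).1.isMaximal
      rcases Ideal.IsMaximal.mul_mem_pow (e i).1.asIdeal h4 with h5 | h5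
      · refine rl_16_notMem (e i).1 N0 (2 * t) (hS.prime _ (heS i)) (hNp i) (hcop i) _ ?_ ?_ h5
        · intro h6
          apply hne
          apply Fin.ext
          omega
        · have h7 := (c i).2
          have h8 := (c' i).2
          omega
      · exact hzn i hτ h5)
  refine ⟨G.image fun f => f + rl_16_w N0 z c, ?_, ?_⟩
  · intro g hg
    obtain ⟨f, hfG, rfl⟩ := Finset.mem_image.mp hg
    obtain ⟨hF, hL⟩ := hT f (hGT hfG)
    have hw0 : ∀ m, n - 2 < m → (rl_16_w N0 z c).coeff m = 0 := by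
      intro m hm
      rw [rl_16_coeff, Finset.sum_eq_zero, mul_zero]
      intro j _
      rw [coeff_eq_zero_of_natDegree_lt (lt_of_le_of_lt (hzB j).1 hm), mul_zero]
    have hwd : (rl_16_w N0 z c).natDegree ≤ n - 2 := natDegree_le_iff_coeff_eq_zero.mpr hw0
    have hlt : (rl_16_w N0 z c).natDegree < f.natDegree := by
      rw [hF.deg]
      omega
    have hLw : rl_16_w N0 z c ∈ LL τ e :=
      Submodule.smul_mem _ _ (Submodule.sum_mem _ fun j _ => Submodule.smul_mem _ _ (hzL j))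
    refine ⟨⟨?_, ?_, ?_, ?_, ?_⟩, ⟨Submodule.add_mem _ hL hLw, ?_⟩⟩
    · rw [natDegree_add_eq_left_of_natDegree_lt hlt, hF.deg]
    · exact hF.monic.add_of_left (degree_lt_degree hlt)
    · rw [coeff_add, hw0 (n - 1) (by omega), add_zero, hF.snd]
    · intro i hi φ
      rw [coeff_add, rl_16_coeff]
      have h1 := hF.ht i hi φ
      have h2 : ∀ j, ‖φ ((((c j : Fin (2 * t + 1)) : ℕ) : 𝓞 k) * (z j).coeff i : 𝓞 k)‖ ≤
          (2 * t) * (h : ℝ) ^ (2 * b - 1 + b * (n - 2 - i)) := by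
        intro j
        have h3 := (hzB j).2 i hi φ
        have h4 : ((c j : ℕ) : ℝ) ≤ 2 * t := by
          have := (c j).2
          have h5 : (c j : ℕ) ≤ 2 * t := by omega
          exact_mod_cast h5
        push_cast
        rw [map_mul, norm_mul, map_natCast, Complex.norm_natCast]
        exact mul_le_mul h4 h3 (norm_nonneg _) (by positivity)
      have h3 : ‖φ (∑ j, (((c j : Fin (2 * t + 1)) : ℕ) : 𝓞 k) * (z j).coeff i : 𝓞 k)‖ ≤
          t * ((2 * t) * (h : ℝ) ^ (2 * b - 1 + b * (n - 2 - i))) := by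
        push_cast
        rw [map_sum]
        refine (norm_sum_le _ _).trans ?_
        refine (Finset.sum_le_sum (g := fun _ => (2 * t) * (h : ℝ) ^ (2 * b - 1 + b * (n - 2 - i)))
          fun j _ => ?_).trans ?_
        · have := h2 j
          push_cast at this
          exact this
        · rw [Finset.sum_const, Finset.card_univ, Fintype.card_fin, nsmul_eq_mul]
      have h4 : (h : ℝ) ^ (b * (n - i)) = h * (h : ℝ) ^ (2 * b - 1 + b * (n - 2 - i)) := by
        rw [← pow_succ']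
        congr 1
        obtain ⟨m, rfl⟩ : ∃ m, n = m + 2 + i := ⟨n - 2 - i, by omega⟩
        have h5 : m + 2 + i - i = m + 2 := by omega
        have h6 : m + 2 + i - 2 - i = m := by omega
        rw [h5, h6, mul_add]
        omega
      have h5 : (4 * N0 * t ^ 2 : ℝ) ≤ h := by exact_mod_cast hh3
      have h6 : (0 : ℝ) ≤ (h : ℝ) ^ (2 * b - 1 + b * (n - 2 - i)) := by positivity
      have h7 : ‖φ (((N0 : 𝓞 k) * ∑ j, (((c j : Fin (2 * t + 1)) : ℕ) : 𝓞 k) * (z j).coeff i :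
          𝓞 k) : k)‖ ≤ (h : ℝ) ^ (b * (n - i)) / 2 := by
        have h7' : (((N0 : 𝓞 k) * ∑ j, (((c j : Fin (2 * t + 1)) : ℕ) : 𝓞 k) * (z j).coeff i :
            𝓞 k) : k) = (algebraMap (𝓞 k) k (N0 : 𝓞 k)) *
            ((∑ j, (((c j : Fin (2 * t + 1)) : ℕ) : 𝓞 k) * (z j).coeff i : 𝓞 k) : k) :=
          map_mul (algebraMap (𝓞 k) k) _ _
        rw [h7', map_mul, norm_mul]
        have h8 : ‖φ (algebraMap (𝓞 k) k (N0 : 𝓞 k))‖ = N0 := by
          rw [map_natCast, map_natCast, Complex.norm_natCast]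
        have h9 := mul_le_mul_of_nonneg_left h3 (Nat.cast_nonneg (α := ℝ) N0)
        rw [h8]
        refine h9.trans ?_
        rw [h4]
        nlinarith
      calc ‖φ ((f.coeff i + (N0 : 𝓞 k) * ∑ j, (((c j : Fin (2 * t + 1)) : ℕ) : 𝓞 k) *
            (z j).coeff i : 𝓞 k) : k)‖
          = ‖φ (f.coeff i : k) + φ (((N0 : 𝓞 k) * ∑ j, (((c j : Fin (2 * t + 1)) : ℕ) : 𝓞 k) *
            (z j).coeff i : 𝓞 k) : k)‖ := by
            rw [← map_add]
            exact congrArg (fun y => ‖φ y‖) (map_add (algebraMap (𝓞 k) k) _ _)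
        _ ≤ _ := norm_add_le _ _
        _ ≤ (h : ℝ) ^ (b * (n - i)) / 2 + (h : ℝ) ^ (b * (n - i)) / 2 := add_le_add h1 h7
        _ = (h : ℝ) ^ (b * (n - i)) := by ring
    · intro i
      rw [coeff_add, rl_16_coeff]
      have h1 := hF.cong i
      have h2 : f.coeff i + (N0 : 𝓞 k) * ∑ j, (((c j : Fin (2 * t + 1)) : ℕ) : 𝓞 k) *
          (z j).coeff i - s.coeff i = (f.coeff i - s.coeff i) +
            (N0 : 𝓞 k) * ∑ j, (((c j : Fin (2 * t + 1)) : ℕ) : 𝓞 k) * (z j).coeff i := by ring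
      rw [h2]
      exact dvd_add h1 (dvd_mul_right _ _)
    · intro i hi h1
      exact hG f hfG i ⟨hi, h1⟩
  · rw [Finset.card_image_of_injective _ (add_left_injective _)]
    exact hcard

end

end Pool.Agent.H26.RL
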