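import Pool.Agent.H26.RL.RankN
import Pool.Agent.H26.RL.ExistsZ
import Pool.Agent.H26.RL.ClassN
import Pool.Agent.H26.RL.Half

/-!
# Project RL, row RL-17: the members of the family at one tuple of primes
-/

set_option autoImplicit false

open Polynomial IsDedekindDomain NumberField
open Pool.Agent.H67.MU (Bdd)
open Pool.Agent.H92.SQ2 (gg WW)
open Pool.Agent.H98.TQ
open Pool.Agent.H96.T3 (D1)

namespace Pool.Agent.H26.RL

section

variable (k : Type) [Field k] [NumberField k]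

variable {k} in
theorem rl_17_mono {h b d r r' : ℕ} {g : (𝓞 k)[X]} (hh : 1 ≤ h) (hr : r ≤ r')
    (hg : InBox h b d r g) : InBox h b d r' g := by
  refine ⟨hg.1, fun j hj φ => (hg.2 j hj φ).trans ?_⟩
  exact pow_le_pow_right₀ (by exact_mod_cast hh) (by omega)

variable {k} in
/-- a large prime is coprime to `N0` -/
theorem rl_17_coprime {p : Ideal (𝓞 k)} (hp : (Ideal.absNorm p).Prime) {N0 : ℕ}
    (hN0 : 0 < N0) (hlt : N0 < Ideal.absNorm p) :
    IsCoprime p (Ideal.span {(N0 : 𝓞 k)}) := by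
  have hco : Nat.Coprime (Ideal.absNorm p) N0 :=
    (Nat.Prime.coprime_iff_not_dvd hp).mpr fun hd => by
      have := Nat.le_of_dvd hN0 hd
      omega
  have h1 : IsCoprime ((Ideal.absNorm p : ℕ) : ℤ) (N0 : ℤ) := Nat.isCoprime_iff_coprime.mpr hco
  obtain ⟨s, t, hst⟩ := h1
  rw [Ideal.isCoprime_iff_exists]
  refine ⟨(s : 𝓞 k) * ((Ideal.absNorm p : ℕ) : 𝓞 k),
    p.mul_mem_left _ (Ideal.absNorm_mem p), (t : 𝓞 k) * (N0 : 𝓞 k),
    Ideal.mul_mem_left _ _ (Ideal.mem_span_singleton_self _), ?_⟩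
  have h2 : ((s * ((Ideal.absNorm p : ℕ) : ℤ) + t * (N0 : ℤ) : ℤ) : 𝓞 k) = 1 := by
    rw [hst]; exact Int.cast_one
  push_cast at h2
  exact h2

/-- the choice of the radii -/
theorem rl_17_radii (D N b g q t : ℕ) (hD : 1 ≤ D) (hN : 1 ≤ N) (cq : D * b ≤ g * q)
    (cb : 4 * g * N ^ 3 + t + 3 ≤ D * b)
    (cW : N * g * q + D * (q + 4 * g * N ^ 4 + N * (t + 3) + N * D + 3) ≤ D * (b * (N + 3))) :
    ∃ ρ κ : ℕ, ρ + κ ≤ 4 * b - 1 ∧
      D * (ρ + (N - 1) * b) + (N - 1) * (4 * g * N ^ 2) + (1 + t) + 2 ≤ N * g * q ∧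
      (N ^ 2 * g + 1) * q + 1 ≤ D * (ρ * N + κ + b * N * (N - 1)) := by
  obtain ⟨M, rfl⟩ : ∃ M, N = M + 1 := ⟨N - 1, by omega⟩
  rw [Nat.add_sub_cancel]
  -- X is the room for `D ρ`
  have hX : D * (M * b) + M * (4 * g * (M + 1) ^ 2) + (1 + t) + 2 ≤ (M + 1) * g * q := by
    have e1 : (M + 1) * (D * b) ≤ (M + 1) * (g * q) := Nat.mul_le_mul_left _ cq
    have e2 : (M + 1) * (D * b) = D * (M * b) + D * b := by ring
    have e3 : (M + 1) * (g * q) = (M + 1) * g * q := by ring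
    have e4 : M * (4 * g * (M + 1) ^ 2) ≤ 4 * g * (M + 1) ^ 3 := by
      have : 4 * g * (M + 1) ^ 3 = M * (4 * g * (M + 1) ^ 2) + 4 * g * (M + 1) ^ 2 := by ring
      omega
    omega
  obtain ⟨X, hX'⟩ := Nat.exists_eq_add_of_le hX
  refine ⟨X / D, q + 1 + (M + 1) * M * (4 * g * (M + 1) ^ 2) + (M + 1) * (t + 3 + D), ?_, ?_, ?_⟩
  · have h1 : D * (X / D) ≤ X := Nat.mul_div_le X D
    have h2 : D * (X / D + (q + 1 + (M + 1) * M * (4 * g * (M + 1) ^ 2) +
        (M + 1) * (t + 3 + D)) + 1) ≤ D * (4 * b) := by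
      have e1 : D * (X / D + (q + 1 + (M + 1) * M * (4 * g * (M + 1) ^ 2) +
        (M + 1) * (t + 3 + D)) + 1) = D * (X / D) + D * (q + 1 +
          (M + 1) * M * (4 * g * (M + 1) ^ 2) + (M + 1) * (t + 3 + D) + 1) := by ring
      rw [e1]
      have e2 : D * (b * (M + 1 + 3)) = D * (4 * b) + D * (M * b) := by ring
      rw [e2] at cW
      have e3 : D * (q + 4 * g * (M + 1) ^ 4 + (M + 1) * (t + 3) + (M + 1) * D + 3) =
          D * (q + 1 + (M + 1) * M * (4 * g * (M + 1) ^ 2) + (M + 1) * (t + 3 + D) + 1) +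
          D * (4 * g * (M + 1) ^ 3 + 1) := by ring
      rw [e3] at cW
      omega
    have h3 := Nat.le_of_mul_le_mul_left h2 (by omega)
    omega
  · have h1 : D * (X / D) ≤ X := Nat.mul_div_le X D
    have e1 : D * (X / D + M * b) = D * (X / D) + D * (M * b) := by ring
    rw [e1]
    omega
  · have h1 : X < D * (X / D) + D := by
      have := Nat.lt_mul_div_succ X (show 0 < D by omega)
      rw [Nat.mul_add, Nat.mul_one] at this
      exact this
    have h2 : (M + 1) * X + (M + 1) ≤ (M + 1) * (D * (X / D) + D) := by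
      have : (M + 1) * (X + 1) ≤ (M + 1) * (D * (X / D) + D) := Nat.mul_le_mul_left _ h1
      rw [Nat.mul_add, Nat.mul_one] at this
      exact this
    have e0 : (M + 1) * ((M + 1) * g * q) = (M + 1) * (D * (M * b) +
        M * (4 * g * (M + 1) ^ 2) + (1 + t) + 2 + X) := by rw [hX']
    have e1 : D * (X / D * (M + 1) + (q + 1 + (M + 1) * M * (4 * g * (M + 1) ^ 2) +
        (M + 1) * (t + 3 + D)) + b * (M + 1) * M) = (M + 1) * (D * (X / D)) +
          D * (q + 1 + (M + 1) * M * (4 * g * (M + 1) ^ 2) +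
        (M + 1) * (t + 3 + D)) + (M + 1) * (D * (M * b)) := by ring
    have e2 : q + 1 + (M + 1) * M * (4 * g * (M + 1) ^ 2) + (M + 1) * (t + 3 + D) ≤
      D * (q + 1 + (M + 1) * M * (4 * g * (M + 1) ^ 2) + (M + 1) * (t + 3 + D)) :=
      Nat.le_mul_of_pos_left _ (by omega)
    rw [e1]
    nlinarith [h2, e0, e2]

/-- all members at one tuple of primes -/
theorem one_tuple (n N0 b g a0 tA tB : ℕ) (s : (𝓞 k)[X]) (τ : Fin (tA + tB) → Bool)
    (hτ : qq τ = 3 * tA + 2 * tB) (hN0 : 0 < N0) (hs : s.Monic) (hsn : s.natDegree = n)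
    (hc : CondR (Module.finrank ℚ k) n b g tA tB) (ha : 4 * b + 2 * b * n ≤ a0) :
    ∃ c : ℝ, 0 < c ∧ ∃ h0 : ℕ, ∀ h ≥ h0, ∀ S : Finset (HeightOneSpectrum (𝓞 k)),
      PS h ((n - 1) ^ 2 * g + 1) S → ∀ e : Fin (tA + tB) → HeightOneSpectrum (𝓞 k) × ℕ,
      (∀ i, (e i).1 ∈ S) → (Function.Injective fun i => (e i).1) →
      Rd h b (n - 1) g a0 (qq τ) (Ef (Module.finrank ℚ k) b (n - 1) g (qq τ)) (1 + (tA + tB))
        (LL τ e) →
      ∃ U : Finset (𝓞 k)[X], (∀ f ∈ U, Fam n N0 s (2 * b) h f ∧ Gt τ e f) ∧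
        c * (h : ℝ) ^ (Module.finrank ℚ k * (2 * b * (n * (n + 1) / 2 - 1))) ≤
          (h : ℝ) ^ (((n - 1) ^ 2 * g + 1) * (3 * tA + 2 * tB)) * U.card := by
  classical
  obtain ⟨hn5, hg, cq, cb, cW⟩ := hc
  have hD : 1 ≤ Module.finrank ℚ k := Module.finrank_pos
  obtain ⟨N, hN⟩ : ∃ N, N = n - 1 := ⟨_, rfl⟩
  have hN4 : 4 ≤ N := by omega
  have hn2 : n - 2 = N - 1 := by omega
  have hn3 : n + 2 = N + 3 := by omega
  rw [← hN, hn3] at cW
  rw [← hN] at cb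
  have cb' : 4 * g * N ^ 3 + (tA + tB) + 3 ≤ Module.finrank ℚ k * b := by omega
  have hb : 1 ≤ b := by
    by_contra h0
    have : b = 0 := by omega
    subst this
    omega
  obtain ⟨ρ, κ, hr1, hr2, hr3⟩ := rl_17_radii (Module.finrank ℚ k) N b g (3 * tA + 2 * tB)
    (tA + tB) hD (by omega) cq cb' cW
  have hE : Ef (Module.finrank ℚ k) b N g (3 * tA + 2 * tB) = 4 * g * N ^ 2 := by
    rw [Ef, Nat.sub_eq_zero_of_le cq]
    exact Nat.zero_max _
  have hρ : ρ + 2 * b * (N - 1) ≤ a0 := by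
    have h1 : 2 * b * (N - 1) ≤ 2 * b * n := Nat.mul_le_mul_left _ (by omega)
    omega
  obtain ⟨hA, HA⟩ := full_rankN k N b g a0 (tA + tB) ρ κ τ (by omega) hg
    (Ef (Module.finrank ℚ k) b N g (qq τ)) (1 + (tA + tB)) hρ (by rw [hτ, hE]; exact hr2)
    (by rw [hτ]; exact hr3)
  obtain ⟨hB, HB⟩ := exists_z k N (2 * b) (N ^ 2 * g + 1) (tA + tB) (ρ + κ) τ (by omega)
    (by nlinarith [Nat.mul_le_mul (Nat.pow_le_pow_left hN4 2) hg])
  obtain ⟨c, hc0, hC, HC⟩ := class_countN k n N0 (2 * b) (tA + tB) s τ (by omega) hN0 hs hsn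
    (by omega)
  obtain ⟨hH, HH⟩ := half_good n N0 (2 * b) (N ^ 2 * g + 1) (tA + tB) s τ (by omega) hN0
    (by omega) (by nlinarith [Nat.mul_le_mul (Nat.pow_le_pow_left hN4 2) hg])
  refine ⟨c / 2, by positivity, max (max hA hB) (max (max hC hH) (max N0 1)),
    fun h hh S hS e heS hinj hR => ?_⟩
  have a1 : hA ≤ h := le_trans (le_trans (le_max_left _ _) (le_max_left _ _)) hh
  have a2 : hB ≤ h := le_trans (le_trans (le_max_right _ _) (le_max_left _ _)) hh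
  have a3 : hC ≤ h := le_trans (le_trans (le_trans (le_max_left _ _) (le_max_left _ _))
    (le_max_right _ _)) hh
  have a4 : hH ≤ h := le_trans (le_trans (le_trans (le_max_right _ _) (le_max_left _ _))
    (le_max_right _ _)) hh
  have a5 : N0 ≤ h := le_trans (le_trans (le_trans (le_max_left _ _) (le_max_right _ _))
    (le_max_right _ _)) hh
  have a6 : 1 ≤ h := le_trans (le_trans (le_trans (le_max_right _ _) (le_max_right _ _))
    (le_max_right _ _)) hh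
  rw [← hN] at hS hR
  obtain ⟨y, hy, hy'⟩ := HA h a1 S hS e heS hR
  have hlt : ∀ i, h < Ideal.absNorm (e i).1.asIdeal := fun i => by
    refine lt_of_le_of_lt ?_ (hS.lo _ (heS i))
    calc h = h ^ 1 := (pow_one h).symm
      _ ≤ h ^ (N ^ 2 * g + 1 - 1) := Nat.pow_le_pow_right a6 (by
        rw [Nat.add_sub_cancel]
        exact Nat.mul_pos (by positivity) hg)
  have hcop : ∀ i, IsCoprime (e i).1.asIdeal (Ideal.span {(N0 : 𝓞 k)}) := fun i =>
    rl_17_coprime (hS.prime _ (heS i)) hN0 (lt_of_le_of_lt a5 (hlt i))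
  have hbox : ∀ g' : (𝓞 k)[X], InBox h (2 * b) (N - 1) (ρ + κ) g' →
      InBox h (2 * b) (n - 2) (2 * (2 * b) - 1) g' := fun g' hg' => by
    rw [hn2]
    exact rl_17_mono a6 (by omega) hg'
  obtain ⟨T, hT1, hT2⟩ := HC h a3 e hinj hcop (fun i => y (Fin.cast hN.symm i))
    (hy.comp _ (Fin.cast_injective _)) (fun i => ⟨hbox _ (hy' _).1, (hy' _).2⟩)
  obtain ⟨U, hU1, hU2⟩ := HH h a4 S hS e heS hinj hcop (fun i hi => by
    obtain ⟨z, hz1, hz2, hz3⟩ := HB h a2 S hS e heS hinj y hy hy' i hi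
    exact ⟨z, hz1, hbox z hz2, hz3⟩) T hT1
  refine ⟨U, hU1, ?_⟩
  rw [← hN]
  have hP : ((∏ i, Ideal.absNorm (e i).1.asIdeal ^ ct (τ i) : ℕ) : ℝ) ≤
      (h : ℝ) ^ ((N ^ 2 * g + 1) * (3 * tA + 2 * tB)) := by
    rw [← hτ, qq, pow_mul, ← Finset.prod_pow_eq_pow_sum, Nat.cast_prod]
    refine Finset.prod_le_prod (fun i _ => by positivity) fun i _ => ?_
    rw [Nat.cast_pow]
    exact pow_le_pow_left₀ (by positivity) (by exact_mod_cast hS.hi _ (heS i)) _
  have hTU : (T.card : ℝ) ≤ 2 * U.card := by exact_mod_cast hU2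
  calc c / 2 * (h : ℝ) ^ (Module.finrank ℚ k * (2 * b * (n * (n + 1) / 2 - 1)))
      = (c * (h : ℝ) ^ (Module.finrank ℚ k * (2 * b * (n * (n + 1) / 2 - 1)))) / 2 := by ring
    _ ≤ (((∏ i, Ideal.absNorm (e i).1.asIdeal ^ ct (τ i) : ℕ) : ℝ) * T.card) / 2 := by
        exact div_le_div_of_nonneg_right hT2 (by norm_num)
    _ ≤ ((h : ℝ) ^ ((N ^ 2 * g + 1) * (3 * tA + 2 * tB)) * (2 * U.card)) / 2 := by
        refine div_le_div_of_nonneg_right ?_ (by norm_num)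
        exact mul_le_mul hP hTU (Nat.cast_nonneg _) (by positivity)
    _ = _ := by ring

end

end Pool.Agent.H26.RL
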