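import Pool.Agent.H26.RL.Iter
import Pool.Agent.H26.RL.OneT
import Pool.Agent.H26.RL.FewT
import Pool.Agent.H98.TQ.Primes

/-!
# Project RL, row RL-19: the size of the family
-/

set_option autoImplicit false

open Polynomial IsDedekindDomain NumberField
open Pool.Agent.H67.MU (Bdd)
open Pool.Agent.H92.SQ2 (gg WW)
open Pool.Agent.H98.TQ
open Pool.Agent.H96.T3 (D1)

namespace Pool.Agent.H26.RL

section

variable (k : Type) [Field k] [NumberField k]

/-- double counting -/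
theorem rl_19_double {α β : Type} [DecidableEq α] (G : Finset β) (T : β → Finset α)
    (c K : ℝ) (hk : ∀ i ∈ G, c ≤ ((T i).card : ℝ))
    (hK : ∀ f ∈ G.biUnion T, ((G.filter fun i => f ∈ T i).card : ℝ) ≤ K) :
    c * G.card ≤ K * (G.biUnion T).card := by
  have h1 : ∑ i ∈ G, (T i).card = ∑ f ∈ G.biUnion T, (G.filter fun i => f ∈ T i).card := by
    calc ∑ i ∈ G, (T i).card
        = ∑ i ∈ G, ∑ f ∈ G.biUnion T, (if f ∈ T i then 1 else 0) := by
          refine Finset.sum_congr rfl fun i hi => ?_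
          rw [Finset.sum_boole, Nat.cast_id]
          congr 1
          ext f
          rw [Finset.mem_filter]
          exact ⟨fun hf => ⟨Finset.mem_biUnion.mpr ⟨i, hi, hf⟩, hf⟩, fun hf => hf.2⟩
      _ = ∑ f ∈ G.biUnion T, ∑ i ∈ G, (if f ∈ T i then 1 else 0) := Finset.sum_comm
      _ = _ := by
          refine Finset.sum_congr rfl fun f _ => ?_
          rw [Finset.sum_boole, Nat.cast_id]
  have h2 : c * G.card ≤ ∑ i ∈ G, ((T i).card : ℝ) := by
    rw [mul_comm, ← nsmul_eq_mul, ← Finset.sum_const]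
    exact Finset.sum_le_sum hk
  have h3 : (∑ i ∈ G, ((T i).card : ℝ)) =
      ∑ f ∈ G.biUnion T, ((G.filter fun i => f ∈ T i).card : ℝ) := by exact_mod_cast h1
  rw [h3] at h2
  refine h2.trans ((Finset.sum_le_sum hK).trans (le_of_eq ?_))
  rw [Finset.sum_const, nsmul_eq_mul, mul_comm]

/-- the type vector with `tA` planted primes -/
theorem rl_19_type (tA tB : ℕ) : ∃ τ : Fin (tA + tB) → Bool,
    (Finset.univ.filter fun i => τ i = true).card = tA ∧
    (Finset.univ.filter fun i => τ i = false).card = tB ∧ qq τ = 3 * tA + 2 * tB := by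
  classical
  refine ⟨Fin.append (fun _ : Fin tA => true) (fun _ : Fin tB => false), ?_, ?_, ?_⟩
  · rw [Finset.card_filter, Fin.sum_univ_add]
    simp
  · rw [Finset.card_filter, Fin.sum_univ_add]
    simp
  · rw [qq, Fin.sum_univ_add]
    simp [ct]
    ring

open scoped Classical in
theorem fam_count4 (n N0 b g tA tB K1 K2 : ℕ) (s : (𝓞 k)[X]) (hN0 : 0 < N0) (hs : s.Monic)
    (hsn : s.natDegree = n) (hc : CondR (Module.finrank ℚ k) n b g tA tB)
    (hfew : ∃ h0 : ℕ, ∀ h ≥ h0, ∀ S : Finset (HeightOneSpectrum (𝓞 k)),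
      PS h ((n - 1) ^ 2 * g + 1) S → ∀ f : (𝓞 k)[X], Fam n N0 s (2 * b) h f →
      (S.filter fun m => ∃ x : 𝓞 k, Dbl m.asIdeal x f).card ≤ K1 ∧
      (S.filter fun l => ∃ x : 𝓞 k, f.eval x ∈ l.asIdeal ∧ f.eval x ∉ l.asIdeal ^ 2 ∧
        f.derivative.eval x ∈ l.asIdeal).card ≤ K2) :
    ∃ c : ℝ, 0 < c ∧ ∃ h0 : ℕ, ∀ h ≥ h0, ∃ T : Finset (𝓞 k)[X],
      (∀ f ∈ T, Fam n N0 s (2 * b) h f ∧ Gd h g (n - 1) tA tB f) ∧
      c * (h : ℝ) ^ (Module.finrank ℚ k * (2 * b * (n * (n + 1) / 2 - 1)) -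
        ((n - 1) ^ 2 * g * tA + 3 * tA + 2 * tB)) ≤ T.card := by
  obtain ⟨τ, hτA, hτB, hτ⟩ := rl_19_type tA tB
  obtain ⟨a0, ha0⟩ : ∃ a0 : ℕ, a0 = (2 * b * (n - 1) + Module.finrank ℚ k * ((n - 1) * b) +
    (n - 1) * g * qq τ + Module.finrank ℚ k * (n - 1) * (4 * ((n - 1) ^ 2 * g) + 10) +
      (n - 1) ^ 2 * (3 * g + Module.finrank ℚ k * b)) + (4 * b + 2 * b * n) := ⟨_, rfl⟩
  have hA : cA (Module.finrank ℚ k) (n - 1) b g a0 (qq τ) (Module.finrank ℚ k * b) := by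
    rw [cA, ha0]; exact Nat.le_add_right _ _
  have ha : 4 * b + 2 * b * n ≤ a0 := by
    rw [ha0]; exact Nat.le_add_left _ _
  clear ha0
  have hn5 := hc.cn
  have hcb : 4 * g * (n - 1) ^ 2 ≤ Module.finrank ℚ k * b := by
    refine le_trans ?_ hc.cb
    have h1 : 4 * g * (n - 1) ^ 3 = (n - 1) * (4 * g * (n - 1) ^ 2) := by ring
    have h2 : 4 * g * (n - 1) ^ 2 ≤ (n - 1) * (4 * g * (n - 1) ^ 2) :=
      Nat.le_mul_of_pos_left _ (by omega)
    omega
  obtain ⟨h1, H1⟩ := iterate k (n - 1) b g a0 (tA + tB) (by omega) hc.cg τ hcb hA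
  obtain ⟨c, hc0, h2, H2⟩ := one_tuple k n N0 b g a0 tA tB s τ hτ hN0 hs hsn hc ha
  obtain ⟨h3, H3⟩ := exists_ps k ((n - 1) ^ 2 * g + 1) (by omega)
  obtain ⟨h4, H4⟩ := hfew
  set K : ℝ := (((n * (K1 + K2)) ^ (tA + tB) : ℕ) : ℝ) with hK
  have hK0 : 0 ≤ K := Nat.cast_nonneg _
  refine ⟨c / (2 ^ (tA + tB) * (K + 1)), by positivity, max (max h1 h2) (max (max h3 h4) 1),
    fun h hh => ?_⟩
  have a1 : h1 ≤ h := le_trans (le_trans (le_max_left _ _) (le_max_left _ _)) hh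
  have a2 : h2 ≤ h := le_trans (le_trans (le_max_right _ _) (le_max_left _ _)) hh
  have a3 : h3 ≤ h := le_trans (le_trans (le_trans (le_max_left _ _) (le_max_left _ _))
    (le_max_right _ _)) hh
  have a4 : h4 ≤ h := le_trans (le_trans (le_trans (le_max_right _ _) (le_max_left _ _))
    (le_max_right _ _)) hh
  have a5 : 1 ≤ h := le_trans (le_trans (le_max_right _ _) (le_max_right _ _)) hh
  obtain ⟨S, hS, hSc⟩ := H3 h a3
  rw [Nat.add_sub_cancel] at hSc
  obtain ⟨G, hG, hGc⟩ := H1 h a1 S hS hSc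
  have hU : ∀ e : Fin (tA + tB) → HeightOneSpectrum (𝓞 k) × ℕ, ∃ U : Finset (𝓞 k)[X], e ∈ G →
      (∀ f ∈ U, Fam n N0 s (2 * b) h f ∧ Gt τ e f) ∧
        c * (h : ℝ) ^ (Module.finrank ℚ k * (2 * b * (n * (n + 1) / 2 - 1))) ≤
          (h : ℝ) ^ (((n - 1) ^ 2 * g + 1) * (3 * tA + 2 * tB)) * U.card := by
    intro e
    by_cases he : e ∈ G
    · obtain ⟨he1, he2, he3⟩ := hG e he
      obtain ⟨U, hU1, hU2⟩ := H2 h a2 S hS e (fun i => (he1 i).1) he2 he3
      exact ⟨U, fun _ => ⟨hU1, hU2⟩⟩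
    · exact ⟨∅, fun h' => absurd h' he⟩
  choose U hU using hU
  refine ⟨G.biUnion U, ?_, ?_⟩
  · intro f hf
    rw [Finset.mem_biUnion] at hf
    obtain ⟨e, he, hf⟩ := hf
    obtain ⟨hF, hGt⟩ := (hU e he).1 f hf
    exact ⟨hF, gd_of_gt h g (n - 1) tA tB τ hτA hτB S hS e (fun i => ((hG e he).1 i).1)
      (hG e he).2.1 f hGt⟩
  · have hh0 : (0 : ℝ) < h := by exact_mod_cast a5
    have hh1 : (1 : ℝ) ≤ h := by exact_mod_cast a5
    obtain ⟨W, hW⟩ : ∃ W, W = Module.finrank ℚ k * (2 * b * (n * (n + 1) / 2 - 1)) := ⟨_, rfl⟩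
    obtain ⟨Q, hQ⟩ : ∃ Q, Q = ((n - 1) ^ 2 * g + 1) * (3 * tA + 2 * tB) := ⟨_, rfl⟩
    rw [← hW]
    have hdc := rl_19_double G U (c * (h : ℝ) ^ W / (h : ℝ) ^ Q) K (fun e he => by
        rw [div_le_iff₀ (by positivity), hW, hQ, mul_comm ((U e).card : ℝ)]
        exact (hU e he).2) (fun f hf => by
        rw [Finset.mem_biUnion] at hf
        obtain ⟨e, he, hf⟩ := hf
        have hF := ((hU e he).1 f hf).1
        obtain ⟨hk1, hk2⟩ := H4 h a4 S hS f hF
        rw [hK]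
        exact_mod_cast few_tuples n N0 (2 * b) h ((n - 1) ^ 2 * g + 1) (tA + tB) K1 K2 s τ a5 S hS f hF
          hk1 hk2 _ (fun e' he' => by
            rw [Finset.mem_filter] at he'
            exact ⟨(hG e' he'.1).1, ((hU e' he'.1).1 f he'.2).2⟩))
    have hGr : (h : ℝ) ^ (2 * ((n - 1) ^ 2 * g) * (tA + tB)) ≤ 2 ^ (tA + tB) * G.card := by exact_mod_cast hGc
    have e1 : 2 * ((n - 1) ^ 2 * g) * (tA + tB) + ((n - 1) ^ 2 * g * tA + 3 * tA + 2 * tB) = Q := by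
      rw [hQ]; ring
    -- the main inequality
    have hmain : c * (h : ℝ) ^ (2 * ((n - 1) ^ 2 * g) * (tA + tB) + W) ≤
        2 ^ (tA + tB) * (K * (h : ℝ) ^ Q * (G.biUnion U).card) := by
      have h5 : c * (h : ℝ) ^ W * G.card ≤ K * (h : ℝ) ^ Q * (G.biUnion U).card := by
        have hQ0 : (0 : ℝ) < (h : ℝ) ^ Q := by positivity
        have := mul_le_mul_of_nonneg_right hdc hQ0.le
        calc c * (h : ℝ) ^ W * G.card = c * (h : ℝ) ^ W / (h : ℝ) ^ Q * G.card * (h : ℝ) ^ Q := by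
              field_simp
          _ ≤ K * (G.biUnion U).card * (h : ℝ) ^ Q := this
          _ = _ := by ring
      calc c * (h : ℝ) ^ (2 * ((n - 1) ^ 2 * g) * (tA + tB) + W)
          = (c * (h : ℝ) ^ W) * (h : ℝ) ^ (2 * ((n - 1) ^ 2 * g) * (tA + tB)) := by rw [pow_add]; ring
        _ ≤ (c * (h : ℝ) ^ W) * (2 ^ (tA + tB) * G.card) :=
            mul_le_mul_of_nonneg_left hGr (by positivity)
        _ = 2 ^ (tA + tB) * (c * (h : ℝ) ^ W * G.card) := by ring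
        _ ≤ _ := mul_le_mul_of_nonneg_left h5 (by positivity)
    obtain ⟨R, hR⟩ : ∃ R, R = (n - 1) ^ 2 * g * tA + 3 * tA + 2 * tB := ⟨_, rfl⟩
    rw [← hR] at e1 ⊢
    have h6 : (h : ℝ) ^ (W - R) * (h : ℝ) ^ Q ≤ (h : ℝ) ^ (2 * ((n - 1) ^ 2 * g) * (tA + tB) + W) *
        (h : ℝ) ^ (R - W) := by
      rw [← pow_add, ← pow_add]
      exact pow_le_pow_right₀ hh1 (by omega)
    -- the exponent does not become negative
    have hRW : R ≤ W := by
      rw [hR, hW]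
      have cW := hc.cW
      have hD : 1 ≤ Module.finrank ℚ k := Module.finrank_pos
      obtain ⟨N, hN⟩ : ∃ N, n = N + 1 := ⟨n - 1, by omega⟩
      have hN4 : 4 ≤ N := by omega
      subst hN
      rw [Nat.add_sub_cancel] at cW ⊢
      have hWW : (N + 1) * (N + 1 + 1) / 2 - 1 = (N + 1) * (N + 1 + 1) / 2 - 1 := rfl
      have h7 : 2 * ((N + 1) * (N + 1 + 1) / 2) = (N + 1) * (N + 1 + 1) :=
        Nat.mul_div_cancel' (Nat.even_mul_succ_self (N + 1)).two_dvd
      obtain ⟨V, hV⟩ : ∃ V, (N + 1) * (N + 1 + 1) / 2 = V + 1 := ⟨(N + 1) * (N + 1 + 1) / 2 - 1, by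
        have : 1 ≤ (N + 1) * (N + 1 + 1) / 2 := by
          rw [Nat.le_div_iff_mul_le (by norm_num)]
          nlinarith
        omega⟩
      rw [hV] at h7
      rw [hV, Nat.add_sub_cancel]
      have h8 : 2 * V = N * (N + 3) := by nlinarith
      have h9 : N * (N * g * (3 * tA + 2 * tB) + Module.finrank ℚ k * (3 * tA + 2 * tB +
          4 * g * N ^ 4 + N * (tA + tB + 3) + N * Module.finrank ℚ k + 3)) ≤
          N * (Module.finrank ℚ k * (b * (N + 1 + 2))) := Nat.mul_le_mul_left _ cW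
      have h10 : N * (Module.finrank ℚ k * (b * (N + 1 + 2))) =
          Module.finrank ℚ k * (2 * b * V) := by
        have : Module.finrank ℚ k * (2 * b * V) = Module.finrank ℚ k * (b * (2 * V)) := by ring
        rw [this, h8]; ring
      rw [h10] at h9
      refine le_trans ?_ h9
      have h11 : 3 * tA + 2 * tB ≤ N * (Module.finrank ℚ k * (3 * tA + 2 * tB)) := by
        have : 1 ≤ N * Module.finrank ℚ k := Nat.mul_pos (by omega) hD
        calc 3 * tA + 2 * tB = 1 * (3 * tA + 2 * tB) := (one_mul _).symm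
          _ ≤ N * Module.finrank ℚ k * (3 * tA + 2 * tB) := Nat.mul_le_mul_right _ this
          _ = _ := by ring
      have h12 : N ^ 2 * g * tA ≤ N * (N * g * (3 * tA + 2 * tB)) := by
        calc N ^ 2 * g * tA ≤ N ^ 2 * g * (3 * tA + 2 * tB) := Nat.mul_le_mul_left _ (by omega)
          _ = _ := by ring
      have h13 : N * (N * g * (3 * tA + 2 * tB)) + N * (Module.finrank ℚ k * (3 * tA + 2 * tB)) ≤
          N * (N * g * (3 * tA + 2 * tB) + Module.finrank ℚ k * (3 * tA + 2 * tB +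
          4 * g * N ^ 4 + N * (tA + tB + 3) + N * Module.finrank ℚ k + 3)) := by
        rw [← Nat.mul_add, ]
        refine Nat.mul_le_mul_left _ (Nat.add_le_add_left ?_ _)
        exact Nat.mul_le_mul_left _ (by omega)
      omega
    rw [Nat.sub_eq_zero_of_le hRW, pow_zero, mul_one] at h6
    have h14 : c * (h : ℝ) ^ (W - R) * (h : ℝ) ^ Q ≤
        2 ^ (tA + tB) * ((K + 1) * (G.biUnion U).card) * (h : ℝ) ^ Q := by
      calc c * (h : ℝ) ^ (W - R) * (h : ℝ) ^ Q = c * ((h : ℝ) ^ (W - R) * (h : ℝ) ^ Q) := by ring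
        _ ≤ c * (h : ℝ) ^ (2 * ((n - 1) ^ 2 * g) * (tA + tB) + W) := mul_le_mul_of_nonneg_left h6 hc0.le
        _ ≤ 2 ^ (tA + tB) * (K * (h : ℝ) ^ Q * (G.biUnion U).card) := hmain
        _ = 2 ^ (tA + tB) * (K * (G.biUnion U).card) * (h : ℝ) ^ Q := by ring
        _ ≤ _ := by
            have hc1 : (0 : ℝ) ≤ (G.biUnion U).card := Nat.cast_nonneg _
            gcongr
            linarith
    have h15 : c * (h : ℝ) ^ (W - R) ≤ 2 ^ (tA + tB) * ((K + 1) * (G.biUnion U).card) :=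
      le_of_mul_le_mul_right h14 (by positivity)
    rw [div_mul_eq_mul_div, div_le_iff₀ (by positivity)]
    calc c * (h : ℝ) ^ (W - R) ≤ 2 ^ (tA + tB) * ((K + 1) * (G.biUnion U).card) := h15
      _ = _ := by ring

end

end Pool.Agent.H26.RL
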