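import Pool.Agent.H26.RL.FamC4
import Pool.Agent.H98.TQ.FieldC

/-!
# Project RL (MP_a3214d), row RL-20: the number of fields from the family
-/

set_option autoImplicit false

open Polynomial IsDedekindDomain NumberField Pool.Agent.H35.AN
open Pool.Agent.H67.MU (Bdd)
open Pool.Agent.H92.SQ2 (gg WW)
open Pool.Agent.H98.TQ
open Pool.Agent.H96.T3 (D1)

namespace Pool.Agent.H26.RL

section

variable (k : Type) [Field k] [NumberField k]

variable {k} in
/-- distinct primes dividing an integer: their product divides it -/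
theorem rl20_prod_le (D : ℤ) (hD : D ≠ 0) (P : Finset (HeightOneSpectrum (𝓞 k)))
    (hp : ∀ l ∈ P, (Ideal.absNorm l.asIdeal).Prime)
    (hi : ∀ l ∈ P, ∀ l' ∈ P, Ideal.absNorm l.asIdeal = Ideal.absNorm l'.asIdeal → l = l')
    (hd : ∀ l ∈ P, ((Ideal.absNorm l.asIdeal : ℕ) : ℤ) ∣ D) :
    ((∏ l ∈ P, Ideal.absNorm l.asIdeal : ℕ) : ℝ) ≤ |(D : ℝ)| := by
  have h1 : (∏ l ∈ P, ((Ideal.absNorm l.asIdeal : ℕ) : ℤ)) ∣ D := by
    refine Finset.prod_dvd_of_coprime ?_ hd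
    intro l hl l' hl' hne
    exact Nat.isCoprime_iff_coprime.2
      ((Nat.coprime_primes (hp l hl) (hp l' hl')).2 fun he => hne (hi l hl l' hl' he))
  have h2 : (∏ l ∈ P, ((Ideal.absNorm l.asIdeal : ℕ) : ℤ)) ≤ |D| :=
    Int.le_of_dvd (abs_pos.2 hD) ((dvd_abs _ _).2 h1)
  have h3 : ((∏ l ∈ P, ((Ideal.absNorm l.asIdeal : ℕ) : ℤ) : ℤ) : ℝ) ≤ ((|D| : ℤ) : ℝ) := by
    exact_mod_cast h2
  rw [Int.cast_abs] at h3
  refine le_trans (le_of_eq ?_) h3
  push_cast
  rfl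

theorem field_count4 (n r b g tA tB w : ℕ) (hr : 1 ≤ r) (hrn : r + 2 ≤ n)
    (hc : CondR (Module.finrank ℚ k) n b g tA tB)
    (hv : Module.finrank ℚ k * (2 * (2 * b) * gg n (r + 1)) + 2 ≤ (n - 1) ^ 2 * g * tB)
    (hw : w ≤ 2 * b)
    (hw2 : Module.finrank ℚ k * (w * (n * (n + 1) / 2 - 1) + (2 * b - w + 1) * r) +
      ((n - 1) ^ 2 * g * tA + 3 * tA + 2 * tB) + 1 ≤
        Module.finrank ℚ k * (2 * b * (n * (n + 1) / 2 - 1))) :
    ∃ c C : ℝ, 0 < c ∧ 0 < C ∧ ∃ h0 : ℕ, ∀ h : ℕ, h0 ≤ h →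
      c * (h : ℝ) ^ (Module.finrank ℚ k * (2 * b * (n * (n + 1) / 2 - 1)) -
          ((n - 1) ^ 2 * g * tA + 3 * tA + 2 * tB) - Module.finrank ℚ k * ((2 * b - w) * r)) ≤
        (malleCount k n ⊤ (C * (h : ℝ) ^ (Module.finrank ℚ k * (2 * b * n * (n - 1)) -
          2 * ((n - 1) ^ 2 * g * tA))) : ℝ) := by
  classical
  have hn : 5 ≤ n := hc.cn
  have hg : 1 ≤ g := hc.cg
  obtain ⟨N0, s, C0, hN0, hs, hsn, hC0, hmem⟩ := mem_key k n (by omega)
  set J := (n - 1) ^ 2 * g + 1 with hJ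
  have hJ2 : 2 ≤ J := by
    have h1 : 0 < (n - 1) ^ 2 * g := Nat.mul_pos (pow_pos (by omega) 2) (by omega)
    omega
  obtain ⟨hm1, hfm⟩ := few_m k n (2 * b) J hJ2 C0
  obtain ⟨hl1, hfl⟩ := few_l k n (2 * b) J hJ2 C0
  have hfew : ∃ h0 : ℕ, ∀ h ≥ h0, ∀ S : Finset (HeightOneSpectrum (𝓞 k)), PS h J S →
      ∀ f : (𝓞 k)[X], Fam n N0 s (2 * b) h f →
      (S.filter fun m => ∃ x : 𝓞 k, Dbl m.asIdeal x f).card ≤
        Module.finrank ℚ k * (2 * b * n * (n - 1)) ∧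
      (S.filter fun l => ∃ x : 𝓞 k, f.eval x ∈ l.asIdeal ∧ f.eval x ∉ l.asIdeal ^ 2 ∧
        f.derivative.eval x ∈ l.asIdeal).card ≤
          Module.finrank ℚ k * (2 * b * n * (n - 1)) + 1 := by
    refine ⟨max (max hm1 hl1) 1, fun h hh S hS f hf => ?_⟩
    have hhm : hm1 ≤ h := (le_max_left _ _).trans ((le_max_left _ _).trans hh)
    have hhl : hl1 ≤ h := (le_max_right _ _).trans ((le_max_left _ _).trans hh)
    have hh1 : 1 ≤ h := (le_max_right _ _).trans hh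
    obtain ⟨-, -, hdm, x, -, -, hnf, -, hD, -, hdl⟩ := hmem (2 * b) h hh1 f hf
    refine ⟨hfm h hhm S hS f hdm, ?_⟩
    refine le_trans (Finset.card_le_card ?_) (hfl h hhl
      (NumberField.discr (IntermediateField.adjoin k {x}))
      (NumberField.discr_ne_zero _) hD S hS)
    intro l hl
    rw [Finset.mem_filter] at hl ⊢
    refine ⟨hl.1, ?_⟩
    obtain ⟨y, h1, h2, h3⟩ := hl.2
    exact hdl l y (hS.prime l hl.1) h1 h2 h3
  obtain ⟨c1, hc10, hf1, hfam⟩ := fam_count4 k n N0 b g tA tB _ _ s hN0 hs hsn hc hfew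
  obtain ⟨ht1, hthin⟩ := tq31_thin k n r (2 * b) ((n - 1) ^ 2 * g * tB + 1) (by omega) C0 hC0
    (by omega)
  obtain ⟨C2, hC2, hlow⟩ := low_count k n r (by omega) (by
    have : n ≤ n * (n + 1) / 2 := by
      rw [Nat.le_div_iff_mul_le (by norm_num)]
      nlinarith
    omega) C0 hC0
  obtain ⟨C3, hC3, hhigh⟩ := high_mult k n r (by omega) C0 hC0
  set W := n * (n + 1) / 2 - 1 with hW
  set d0 := Module.finrank ℚ k with hd0
  set e0 := (n - 1) ^ 2 * g * tA with he0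
  set E := e0 + 3 * tA + 2 * tB with hE
  obtain ⟨hk1, hhk⟩ := exists_nat_gt (2 * (C2 * (w + 1)) / c1)
  refine ⟨c1 / (2 * C3), C0, by positivity, by linarith,
    max (max hf1 ht1) (max hk1 2), fun h hh => ?_⟩
  have hhf : hf1 ≤ h := (le_max_left _ _).trans ((le_max_left _ _).trans hh)
  have hht : ht1 ≤ h := (le_max_right _ _).trans ((le_max_left _ _).trans hh)
  have hhk' : hk1 ≤ h := (le_max_left _ _).trans ((le_max_right _ _).trans hh)
  have hh2 : 2 ≤ h := (le_max_right _ _).trans ((le_max_right _ _).trans hh)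
  have hh1 : (1 : ℝ) ≤ h := by
    have : (2 : ℝ) ≤ h := by exact_mod_cast hh2
    linarith
  have hh0 : (0 : ℝ) < h := by linarith
  obtain ⟨T, hT, hTc⟩ := hfam h hhf
  set B : ℝ := C0 * (h : ℝ) ^ (d0 * (2 * b * n * (n - 1)) - 2 * e0) with hB
  -- everything about one member
  have hone : ∀ f ∈ T, Mb n (C0 * (h : ℝ) ^ (2 * b)) (s.coeff (n - 1)) f ∧
      ∃ x : AlgebraicClosure k, aeval x (FK f) = 0 ∧
        IsSymF k n (IntermediateField.adjoin k {x}) ∧
        ∃ _ : NumberField (IntermediateField.adjoin k {x}),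
          SymK k n (IntermediateField.adjoin k {x}) ∧
          |(NumberField.discr (IntermediateField.adjoin k {x}) : ℝ)| ≤ B ∧
          Thin k r (2 * n * (C0 * (h : ℝ) ^ (2 * b))) (IntermediateField.adjoin k {x}) := by
    intro f hf
    obtain ⟨hF, hGd⟩ := hT f hf
    obtain ⟨m, y, hm0, hmn, hdb⟩ := hGd.pl
    obtain ⟨P, hPp, hPi, hPn, hPr⟩ := hGd.rm
    obtain ⟨hirr, hrt, -, x, hx, hsym, hnf, hsk, -, hDm, hDl⟩ := hmem (2 * b) h (by omega) f hF
    refine ⟨⟨hF.deg, hF.monic, hF.snd, hirr, hrt⟩, x, hx, hsym, hnf, hsk, ?_, ?_⟩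
    · have h1 := hDm m y hm0 hdb
      have h2 : (h : ℝ) ^ e0 ≤ (Ideal.absNorm m : ℝ) := by exact_mod_cast hmn
      have h3 : (h : ℝ) ^ (2 * e0) ≤ (Ideal.absNorm m : ℝ) ^ 2 := by
        rw [mul_comm, pow_mul]
        exact pow_le_pow_left₀ (by positivity) h2 2
      have h4 : (h : ℝ) ^ (d0 * (2 * b * n * (n - 1))) ≤
          (h : ℝ) ^ (d0 * (2 * b * n * (n - 1)) - 2 * e0) * (h : ℝ) ^ (2 * e0) := by
        rw [← pow_add]
        exact pow_le_pow_right₀ hh1 (by omega)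
      have h5 : (0 : ℝ) < (h : ℝ) ^ (2 * e0) := by positivity
      refine le_of_mul_le_mul_right ?_ h5
      calc |(NumberField.discr (IntermediateField.adjoin k {x}) : ℝ)| *
            (h : ℝ) ^ (2 * e0) ≤
          |(NumberField.discr (IntermediateField.adjoin k {x}) : ℝ)| *
            (Ideal.absNorm m : ℝ) ^ 2 :=
            mul_le_mul_of_nonneg_left h3 (abs_nonneg _)
        _ ≤ C0 * (h : ℝ) ^ (d0 * (2 * b * n * (n - 1))) := h1
        _ ≤ C0 * ((h : ℝ) ^ (d0 * (2 * b * n * (n - 1)) - 2 * e0) *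
            (h : ℝ) ^ (2 * e0)) :=
            mul_le_mul_of_nonneg_left h4 (by linarith)
        _ = B * (h : ℝ) ^ (2 * e0) := by rw [hB]; ring
    · refine hthin h hht _ hsk ?_
      have h1 := rl20_prod_le (NumberField.discr (IntermediateField.adjoin k {x}))
        (NumberField.discr_ne_zero _) P hPp hPi (fun l hl => by
          obtain ⟨z, hz1, hz2, hz3⟩ := hPr l hl
          exact hDl l z (hPp l hl) hz1 hz2 hz3)
      refine le_trans ?_ h1
      have h2 : (n - 1) ^ 2 * g * tB + 1 - 1 = (n - 1) ^ 2 * g * tB := by omega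
      rw [h2]
      exact_mod_cast hPn
  -- the low part
  set Q : (𝓞 k)[X] → Prop := fun f => ∃ (K : Type) (_ : Field K) (_ : NumberField K)
    (_ : Algebra k K) (y : K), aeval y (FK f) = 0 ∧ SymK k n K ∧
      Thin k r (2 * n * (C0 * (h : ℝ) ^ (2 * b))) K ∧
      ∃ z : K, z ≠ 0 ∧ Sh k ((h : ℝ) ^ w) z with hQ
  have hTl : ((T.filter Q).card : ℝ) ≤ c1 / 2 * (h : ℝ) ^ (d0 * (2 * b * W) - E) := by
    have h1 := hlow h (2 * b) w (s.coeff (n - 1)) hh2 hw (T.filter Q) (fun f hf => by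
      rw [Finset.mem_filter] at hf
      exact ⟨(hone f hf.1).1, hf.2⟩)
    have h2 : (h : ℝ) ^ (d0 * (w * W + (2 * b - w + 1) * r)) ≤
        (h : ℝ) ^ (d0 * (2 * b * W) - E - 1) :=
      pow_le_pow_right₀ hh1 (by omega)
    have h3 : (h : ℝ) ^ (d0 * (2 * b * W) - E) = (h : ℝ) ^ (d0 * (2 * b * W) - E - 1) * h := by
      rw [← pow_succ]
      congr 1
      omega
    have h4 : C2 * (w + 1) ≤ c1 / 2 * h := by
      have h5 : 2 * (C2 * (w + 1)) / c1 < h := hhk.trans_le (by exact_mod_cast hhk')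
      rw [div_lt_iff₀ hc10] at h5
      linarith
    have h6 : (0 : ℝ) < (h : ℝ) ^ (d0 * (2 * b * W) - E - 1) := by positivity
    calc ((T.filter Q).card : ℝ) ≤
          C2 * (w + 1) * (h : ℝ) ^ (d0 * (w * W + (2 * b - w + 1) * r)) := h1
      _ ≤ C2 * (w + 1) * (h : ℝ) ^ (d0 * (2 * b * W) - E - 1) :=
          mul_le_mul_of_nonneg_left h2 (by positivity)
      _ ≤ c1 / 2 * h * (h : ℝ) ^ (d0 * (2 * b * W) - E - 1) :=
          mul_le_mul_of_nonneg_right h4 h6.le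
      _ = c1 / 2 * (h : ℝ) ^ (d0 * (2 * b * W) - E) := by rw [h3]; ring
  have hTh : c1 / 2 * (h : ℝ) ^ (d0 * (2 * b * W) - E) ≤
      ((T.filter fun f => ¬ Q f).card : ℝ) := by
    have h1 : (T.filter Q).card + (T.filter fun f => ¬ Q f).card = T.card :=
      Finset.card_filter_add_card_filter_not Q
    have h2 : ((T.filter Q).card : ℝ) + ((T.filter fun f => ¬ Q f).card : ℝ) = T.card := by
      exact_mod_cast h1
    linarith
  -- a root in the field generated by a root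
  have hgen : ∀ (f : (𝓞 k)[X]) (x : AlgebraicClosure k), aeval x (FK f) = 0 →
      aeval (IntermediateField.AdjoinSimple.gen k x) (FK f) = 0 := by
    intro f x hx
    apply (algebraMap (IntermediateField.adjoin k {x}) (AlgebraicClosure k)).injective
    rw [map_zero, ← hx, ← Polynomial.aeval_algebraMap_apply,
      IntermediateField.AdjoinSimple.algebraMap_gen k x]
  -- the high part
  set N : ℕ := ⌊C3 * (h : ℝ) ^ (d0 * ((2 * b - w) * r))⌋₊ with hN
  have hcls := class_sym k n B (T.filter fun f => ¬ Q f) N (fun f hf => by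
      rw [Finset.mem_filter] at hf
      obtain ⟨hMb, x, hx, hsym, hnf, -, hD, -⟩ := hone f hf.1
      exact ⟨hMb.deg, hMb.irr, x, hx, hsym, hnf, hD⟩) (fun f hf G hG hiso => by
      rw [Finset.mem_filter] at hf
      obtain ⟨hMb, x, hx, -, hnf, hsk, -, hth⟩ := hone f hf.1
      rw [hN]
      refine Nat.le_floor ?_
      refine hhigh h (2 * b) w (s.coeff (n - 1)) (by omega) hw f hMb.deg hMb.irr ?_ G ?_
      · refine ⟨IntermediateField.adjoin k {x}, inferInstance, hnf, inferInstance,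
          IntermediateField.AdjoinSimple.gen k x, hgen f x hx, hsk, hth, ?_⟩
        intro z hz
        by_contra hz0
        exact hf.2 ⟨IntermediateField.adjoin k {x}, inferInstance, hnf, inferInstance,
          IntermediateField.AdjoinSimple.gen k x, hgen f x hx, hsk, hth, z, hz0, hz⟩
      · intro g hg
        have hgT := (Finset.mem_filter.1 (hG hg)).1
        exact ⟨(hone g hgT).1, hiso g hg⟩)
  have h1 : ((T.filter fun f => ¬ Q f).card : ℝ) ≤
      C3 * (h : ℝ) ^ (d0 * ((2 * b - w) * r)) * (malleCount k n ⊤ B : ℝ) := by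
    have h2 : ((T.filter fun f => ¬ Q f).card : ℝ) ≤ (N : ℝ) * (malleCount k n ⊤ B : ℝ) := by
      exact_mod_cast hcls
    refine h2.trans (mul_le_mul_of_nonneg_right ?_ (Nat.cast_nonneg _))
    exact Nat.floor_le (by positivity)
  have h2 : (h : ℝ) ^ (d0 * (2 * b * W) - E) =
      (h : ℝ) ^ (d0 * (2 * b * W) - E - d0 * ((2 * b - w) * r)) *
        (h : ℝ) ^ (d0 * ((2 * b - w) * r)) := by
    rw [← pow_add]
    congr 1
    have h3 : d0 * (w * W + (2 * b - w + 1) * r) =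
        d0 * (w * W) + (d0 * ((2 * b - w) * r) + d0 * r) := by
      ring
    omega
  have h3 : (0 : ℝ) < (h : ℝ) ^ (d0 * ((2 * b - w) * r)) := by positivity
  have h4 := hTh.trans h1
  rw [h2] at h4
  have h5 : c1 / 2 * (h : ℝ) ^ (d0 * (2 * b * W) - E - d0 * ((2 * b - w) * r)) ≤
      C3 * (malleCount k n ⊤ B : ℝ) := by
    refine le_of_mul_le_mul_right ?_ h3
    calc c1 / 2 * (h : ℝ) ^ (d0 * (2 * b * W) - E - d0 * ((2 * b - w) * r)) *
          (h : ℝ) ^ (d0 * ((2 * b - w) * r)) =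
        c1 / 2 * ((h : ℝ) ^ (d0 * (2 * b * W) - E - d0 * ((2 * b - w) * r)) *
          (h : ℝ) ^ (d0 * ((2 * b - w) * r))) := by ring
      _ ≤ C3 * (h : ℝ) ^ (d0 * ((2 * b - w) * r)) * (malleCount k n ⊤ B : ℝ) := h4
      _ = C3 * (malleCount k n ⊤ B : ℝ) * (h : ℝ) ^ (d0 * ((2 * b - w) * r)) := by ring
  have h6 : c1 / (2 * C3) * (h : ℝ) ^ (d0 * (2 * b * W) - E - d0 * ((2 * b - w) * r)) =
      (c1 / 2 * (h : ℝ) ^ (d0 * (2 * b * W) - E - d0 * ((2 * b - w) * r))) / C3 := by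
    have : C3 ≠ 0 := by linarith
    field_simp
  rw [h6, div_le_iff₀ (by linarith)]
  linarith

end

end Pool.Agent.H26.RL
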