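import Pool.Agent.H26.RL.Defs
import Pool.Agent.H26.RL.FamC4
import Pool.Agent.H98.TQ.DefsL
import Pool.Agent.H98.TQ.Few
import Pool.Agent.H98.TQ.MemK
import Pool.Agent.H98.TQ.DiscS
import Pool.Agent.H98.TQ.Low
import Pool.Agent.H98.TQ.High
import Pool.Agent.H98.TQ.Class2
import Pool.Agent.H98.TQ.Split

/-!
# Project RL (MP_a3214d), row RL-21: the number of fields, limit superior

The members of the family are sorted by the number `s` of independent short integers of trace zero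
in their fields; one class contains a positive proportion. Many short integers make the
discriminant small, few of them make the multiplicities small.
-/

set_option autoImplicit false

open Polynomial IsDedekindDomain NumberField Pool.Agent.H35.AN
open Pool.Agent.H67.MU (Bdd)
open Pool.Agent.H92.SQ2 (gg WW)
open Pool.Agent.H98.TQ
open Pool.Agent.H96.T3 (D1)

namespace Pool.Agent.H26.RL

section

variable (k : Type) [Field k] [NumberField k]

variable {k} in
private theorem rl21_minpoly {n : ℕ} {R : ℝ} {a : 𝓞 k} {g : (𝓞 k)[X]} (hg : Mb n R a g)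
    {K : Type} [Field K] [NumberField K] [Algebra k K] {y : K} (hy : aeval y (FK g) = 0) :
    minpoly k y = FK g :=
  (minpoly.eq_of_irreducible_of_monic hg.irr hy (hg.monic.map _)).symm

variable {k} in
private theorem rl21_deg {n : ℕ} {R : ℝ} {a : 𝓞 k} {g : (𝓞 k)[X]} (hg : Mb n R a g) :
    (FK g).natDegree = n := by
  rw [FK, hg.monic.natDegree_map]
  exact hg.deg

variable {k} in
private theorem rl21_trace {n : ℕ} (hn : 2 ≤ n) {R : ℝ} {a : 𝓞 k} {g : (𝓞 k)[X]}
    (hg : Mb n R a g) {K : Type} [Field K] [NumberField K] [Algebra k K]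
    (hK : Module.finrank k K = n) {y : K} (hy : aeval y (FK g) = 0) :
    Algebra.trace k K y = -(a : k) := by
  have hfd : FiniteDimensional k K := FiniteDimensional.of_finrank_pos (by omega)
  have hm := rl21_minpoly hg hy
  have hdeg := rl21_deg hg
  have hint : IsIntegral k y := Algebra.IsIntegral.isIntegral y
  have h1 : Module.finrank k (IntermediateField.adjoin k {y}) = n := by
    rw [IntermediateField.adjoin.finrank hint, hm, hdeg]
  have h2 : Module.finrank (IntermediateField.adjoin k {y}) K = 1 := by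
    have h3 := Module.finrank_mul_finrank k (IntermediateField.adjoin k {y}) K
    rw [h1, hK] at h3
    have h4 : 0 < n := by omega
    exact Nat.eq_of_mul_eq_mul_left h4 (by rw [h3, mul_one])
  rw [trace_eq_finrank_mul_minpoly_nextCoeff, h2, hm, nextCoeff_of_natDegree_pos (by omega), hdeg,
    FK, coeff_map, hg.snd]
  simp

variable {k} in
/-- every member of the family gives a nonzero short integer of trace zero -/
private theorem rl21_short {n : ℕ} (hn : 2 ≤ n) {R : ℝ} {a : 𝓞 k} {g : (𝓞 k)[X]}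
    (hM : Mb n R a g) {K : Type} [Field K] [NumberField K] [Algebra k K]
    (hK : Module.finrank k K = n) {y : K} (hyg : aeval y (FK g) = 0) :
    ∃ z : K, z ≠ 0 ∧ Sh k (2 * n * R) z := by
  have hfd : FiniteDimensional k K := FiniteDimensional.of_finrank_pos (by omega)
  have hyi : IsIntegral ℤ y := by
    have h1 : IsIntegral (𝓞 k) y := by
      refine ⟨g, hM.monic, ?_⟩
      rw [FK, aeval_map_algebraMap] at hyg
      exact hyg
    exact isIntegral_trans (R := ℤ) (A := 𝓞 k) _ h1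
  have htr := rl21_trace hn hM hK hyg
  have hroot : ∀ φ : K →+* ℂ, ‖φ y‖ ≤ R := by
    intro φ
    refine hM.rt (φ.comp (algebraMap k K)) _ ?_
    have h1 := congrArg φ hyg
    rw [map_zero, aeval_def, hom_eval₂] at h1
    rw [FC, eval_map]
    exact h1
  refine ⟨(n : K) * y + algebraMap k K (a : k), ?_, ?_, ?_, ?_⟩
  · intro h0
    have hn0 : (n : k) ≠ 0 := by
      have : n ≠ 0 := by omega
      exact_mod_cast this
    have hn0' : (n : K) ≠ 0 := by
      have : n ≠ 0 := by omega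
      exact_mod_cast this
    have h1 : y = algebraMap k K (-(a : k) / n) := by
      rw [map_div₀, map_neg, map_natCast, eq_div_iff hn0', mul_comm]
      exact eq_neg_of_add_eq_zero_left h0
    have h2 := rl21_minpoly hM hyg
    rw [h1, minpoly.eq_X_sub_C] at h2
    have h3 := rl21_deg hM
    rw [← h2, natDegree_X_sub_C] at h3
    omega
  · have h1 : IsIntegral ℤ ((n : K)) := by
      have := isIntegral_algebraMap (R := ℤ) (A := K) (x := (n : ℤ))
      simpa using this
    have h2 : IsIntegral ℤ (algebraMap k K (a : k)) :=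
      (RingOfIntegers.isIntegral_coe a).map (algebraMap k K).toIntAlgHom
    exact (h1.mul hyi).add h2
  · have h1 : (n : K) * y + algebraMap k K (a : k) = (n : k) • y + algebraMap k K (a : k) := by
      rw [Algebra.smul_def]
      simp
    rw [h1, map_add, map_smul, htr, Algebra.trace_algebraMap, hK]
    simp
  · intro φ
    have h1 : φ ((n : K) * y + algebraMap k K (a : k)) = n * φ y + φ (algebraMap k K (a : k)) := by
      simp
    have ha : ‖φ (algebraMap k K (a : k))‖ ≤ n * R := by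
      let _ : Algebra k ℂ := (φ.comp (algebraMap k K)).toAlgebra
      have h1 := trace_eq_sum_embeddings (K := k) (L := K) (E := ℂ) (x := y)
      rw [htr] at h1
      have h2 : ‖(algebraMap k ℂ) (-(a : k))‖ = ‖φ (algebraMap k K (a : k))‖ := by
        rw [map_neg, norm_neg]
        rfl
      rw [← h2, h1]
      refine (norm_sum_le _ _).trans ?_
      refine (Finset.sum_le_card_nsmul _ _ R fun σ _ => hroot σ.toRingHom).trans ?_
      rw [Finset.card_univ, nsmul_eq_mul, AlgHom.card k K ℂ, hK]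
    rw [h1]
    refine (norm_add_le _ _).trans ?_
    rw [norm_mul, Complex.norm_natCast]
    have h2 := hroot φ
    have h3 : (n : ℝ) * ‖φ y‖ ≤ n * R := mul_le_mul_of_nonneg_left h2 (by positivity)
    linarith

private theorem rl21_gen {k : Type} [Field k] [NumberField k] {f : (𝓞 k)[X]}
    {x : AlgebraicClosure k} (hx : aeval x (FK f) = 0) :
    aeval (IntermediateField.AdjoinSimple.gen k x) (FK f) = 0 := by
  apply (algebraMap (IntermediateField.adjoin k {x}) (AlgebraicClosure k)).injective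
  rw [map_zero, ← hx]
  conv_rhs => rw [← IntermediateField.AdjoinSimple.algebraMap_gen k x]
  rw [aeval_def, aeval_def, hom_eval₂]
  congr 1

theorem field_count_sup4 (n b g tA : ℕ) (w : ℕ → ℕ)
    (hc : CondR (Module.finrank ℚ k) n b g tA 0)
    (hw : ∀ s : ℕ, 1 ≤ s → s ≤ n - 1 → w s ≤ 2 * b ∧
      Module.finrank ℚ k * (w s * (n * (n + 1) / 2 - 1) + (2 * b - w s + 1) * s) +
        ((n - 1) ^ 2 * g * tA + 3 * tA) + 1 ≤
          Module.finrank ℚ k * (2 * b * (n * (n + 1) / 2 - 1))) :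
    ∃ c C : ℝ, 0 < c ∧ 0 < C ∧ ∃ h0 : ℕ, ∀ h : ℕ, h0 ≤ h → ∃ s : ℕ, 1 ≤ s ∧ s ≤ n - 1 ∧
      c * (h : ℝ) ^ (Module.finrank ℚ k * (2 * b * (n * (n + 1) / 2 - 1)) -
          ((n - 1) ^ 2 * g * tA + 3 * tA) - Module.finrank ℚ k * ((2 * b - w s) * s)) ≤
        (malleCount k n ⊤ (C * (h : ℝ) ^ (min
          (Module.finrank ℚ k * (2 * b * n * (n - 1)) - 2 * ((n - 1) ^ 2 * g * tA))
          (Module.finrank ℚ k * (2 * (2 * b) * gg n s)))) : ℝ) := by
  classical
  have hn : 5 ≤ n := hc.cn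
  have hg : 1 ≤ g := hc.cg
  obtain ⟨J, hJ⟩ : ∃ J : ℕ, J = (n - 1) ^ 2 * g + 1 := ⟨_, rfl⟩
  obtain ⟨U, hU⟩ : ∃ U : ℕ, U = (n - 1) ^ 2 * g * tA := ⟨_, rfl⟩
  have hJ2 : 2 ≤ J := by
    have h1 : 0 < (n - 1) ^ 2 * g := Nat.mul_pos (pow_pos (by omega) 2) (by omega)
    omega
  obtain ⟨N0, s0, C0, hN0, hs, hsn, hC0, hmem⟩ := mem_key k n (by omega)
  obtain ⟨hm1, hfm⟩ := few_m k n (2 * b) J hJ2 C0
  obtain ⟨hl1, hfl⟩ := few_l k n (2 * b) J hJ2 C0
  set D := Module.finrank ℚ k with hD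
  have hfew : ∃ h0 : ℕ, ∀ h ≥ h0, ∀ S : Finset (HeightOneSpectrum (𝓞 k)),
      PS h ((n - 1) ^ 2 * g + 1) S → ∀ f : (𝓞 k)[X], Fam n N0 s0 (2 * b) h f →
      (S.filter fun m => ∃ x : 𝓞 k, Dbl m.asIdeal x f).card ≤ D * (2 * b * n * (n - 1)) ∧
      (S.filter fun l => ∃ x : 𝓞 k, f.eval x ∈ l.asIdeal ∧ f.eval x ∉ l.asIdeal ^ 2 ∧
        f.derivative.eval x ∈ l.asIdeal).card ≤ D * (2 * b * n * (n - 1)) + 1 := by
    rw [← hJ]
    refine ⟨max (max hm1 hl1) 1, fun h hh S hS f hf => ?_⟩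
    have hhm : hm1 ≤ h := (le_max_left _ _).trans ((le_max_left _ _).trans hh)
    have hhl : hl1 ≤ h := (le_max_right _ _).trans ((le_max_left _ _).trans hh)
    have hh1 : 1 ≤ h := (le_max_right _ _).trans hh
    obtain ⟨-, -, hdm, x, -, -, hnf, -, hDi, -, hdl⟩ := hmem (2 * b) h hh1 f hf
    refine ⟨hfm h hhm S hS f hdm, ?_⟩
    refine le_trans (Finset.card_le_card ?_) (hfl h hhl
      (NumberField.discr (IntermediateField.adjoin k {x}))
      (NumberField.discr_ne_zero _) hDi S hS)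
    intro l hl
    rw [Finset.mem_filter] at hl ⊢
    refine ⟨hl.1, ?_⟩
    obtain ⟨y, h1, h2, h3⟩ := hl.2
    exact hdl l y (hS.prime l hl.1) h1 h2 h3
  obtain ⟨c1, hc10, hf1, hfam⟩ := fam_count4 k n N0 b g tA 0 _ _ s0 hN0 hs hsn hc hfew
  simp only [mul_zero, add_zero] at hfam
  rw [← hU] at hfam hw ⊢
  set W := n * (n + 1) / 2 - 1 with hW
  have hWn : n - 1 ≤ W := by
    have : n ≤ n * (n + 1) / 2 := by
      rw [Nat.le_div_iff_mul_le (by norm_num)]
      nlinarith
    omega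
  -- the constants for every `s`
  have hdisc : ∀ s : ℕ, 1 ≤ s → ∃ C : ℝ, 0 < C ∧
      ∀ (K : Type) [Field K] [NumberField K] [Algebra k K], SymK k n K → ∀ R : ℝ, 1 ≤ R →
        ∀ z : Fin s → K, (∀ i, Sh k R (z i)) → LinearIndependent k z →
        |(NumberField.discr K : ℝ)| ≤ C * R ^ (D * (2 * gg n s)) :=
    fun s hs1 => disc_small k n s hs1
  have hlow := fun (s : ℕ) (hs1 : s ≤ n - 1) =>
    low_count k n s (by omega) (hs1.trans hWn) C0 hC0
  have hhigh := fun s : ℕ => high_mult k n s (by omega) C0 hC0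
  choose! C1 hC1 hd using hdisc
  choose! C2 hC2 hlow using hlow
  choose C3 hC3 hhigh using hhigh
  set I : Finset ℕ := Finset.Icc 1 (n - 1) with hI
  have hIne : I.Nonempty := ⟨1, Finset.mem_Icc.2 ⟨le_rfl, by omega⟩⟩
  have hIc : I.card = n - 1 := by rw [hI, Nat.card_Icc]; omega
  have hn1 : (0 : ℝ) < ((n - 1 : ℕ) : ℝ) := by
    have : 0 < n - 1 := by omega
    exact_mod_cast this
  set CC : ℝ := C0 + ∑ s ∈ I, C1 s * (2 * n * C0) ^ (D * (2 * gg n s)) with hCC
  have hnR : (1 : ℝ) ≤ n := by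
    have : 1 ≤ n := by omega
    exact_mod_cast this
  have hterm : ∀ s ∈ I, 0 ≤ C1 s * (2 * n * C0) ^ (D * (2 * gg n s)) := fun s hs1 => by
    have := hC1 s (Finset.mem_Icc.1 hs1).1
    positivity
  have hCC0 : C0 ≤ CC := le_add_of_nonneg_right (Finset.sum_nonneg hterm)
  have hCCs : ∀ s ∈ I, C1 s * (2 * n * C0) ^ (D * (2 * gg n s)) ≤ CC := fun s hs1 => by
    have h1 := Finset.single_le_sum hterm hs1
    have h2 : (0 : ℝ) ≤ C0 := by linarith
    linarith
  set C3' : ℝ := ∑ s ∈ I, C3 s with hC3'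
  have hC3s : ∀ s ∈ I, C3 s ≤ C3' := fun s hs1 =>
    Finset.single_le_sum (f := C3) (fun i _ => by linarith [hC3 i]) hs1
  have hC3pos : 0 < C3' := by
    have h1 := hC3s 1 (Finset.mem_Icc.2 ⟨le_rfl, by omega⟩)
    linarith [hC3 1]
  set c2 : ℝ := c1 / (n - 1 : ℕ) with hc2'
  have hc20 : 0 < c2 := by positivity
  obtain ⟨hk1, hhk⟩ := exists_nat_gt (∑ s ∈ I, 2 * (C2 s * (w s + 1)) / c2)
  have hhks : ∀ s ∈ I, 2 * (C2 s * (w s + 1)) / c2 < hk1 := fun s hs1 => by
    refine lt_of_le_of_lt (Finset.single_le_sum (f := fun s => 2 * (C2 s * (w s + 1)) / c2)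
      (fun i hi => ?_) hs1) hhk
    have := hC2 i (Finset.mem_Icc.1 hi).2
    positivity
  refine ⟨c2 / (2 * C3'), CC, by positivity, by linarith,
    max hf1 (max hk1 2), fun h hh => ?_⟩
  have hhf : hf1 ≤ h := (le_max_left _ _).trans hh
  have hhk' : hk1 ≤ h := (le_max_left _ _).trans ((le_max_right _ _).trans hh)
  have hh2 : 2 ≤ h := (le_max_right _ _).trans ((le_max_right _ _).trans hh)
  have hh1 : (1 : ℝ) ≤ h := by
    have : (2 : ℝ) ≤ h := by exact_mod_cast hh2
    linarith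
  have hh0 : (0 : ℝ) < h := by linarith
  obtain ⟨T, hT, hTc⟩ := hfam h hhf
  -- everything about one member
  have hone : ∀ f ∈ T, ∃ s : ℕ, s ∈ I ∧ Mb n (C0 * (h : ℝ) ^ (2 * b)) (s0.coeff (n - 1)) f ∧
      ∃ x : AlgebraicClosure k, aeval x (FK f) = 0 ∧
        IsSymF k n (IntermediateField.adjoin k {x}) ∧
        ∃ _ : NumberField (IntermediateField.adjoin k {x}),
          SymK k n (IntermediateField.adjoin k {x}) ∧
          |(NumberField.discr (IntermediateField.adjoin k {x}) : ℝ)| ≤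
            CC * (h : ℝ) ^ (min (D * (2 * b * n * (n - 1)) - 2 * U) (D * (2 * (2 * b) * gg n s))) ∧
          Thin k s (2 * n * (C0 * (h : ℝ) ^ (2 * b))) (IntermediateField.adjoin k {x}) := by
    intro f hf
    obtain ⟨hF, ⟨⟨m, y, hmb, hmu, hpl⟩, -⟩⟩ := hT f hf
    rw [← hU] at hmu
    obtain ⟨hirr, hrt, -, x, hx, hsym, hnf, hsk, -, hDm, hDl⟩ := hmem (2 * b) h (by omega) f hF
    have hMb : Mb n (C0 * (h : ℝ) ^ (2 * b)) (s0.coeff (n - 1)) f :=
      ⟨hF.deg, hF.monic, hF.snd, hirr, hrt⟩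
    obtain ⟨s, hsn1, hthin, z, hz, hli⟩ := rank_split k hsk.1 (2 * n * (C0 * (h : ℝ) ^ (2 * b)))
    have hR : (1 : ℝ) ≤ 2 * n * (C0 * (h : ℝ) ^ (2 * b)) := by
      have h1 : (1 : ℝ) ≤ C0 * (h : ℝ) ^ (2 * b) :=
        one_le_mul_of_one_le_of_one_le hC0 (one_le_pow₀ hh1)
      nlinarith
    have hs1 : 1 ≤ s := by
      by_contra hs0
      have hs0' : s = 0 := by omega
      subst hs0'
      obtain ⟨z', hz0, hz'⟩ := rl21_short (by omega) hMb hsk.1 (rl21_gen hx)
      have h9 : LinearIndependent k (fun _ : Fin 1 => z') := linearIndependent_unique_iff.2 hz0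
      exact hthin (fun _ => z') (fun _ => hz') h9
    have hsI : s ∈ I := Finset.mem_Icc.2 ⟨hs1, hsn1⟩
    refine ⟨s, hsI, hMb, x, hx, hsym, hnf, hsk, ?_, hthin⟩
    have hb1 : |(NumberField.discr (IntermediateField.adjoin k {x}) : ℝ)| ≤
        CC * (h : ℝ) ^ (D * (2 * b * n * (n - 1)) - 2 * U) := by
      have h1 := hDm m y hmb hpl
      have h2 : (h : ℝ) ^ U ≤ (Ideal.absNorm m : ℝ) := by exact_mod_cast hmu
      have h3 : (h : ℝ) ^ (2 * U) ≤ (Ideal.absNorm m : ℝ) ^ 2 := by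
        rw [mul_comm 2, pow_mul]
        exact pow_le_pow_left₀ (by positivity) h2 2
      have h4 : (h : ℝ) ^ (D * (2 * b * n * (n - 1))) ≤
          (h : ℝ) ^ (D * (2 * b * n * (n - 1)) - 2 * U) * (h : ℝ) ^ (2 * U) := by
        rw [← pow_add]
        exact pow_le_pow_right₀ hh1 (by omega)
      have h5 : (0 : ℝ) < (h : ℝ) ^ (2 * U) := by positivity
      refine le_of_mul_le_mul_right ?_ h5
      calc |(NumberField.discr (IntermediateField.adjoin k {x}) : ℝ)| * (h : ℝ) ^ (2 * U) ≤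
          |(NumberField.discr (IntermediateField.adjoin k {x}) : ℝ)| *
            (Ideal.absNorm m : ℝ) ^ 2 :=
            mul_le_mul_of_nonneg_left h3 (abs_nonneg _)
        _ ≤ C0 * (h : ℝ) ^ (D * (2 * b * n * (n - 1))) := h1
        _ ≤ CC * (h : ℝ) ^ (D * (2 * b * n * (n - 1))) :=
            mul_le_mul_of_nonneg_right hCC0 (by positivity)
        _ ≤ CC * ((h : ℝ) ^ (D * (2 * b * n * (n - 1)) - 2 * U) * (h : ℝ) ^ (2 * U)) :=
            mul_le_mul_of_nonneg_left h4 (by linarith)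
        _ = CC * (h : ℝ) ^ (D * (2 * b * n * (n - 1)) - 2 * U) * (h : ℝ) ^ (2 * U) := by
            ring
    have hb2 : |(NumberField.discr (IntermediateField.adjoin k {x}) : ℝ)| ≤
        CC * (h : ℝ) ^ (D * (2 * (2 * b) * gg n s)) := by
      have h1 := hd s hs1 _ hsk _ hR z hz hli
      have h2 : C1 s * (2 * n * (C0 * (h : ℝ) ^ (2 * b))) ^ (D * (2 * gg n s)) =
          C1 s * (2 * n * C0) ^ (D * (2 * gg n s)) * (h : ℝ) ^ (D * (2 * (2 * b) * gg n s)) := by
        have e : 2 * (n : ℝ) * (C0 * (h : ℝ) ^ (2 * b)) = (2 * n * C0) * (h : ℝ) ^ (2 * b) := by ring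
        rw [e, mul_pow, ← pow_mul]
        have e2 : 2 * b * (D * (2 * gg n s)) = D * (2 * (2 * b) * gg n s) := by ring
        rw [e2]
        ring
      rw [h2] at h1
      exact h1.trans (mul_le_mul_of_nonneg_right (hCCs s hsI) (by positivity))
    rcases min_choice (D * (2 * b * n * (n - 1)) - 2 * U) (D * (2 * (2 * b) * gg n s)) with h6 | h6
    · rw [h6]; exact hb1
    · rw [h6]; exact hb2
  choose! sf hsf hone using hone
  -- the largest class
  obtain ⟨s, hsI, hsc⟩ := Finset.exists_le_card_fiber_of_nsmul_le_card_of_maps_to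
    (s := T) (t := I) (f := sf) (b := (T.card : ℝ) / (n - 1 : ℕ)) hsf hIne (by
      rw [nsmul_eq_mul, hIc, mul_div_cancel₀ _ hn1.ne'])
  have hs1 : 1 ≤ s := (Finset.mem_Icc.1 hsI).1
  have hsn1 : s ≤ n - 1 := (Finset.mem_Icc.1 hsI).2
  set Ts := T.filter fun f => sf f = s with hTs
  have hTsc : c2 * (h : ℝ) ^ (D * (2 * b * W) - (U + 3 * tA)) ≤ (Ts.card : ℝ) := by
    refine le_trans ?_ hsc
    rw [hc2', le_div_iff₀ hn1, div_mul_eq_mul_div, div_mul_cancel₀ _ hn1.ne']
    exact hTc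
  obtain ⟨hwb, hw2⟩ := hw s hs1 hsn1
  refine ⟨s, hs1, hsn1, ?_⟩
  set B : ℝ := CC * (h : ℝ) ^ (min (D * (2 * b * n * (n - 1)) - 2 * U) (D * (2 * (2 * b) * gg n s)))
    with hB
  have hone' : ∀ f ∈ Ts, Mb n (C0 * (h : ℝ) ^ (2 * b)) (s0.coeff (n - 1)) f ∧
      ∃ x : AlgebraicClosure k, aeval x (FK f) = 0 ∧
        IsSymF k n (IntermediateField.adjoin k {x}) ∧
        ∃ _ : NumberField (IntermediateField.adjoin k {x}),
          SymK k n (IntermediateField.adjoin k {x}) ∧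
          |(NumberField.discr (IntermediateField.adjoin k {x}) : ℝ)| ≤ B ∧
          Thin k s (2 * n * (C0 * (h : ℝ) ^ (2 * b))) (IntermediateField.adjoin k {x}) := by
    intro f hf
    rw [hTs, Finset.mem_filter] at hf
    have h1 := hone f hf.1
    rw [hf.2] at h1
    exact h1
  -- the low part
  set P : (𝓞 k)[X] → Prop := fun f => ∃ (K : Type) (_ : Field K) (_ : NumberField K)
    (_ : Algebra k K) (y : K),
    aeval y (FK f) = 0 ∧ SymK k n K ∧ Thin k s (2 * n * (C0 * (h : ℝ) ^ (2 * b))) K ∧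
      ∃ z : K, z ≠ 0 ∧ Sh k ((h : ℝ) ^ w s) z with hP
  have hTl : ((Ts.filter P).card : ℝ) ≤ c2 / 2 * (h : ℝ) ^ (D * (2 * b * W) - (U + 3 * tA)) := by
    have h1 := hlow s hsn1 h (2 * b) (w s) (s0.coeff (n - 1)) hh2 hwb (Ts.filter P) (fun f hf => by
      rw [Finset.mem_filter] at hf
      exact ⟨(hone' f hf.1).1, hf.2⟩)
    have h2 : (h : ℝ) ^ (D * (w s * W + (2 * b - w s + 1) * s)) ≤
        (h : ℝ) ^ (D * (2 * b * W) - (U + 3 * tA) - 1) :=
      pow_le_pow_right₀ hh1 (by omega)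
    have h3 : (h : ℝ) ^ (D * (2 * b * W) - (U + 3 * tA)) = (h : ℝ) ^ (D * (2 * b * W) - (U + 3 * tA) - 1) * h := by
      rw [← pow_succ]
      congr 1
      omega
    have hC2s := hC2 s hsn1
    have h4 : C2 s * (w s + 1) ≤ c2 / 2 * h := by
      have h5 : 2 * (C2 s * (w s + 1)) / c2 < h := (hhks s hsI).trans_le (by exact_mod_cast hhk')
      rw [div_lt_iff₀ hc20] at h5
      linarith
    have h6 : (0 : ℝ) < (h : ℝ) ^ (D * (2 * b * W) - (U + 3 * tA) - 1) := by positivity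
    calc ((Ts.filter P).card : ℝ) ≤
          C2 s * (w s + 1) * (h : ℝ) ^ (D * (w s * W + (2 * b - w s + 1) * s)) := h1
      _ ≤ C2 s * (w s + 1) * (h : ℝ) ^ (D * (2 * b * W) - (U + 3 * tA) - 1) :=
          mul_le_mul_of_nonneg_left h2 (by positivity)
      _ ≤ c2 / 2 * h * (h : ℝ) ^ (D * (2 * b * W) - (U + 3 * tA) - 1) := mul_le_mul_of_nonneg_right h4 h6.le
      _ = c2 / 2 * (h : ℝ) ^ (D * (2 * b * W) - (U + 3 * tA)) := by rw [h3]; ring
  have hTh : c2 / 2 * (h : ℝ) ^ (D * (2 * b * W) - (U + 3 * tA)) ≤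
      ((Ts.filter fun f => ¬ P f).card : ℝ) := by
    have h1 : (Ts.filter P).card + (Ts.filter fun f => ¬ P f).card = Ts.card :=
      Finset.card_filter_add_card_filter_not P
    have h2 : ((Ts.filter P).card : ℝ) + ((Ts.filter fun f => ¬ P f).card : ℝ) = Ts.card := by
      exact_mod_cast h1
    linarith
  -- the high part
  set N : ℕ := ⌊C3 s * (h : ℝ) ^ (D * ((2 * b - w s) * s))⌋₊ with hN
  have hC3s' := hC3 s
  have hcls := class_sym k n B (Ts.filter fun f => ¬ P f) N (fun f hf => by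
      rw [Finset.mem_filter] at hf
      obtain ⟨hMb, x, hx, hsym, hnf, -, hDi, -⟩ := hone' f hf.1
      exact ⟨hMb.deg, hMb.irr, x, hx, hsym, hnf, hDi⟩) (fun f hf G hG hiso => by
      rw [Finset.mem_filter] at hf
      obtain ⟨hMb, x, hx, -, hnf, hsk, -, hth⟩ := hone' f hf.1
      rw [hN]
      refine Nat.le_floor ?_
      refine hhigh s h (2 * b) (w s) (s0.coeff (n - 1)) (by omega) hwb f hMb.deg hMb.irr ?_ G ?_
      · refine ⟨IntermediateField.adjoin k {x}, inferInstance, hnf, inferInstance,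
          IntermediateField.AdjoinSimple.gen k x, rl21_gen hx, hsk, hth, ?_⟩
        intro z hz
        by_contra hz0
        exact hf.2 ⟨IntermediateField.adjoin k {x}, inferInstance, hnf, inferInstance,
          IntermediateField.AdjoinSimple.gen k x, rl21_gen hx, hsk, hth, z, hz0, hz⟩
      · intro g hg
        have hgT := (Finset.mem_filter.1 (hG hg)).1
        exact ⟨(hone' g hgT).1, hiso g hg⟩)
  have h1 : ((Ts.filter fun f => ¬ P f).card : ℝ) ≤
      C3 s * (h : ℝ) ^ (D * ((2 * b - w s) * s)) * (malleCount k n ⊤ B : ℝ) := by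
    have h2 : ((Ts.filter fun f => ¬ P f).card : ℝ) ≤ (N : ℝ) * (malleCount k n ⊤ B : ℝ) := by
      exact_mod_cast hcls
    refine h2.trans (mul_le_mul_of_nonneg_right ?_ (Nat.cast_nonneg _))
    exact Nat.floor_le (by positivity)
  have h2 : (h : ℝ) ^ (D * (2 * b * W) - (U + 3 * tA)) =
      (h : ℝ) ^ (D * (2 * b * W) - (U + 3 * tA) - D * ((2 * b - w s) * s)) *
        (h : ℝ) ^ (D * ((2 * b - w s) * s)) := by
    rw [← pow_add]
    congr 1
    have h3 : D * (w s * W + (2 * b - w s + 1) * s) =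
        D * ((2 * b - w s) * s) + D * (w s * W + s) := by ring
    omega
  have h3 : (0 : ℝ) < (h : ℝ) ^ (D * ((2 * b - w s) * s)) := by positivity
  have h4 := hTh.trans h1
  rw [h2] at h4
  have h5 : c2 / 2 * (h : ℝ) ^ (D * (2 * b * W) - (U + 3 * tA) - D * ((2 * b - w s) * s)) ≤
      C3 s * (malleCount k n ⊤ B : ℝ) := by
    refine le_of_mul_le_mul_right ?_ h3
    calc c2 / 2 * (h : ℝ) ^ (D * (2 * b * W) - (U + 3 * tA) - D * ((2 * b - w s) * s)) *
          (h : ℝ) ^ (D * ((2 * b - w s) * s)) =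
        c2 / 2 * ((h : ℝ) ^ (D * (2 * b * W) - (U + 3 * tA) - D * ((2 * b - w s) * s)) *
          (h : ℝ) ^ (D * ((2 * b - w s) * s))) := by ring
      _ ≤ C3 s * (h : ℝ) ^ (D * ((2 * b - w s) * s)) * (malleCount k n ⊤ B : ℝ) := h4
      _ = C3 s * (malleCount k n ⊤ B : ℝ) * (h : ℝ) ^ (D * ((2 * b - w s) * s)) := by ring
  have h6 : c2 / (2 * C3') * (h : ℝ) ^ (D * (2 * b * W) - (U + 3 * tA) - D * ((2 * b - w s) * s)) =
      (c2 / 2 * (h : ℝ) ^ (D * (2 * b * W) - (U + 3 * tA) - D * ((2 * b - w s) * s))) / C3' := by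
    have : C3' ≠ 0 := hC3pos.ne'
    field_simp
  rw [h6, div_le_iff₀ hC3pos]
  have h7 : C3 s * (malleCount k n ⊤ B : ℝ) ≤ C3' * (malleCount k n ⊤ B : ℝ) :=
    mul_le_mul_of_nonneg_right (hC3s s hsI) (Nat.cast_nonneg _)
  linarith

end

end Pool.Agent.H26.RL
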