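import Pool.Agent.H26.RL.Defs
import Pool.Agent.H98.TQ.DefsL

/-! Project RL, row RL-5: small combinations of two polynomials hit all residue classes. -/

set_option autoImplicit false

open Polynomial IsDedekindDomain NumberField Pool.Agent.H35.AN
open Pool.Agent.H67.MU (Bdd)
open Pool.Agent.H92.SQ2 (gg WW)
open Pool.Agent.H98.TQ
open Pool.Agent.H96.T3 (D1)

namespace Pool.Agent.H26.RL

section

variable {k : Type} [Field k] [NumberField k]

/-- every class modulo an ideal has a representative with small conjugates -/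
private theorem rl5_rep : ∃ C : ℝ, 1 ≤ C ∧ ∀ (I : Ideal (𝓞 k)), I ≠ ⊥ → ∀ a : 𝓞 k, ∃ b : 𝓞 k,
    b - a ∈ I ∧ Bdd (C * (Ideal.absNorm I : ℝ)) b := by
  classical
  set Bd : ℝ := ∑ ψ : k →+* ℂ, ∑ i, ‖ψ ((RingOfIntegers.basis k i : 𝓞 k) : k)‖ with hBd
  have hBd0 : 0 ≤ Bd := Finset.sum_nonneg (fun ψ _ => Finset.sum_nonneg (fun i _ => norm_nonneg _))
  have hBφ : ∀ φ : k →+* ℂ, ∑ i, ‖φ ((RingOfIntegers.basis k i : 𝓞 k) : k)‖ ≤ Bd := fun φ =>
    Finset.single_le_sum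
      (f := fun φ : k →+* ℂ => ∑ i, ‖φ ((RingOfIntegers.basis k i : 𝓞 k) : k)‖)
      (fun i _ => Finset.sum_nonneg fun σ _ => norm_nonneg _) (Finset.mem_univ φ)
  refine ⟨Bd + 1, by linarith, fun I hI a => ?_⟩
  set N : ℤ := (Ideal.absNorm I : ℤ) with hN
  have hN0 : 0 < N := by
    have h : Ideal.absNorm I ≠ 0 := fun h => hI (Ideal.absNorm_eq_zero_iff.mp h)
    omega
  obtain ⟨r, hr⟩ : ∃ r : Module.Free.ChooseBasisIndex ℤ (𝓞 k) → ℤ,
      a = ∑ i, ((r i : ℤ) : 𝓞 k) * RingOfIntegers.basis k i := by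
    refine ⟨(RingOfIntegers.basis k).repr a, ?_⟩
    conv_lhs => rw [← (RingOfIntegers.basis k).sum_repr a]
    exact Finset.sum_congr rfl fun i _ => zsmul_eq_mul _ _
  refine ⟨∑ i, ((r i % N : ℤ) : 𝓞 k) * RingOfIntegers.basis k i, ?_, ?_⟩
  · have h3 : (∑ i, ((r i % N : ℤ) : 𝓞 k) * RingOfIntegers.basis k i) - a =
        ∑ i, ((N : ℤ) : 𝓞 k) * ((-(r i / N) : ℤ) : 𝓞 k) * RingOfIntegers.basis k i := by
      rw [hr, ← Finset.sum_sub_distrib]
      refine Finset.sum_congr rfl fun i _ => ?_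
      rw [← sub_mul, ← Int.cast_sub, ← Int.cast_mul]
      congr 2
      have := Int.emod_add_mul_ediv (r i) N
      linarith
    rw [h3]
    refine Ideal.sum_mem _ fun i _ => ?_
    refine Ideal.mul_mem_right _ _ (Ideal.mul_mem_right _ _ ?_)
    have := Ideal.absNorm_mem I
    rw [hN]
    exact_mod_cast this
  · intro φ
    have h1 : φ (((∑ i, ((r i % N : ℤ) : 𝓞 k) * RingOfIntegers.basis k i : 𝓞 k) : k)) =
        ∑ i, ((r i % N : ℤ) : ℂ) * φ ((RingOfIntegers.basis k i : 𝓞 k) : k) := by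
      simp only [map_sum, map_mul, map_intCast]
    rw [h1]
    calc ‖∑ i, ((r i % N : ℤ) : ℂ) * φ ((RingOfIntegers.basis k i : 𝓞 k) : k)‖
        ≤ ∑ i, ‖((r i % N : ℤ) : ℂ) * φ ((RingOfIntegers.basis k i : 𝓞 k) : k)‖ :=
          norm_sum_le _ _
      _ ≤ ∑ i, (N : ℝ) * ‖φ ((RingOfIntegers.basis k i : 𝓞 k) : k)‖ := by
          refine Finset.sum_le_sum fun i _ => ?_
          rw [norm_mul]
          refine mul_le_mul_of_nonneg_right ?_ (norm_nonneg _)
          rw [Complex.norm_intCast]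
          have h4 := Int.emod_nonneg (r i) hN0.ne'
          have h5 := (Int.emod_lt_of_pos (r i) hN0).le
          rw [abs_of_nonneg (by exact_mod_cast h4)]
          exact_mod_cast h5
      _ = (N : ℝ) * ∑ i, ‖φ ((RingOfIntegers.basis k i : 𝓞 k) : k)‖ := by
          rw [← Finset.mul_sum]
      _ ≤ (N : ℝ) * (Bd + 1) := by
          refine mul_le_mul_of_nonneg_left (by linarith [hBφ φ]) (by exact_mod_cast hN0.le)
      _ = (Bd + 1) * (Ideal.absNorm I : ℝ) := by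
          rw [mul_comm, hN]
          push_cast
          rfl

/-- an element outside of `p` is invertible modulo `p²` -/
private theorem rl5_inv (p : HeightOneSpectrum (𝓞 k)) {b : 𝓞 k} (hb : b ∉ p.asIdeal) :
    ∃ u : 𝓞 k, u * b - 1 ∈ p.asIdeal ^ 2 := by
  have hmax : p.asIdeal.IsMaximal := p.isMaximal
  obtain ⟨u, y, hy, h⟩ := hmax.exists_inv hb
  refine ⟨u * (2 - u * b), ?_⟩
  have h2 : u * (2 - u * b) * b - 1 = (-1) * (y * y) := by
    have : u * b = 1 - y := by linear_combination h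
    linear_combination (-(u * b - 1 - y)) * this
  rw [h2, pow_two]
  exact Ideal.mul_mem_left _ _ (Ideal.mul_mem_mul hy hy)

private theorem rl5_cancel (p : HeightOneSpectrum (𝓞 k)) {a b : 𝓞 k} (hb : b ∉ p.asIdeal)
    {e : ℕ} (he : e ≤ 2) (h : a * b ∈ p.asIdeal ^ e) : a ∈ p.asIdeal ^ e := by
  obtain ⟨u, hu⟩ := rl5_inv p hb
  have h1 : u * b - 1 ∈ p.asIdeal ^ e := Ideal.pow_le_pow_right he hu
  have h2 : a = u * (a * b) - a * (u * b - 1) := by ring
  rw [h2]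
  exact Ideal.sub_mem _ (Ideal.mul_mem_left _ _ h) (Ideal.mul_mem_left _ _ h1)

private theorem rl5_card (I : Ideal (𝓞 k)) (hI : I ≠ ⊥) :
    ∃ f : Fin (Ideal.absNorm I) → 𝓞 k, ∀ i j, f i - f j ∈ I → i = j := by
  have hfin : Finite (𝓞 k ⧸ I) := Ideal.finiteQuotientOfFreeOfNeBot I hI
  have hc : Nat.card (𝓞 k ⧸ I) = Ideal.absNorm I := by
    rw [Ideal.absNorm_apply, Submodule.cardQuot_apply]
  let e : (𝓞 k ⧸ I) ≃ Fin (Ideal.absNorm I) := Finite.equivFinOfCardEq hc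
  refine ⟨fun i => (Ideal.Quotient.mk_surjective (e.symm i)).choose, fun i j h => ?_⟩
  have hi := (Ideal.Quotient.mk_surjective (e.symm i)).choose_spec
  have hj := (Ideal.Quotient.mk_surjective (e.symm j)).choose_spec
  have : (Ideal.Quotient.mk I) ((Ideal.Quotient.mk_surjective (e.symm i)).choose) =
      (Ideal.Quotient.mk I) ((Ideal.Quotient.mk_surjective (e.symm j)).choose) :=
    Ideal.Quotient.eq.mpr h
  rw [hi, hj] at this
  exact e.symm.injective this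

theorem grid2 : ∃ C0 : ℝ, 1 ≤ C0 ∧ ∀ (p : HeightOneSpectrum (𝓞 k)) (x : 𝓞 k) (u v : (𝓞 k)[X])
    (τ : Bool), (u * derivative v - derivative u * v).eval x ∉ p.asIdeal →
    ∃ c : Fin (Ideal.absNorm p.asIdeal ^ ct τ) → 𝓞 k × 𝓞 k,
      (∀ i, Bdd (C0 * (Ideal.absNorm p.asIdeal : ℝ) ^ 2) (c i).1 ∧
        Bdd (C0 * (Ideal.absNorm p.asIdeal : ℝ) ^ 2) (c i).2) ∧
      ∀ i j, ((c i).1 • u + (c i).2 • v) - ((c j).1 • u + (c j).2 • v) ∈ cut τ p.asIdeal x →
        i = j := by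
  classical
  obtain ⟨C, hC, hrep⟩ := rl5_rep (k := k)
  refine ⟨C, hC, fun p x u v τ hw => ?_⟩
  set e : ℕ := cond τ 2 1 with he
  have he2 : e ≤ 2 := by cases τ <;> simp [he]
  have hct : ct τ = e + 1 := by cases τ <;> simp [he, ct]
  obtain ⟨f, hf⟩ := rl5_card (p.asIdeal ^ e) (pow_ne_zero _ p.ne_bot)
  obtain ⟨g, hg⟩ := rl5_card p.asIdeal p.ne_bot
  obtain ⟨W, hW⟩ := rl5_inv p hw
  have hp2 : p.asIdeal ^ 2 ≠ ⊥ := pow_ne_zero _ p.ne_bot
  choose rp hrp1 hrp2 using hrep (p.asIdeal ^ 2) hp2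
  have hb2 : ∀ a, Bdd (C * (Ideal.absNorm p.asIdeal : ℝ) ^ 2) (rp a) := by
    intro a
    have := hrp2 a
    rw [map_pow] at this
    exact_mod_cast this
  have hcard : Ideal.absNorm p.asIdeal ^ ct τ =
      Ideal.absNorm (p.asIdeal ^ e) * Ideal.absNorm p.asIdeal := by
    rw [map_pow, hct, pow_succ]
  let E : Fin (Ideal.absNorm p.asIdeal ^ ct τ) ≃
      Fin (Ideal.absNorm (p.asIdeal ^ e)) × Fin (Ideal.absNorm p.asIdeal) :=
    (finCongr hcard).trans finProdFinEquiv.symm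
  set u0 := u.eval x with hu0
  set v0 := v.eval x with hv0
  set u1 := u.derivative.eval x with hu1
  set v1 := v.derivative.eval x with hv1
  have hW' : W * (u0 * v1 - u1 * v0) - 1 ∈ p.asIdeal ^ 2 := by
    have : (u * derivative v - derivative u * v).eval x = u0 * v1 - u1 * v0 := by
      rw [eval_sub, eval_mul, eval_mul]
    rwa [this] at hW
  refine ⟨fun i => (rp (W * (f (E i).1 * v1 - g (E i).2 * v0)),
    rp (W * (u0 * g (E i).2 - u1 * f (E i).1))), fun i => ⟨hb2 _, hb2 _⟩, ?_⟩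
  -- the values of the combination
  have key1 : ∀ i, (rp (W * (f (E i).1 * v1 - g (E i).2 * v0))) * u0 +
      (rp (W * (u0 * g (E i).2 - u1 * f (E i).1))) * v0 - f (E i).1 ∈ p.asIdeal ^ 2 := by
    intro i
    have h1 := hrp1 (W * (f (E i).1 * v1 - g (E i).2 * v0))
    have h2 := hrp1 (W * (u0 * g (E i).2 - u1 * f (E i).1))
    have h3 : (rp (W * (f (E i).1 * v1 - g (E i).2 * v0))) * u0 +
      (rp (W * (u0 * g (E i).2 - u1 * f (E i).1))) * v0 - f (E i).1 =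
      u0 * (rp (W * (f (E i).1 * v1 - g (E i).2 * v0)) - W * (f (E i).1 * v1 - g (E i).2 * v0)) +
      v0 * (rp (W * (u0 * g (E i).2 - u1 * f (E i).1)) - W * (u0 * g (E i).2 - u1 * f (E i).1)) +
      f (E i).1 * (W * (u0 * v1 - u1 * v0) - 1) := by ring
    rw [h3]
    exact Ideal.add_mem _ (Ideal.add_mem _ (Ideal.mul_mem_left _ _ h1)
      (Ideal.mul_mem_left _ _ h2)) (Ideal.mul_mem_left _ _ hW')
  have key2 : ∀ i, (rp (W * (f (E i).1 * v1 - g (E i).2 * v0))) * u1 +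
      (rp (W * (u0 * g (E i).2 - u1 * f (E i).1))) * v1 - g (E i).2 ∈ p.asIdeal ^ 2 := by
    intro i
    have h1 := hrp1 (W * (f (E i).1 * v1 - g (E i).2 * v0))
    have h2 := hrp1 (W * (u0 * g (E i).2 - u1 * f (E i).1))
    have h3 : (rp (W * (f (E i).1 * v1 - g (E i).2 * v0))) * u1 +
      (rp (W * (u0 * g (E i).2 - u1 * f (E i).1))) * v1 - g (E i).2 =
      u1 * (rp (W * (f (E i).1 * v1 - g (E i).2 * v0)) - W * (f (E i).1 * v1 - g (E i).2 * v0)) +
      v1 * (rp (W * (u0 * g (E i).2 - u1 * f (E i).1)) - W * (u0 * g (E i).2 - u1 * f (E i).1)) +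
      g (E i).2 * (W * (u0 * v1 - u1 * v0) - 1) := by ring
    rw [h3]
    exact Ideal.add_mem _ (Ideal.add_mem _ (Ideal.mul_mem_left _ _ h1)
      (Ideal.mul_mem_left _ _ h2)) (Ideal.mul_mem_left _ _ hW')
  intro i j h
  obtain ⟨ha, hb⟩ := h
  simp only [derivative_sub, derivative_add, derivative_smul, eval_sub, eval_add, eval_smul,
    smul_eq_mul] at ha hb
  rw [← hu0, ← hv0] at ha
  rw [← hu1, ← hv1] at hb
  have hf' : f (E i).1 - f (E j).1 ∈ p.asIdeal ^ e := by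
    have h4 := Ideal.pow_le_pow_right he2 (key1 i)
    have h5 := Ideal.pow_le_pow_right he2 (key1 j)
    have h6 := Ideal.add_mem _ (Ideal.sub_mem _ ha h4) h5
    convert h6 using 1
    ring
  have hg' : g (E i).2 - g (E j).2 ∈ p.asIdeal := by
    have h4 := Ideal.pow_le_self two_ne_zero (key2 i)
    have h5 := Ideal.pow_le_self two_ne_zero (key2 j)
    have h6 := Ideal.add_mem _ (Ideal.sub_mem _ hb h4) h5
    convert h6 using 1
    ring
  exact E.injective (Prod.ext (hf _ _ hf') (hg _ _ hg'))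

theorem grid1 : ∃ C0 : ℝ, 1 ≤ C0 ∧ ∀ (p : HeightOneSpectrum (𝓞 k)) (x : 𝓞 k) (v : (𝓞 k)[X])
    (τ : Bool), v.eval x ∉ p.asIdeal →
    ∃ c : Fin (Ideal.absNorm p.asIdeal ^ (ct τ - 1)) → 𝓞 k,
      (∀ i, Bdd (C0 * (Ideal.absNorm p.asIdeal : ℝ) ^ 2) (c i)) ∧
      ∀ i j, c i • v - c j • v ∈ cut τ p.asIdeal x → i = j := by
  classical
  obtain ⟨C, hC, hrep⟩ := rl5_rep (k := k)
  refine ⟨C, hC, fun p x v τ hw => ?_⟩
  set e : ℕ := cond τ 2 1 with he
  have he2 : e ≤ 2 := by cases τ <;> simp [he]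
  have hct : ct τ - 1 = e := by cases τ <;> simp [he, ct]
  obtain ⟨f, hf⟩ := rl5_card (p.asIdeal ^ e) (pow_ne_zero _ p.ne_bot)
  have hp2 : p.asIdeal ^ 2 ≠ ⊥ := pow_ne_zero _ p.ne_bot
  choose rp hrp1 hrp2 using hrep (p.asIdeal ^ 2) hp2
  have hb2 : ∀ a, Bdd (C * (Ideal.absNorm p.asIdeal : ℝ) ^ 2) (rp a) := by
    intro a
    have := hrp2 a
    rw [map_pow] at this
    exact_mod_cast this
  have hcard : Ideal.absNorm p.asIdeal ^ (ct τ - 1) = Ideal.absNorm (p.asIdeal ^ e) := by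
    rw [map_pow, hct]
  refine ⟨fun i => rp (f (finCongr hcard i)), fun i => hb2 _, fun i j h => ?_⟩
  have h1 := h.1
  rw [eval_sub, eval_smul, eval_smul, smul_eq_mul, smul_eq_mul, ← sub_mul] at h1
  have h2 := rl5_cancel p hw he2 h1
  have h3 : f (finCongr hcard i) - f (finCongr hcard j) ∈ p.asIdeal ^ e := by
    have h4 := Ideal.pow_le_pow_right he2 (hrp1 (f (finCongr hcard i)))
    have h5 := Ideal.pow_le_pow_right he2 (hrp1 (f (finCongr hcard j)))
    have h6 : f (finCongr hcard i) - f (finCongr hcard j) =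
        (rp (f (finCongr hcard i)) - rp (f (finCongr hcard j))) -
          (rp (f (finCongr hcard i)) - f (finCongr hcard i)) +
          (rp (f (finCongr hcard j)) - f (finCongr hcard j)) := by ring
    rw [h6]
    exact Ideal.add_mem _ (Ideal.sub_mem _ h2 h4) h5
  exact (finCongr hcard).injective (hf _ _ h3)

end

end Pool.Agent.H26.RL
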