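import Pool.Agent.H26.RL.Sub

/-! # Project RL (MP_a3214d), row RL-4: translates by representatives of classes -/

set_option autoImplicit false

open Polynomial IsDedekindDomain NumberField Pool.Agent.H35.AN
open Pool.Agent.H67.MU (Bdd)
open Pool.Agent.H92.SQ2 (gg WW)
open Pool.Agent.H98.TQ
open Pool.Agent.H96.T3 (D1)

namespace Pool.Agent.H26.RL

section

variable {k : Type} [Field k] [NumberField k]

theorem nu_index {B : ℝ} (hB : 0 < B) (N : ℕ) {T : ℝ} (hT : 0 ≤ T)
    (L L' : Submodule (𝓞 k) (𝓞 k)[X]) (hL : L' ≤ L) (V : Submodule k k[X])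
    (hV : V ≤ degreeLT k N) (M : ℕ) (z : Fin M → (𝓞 k)[X])
    (hz : ∀ i, z i ∈ L ∧ FK (z i) ∈ V ∧ Bx B N T (z i)) (hd : ∀ i j, z i - z j ∈ L' → i = j) :
    M * nu B N T L' V ≤ 4 ^ (Module.finrank ℚ k * N) * nu B N T L V := by
  classical
  have f1 := nu_finite hB N T L' V hV
  have f2 := nu_finite hB N (2 * T) L V hV
  refine le_trans ?_ (nu_double hB N hT L V hV)
  unfold nu
  rw [Set.ncard_eq_toFinset_card _ f1, Set.ncard_eq_toFinset_card _ f2]
  have h1 : M * f1.toFinset.card =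
      ((Finset.univ : Finset (Fin M)) ×ˢ f1.toFinset).card := by
    rw [Finset.card_product, Finset.card_univ, Fintype.card_fin]
  rw [h1]
  refine Finset.card_le_card_of_injOn (fun q : Fin M × (𝓞 k)[X] => z q.1 + q.2) ?_ ?_
  · intro q hq
    rw [Finset.mem_coe, Finset.mem_product, Set.Finite.mem_toFinset] at hq
    obtain ⟨-, hq1, hq2, hq3⟩ := hq
    rw [Finset.mem_coe, Set.Finite.mem_toFinset]
    obtain ⟨hz1, hz2, hz3⟩ := hz q.1
    refine ⟨L.add_mem hz1 (hL hq1), ?_, rl_2_add hB hz3 hq3⟩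
    show FK (z q.1 + q.2) ∈ V
    rw [rl_2_FK_add]
    exact V.add_mem hz2 hq2
  · intro q hq q' hq' h
    rw [Finset.mem_coe, Finset.mem_product, Set.Finite.mem_toFinset] at hq hq'
    have h : z q.1 + q.2 = z q'.1 + q'.2 := h
    have h2 : z q.1 - z q'.1 = q'.2 - q.2 := by
      rw [sub_eq_sub_iff_add_eq_add, h, add_comm]
    have h3 : q.1 = q'.1 := by
      apply hd
      rw [h2]
      exact L'.sub_mem hq'.2.1 hq.2.1
    have h4 : q.2 = q'.2 := by
      rw [h3] at h
      exact add_left_cancel h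
    exact Prod.ext h3 h4

end

end Pool.Agent.H26.RL
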