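import Pool.Agent.H26.RL.Defs

/-! # Project RL (MP_a3214d), row RL-23: arithmetic of the exponents -/

set_option autoImplicit false

open Pool.Agent.H92.SQ2 (gg WW)

namespace Pool.Agent.H26.RL

private theorem rl23_gg (n u : ℕ) (hu : 1 ≤ u) :
    (gg n u : ℝ) ≤ (n : ℝ) ^ 2 / (2 * u) + n := by
  have hu0 : (0 : ℝ) < u := by exact_mod_cast hu
  unfold gg
  push_cast
  have h1 : ∀ i ∈ Finset.range n, (((i + u - 1) / u : ℕ) : ℝ) ≤ (i : ℝ) / u + 1 := by
    intro i _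
    have h2 : (((i + u - 1) / u : ℕ) : ℝ) ≤ ((i + u - 1 : ℕ) : ℝ) / u := Nat.cast_div_le
    refine h2.trans ?_
    rw [div_add_one hu0.ne']
    apply div_le_div_of_nonneg_right _ hu0.le
    have h3 : i + u - 1 ≤ i + u := Nat.sub_le _ _
    calc ((i + u - 1 : ℕ) : ℝ) ≤ ((i + u : ℕ) : ℝ) := by exact_mod_cast h3
      _ = (i : ℝ) + u := by push_cast; ring
  refine (Finset.sum_le_sum h1).trans ?_
  rw [Finset.sum_add_distrib, ← Finset.sum_div, Finset.sum_const, Finset.card_range, nsmul_eq_mul,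
    mul_one]
  have h4 : ∑ i ∈ Finset.range n, (i : ℝ) ≤ (n : ℝ) ^ 2 / 2 := by
    have h5 : (∑ i ∈ Finset.range n, i) * 2 = n * (n - 1) := Finset.sum_range_id_mul_two n
    have h6 : (∑ i ∈ Finset.range n, (i : ℝ)) * 2 ≤ (n : ℝ) ^ 2 := by
      have h7 : (∑ i ∈ Finset.range n, i) * 2 ≤ n ^ 2 := by
        rw [h5, pow_two]
        exact Nat.mul_le_mul_left n (Nat.sub_le n 1)
      have h7' : (((∑ i ∈ Finset.range n, i) * 2 : ℕ) : ℝ) ≤ ((n ^ 2 : ℕ) : ℝ) := Nat.cast_le.2 h7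
      push_cast at h7'
      exact h7'
    linarith
  have h8 : (∑ i ∈ Finset.range n, (i : ℝ)) / u ≤ (n : ℝ) ^ 2 / (2 * u) := by
    rw [← div_div]
    exact div_le_div_of_nonneg_right h4 hu0.le
  linarith

/-- the exponent increases with the planted index, so `T3` carries over -/
theorem ee3_le (n r : ℕ) (hn : 4 ≤ n) (hrn : r + 2 ≤ n) (hμ : 0 < Pool.Agent.H96.T3.mu3 n r) :
    0 < mu4 n r ∧ Pool.Agent.H96.T3.ee3 n r ≤ ee4 n r := by
  have hn4 : (4 : ℝ) ≤ n := by exact_mod_cast hn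
  have hr : (r : ℝ) + 2 ≤ n := by exact_mod_cast hrn
  have hle : Pool.Agent.H96.T3.mu3 n r ≤ mu4 n r := by
    unfold Pool.Agent.H96.T3.mu3 mu4 Pool.Agent.H96.T3.lam3
    have h1 := le_max_left (2 * (gg n (r + 1) : ℝ)) ((((n ^ 2 + 2 * n) / 4 : ℕ) : ℝ) / 2)
    linarith
  have h4 : mu4 n r ≤ WW n / 3 := by
    unfold mu4
    have h1 : (0 : ℝ) ≤ gg n (r + 1) := Nat.cast_nonneg _
    linarith
  refine ⟨hμ.trans_le hle, ?_⟩
  unfold Pool.Agent.H96.T3.ee3 ee4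
  generalize Pool.Agent.H96.T3.mu3 n r = a at hle hμ
  generalize mu4 n r = b at hle h4
  have hWd : WW n = ((n : ℝ) - 1) * (n + 2) / 2 := rfl
  have hWr : (n : ℝ) * (n - 1) ≤ 2 * (WW n - r) := by rw [hWd]; nlinarith
  have hM0 : 0 < (n : ℝ) * (n - 1) := by nlinarith
  have hWr0 : 0 < WW n - r := by linarith
  have hW0 : 0 < WW n := by
    have : (0 : ℝ) ≤ r := Nat.cast_nonneg _
    linarith
  have hb : 0 < (n : ℝ) * (n - 1) - 2 * b := by
    have h5 : 2 * (WW n / 3) < (n : ℝ) * (n - 1) := by rw [hWd]; nlinarith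
    linarith
  have ha : 0 < (n : ℝ) * (n - 1) - 2 * a := by linarith
  rw [div_le_div_iff₀ ha hb]
  have hK : (n : ℝ) * (n - 1) * (WW n / (WW n - r)) ≤ 2 * WW n := by
    rw [mul_div_assoc', div_le_iff₀ hWr0]
    nlinarith
  have hba : 0 ≤ b - a := by linarith
  have h6 := mul_le_mul_of_nonneg_left hK hba
  rw [mul_div_assoc, mul_div_assoc]
  generalize WW n / (WW n - r) = K at h6
  nlinarith

theorem ineq_as4 (c : ℝ) (hc : c < 3 / 2) : ∃ n0 : ℕ, ∀ n ≥ n0, ∃ r : ℕ, 1 ≤ r ∧ r + 2 ≤ n ∧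
    0 < mu4 n r ∧ 1 / 2 + c / (n : ℝ) < ee4 n r := by
  set d : ℝ := max c 0 with hd
  have hd0 : 0 ≤ d := le_max_right _ _
  have hcd : c ≤ d := le_max_left _ _
  have hd2 : d < 3 / 2 := max_lt hc (by norm_num)
  set δ : ℝ := 1 - 2 * d / 3 with hδ
  have hδ0 : 0 < δ := by rw [hδ]; linarith
  obtain ⟨R, hR⟩ := exists_nat_gt (max (10 / δ) 20)
  have hR1 : 10 / δ < R := (le_max_left _ _).trans_lt hR
  have hR2 : (20 : ℝ) < R := (le_max_right _ _).trans_lt hR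
  refine ⟨R * R, fun n hn => ?_⟩
  set r : ℕ := Nat.sqrt n with hr
  have hRr : R ≤ r := by
    rw [hr, Nat.le_sqrt]
    exact hn
  have hRr' : (R : ℝ) ≤ r := by exact_mod_cast hRr
  have hr20 : (20 : ℝ) < r := hR2.trans_le hRr'
  have hδr : 10 < δ * r := by
    rw [div_lt_iff₀ hδ0] at hR1
    nlinarith
  have hr1 : (r : ℝ) * r ≤ n := by
    have : r * r ≤ n := Nat.sqrt_le n
    exact_mod_cast this
  have hr2 : (n : ℝ) < (r + 1) * (r + 1) := by
    have : n < (r + 1) * (r + 1) := Nat.lt_succ_sqrt n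
    exact_mod_cast this
  have hn20 : 20 * (r : ℝ) ≤ n := by nlinarith
  have hn0 : (0 : ℝ) < n := by linarith
  have hn400 : (400 : ℝ) ≤ n := by linarith
  have hr1' : 1 ≤ r := by
    have : (1 : ℝ) ≤ r := by linarith
    exact_mod_cast this
  have hrn : r + 2 ≤ n := by
    have : (r : ℝ) + 2 ≤ n := by linarith
    exact_mod_cast this
  have hgg : (gg n (r + 1) : ℝ) ≤ n * (r + 3) / 2 := by
    refine (rl23_gg n (r + 1) (by omega)).trans ?_
    push_cast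
    have h1 : (n : ℝ) ^ 2 / (2 * ((r : ℝ) + 1)) ≤ n * (r + 1) / 2 := by
      rw [div_le_div_iff₀ (by positivity) (by norm_num)]
      nlinarith
    linarith
  have hgg0 : (0 : ℝ) ≤ gg n (r + 1) := Nat.cast_nonneg _
  have hWd : WW n = ((n : ℝ) - 1) * (n + 2) / 2 := rfl
  have hmu_lo : (WW n - 2 * n * (r + 3)) / 3 ≤ mu4 n r := by
    unfold mu4
    linarith
  have hmu_hi : mu4 n r ≤ WW n / 3 := by
    unfold mu4
    linarith
  have hmu0 : 0 < mu4 n r := by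
    have h1 : 0 < WW n - 2 * n * (r + 3) := by
      rw [hWd]
      nlinarith
    linarith
  refine ⟨r, hr1', hrn, hmu0, ?_⟩
  unfold ee4
  generalize mu4 n r = b at hmu_lo hmu_hi hmu0
  have hWr : (n : ℝ) * (n - 1) ≤ 2 * (WW n - r) := by rw [hWd]; nlinarith
  have hWr0 : 0 < WW n - r := by nlinarith
  have hb : 0 < (n : ℝ) * (n - 1) - 2 * b := by
    have h5 : 2 * (WW n / 3) < (n : ℝ) * (n - 1) := by rw [hWd]; nlinarith
    linarith
  have hcn : c / (n : ℝ) ≤ d / n := div_le_div_of_nonneg_right hcd hn0.le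
  refine lt_of_le_of_lt (add_le_add_right hcn (1 / 2)) ?_
  rw [lt_div_iff₀ hb]
  -- the loss in the numerator
  have hloss : b * WW n / (WW n - r) ≤ b + r := by
    rw [div_le_iff₀ hWr0]
    have h1 : b ≤ WW n - r := by nlinarith
    nlinarith
  -- the gain
  have h2 : d / n * ((n : ℝ) * (n - 1) - 2 * b) ≤ d * (2 * n / 3 + 4 * r / 3 + 4) := by
    rw [div_mul_eq_mul_div, div_le_iff₀ hn0, mul_assoc]
    apply mul_le_mul_of_nonneg_left _ hd0
    rw [hWd] at hmu_lo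
    nlinarith
  have h3 : d * (2 * n / 3 + 4 * r / 3 + 4) ≤ 2 * d / 3 * n + 2 * r + 6 := by nlinarith
  have h4 : 3 * (r : ℝ) + 7 < δ * n := by
    have h5 : δ * (r * r) ≤ δ * n := mul_le_mul_of_nonneg_left hr1 hδ0.le
    have h6 : 10 * (r : ℝ) < δ * (r * r) := by nlinarith
    linarith
  have h5 : δ * n = n - 2 * d / 3 * n := by rw [hδ]; ring
  rw [add_mul]
  rw [hWd]
  rw [hWd] at hloss
  nlinarith

end Pool.Agent.H26.RL
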