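import Pool.Agent.H26.RL.Defs
import Pool.Agent.H13.RG.Boxes

/-!
# Project RL (MP_a3214d), row RL-9: the lattice of all polynomials is round
-/

set_option autoImplicit false

open Polynomial IsDedekindDomain NumberField Pool.Agent.H35.AN
open Pool.Agent.H67.MU (Bdd)
open Pool.Agent.H92.SQ2 (gg WW)
open Pool.Agent.H98.TQ

namespace Pool.Agent.H26.RL

/-- the sum of the members of a finite set of natural numbers -/
theorem rl_9_sum (S : Finset ℕ) : S.card ^ 2 ≤ 2 * ∑ j ∈ S, j + S.card := by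
  induction S using Finset.induction_on_max with
  | empty => simp
  | insert a S hS ih =>
    have ha : a ∉ S := fun h => lt_irrefl a (hS a h)
    rw [Finset.sum_insert ha, Finset.card_insert_of_notMem ha]
    have h1 : S.card ≤ a := by
      have h2 : S ⊆ Finset.range a := fun x hx => Finset.mem_range.2 (hS x hx)
      have h3 := Finset.card_le_card h2
      rwa [Finset.card_range] at h3
    nlinarith

/-- the degrees of the members of a subspace -/
theorem rl_9_pivots {k : Type} [Field k] (N : ℕ) (V : Submodule k k[X])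
    (hV : V ≤ degreeLT k N) : ∃ S : Finset ℕ, S ⊆ Finset.range N ∧
      S.card = Module.finrank k V ∧ ∀ v ∈ V, (∀ j ∈ S, v.coeff j = 0) → v = 0 := by
  classical
  have : Module.Finite k (degreeLT k N) := Module.Finite.equiv (degreeLTEquiv k N).symm
  have : Module.Finite k V := Submodule.finiteDimensional_of_le hV
  let S : Finset ℕ := (Finset.range N).filter fun j => ∃ v ∈ V, v ≠ 0 ∧ v.natDegree = j
  have hinj : ∀ v ∈ V, (∀ j ∈ S, v.coeff j = 0) → v = 0 := by
    intro v hv h
    by_contra h0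
    have h1 : v.natDegree < N := by
      have h2 := mem_degreeLT.1 (hV hv)
      exact (natDegree_lt_iff_degree_lt h0).2 h2
    have h3 := h v.natDegree (Finset.mem_filter.2 ⟨Finset.mem_range.2 h1, v, hv, h0, rfl⟩)
    exact h0 (leadingCoeff_eq_zero.1 h3)
  refine ⟨S, Finset.filter_subset _ _, le_antisymm ?_ ?_, hinj⟩
  · -- linear independence
    have hex : ∀ j : ℕ, ∃ v : k[X], v.degree = j ∧ (j ∈ S → v ∈ V) := by
      intro j
      by_cases hj : j ∈ S
      · obtain ⟨v, hv, h0, hd⟩ := (Finset.mem_filter.1 hj).2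
        exact ⟨v, by rw [degree_eq_natDegree h0, hd], fun _ => hv⟩
      · exact ⟨X ^ j, degree_X_pow j, fun h => absurd h hj⟩
    choose f hf1 hf2 using hex
    let Sq : Polynomial.Sequence k := ⟨f, hf1⟩
    have hli : LinearIndependent k (fun j : ℕ => f j) := Sq.linearIndependent
    have hli2 : LinearIndependent k (fun j : S => f j) := hli.comp _ Subtype.val_injective
    have hli3 : LinearIndependent k (fun j : S => (⟨f j, hf2 j j.2⟩ : V)) :=
      LinearIndependent.of_comp V.subtype hli2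
    have h1 := hli3.fintype_card_le_finrank
    rwa [Fintype.card_coe] at h1
  · -- injectivity
    let ψ : V →ₗ[k] (S → k) :=
      { toFun := fun v j => (v : k[X]).coeff j
        map_add' := fun v w => by ext j; simp
        map_smul' := fun c v => by ext j; simp }
    have hψ : Function.Injective ψ := by
      rw [← LinearMap.ker_eq_bot, LinearMap.ker_eq_bot']
      intro v hv
      apply Subtype.ext
      exact hinj v v.2 fun j hj => congrFun hv ⟨j, hj⟩
    have h1 := LinearMap.finrank_le_finrank_of_injective hψ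
    rwa [Module.finrank_fintype_fun_eq_card, Fintype.card_coe] at h1

section

variable (k : Type) [Field k] [NumberField k]

/-! ### RL-9 Start.lean -/

theorem start (N b g a0 : ℕ) (hN : 1 ≤ N) (ha : 2 * b * N ≤ a0) : ∃ h0 : ℕ, ∀ h ≥ h0,
    Rd h b N g a0 0 (Module.finrank ℚ k * b) 1 (⊤ : Submodule (𝓞 k) (𝓞 k)[X]) := by
  classical
  set D := Module.finrank ℚ k with hD
  refine ⟨3 ^ (D * N), fun h hh V hV => ?_⟩
  have hh1 : 1 ≤ h := (Nat.one_le_pow _ _ (by norm_num)).trans hh
  obtain ⟨S, hSN, hSc, hS⟩ := rl_9_pivots N V hV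
  have hSlt : ∀ j ∈ S, j < N := fun j hj => Finset.mem_range.1 (hSN hj)
  have hcard : S.card ≤ N := by
    have h3 := Finset.card_le_card hSN
    rwa [Finset.card_range] at h3
  have hja : ∀ j ∈ S, 2 * b * j ≤ a0 := fun j hj =>
    (Nat.mul_le_mul_left _ (hSlt j hj).le).trans ha
  unfold RdV
  rw [← hSc]
  set κ := S.card with hκ
  have hhR : (1 : ℝ) ≤ (h : ℝ) := by exact_mod_cast hh1
  have hhR0 : (0 : ℝ) < (h : ℝ) := by linarith
  -- the boxes
  let A : ℕ → Finset (𝓞 k) := fun j =>
    (Pool.Agent.H13.RG.rgc4_finite k ((h : ℝ) ^ (a0 - 2 * b * j))).toFinset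
  have hA : ∀ j, (A j).card ≤ 3 ^ D * h ^ (D * (a0 - 2 * b * j)) := by
    intro j
    have hY : (1 : ℝ) ≤ (h : ℝ) ^ (a0 - 2 * b * j) := one_le_pow₀ hhR
    have h1 := Pool.Agent.H41.RG.card_le_of_house k (by linarith : (0 : ℝ) ≤ _) (A j)
      (fun x hx => by
        rw [Set.Finite.mem_toFinset] at hx
        exact hx)
    have h2 : ((A j).card : ℝ) ≤ ((3 ^ D * h ^ (D * (a0 - 2 * b * j)) : ℕ) : ℝ) := by
      refine h1.trans ?_
      rw [← hD]
      push_cast
      rw [mul_comm D, pow_mul, ← mul_pow]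
      exact pow_le_pow_left₀ (by positivity) (by linarith) _
    exact_mod_cast h2
  have hnu : nu ((h : ℝ) ^ (2 * b)) N ((h : ℝ) ^ a0) (⊤ : Submodule (𝓞 k) (𝓞 k)[X]) V ≤
      ∏ j ∈ S, (A j).card := by
    unfold nu
    have h1 : ∏ j ∈ S, (A j).card = (Fintype.piFinset (fun j : S => A j)).card := by
      rw [Fintype.card_piFinset, ← Finset.prod_coe_sort]
    rw [h1, ← Set.ncard_coe_finset]
    refine Set.ncard_le_ncard_of_injOn (fun g (j : S) => g.coeff j) ?_ ?_ (Finset.finite_toSet _)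
    · rintro g ⟨-, -, hg⟩
      rw [Finset.mem_coe, Fintype.mem_piFinset]
      intro j
      rw [Set.Finite.mem_toFinset]
      intro φ
      have h2 := hg j (hSlt j j.2) φ
      have h3 : ((h : ℝ) ^ (2 * b)) ^ (j : ℕ) = (h : ℝ) ^ (2 * b * j) := (pow_mul _ _ _).symm
      have h4 : (h : ℝ) ^ a0 = (h : ℝ) ^ (a0 - 2 * b * j) * (h : ℝ) ^ (2 * b * j) := by
        rw [← pow_add, Nat.sub_add_cancel (hja j j.2)]
      rw [h3, h4] at h2
      exact le_of_mul_le_mul_right h2 (by positivity)
    · rintro g ⟨-, hg, -⟩ g' ⟨-, hg', -⟩ hgg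
      have h2 : FK g - FK g' = 0 := by
        apply hS _ (V.sub_mem hg hg')
        intro j hj
        have h3 : g.coeff j = g'.coeff j := congrFun hgg ⟨j, hj⟩
        unfold FK
        rw [coeff_sub, coeff_map, coeff_map, h3, sub_self]
      exact map_injective (algebraMap (𝓞 k) k) RingOfIntegers.coe_injective (sub_eq_zero.1 h2)
  have hprod : ∏ j ∈ S, (A j).card ≤ h * h ^ (D * ∑ j ∈ S, (a0 - 2 * b * j)) := by
    calc ∏ j ∈ S, (A j).card ≤ ∏ j ∈ S, (3 ^ D * h ^ (D * (a0 - 2 * b * j))) :=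
          Finset.prod_le_prod' fun j _ => hA j
      _ = (3 ^ D) ^ κ * h ^ (D * ∑ j ∈ S, (a0 - 2 * b * j)) := by
          rw [Finset.prod_mul_distrib, Finset.prod_const, Finset.prod_pow_eq_pow_sum,
            Finset.mul_sum]
      _ ≤ h * h ^ (D * ∑ j ∈ S, (a0 - 2 * b * j)) := by
          refine Nat.mul_le_mul_right _ ?_
          rw [← pow_mul]
          exact (Nat.pow_le_pow_right (by norm_num) (Nat.mul_le_mul_left _ hcard)).trans hh
  have hsum : ∑ j ∈ S, (a0 - 2 * b * j) + 2 * b * ∑ j ∈ S, j = κ * a0 := by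
    rw [Finset.mul_sum, ← Finset.sum_add_distrib, Finset.sum_congr rfl
      (fun j hj => Nat.sub_add_cancel (hja j hj)), Finset.sum_const, smul_eq_mul]
  have hq := rl_9_sum S
  rw [← hκ] at hq
  calc nu ((h : ℝ) ^ (2 * b)) N ((h : ℝ) ^ a0) (⊤ : Submodule (𝓞 k) (𝓞 k)[X]) V *
        h ^ (D * b * κ ^ 2 + (N * g * 0 + D * (N * b)) * κ)
      ≤ (h * h ^ (D * ∑ j ∈ S, (a0 - 2 * b * j))) *
        h ^ (D * b * κ ^ 2 + (N * g * 0 + D * (N * b)) * κ) :=
        Nat.mul_le_mul_right _ (hnu.trans hprod)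
    _ = h ^ (1 + D * ∑ j ∈ S, (a0 - 2 * b * j) +
          (D * b * κ ^ 2 + (N * g * 0 + D * (N * b)) * κ)) := by
        rw [← pow_succ', ← pow_add, Nat.add_comm 1]
    _ ≤ h ^ ((D * (a0 + b) + N * (D * b)) * κ + 1) := by
        apply Nat.pow_le_pow_right hh1
        generalize ∑ j ∈ S, (a0 - 2 * b * j) = s1 at hsum
        generalize ∑ j ∈ S, j = s2 at hsum hq
        have h5 : D * (s1 + b * κ ^ 2) ≤ D * (κ * a0 + b * κ) := by
          apply Nat.mul_le_mul_left
          rw [← hsum]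
          have h6 : b * κ ^ 2 ≤ b * (2 * s2 + κ) := Nat.mul_le_mul_left _ hq
          linarith
        nlinarith

end

end Pool.Agent.H26.RL
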