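import Pool.Agent.H26.RL.Step
import Pool.Agent.H26.RL.Start

/-!
# Project RL (MP_a3214d), row RL-10: iteration of the step
-/

set_option autoImplicit false

open Polynomial IsDedekindDomain NumberField Pool.Agent.H35.AN
open Pool.Agent.H67.MU (Bdd)
open Pool.Agent.H92.SQ2 (gg WW)
open Pool.Agent.H98.TQ
open Pool.Agent.H96.T3 (D1)

namespace Pool.Agent.H26.RL

section

variable {k : Type} [Field k] [NumberField k]

private theorem rl_10_LL {t : ℕ} (τ : Fin (t + 1) → Bool)
    (e : Fin t → HeightOneSpectrum (𝓞 k) × ℕ) (m : HeightOneSpectrum (𝓞 k) × ℕ) :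
    LL τ (Fin.snoc (α := fun _ => HeightOneSpectrum (𝓞 k) × ℕ) e m) =
      LL (fun i => τ i.castSucc) e ⊓ cut (τ (Fin.last t)) m.1.asIdeal (m.2 : 𝓞 k) := by
  ext g
  rw [Submodule.mem_inf, mem_LL, mem_LL]
  constructor
  · intro h
    refine ⟨fun i => ?_, ?_⟩
    · have := h i.castSucc
      rwa [Fin.snoc_castSucc] at this
    · have := h (Fin.last t)
      rwa [Fin.snoc_last] at this
  · rintro ⟨h1, h2⟩ i
    refine Fin.lastCases ?_ (fun j => ?_) i
    · rw [Fin.snoc_last]; exact h2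
    · rw [Fin.snoc_castSucc]; exact h1 j

private theorem rl_10_qq {t : ℕ} (τ : Fin (t + 1) → Bool) :
    qq τ = qq (fun i : Fin t => τ i.castSucc) + ct (τ (Fin.last t)) := by
  unfold qq
  rw [Fin.sum_univ_castSucc]

private theorem rl_10_Ef (D b N g q c : ℕ) :
    Ef D b N g (q + c) ≤ Ef D b N g q ∧ Ef D b N g q ≤ Ef D b N g (q + c) + g * c ∧
      4 * g * N ^ 2 ≤ Ef D b N g q := by
  unfold Ef
  rw [Nat.mul_add]
  omega

private theorem rl_10_Ef_le (D b N g q : ℕ) (hb : 4 * g * N ^ 2 ≤ D * b) :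
    Ef D b N g q ≤ D * b := by
  unfold Ef
  exact max_le (Nat.sub_le _ _) hb

private theorem rl_10_cA {D N b g a0 q q' E E' : ℕ} (hq : q' ≤ q) (hE : E' ≤ E)
    (h : cA D N b g a0 q E) : cA D N b g a0 q' E' := by
  unfold cA at h ⊢
  have h1 : N * g * q' ≤ N * g * q := Nat.mul_le_mul_left _ hq
  have h2 : N ^ 2 * (3 * g + E') ≤ N ^ 2 * (3 * g + E) := Nat.mul_le_mul_left _ (by omega)
  omega

open scoped Classical in
/-- the good extensions of one tuple -/
private theorem rl_10_count {J h C t : ℕ} (hJ : 2 ≤ J) (S : Finset (HeightOneSpectrum (𝓞 k)))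
    (hS : PS h J S) (hc : h ^ (J - 1) ≤ S.card) (hh : 2 * (C + t) ≤ h) (hJ2 : J + 1 ≤ 2 * (J - 1))
    (U : Finset (HeightOneSpectrum (𝓞 k))) (hU : U.card ≤ t)
    (Q : HeightOneSpectrum (𝓞 k) → ℕ → Prop)
    (hQ : (∑ m ∈ S, ((Finset.range (Ideal.absNorm m.asIdeal)).filter fun x : ℕ =>
      ¬ Q m x).card) ≤ C * h ^ J) :
    h ^ (2 * (J - 1)) ≤ 2 * ∑ m ∈ S, ((Finset.range (Ideal.absNorm m.asIdeal)).filter
      fun x : ℕ => m ∉ U ∧ Q m x).card := by
  have h1 : h ^ (2 * (J - 1)) ≤ ∑ m ∈ S, Ideal.absNorm m.asIdeal := by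
    calc h ^ (2 * (J - 1)) = h ^ (J - 1) * h ^ (J - 1) := by rw [two_mul, pow_add]
      _ ≤ S.card * h ^ (J - 1) := Nat.mul_le_mul_right _ hc
      _ = ∑ m ∈ S, h ^ (J - 1) := by rw [Finset.sum_const, smul_eq_mul]
      _ ≤ ∑ m ∈ S, Ideal.absNorm m.asIdeal := Finset.sum_le_sum fun m hm => (hS.lo m hm).le
  have h2 : ∑ m ∈ S, Ideal.absNorm m.asIdeal ≤
      ∑ m ∈ S, (((Finset.range (Ideal.absNorm m.asIdeal)).filter
        fun x : ℕ => m ∉ U ∧ Q m x).card +
        ((Finset.range (Ideal.absNorm m.asIdeal)).filter fun x : ℕ => ¬ Q m x).card +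
        (if m ∈ U then h ^ J else 0)) := by
    apply Finset.sum_le_sum
    intro m hm
    by_cases hmU : m ∈ U
    · rw [if_pos hmU]
      have := hS.hi m hm
      omega
    · rw [if_neg hmU, add_zero]
      have h3 : Finset.range (Ideal.absNorm m.asIdeal) =
          ((Finset.range (Ideal.absNorm m.asIdeal)).filter fun x : ℕ => m ∉ U ∧ Q m x) ∪
          ((Finset.range (Ideal.absNorm m.asIdeal)).filter fun x : ℕ => ¬ Q m x) := by
        ext x
        simp only [Finset.mem_union, Finset.mem_filter]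
        tauto
      calc Ideal.absNorm m.asIdeal = (Finset.range (Ideal.absNorm m.asIdeal)).card := by
            rw [Finset.card_range]
        _ ≤ _ := by
            conv_lhs => rw [h3]
            exact Finset.card_union_le _ _
  have h4 : ∑ m ∈ S, (if m ∈ U then h ^ J else 0) ≤ t * h ^ J := by
    rw [← Finset.sum_filter, Finset.sum_const, smul_eq_mul]
    apply Nat.mul_le_mul_right
    refine le_trans (Finset.card_le_card ?_) hU
    intro m hm
    exact (Finset.mem_filter.1 hm).2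
  rw [Finset.sum_add_distrib, Finset.sum_add_distrib] at h2
  have h5 : 2 * ((C + t) * h ^ J) ≤ h ^ (2 * (J - 1)) := by
    have hpos : 0 < h ∨ h = 0 := by omega
    rcases hpos with hpos | hpos
    · calc 2 * ((C + t) * h ^ J) = (2 * (C + t)) * h ^ J := by ring
        _ ≤ h * h ^ J := Nat.mul_le_mul_right _ hh
        _ = h ^ (J + 1) := by rw [pow_succ]; ring
        _ ≤ h ^ (2 * (J - 1)) := Nat.pow_le_pow_right hpos hJ2
    · rw [hpos, Nat.zero_pow (by omega)]
      simp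
  have h6 : (C + t) * h ^ J = C * h ^ J + t * h ^ J := by ring
  omega

end

variable (k : Type) [Field k] [NumberField k]

theorem iterate (N b g a0 t : ℕ) (hN : 4 ≤ N) (hg : 1 ≤ g) (τ : Fin t → Bool)
    (hb : 4 * g * N ^ 2 ≤ Module.finrank ℚ k * b)
    (hA : cA (Module.finrank ℚ k) N b g a0 (qq τ) (Module.finrank ℚ k * b)) :
    ∃ h0 : ℕ, ∀ h ≥ h0, ∀ S : Finset (HeightOneSpectrum (𝓞 k)), PS h (N ^ 2 * g + 1) S →
      h ^ (N ^ 2 * g) ≤ S.card →
      ∃ G : Finset (Fin t → HeightOneSpectrum (𝓞 k) × ℕ),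
        (∀ e ∈ G, (∀ i, (e i).1 ∈ S ∧ (e i).2 < Ideal.absNorm (e i).1.asIdeal) ∧
          (Function.Injective fun i => (e i).1) ∧
          Rd h b N g a0 (qq τ) (Ef (Module.finrank ℚ k) b N g (qq τ)) (1 + t) (LL τ e)) ∧
        h ^ (2 * (N ^ 2 * g) * t) ≤ 2 ^ t * G.card := by
  classical
  induction t with
  | zero =>
    obtain ⟨h0, H⟩ := start k N b g a0 (by omega) (by unfold cA at hA; omega)
    refine ⟨h0, fun h hh S _ _ => ⟨{fun i => i.elim0}, ?_, ?_⟩⟩
    · intro e _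
      refine ⟨fun i => i.elim0, fun i => i.elim0, ?_⟩
      have e1 : LL τ e = ⊤ := by
        unfold LL
        exact iInf_of_empty _
      have e2 : qq τ = 0 := by
        unfold qq
        exact Finset.sum_empty
      have e3 : Ef (Module.finrank ℚ k) b N g 0 = Module.finrank ℚ k * b := by
        unfold Ef
        rw [Nat.mul_zero, Nat.sub_zero]
        exact max_eq_left hb
      rw [e1, e2, e3]
      exact H h hh
    · simp
  | succ t ih =>
    obtain ⟨τ', hτ'⟩ : ∃ τ' : Fin t → Bool, τ' = fun i => τ i.castSucc := ⟨_, rfl⟩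
    have hqq : qq τ = qq τ' + ct (τ (Fin.last t)) := by
      rw [hτ']; exact rl_10_qq τ
    obtain ⟨hE1, hE2, hE3⟩ := rl_10_Ef (Module.finrank ℚ k) b N g (qq τ') (ct (τ (Fin.last t)))
    rw [← hqq] at hE1 hE2
    obtain ⟨c, hc⟩ : ∃ c, Ef (Module.finrank ℚ k) b N g (qq τ') =
        Ef (Module.finrank ℚ k) b N g (qq τ) + c :=
      ⟨_, (Nat.add_sub_cancel' hE1).symm⟩
    obtain ⟨h1, H1⟩ := ih τ' (rl_10_cA (by omega) le_rfl hA)
    obtain ⟨C, h2, H2⟩ := step k N b g a0 (qq τ') (Ef (Module.finrank ℚ k) b N g (qq τ)) c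
      (1 + t) hN hg (τ (Fin.last t)) (by omega) (by omega)
      (by
        rw [← hc]
        exact rl_10_cA (by omega) (rl_10_Ef_le _ _ _ _ _ hb) hA)
    refine ⟨max (max h1 h2) (2 * (C + t)), fun h hh S hS hSc => ?_⟩
    have hh1 : h1 ≤ h := le_trans (le_trans (le_max_left _ _) (le_max_left _ _)) hh
    have hh2 : h2 ≤ h := le_trans (le_trans (le_max_right _ _) (le_max_left _ _)) hh
    have hh3 : 2 * (C + t) ≤ h := le_trans (le_max_right _ _) hh
    obtain ⟨G', hG', hG'c⟩ := H1 h hh1 S hS hSc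
    have hNg : 16 ≤ N ^ 2 * g := by
      have h3 : 4 ^ 2 ≤ N ^ 2 := Nat.pow_le_pow_left hN 2
      nlinarith
    -- the good extensions
    obtain ⟨X, hX⟩ : ∃ X : (Fin t → HeightOneSpectrum (𝓞 k) × ℕ) →
        Finset (Σ _ : HeightOneSpectrum (𝓞 k), ℕ), X = fun e => S.sigma fun m =>
          (Finset.range (Ideal.absNorm m.asIdeal)).filter fun x : ℕ =>
            m ∉ (Finset.univ.image fun i => (e i).1) ∧
              Rd h b N g a0 (qq τ' + ct (τ (Fin.last t)))
                (Ef (Module.finrank ℚ k) b N g (qq τ)) (1 + t + 1)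
                (LL τ' e ⊓ cut (τ (Fin.last t)) m.asIdeal (x : 𝓞 k)) := ⟨_, rfl⟩
    have hXc : ∀ e ∈ G', h ^ (2 * (N ^ 2 * g)) ≤ 2 * (X e).card := by
      intro e he
      rw [hX]
      show h ^ (2 * (N ^ 2 * g)) ≤ 2 * (S.sigma _).card
      rw [Finset.card_sigma]
      obtain ⟨_, _, hR⟩ := hG' e he
      rw [hc] at hR
      have h5 := H2 h hh2 S hS (LL τ' e) hR
      have h6 := rl_10_count (J := N ^ 2 * g + 1) (C := C) (t := t) (by omega) S hS
        (by rw [Nat.add_sub_cancel]; exact hSc) hh3 (by omega)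
        (Finset.univ.image fun i => (e i).1)
        (by
          refine le_trans Finset.card_image_le ?_
          rw [Finset.card_univ, Fintype.card_fin])
        _ h5
      rw [Nat.add_sub_cancel] at h6
      exact h6
    obtain ⟨φ, hφ⟩ : ∃ φ : (Σ _ : (Fin t → HeightOneSpectrum (𝓞 k) × ℕ),
        Σ _ : HeightOneSpectrum (𝓞 k), ℕ) → (Fin (t + 1) → HeightOneSpectrum (𝓞 k) × ℕ),
        φ = fun z => Fin.snoc (α := fun _ => HeightOneSpectrum (𝓞 k) × ℕ) z.1 (z.2.1, z.2.2) :=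
      ⟨_, rfl⟩
    have hφi : Function.Injective φ := by
      rintro ⟨e, m, x⟩ ⟨e', m', x'⟩ hz
      rw [hφ] at hz
      have hz' : (Fin.snoc (α := fun _ => HeightOneSpectrum (𝓞 k) × ℕ) e (m, x) :
          Fin (t + 1) → HeightOneSpectrum (𝓞 k) × ℕ) =
          Fin.snoc (α := fun _ => HeightOneSpectrum (𝓞 k) × ℕ) e' (m', x') := hz
      have h7 := congrFun hz' (Fin.last t)
      rw [Fin.snoc_last, Fin.snoc_last] at h7
      have h8 : e = e' := by
        funext i
        have := congrFun hz' i.castSucc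
        rwa [Fin.snoc_castSucc, Fin.snoc_castSucc] at this
      obtain ⟨h9, h10⟩ := Prod.mk.inj h7
      subst h8 h9 h10
      rfl
    refine ⟨(G'.sigma X).image φ, ?_, ?_⟩
    · intro e he
      obtain ⟨⟨e', m, x⟩, hz, rfl⟩ := Finset.mem_image.1 he
      rw [Finset.mem_sigma] at hz
      obtain ⟨hz1, hz2⟩ := hz
      obtain ⟨g1, g2, g3⟩ := hG' e' hz1
      rw [hX] at hz2
      have hz3 := Finset.mem_sigma.1 hz2
      obtain ⟨hmS, hz4⟩ := hz3
      obtain ⟨hx, hmU, hR⟩ := Finset.mem_filter.1 hz4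
      have hx' : x < Ideal.absNorm m.asIdeal := Finset.mem_range.1 hx
      have hmU' : ∀ i, (e' i).1 ≠ m := by
        intro i hi
        exact hmU (Finset.mem_image.2 ⟨i, Finset.mem_univ _, hi⟩)
      rw [hφ]
      refine ⟨?_, ?_, ?_⟩
      · intro i
        refine Fin.lastCases ?_ (fun j => ?_) i
        · show ((Fin.snoc (α := fun _ => HeightOneSpectrum (𝓞 k) × ℕ) e' (m, x) :
            Fin (t + 1) → HeightOneSpectrum (𝓞 k) × ℕ) (Fin.last t)).1 ∈ S ∧
            ((Fin.snoc (α := fun _ => HeightOneSpectrum (𝓞 k) × ℕ) e' (m, x) :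
            Fin (t + 1) → HeightOneSpectrum (𝓞 k) × ℕ) (Fin.last t)).2 < Ideal.absNorm
            ((Fin.snoc (α := fun _ => HeightOneSpectrum (𝓞 k) × ℕ) e' (m, x) :
            Fin (t + 1) → HeightOneSpectrum (𝓞 k) × ℕ) (Fin.last t)).1.asIdeal
          rw [Fin.snoc_last]
          exact ⟨hmS, hx'⟩
        · show ((Fin.snoc (α := fun _ => HeightOneSpectrum (𝓞 k) × ℕ) e' (m, x) :
            Fin (t + 1) → HeightOneSpectrum (𝓞 k) × ℕ) j.castSucc).1 ∈ S ∧
            ((Fin.snoc (α := fun _ => HeightOneSpectrum (𝓞 k) × ℕ) e' (m, x) :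
            Fin (t + 1) → HeightOneSpectrum (𝓞 k) × ℕ) j.castSucc).2 < Ideal.absNorm
            ((Fin.snoc (α := fun _ => HeightOneSpectrum (𝓞 k) × ℕ) e' (m, x) :
            Fin (t + 1) → HeightOneSpectrum (𝓞 k) × ℕ) j.castSucc).1.asIdeal
          rw [Fin.snoc_castSucc]
          exact g1 j
      · intro i j
        show ((Fin.snoc (α := fun _ => HeightOneSpectrum (𝓞 k) × ℕ) e' (m, x) :
            Fin (t + 1) → HeightOneSpectrum (𝓞 k) × ℕ) i).1 =
            ((Fin.snoc (α := fun _ => HeightOneSpectrum (𝓞 k) × ℕ) e' (m, x) :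
            Fin (t + 1) → HeightOneSpectrum (𝓞 k) × ℕ) j).1 → i = j
        refine Fin.lastCases ?_ (fun i' => ?_) i
        · refine Fin.lastCases (fun _ => rfl) (fun j' => ?_) j
          rw [Fin.snoc_last, Fin.snoc_castSucc]
          intro hij
          exact absurd hij.symm (hmU' j')
        · refine Fin.lastCases ?_ (fun j' => ?_) j
          · rw [Fin.snoc_last, Fin.snoc_castSucc]
            intro hij
            exact absurd hij (hmU' i')
          · rw [Fin.snoc_castSucc, Fin.snoc_castSucc]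
            intro hij
            rw [g2 hij]
      · show Rd h b N g a0 (qq τ) (Ef (Module.finrank ℚ k) b N g (qq τ)) (1 + (t + 1))
          (LL τ (Fin.snoc (α := fun _ => HeightOneSpectrum (𝓞 k) × ℕ) e' (m, x)))
        rw [rl_10_LL, ← hτ', hqq, ← hqq, show 1 + (t + 1) = 1 + t + 1 by ring]
        rw [← hqq] at hR
        exact hR
    · rw [Finset.card_image_of_injective _ hφi, Finset.card_sigma]
      have h11 : G'.card * h ^ (2 * (N ^ 2 * g)) ≤ 2 * ∑ e ∈ G', (X e).card := by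
        rw [Finset.mul_sum, ← smul_eq_mul, ← Finset.sum_const]
        exact Finset.sum_le_sum hXc
      calc h ^ (2 * (N ^ 2 * g) * (t + 1)) =
            h ^ (2 * (N ^ 2 * g) * t) * h ^ (2 * (N ^ 2 * g)) := by
              rw [← pow_add]; congr 1
        _ ≤ (2 ^ t * G'.card) * h ^ (2 * (N ^ 2 * g)) := Nat.mul_le_mul_right _ hG'c
        _ = 2 ^ t * (G'.card * h ^ (2 * (N ^ 2 * g))) := by ring
        _ ≤ 2 ^ t * (2 * ∑ e ∈ G', (X e).card) := Nat.mul_le_mul_left _ h11
        _ = 2 ^ (t + 1) * ∑ e ∈ G', (X e).card := by rw [pow_succ]; ring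

end Pool.Agent.H26.RL
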