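import Pool.Agent.H26.RL.Defs
import Pool.Agent.H26.RL.Double
import Pool.Agent.H41.RG.Boxes

/-!
# Project RL (MP_a3214d), row RL-11: no small vectors in a round lattice
-/

set_option autoImplicit false

open Polynomial IsDedekindDomain NumberField Pool.Agent.H35.AN
open Pool.Agent.H67.MU (Bdd)
open Pool.Agent.H92.SQ2 (gg WW)
open Pool.Agent.H98.TQ
open Pool.Agent.H96.T3 (D1)

namespace Pool.Agent.H26.RL

section

variable (k : Type) [Field k] [NumberField k]

/-- many integers in a box -/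
theorem rl_11_box : ∃ h0 : ℕ, 2 ≤ h0 ∧ ∀ h ≥ h0, ∀ M : ℕ, ∃ S : Finset (𝓞 k),
    (∀ c ∈ S, ∀ φ : k →+* ℂ, ‖φ (c : k)‖ ≤ (h : ℝ) ^ M) ∧
    (h : ℝ) ^ (Module.finrank ℚ k * M) ≤ (S.card : ℝ) * h := by
  classical
  obtain ⟨C0, hC0, hbox⟩ := Pool.Agent.H41.RG.box_lower k (s := 1) (fun _ => 1) (M := 1)
    one_pos (fun _ => 0)
  set C1 : ℝ := max C0 1 with hC1
  have hC11 : 1 ≤ C1 := le_max_right _ _
  have hC10 : C0 ≤ C1 := le_max_left _ _
  have hC1p : 0 < C1 := lt_of_lt_of_le one_pos hC11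
  obtain ⟨h1, hh1⟩ := exists_nat_ge (C1 ^ Module.finrank ℚ k)
  refine ⟨max 2 h1, le_max_left _ _, ?_⟩
  intro h hh M
  have hh2 : (2 : ℕ) ≤ h := le_trans (le_max_left _ _) hh
  have hhr : (1 : ℝ) ≤ h := by exact_mod_cast (by omega : 1 ≤ h)
  have hhC : C1 ^ Module.finrank ℚ k ≤ (h : ℝ) := by
    refine hh1.trans ?_
    exact_mod_cast le_trans (le_max_right _ _) hh
  rcases le_or_gt C1 ((h : ℝ) ^ M) with hM | hM
  · obtain ⟨S, hS1, hS2⟩ := hbox ((h : ℝ) ^ M / C1) ((one_le_div hC1p).2 hM)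
    refine ⟨S.image (fun u => u 0), ?_, ?_⟩
    · intro c hc φ
      obtain ⟨u, hu, rfl⟩ := Finset.mem_image.1 hc
      refine ((hS1 u hu 0).2 φ).trans ?_
      rw [pow_one, mul_div_assoc', div_le_iff₀ hC1p, mul_comm]
      exact mul_le_mul_of_nonneg_left hC10 (by positivity)
    · have hcard : (S.image (fun u => u 0)).card = S.card := by
        apply Finset.card_image_of_injective
        intro u v huv
        funext i
        have : i = 0 := Subsingleton.elim _ _
        rw [this]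
        exact huv
      rw [hcard]
      have h3 : ((h : ℝ) ^ M / C1) ^ Module.finrank ℚ k ≤ (S.card : ℝ) := by
        simpa using hS2
      rw [div_pow, div_le_iff₀ (by positivity), ← pow_mul, mul_comm M] at h3
      exact h3.trans (mul_le_mul_of_nonneg_left hhC (by positivity))
  · refine ⟨{0}, ?_, ?_⟩
    · intro c hc φ
      rw [Finset.mem_singleton.1 hc]
      simp only [map_zero, norm_zero]
      positivity
    · rw [Finset.card_singleton, Nat.cast_one, one_mul, mul_comm, pow_mul]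
      exact (pow_le_pow_left₀ (by positivity) hM.le _).trans hhC

theorem no_small (N b g a0 q E s ρ : ℕ) (hN : 1 ≤ N) (ha : ρ + 2 * b * (N - 1) ≤ a0)
    (hc : Module.finrank ℚ k * (ρ + (N - 1) * b) + (N - 1) * E + s + 2 ≤ N * g * q) :
    ∃ h0 : ℕ, ∀ h ≥ h0, ∀ L : Submodule (𝓞 k) (𝓞 k)[X], Rd h b N g a0 q E s L →
      ∀ f ∈ L, f ≠ 0 → ¬ InBox h (2 * b) (N - 1) ρ f := by
  classical
  obtain ⟨h0, h02, hbox⟩ := rl_11_box k
  refine ⟨h0, ?_⟩
  intro h hh L hR f hfL hf0 hfb
  have hh2 : 2 ≤ h := le_trans h02 hh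
  have hhr : (0 : ℝ) < h := by exact_mod_cast (by omega : 0 < h)
  obtain ⟨M, hM⟩ : ∃ M, a0 = M + (ρ + 2 * b * (N - 1)) := ⟨a0 - (ρ + 2 * b * (N - 1)), by omega⟩
  obtain ⟨S, hS1, hS2⟩ := hbox h hh M
  have hinj : Function.Injective (algebraMap (𝓞 k) k) := FaithfulSMul.algebraMap_injective _ _
  have hFf : FK f ≠ 0 := by
    intro h0
    apply hf0
    unfold FK at h0
    exact (Polynomial.map_eq_zero_iff hinj).1 h0
  set V : Submodule k k[X] := Submodule.span k {FK f} with hV
  have hVN : V ≤ degreeLT k N := by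
    rw [hV, Submodule.span_singleton_le_iff_mem, mem_degreeLT]
    have h1 : (FK f).natDegree ≤ N - 1 := (natDegree_map_le).trans hfb.1
    calc (FK f).degree ≤ ((FK f).natDegree : WithBot ℕ) := degree_le_natDegree
      _ < (N : WithBot ℕ) := by exact_mod_cast (by omega : (FK f).natDegree < N)
  have hfr : Module.finrank k V = 1 := finrank_span_singleton hFf
  have hRV := hR V hVN
  unfold RdV at hRV
  rw [hfr] at hRV
  have hfin := nu_finite (k := k) (B := (h : ℝ) ^ (2 * b)) (by positivity) N ((h : ℝ) ^ a0) L V hVN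
  have hnu : S.card ≤ nu ((h : ℝ) ^ (2 * b)) N ((h : ℝ) ^ a0) L V := by
    unfold nu
    rw [← Finset.card_image_of_injective S (f := fun c : 𝓞 k => c • f)
      (fun c d hcd => smul_left_injective _ hf0 hcd), ← Set.ncard_coe_finset]
    apply Set.ncard_le_ncard _ hfin
    intro g hg
    obtain ⟨c, hcS, rfl⟩ := Finset.mem_image.1 (Finset.mem_coe.1 hg)
    refine ⟨L.smul_mem _ hfL, ?_, ?_⟩
    · have : FK (c • f) = (algebraMap (𝓞 k) k c) • FK f := by
        unfold FK
        rw [smul_eq_C_mul, Polynomial.map_mul, map_C, smul_eq_C_mul]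
      show FK (c • f) ∈ V
      rw [this]
      exact V.smul_mem _ (Submodule.mem_span_singleton_self _)
    · intro j hj φ
      have h1 := hS1 c hcS φ
      have h2 := hfb.2 j (by omega) φ
      have h3 : (φ ((c • f).coeff j : k)) = φ (c : k) * φ (f.coeff j : k) := by
        rw [coeff_smul, smul_eq_mul, ← map_mul]
        rfl
      rw [h3, norm_mul]
      calc ‖φ (c : k)‖ * ‖φ (f.coeff j : k)‖ * ((h : ℝ) ^ (2 * b)) ^ j
          ≤ (h : ℝ) ^ M * (h : ℝ) ^ (ρ + 2 * b * (N - 1 - j)) * ((h : ℝ) ^ (2 * b)) ^ j := by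
            gcongr
        _ = (h : ℝ) ^ a0 := by
            rw [← pow_mul, ← pow_add, ← pow_add]
            congr 1
            rw [hM]
            have h4 : 2 * b * (N - 1 - j) + 2 * b * j = 2 * b * (N - 1) := by
              rw [← mul_add]
              congr 1
              omega
            omega
  have hcard : h ^ (Module.finrank ℚ k * M) ≤ S.card * h := by exact_mod_cast hS2
  have hkey : h ^ (Module.finrank ℚ k * M) * h ^ (E * 1 ^ 2 +
      (N * g * q + Module.finrank ℚ k * (N * b)) * 1) ≤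
      h ^ ((Module.finrank ℚ k * (a0 + b) + N * E) * 1 + s) * h := by
    calc h ^ (Module.finrank ℚ k * M) * h ^ (E * 1 ^ 2 +
      (N * g * q + Module.finrank ℚ k * (N * b)) * 1)
        ≤ (nu ((h : ℝ) ^ (2 * b)) N ((h : ℝ) ^ a0) L V * h) * h ^ (E * 1 ^ 2 +
      (N * g * q + Module.finrank ℚ k * (N * b)) * 1) := by
          apply Nat.mul_le_mul_right
          exact hcard.trans (Nat.mul_le_mul_right _ hnu)
      _ = (nu ((h : ℝ) ^ (2 * b)) N ((h : ℝ) ^ a0) L V * h ^ (E * 1 ^ 2 +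
      (N * g * q + Module.finrank ℚ k * (N * b)) * 1)) * h := by ring
      _ ≤ _ := Nat.mul_le_mul_right _ hRV
  rw [← pow_add, ← pow_succ] at hkey
  have hexp := (Nat.pow_le_pow_iff_right (by omega : 1 < h)).1 hkey
  obtain ⟨N', rfl⟩ : ∃ N', N = N' + 1 := ⟨N - 1, by omega⟩
  rw [Nat.add_sub_cancel] at hc hM
  set D := Module.finrank ℚ k
  rw [hM] at hexp
  have e1 : D * (M + (ρ + 2 * b * N') + b) = D * M + D * ρ + 2 * (D * (N' * b)) + D * b := by ring
  have e2 : D * ((N' + 1) * b) = D * (N' * b) + D * b := by ring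
  have e3 : (N' + 1) * E = N' * E + E := by ring
  have e4 : D * (ρ + N' * b) = D * ρ + D * (N' * b) := by ring
  rw [e1, e2, e3] at hexp
  rw [e4] at hc
  omega

end

end Pool.Agent.H26.RL
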