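import Pool.Agent.H26.RL.Defs

/-! Project RL (MP_a3214d), row RL-22: choice of the parameters -/

set_option autoImplicit false

open Polynomial IsDedekindDomain NumberField
open Pool.Agent.H92.SQ2 (gg WW)

namespace Pool.Agent.H26.RL

private theorem rl22_ev {c d : ℝ} (hc : 0 < c) :
    ∀ᶠ b : ℕ in Filter.atTop, d < c * (b : ℝ) :=
  ((tendsto_natCast_atTop_atTop (R := ℝ)).const_mul_atTop hc).eventually_gt_atTop d

/-- a value slightly below `M4` -/
private theorem rl22_M (M4 s t : ℝ) (hM4 : 0 < M4)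
    (hg : 0 < s + t * M4) : ∃ M : ℝ, 0 < M ∧ M < M4 ∧ M4 < M + 1 ∧ 0 < s + t * M := by
  have h1 : ∀ᶠ x in nhds M4, 0 < x := (continuous_id.continuousAt).eventually_const_lt hM4
  have h2 : ∀ᶠ x in nhds M4, M4 < x + 1 :=
    ((continuous_id.add continuous_const).continuousAt (x := M4)).eventually_const_lt
      (by simp)
  have h3 : ∀ᶠ x in nhds M4, 0 < s + t * x :=
    ((continuous_const.add (continuous_const.mul continuous_id)).continuousAt
      (x := M4)).eventually_const_lt hg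
  have h4 : ∀ᶠ x in nhdsWithin M4 (Set.Iio M4), (0 < x ∧ M4 < x + 1 ∧ 0 < s + t * x) ∧ x < M4 :=
    ((h1.and (h2.and h3)).filter_mono nhdsWithin_le_nhds).and self_mem_nhdsWithin
  obtain ⟨M, ⟨h5, h6, h7⟩, h8⟩ := h4.exists
  exact ⟨M, h5, h8, h6, h7⟩

theorem params4 (D n r : ℕ) (hD : 1 ≤ D) (hn : 5 ≤ n) (hr : 1 ≤ r) (hrn : r + 2 ≤ n)
    (hμ : 0 < mu4 n r) (θ : ℝ) (hθ : θ < ee4 n r) : ∃ b g tA tB w : ℕ,
      CondR D n b g tA tB ∧
      D * (2 * (2 * b) * gg n (r + 1)) + 2 ≤ (n - 1) ^ 2 * g * tB ∧ w ≤ 2 * b ∧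
      D * (w * (n * (n + 1) / 2 - 1) + (2 * b - w + 1) * r) +
        ((n - 1) ^ 2 * g * tA + 3 * tA + 2 * tB) + 1 ≤ D * (2 * b * (n * (n + 1) / 2 - 1)) ∧
      0 < D * (2 * b * n * (n - 1)) - 2 * ((n - 1) ^ 2 * g * tA) ∧
      θ * ((D * (2 * b * n * (n - 1)) - 2 * ((n - 1) ^ 2 * g * tA) : ℕ) : ℝ) <
        ((D * (2 * b * (n * (n + 1) / 2 - 1)) - ((n - 1) ^ 2 * g * tA + 3 * tA + 2 * tB) -
          D * ((2 * b - w) * r) : ℕ) : ℝ) := by
  obtain ⟨G, hG⟩ : ∃ G, G = gg n (r + 1) := ⟨_, rfl⟩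
  -- the integer W
  obtain ⟨W, hW⟩ : ∃ W, W = n * (n + 1) / 2 - 1 := ⟨_, rfl⟩
  have hW2 : 2 * W + 2 = n * (n + 1) := by
    have h1 : 2 ∣ n * (n + 1) := (Nat.even_mul_succ_self n).two_dvd
    obtain ⟨m, hm⟩ := h1
    have h2 : 5 * 6 ≤ n * (n + 1) := Nat.mul_le_mul hn (by omega)
    rw [hW, hm]; omega
  obtain ⟨N, hN⟩ : ∃ N, n = N + 1 := ⟨n - 1, by omega⟩
  have hN' : n - 1 = N := by omega
  have hNR : (n : ℝ) = N + 1 := by exact_mod_cast hN
  have hN4 : (4 : ℝ) ≤ N := by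
    have : 4 ≤ N := by omega
    exact_mod_cast this
  have hN0 : (0 : ℝ) < N := by linarith
  have hrR : (1 : ℝ) ≤ r := by exact_mod_cast hr
  have hrnR : (r : ℝ) + 2 ≤ n := by exact_mod_cast hrn
  have hdR : (1 : ℝ) ≤ D := by exact_mod_cast hD
  have hd0 : (0 : ℝ) < D := by linarith
  have hWR2 : (2 : ℝ) * W + 2 = n * (n + 1) := by exact_mod_cast hW2
  have hWR : WW n = (W : ℝ) := by
    unfold WW; linarith
  have hWN : 2 * (W : ℝ) = N * (N + 3) := by
    rw [hNR] at hWR2; linarith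
  have hsq : 4 * (N : ℝ) ≤ N * N := mul_le_mul_of_nonneg_right hN4 hN0.le
  obtain ⟨M4, hM4⟩ : ∃ M4, M4 = mu4 n r := ⟨_, rfl⟩
  have hM4L : 3 * M4 = W - 4 * G := by rw [hM4, mu4, hWR, hG]; ring
  rw [← hM4] at hμ
  have hG0 : (0 : ℝ) ≤ G := Nat.cast_nonneg _
  have hW0 : (0 : ℝ) ≤ W := Nat.cast_nonneg _
  have hWr : 0 < (W : ℝ) - r := by linarith
  have hden4 : 0 < (n : ℝ) * (n - 1) - 2 * M4 := by
    rw [hNR]; linarith
  have hg4 : 0 < (W - θ * (n * (n - 1))) + (2 * θ - W / (W - r)) * M4 := by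
    rw [ee4, hWR, ← hM4, lt_div_iff₀ hden4] at hθ
    have : M4 * W / ((W : ℝ) - r) = W / (W - r) * M4 := by ring
    linarith
  obtain ⟨M, hM0, hMM4, hM1, hMg⟩ := rl22_M M4 _ _ hμ hg4
  have hMW : 3 * M < W := by linarith
  have hWrM : 0 < (W : ℝ) - r - M := by
    linarith
  have hden : 0 < (n : ℝ) * (n - 1) - 2 * M := by linarith
  obtain ⟨ε, hε⟩ : ∃ ε, ε = M4 - M := ⟨_, rfl⟩
  have hε0 : 0 < ε := by linarith
  have hε1 : ε < 1 := by linarith
  obtain ⟨la, hla⟩ : ∃ la, la = 2 * (G : ℝ) + ε / 2 := ⟨_, rfl⟩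
  have hla0 : 0 < la := by linarith
  have hsum : 3 * M + 2 * la = W - 2 * ε := by linarith
  -- the gap
  obtain ⟨γ, hγ⟩ : ∃ γ, γ = ((W : ℝ) - M * W / (W - r)) - θ * ((n : ℝ) * (n - 1) - 2 * M) :=
    ⟨_, rfl⟩
  have hγ0 : 0 < γ := by
    rw [hγ]
    have : M * W / ((W : ℝ) - r) = W / (W - r) * M := by ring
    linarith
  have hMla : 0 < M + la := by linarith
  -- choice of g
  obtain ⟨g, hg1, hg2, hg3, hg4, hg5, hg6⟩ : ∃ g : ℕ, 4 * (M + la) < (N : ℝ) ^ 2 * g ∧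
      2 * (D : ℝ) * N * W < (ε * N ^ 2) * g ∧
      2 * (D : ℝ) * N ^ 2 * (M + la) < (ε * N ^ 2) * g ∧
      2 * (W : ℝ) < ((W - r - M) * N ^ 2) * g ∧
      2 * (W : ℝ) * W < ((W - r) * γ * N ^ 2) * g ∧ (0 : ℝ) < 1 * g := by
    have hN2 : (0 : ℝ) < (N : ℝ) ^ 2 := by positivity
    obtain ⟨g, hg⟩ := ((rl22_ev (d := 4 * (M + la)) hN2).and
      ((rl22_ev (d := 2 * (D : ℝ) * N * W) (mul_pos hε0 hN2)).and
      ((rl22_ev (d := 2 * (D : ℝ) * N ^ 2 * (M + la)) (mul_pos hε0 hN2)).and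
      ((rl22_ev (d := 2 * (W : ℝ)) (mul_pos hWrM hN2)).and
      ((rl22_ev (d := 2 * (W : ℝ) * W) (mul_pos (mul_pos hWr hγ0) hN2)).and
      (rl22_ev (d := 0) one_pos)))))).exists
    exact ⟨g, hg⟩
  have hg0R : (0 : ℝ) < g := by linarith
  have hg0 : 1 ≤ g := by
    have : 0 < g := by exact_mod_cast hg0R
    omega
  obtain ⟨P, hP⟩ : ∃ P, P = N ^ 2 * g := ⟨_, rfl⟩
  have hPR : (P : ℝ) = (N : ℝ) ^ 2 * g := by rw [hP]; push_cast; ring
  have hP0 : (0 : ℝ) < P := by rw [hPR]; positivity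
  have hg1' : 4 * (M + la) < P := by rw [hPR]; exact hg1
  have hg2' : 2 * (D : ℝ) * N * W < ε * P := by rw [hPR]; linarith
  have hg3' : 2 * (D : ℝ) * N ^ 2 * (M + la) < ε * P := by rw [hPR]; linarith
  have hg4' : 2 * (W : ℝ) < (W - r - M) * P := by rw [hPR]; linarith
  have hg5' : 2 * (W : ℝ) * W < (W - r) * γ * P := by rw [hPR]; linarith
  obtain ⟨η, hη⟩ : ∃ η, η = (W : ℝ) / P := ⟨_, rfl⟩
  have hηP : η * P = W := by rw [hη]; field_simp
  have hη0 : 0 ≤ η := by rw [hη]; positivity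
  obtain ⟨κ, hκ⟩ : ∃ κ, κ = (M + la) / P := ⟨_, rfl⟩
  have hκP : κ * P = M + la := by rw [hκ]; field_simp
  have q1 : κ ≤ 1 / 4 := by
    rw [hκ, div_le_iff₀ hP0]; linarith
  have q2 : D * N * η ≤ ε / 2 := by
    have : D * N * η * P ≤ ε / 2 * P := by
      have h1 : D * N * η * P = D * N * W := by rw [← hηP]; ring
      rw [h1]; linarith
    exact le_of_mul_le_mul_right this hP0
  have q3 : D * N ^ 2 * κ ≤ ε / 2 := by
    have : D * N ^ 2 * κ * P ≤ ε / 2 * P := by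
      have h1 : D * N ^ 2 * κ * P = D * N ^ 2 * (M + la) := by rw [← hκP]; ring
      rw [h1]; linarith
    exact le_of_mul_le_mul_right this hP0
  have q4 : η ≤ (W - r - M) / 2 := by
    rw [hη, div_le_iff₀ hP0]; linarith
  have q5 : η * W / (W - r) ≤ γ / 2 := by
    rw [div_le_iff₀ hWr]
    have : η * W * P ≤ γ / 2 * (W - r) * P := by
      have h1 : η * W * P = W * W := by
        calc η * W * P = η * P * W := by ring
          _ = W * W := by rw [hηP]
      rw [h1]; linarith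
    exact le_of_mul_le_mul_right this hP0
  -- choice of b
  obtain ⟨K, hK⟩ : ∃ K, K = (1 + (D : ℝ) * r) / (W - r) + D := ⟨_, rfl⟩
  obtain ⟨C, hC⟩ : ∃ C, C = 2 * (P : ℝ) + 2 * D * N + D * N * (4 * g * N ^ 4) + 4 * D * N ^ 2 +
    D * N * (N * D + 3) := ⟨_, rfl⟩
  have hε2 : 0 < 3 * (N : ℝ) / 2 - 2 * ε := by linarith
  obtain ⟨b, ⟨hb1, hb2, hb3, hb4⟩, ⟨hb5, hb6, hb7⟩⟩ : ∃ b : ℕ,
      ((4 < ε * (2 * D) * b ∧ 3 * (P : ℝ) < (3 * (N : ℝ) / 2 - 2 * ε) * (2 * D) * b ∧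
        4 * (4 * (g : ℝ) * N ^ 3 + 4) < 2 * D * b ∧ C < ε * (2 * D) * b) ∧
      (3 + (D : ℝ) * r < (W - r - M) / 2 * (2 * D) * b ∧
        (0 : ℝ) < (n * (n - 1) - 2 * M) * (2 * D) * b ∧
        2 * |θ| * P + 2 * (W / (W - r)) + r * K < γ / 2 * (2 * D) * b)) := by
    have h2D : (0 : ℝ) < 2 * D := by linarith
    have hA := ((rl22_ev (d := 4) (mul_pos hε0 h2D)).and
      ((rl22_ev (d := 3 * (P : ℝ)) (mul_pos hε2 h2D)).and
      ((rl22_ev (d := 4 * (4 * (g : ℝ) * N ^ 3 + 4)) h2D).and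
      (rl22_ev (d := C) (mul_pos hε0 h2D)))))
    have hB := ((rl22_ev (d := 3 + (D : ℝ) * r) (mul_pos (half_pos hWrM) h2D)).and
      ((rl22_ev (d := 0) (mul_pos hden h2D)).and
      (rl22_ev (d := 2 * |θ| * P + 2 * (W / (W - r)) + r * K) (mul_pos (half_pos hγ0) h2D))))
    obtain ⟨b, hb⟩ := (hA.and hB).exists
    exact ⟨b, hb⟩
  obtain ⟨β, hβ⟩ : ∃ β : ℝ, β = 2 * D * b := ⟨_, rfl⟩
  have e1 : ε * (2 * D) * b = ε * β := by rw [hβ]; ring
  have e2 : (3 * (N : ℝ) / 2 - 2 * ε) * (2 * D) * b = (3 * (N : ℝ) / 2 - 2 * ε) * β := by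
    rw [hβ]; ring
  have e3 : ((W : ℝ) - r - M) / 2 * (2 * D) * b = (W - r - M) / 2 * β := by rw [hβ]; ring
  have e4 : ((n : ℝ) * (n - 1) - 2 * M) * (2 * D) * b = (n * (n - 1) - 2 * M) * β := by
    rw [hβ]; ring
  have e5 : γ / 2 * (2 * D) * b = γ / 2 * β := by rw [hβ]; ring
  rw [e1] at hb1 hb4
  rw [e2] at hb2
  rw [← hβ] at hb3
  rw [e3] at hb5
  rw [e4] at hb6
  rw [e5] at hb7
  have hβ0 : 0 < β := by
    have : 0 ≤ 4 * (4 * (g : ℝ) * N ^ 3 + 4) := by positivity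
    linarith
  -- choice of tA, tB
  obtain ⟨tA, hA1, hA2⟩ : ∃ tA : ℕ, (P : ℝ) * tA ≤ β * M ∧ β * M < P * tA + P := by
    refine ⟨⌊β * M / P⌋₊, ?_, ?_⟩
    · have h1 := Nat.floor_le (a := β * M / P) (by positivity)
      rw [le_div_iff₀ hP0] at h1; linarith
    · have h1 := Nat.lt_floor_add_one (β * M / P)
      rw [div_lt_iff₀ hP0] at h1; linarith
  obtain ⟨tB, hB1, hB2⟩ : ∃ tB : ℕ, β * la ≤ (P : ℝ) * tB ∧ (P : ℝ) * tB < β * la + P := by
    refine ⟨⌈β * la / P⌉₊, ?_, ?_⟩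
    · have h1 := Nat.le_ceil (β * la / P)
      rw [div_le_iff₀ hP0] at h1; linarith
    · have h1 := Nat.ceil_lt_add_one (a := β * la / P) (by positivity)
      have h2 : ((⌈β * la / P⌉₊ : ℝ) - 1) < β * la / P := by linarith
      rw [lt_div_iff₀ hP0] at h2; linarith
  obtain ⟨σ, hσ⟩ : ∃ σ, σ = 3 * tA + 2 * tB := ⟨_, rfl⟩
  have hσR : (σ : ℝ) = 3 * tA + 2 * tB := by rw [hσ]; push_cast; ring
  have hσ1 : (P : ℝ) * σ ≤ β * (W - 2 * ε) + 2 * P := by
    rw [hσR, ← hsum]; linarith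
  have hσ2 : β * (W - 2 * ε) - 3 * P ≤ (P : ℝ) * σ := by
    rw [hσR, ← hsum]; linarith
  have hσ3 : (σ : ℝ) ≤ β * η + 2 := by
    have h1 : (σ : ℝ) * P ≤ (β * η + 2) * P := by
      have h2 : (β * η + 2) * P = β * W + 2 * P := by rw [← hηP]; ring
      have h3 : 0 ≤ β * ε := by positivity
      rw [h2]; linarith
    exact le_of_mul_le_mul_right h1 hP0
  obtain ⟨τ, hτ⟩ : ∃ τ, τ = tA + tB := ⟨_, rfl⟩
  have hτR : (τ : ℝ) = tA + tB := by rw [hτ]; push_cast; ring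
  have hτ1 : (τ : ℝ) ≤ β * κ + 1 := by
    have h1 : (τ : ℝ) * P ≤ (β * κ + 1) * P := by
      have h2 : (β * κ + 1) * P = β * (M + la) + P := by rw [← hκP]; ring
      rw [h2, hτR]; linarith
    exact le_of_mul_le_mul_right h1 hP0
  obtain ⟨U, hU⟩ : ∃ U, U = P * tA + 3 * tA + 2 * tB := ⟨_, rfl⟩
  have hUR : (U : ℝ) = P * tA + σ := by rw [hU, hσR]; push_cast; ring
  have hU1 : (U : ℝ) ≤ β * (M + η) + 2 := by rw [hUR]; linarith
  -- choice of w
  obtain ⟨R, hR⟩ : ∃ R, W = R + r := by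
    have : (r : ℝ) < W := by linarith
    have : r < W := by exact_mod_cast this
    exact ⟨W - r, by omega⟩
  have hRR : (W : ℝ) = R + r := by exact_mod_cast hR
  have hR0 : 0 < R := by
    have : (0 : ℝ) < R := by linarith
    exact_mod_cast this
  have hR0R : (0 : ℝ) < R := by exact_mod_cast hR0
  obtain ⟨X, hX⟩ : ∃ X, D * (2 * b * W) = X + (U + 1 + D * ((2 * b + 1) * r)) := by
    have h1 : (U : ℝ) + 1 + D * ((2 * b + 1) * r) ≤ D * (2 * b * W) := by
      have h2 : (D : ℝ) * (2 * b * W) = β * W := by rw [hβ]; ring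
      have h3 : (D : ℝ) * ((2 * b + 1) * r) = β * r + D * r := by rw [hβ]; ring
      have h4 : β * η ≤ β * ((W - r - M) / 2) := by gcongr
      rw [h2, h3]
      linarith
    have h2 : U + 1 + D * ((2 * b + 1) * r) ≤ D * (2 * b * W) := by exact_mod_cast h1
    exact ⟨D * (2 * b * W) - (U + 1 + D * ((2 * b + 1) * r)), by omega⟩
  have hDR0 : 0 < D * R := Nat.mul_pos (by omega) hR0
  obtain ⟨w, hw1, hw2⟩ : ∃ w, D * R * w ≤ X ∧ X < D * R * w + D * R :=
    ⟨X / (D * R), Nat.mul_div_le _ _, Nat.lt_mul_div_succ _ hDR0⟩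
  have hXR : (D : ℝ) * (2 * b * W) = X + (U + 1 + D * ((2 * b + 1) * r)) := by exact_mod_cast hX
  have hXb : X ≤ D * R * (2 * b) := by
    have h1 : D * (2 * b * W) = D * R * (2 * b) + D * (2 * b * r) := by rw [hR]; ring
    have h2 : D * ((2 * b + 1) * r) = D * (2 * b * r) + D * r := by ring
    omega
  have hwb : w ≤ 2 * b := by
    have : D * R * w ≤ D * R * (2 * b) := hw1.trans hXb
    exact Nat.le_of_mul_le_mul_left this hDR0
  obtain ⟨z, hz⟩ : ∃ z, 2 * b = w + z := ⟨2 * b - w, by omega⟩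
  have hzR : 2 * (b : ℝ) = w + z := by exact_mod_cast hz
  have hbw : 2 * b - w = z := by omega
  have hzle : (D : ℝ) * z ≤ U / (W - r) + K := by
    have h1 : (X : ℝ) < D * R * w + D * R := by exact_mod_cast hw2
    have h2 : (D : ℝ) * R * z < U + 1 + D * r + D * R := by
      have h5 : (D : ℝ) * R * z = D * R * (2 * b) - D * R * w := by rw [hzR]; ring
      rw [hRR] at hXR
      linarith
    have h4 : (W : ℝ) - r = R := by linarith
    rw [hK, h4]
    have h5 : (U : ℝ) / R + ((1 + (D : ℝ) * r) / R + D) =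
        (U + (1 + D * r) + D * R) / R := by
      field_simp
      ring
    rw [h5, le_div_iff₀ hR0R]
    linarith
  have hmain : D * (w * W + (z + 1) * r) + U + 1 ≤ D * (2 * b * W) := by
    have h1 : D * (w * W + (z + 1) * r) = D * R * w + D * ((2 * b + 1) * r) := by
      rw [hR, hz]; ring
    omega
  have hlim : 2 * (P * tA) < D * (2 * b * n * N) := by
    have h1 : (2 : ℝ) * (P * tA) < D * (2 * b * n * N) := by
      have h3 : ((n : ℝ) * (n - 1) - 2 * M) * β = D * (2 * b * n * (n - 1)) - 2 * (β * M) := by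
        rw [hβ]; ring
      have h4 : (N : ℝ) = n - 1 := by linarith
      rw [h4]
      linarith
    exact_mod_cast h1
  have hPn : (n - 1) ^ 2 * g = P := by rw [hN', hP]
  refine ⟨b, g, tA, tB, w, ?_, ?_, hwb, ?_, ?_, ?_⟩
  · constructor
    · exact hn
    · exact hg0
    · -- cq
      rw [← hσ]
      have h1 : (N : ℝ) ^ 2 * (D * b) ≤ (N : ℝ) ^ 2 * (g * σ) := by
        have h2 : (N : ℝ) ^ 2 * (g * σ) = P * σ := by rw [hPR]; ring
        have h3 : (N : ℝ) ^ 2 * (D * b) = β * (W - 3 * N / 2) := by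
          have h4 : (W : ℝ) = N * (N + 3) / 2 := by linarith
          rw [h4, hβ]; ring
        rw [h2, h3]
        linarith
      have h5 : (D : ℝ) * b ≤ g * σ := le_of_mul_le_mul_left h1 (by positivity)
      exact_mod_cast h5
    · -- cb
      rw [hN']
      have h1 : 4 * (g : ℝ) * N ^ 3 + τ + 3 ≤ D * b := by
        have h2 : β * κ ≤ β * (1 / 4) := by gcongr
        have h3 : (D : ℝ) * b = β / 2 := by rw [hβ]; ring
        rw [h3]; linarith
      have h2 : 4 * g * N ^ 3 + τ + 3 ≤ D * b := by exact_mod_cast h1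
      omega
    · -- cW
      rw [hN', ← hσ]
      have h1 : (N : ℝ) * (N * g * σ + D * (σ + 4 * g * N ^ 4 + N * (τ + 3) + N * D + 3)) ≤
          N * (D * (b * (n + 2))) := by
        have h2 : (N : ℝ) * (D * (b * (n + 2))) = β * W := by
          have h4 : (W : ℝ) = N * (N + 3) / 2 := by linarith
          rw [h4, hβ, hNR]; ring
        have h3 : (N : ℝ) * (N * g * σ + D * (σ + 4 * g * N ^ 4 + N * (τ + 3) + N * D + 3)) =
            P * σ + D * N * σ + D * N ^ 2 * τ + (D * N * (4 * g * N ^ 4) + 3 * (D * N ^ 2) +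
              D * N * (N * D + 3)) := by
          rw [hPR]; ring
        have h5 : D * N * (σ : ℝ) ≤ D * N * (β * η + 2) := by gcongr
        have h6 : D * N ^ 2 * (τ : ℝ) ≤ D * N ^ 2 * (β * κ + 1) := by gcongr
        have h7 : D * N * (β * η + 2) = β * (D * N * η) + 2 * D * N := by ring
        have h8 : D * N ^ 2 * (β * κ + 1) = β * (D * N ^ 2 * κ) + D * N ^ 2 := by ring
        have h9 : β * (D * N * η) ≤ β * (ε / 2) := by gcongr
        have h10 : β * (D * N ^ 2 * κ) ≤ β * (ε / 2) := by gcongr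
        rw [h2, h3]
        linarith
      have h2 : (N : ℝ) * g * σ + D * (σ + 4 * g * N ^ 4 + N * (τ + 3) + N * D + 3) ≤
          D * (b * (n + 2)) := le_of_mul_le_mul_left h1 hN0
      rw [hτ] at h2
      exact_mod_cast h2
  · rw [← hG, hPn]
    have h1 : (D : ℝ) * (2 * (2 * b) * G) + 2 ≤ P * tB := by
      have h2 : (D : ℝ) * (2 * (2 * b) * G) = β * (2 * G) := by rw [hβ]; ring
      have h3 : β * la = β * (2 * G) + ε * β / 2 := by rw [hla]; ring
      rw [h2]; linarith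
    exact_mod_cast h1
  · rw [← hW, hbw, hPn, ← hU]; exact hmain
  · rw [hPn, hN']; omega
  · have e6 : ((D * (2 * b * n * (n - 1)) - 2 * ((n - 1) ^ 2 * g * tA) : ℕ) : ℝ) =
        β * (n * (n - 1)) - 2 * (P * tA) := by
      rw [hPn, hN', Nat.cast_sub hlim.le]; push_cast
      have h4 : (N : ℝ) = n - 1 := by linarith
      rw [h4, hβ]; ring
    have e7 : ((D * (2 * b * (n * (n + 1) / 2 - 1)) - ((n - 1) ^ 2 * g * tA + 3 * tA + 2 * tB) -
          D * ((2 * b - w) * r) : ℕ) : ℝ) = β * W - U - D * (z * r) := by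
      rw [← hW, hbw, hPn, ← hU]
      have h4 : D * (w * W + (z + 1) * r) = D * (w * W) + D * (z * r) + D * r := by ring
      have h5 : U + D * (z * r) ≤ D * (2 * b * W) := by omega
      have h6 : D * (2 * b * W) - U - D * (z * r) =
        D * (2 * b * W) - (U + D * (z * r)) := by omega
      rw [h6, Nat.cast_sub h5]; push_cast; rw [hβ]; ring
    rw [e6, e7]
    have k1 : θ * (β * (n * (n - 1)) - 2 * (P * tA)) ≤
        θ * (β * (n * (n - 1) - 2 * M)) + 2 * |θ| * P := by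
      have h7 : θ * (β * (n * (n - 1)) - 2 * (P * tA)) =
          θ * (β * (n * (n - 1) - 2 * M)) + θ * (2 * (β * M - P * tA)) := by ring
      rw [h7]
      have h8 : θ * (2 * (β * M - P * tA)) ≤ |θ| * (2 * P) := by
        have h9 : θ * (2 * (β * M - P * tA)) ≤ |θ| * (2 * (β * M - P * tA)) := by
          apply mul_le_mul_of_nonneg_right (le_abs_self _)
          linarith
        refine h9.trans ?_
        apply mul_le_mul_of_nonneg_left _ (abs_nonneg _)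
        linarith
      linarith
    have k2 : β * ((W : ℝ) - (M + η) * W / (W - r)) - 2 * (W / (W - r)) - r * K ≤
        β * W - U - D * (z * r) := by
      have h10 : (D : ℝ) * z * r ≤ (U / (W - r) + K) * r := by gcongr
      have h11 : (U : ℝ) * (W / (W - r)) = U + U / (W - r) * r := by
        field_simp; ring
      have h12 : (U : ℝ) * (W / (W - r)) ≤ (β * (M + η) + 2) * (W / (W - r)) := by
        gcongr
      have h13 : β * ((W : ℝ) - (M + η) * W / (W - r)) - 2 * (W / (W - r)) =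
          β * W - (β * (M + η) + 2) * (W / (W - r)) := by ring
      rw [h13]
      linarith
    have k3 : β * ((W : ℝ) - (M + η) * W / (W - r)) =
        γ * β + θ * (β * (n * (n - 1) - 2 * M)) - β * (η * W / (W - r)) := by
      rw [hγ]; ring
    have k4 : β * (η * W / (W - r)) ≤ β * (γ / 2) := by gcongr
    linarith

end Pool.Agent.H26.RL
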