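import Pool.Agent.H26.RL.Defs
import Pool.Agent.H98.TQ.DefsL

/-! Project RL (MP_a3214d), row RL-24: choice of the parameters (limit superior) -/

set_option autoImplicit false

open Polynomial IsDedekindDomain NumberField Pool.Agent.H35.AN
open Pool.Agent.H67.MU (Bdd)
open Pool.Agent.H92.SQ2 (gg WW)
open Pool.Agent.H98.TQ
open Pool.Agent.H96.T3 (D1)

namespace Pool.Agent.H26.RL

/-- the exponent of the lower bound for the limit superior: `mu` tends to `W / 3` -/
noncomputable def eL4 (n s : ℕ) : ℝ :=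
  (WW n - (WW n / 3) * WW n / (WW n - s)) /
    min ((n : ℝ) * (n - 1) - 2 * (WW n / 3)) (2 * (gg n s : ℝ))

private theorem rl24_ev {c d : ℝ} (hc : 0 < c) : ∀ᶠ b : ℕ in Filter.atTop, d < c * (b : ℝ) :=
  ((tendsto_natCast_atTop_atTop (R := ℝ)).const_mul_atTop hc).eventually_gt_atTop d

private theorem rl24_gg (n s : ℕ) (hn : 2 ≤ n) (hs : 1 ≤ s) : 1 ≤ gg n s := by
  unfold gg
  have h1 : (1 + s - 1) / s = 1 := by
    have : 1 + s - 1 = s := by omega
    rw [this]; exact Nat.div_self (by omega)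
  calc 1 = (1 + s - 1) / s := h1.symm
    _ ≤ ∑ i ∈ Finset.range n, (i + s - 1) / s :=
        Finset.single_le_sum (f := fun i => (i + s - 1) / s) (fun _ _ => Nat.zero_le _)
          (Finset.mem_range.mpr (by omega))

/-- the choice of `w s` -/
private theorem rl24_one (d n s b u v W G : ℕ) (θ M e : ℝ) (hd : 1 ≤ d) (hn : 1 ≤ n)
    (hG : 1 ≤ G) (hsW : (s : ℝ) < W)
    (hm1 : 0 < (n : ℝ) * (n - 1) - 2 * M)
    (hb1 : 1 ≤ b)
    (hb3 : |θ| * (2 * e) + s * ((1 + (d : ℝ) * s) / (W - s) + d) <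
      (((W : ℝ) - M * W / (W - s)) - θ * min ((n : ℝ) * (n - 1) - 2 * M) (2 * (G : ℝ))) * d * b)
    (hb4 : 1 + (d : ℝ) * s ≤ (W - s - M) * d * b)
    (hv : (v : ℝ) ≤ d * b * M) (huv : u ≤ v) (hu : d * b * M - e ≤ (u : ℝ)) :
    ∃ w : ℕ, w ≤ b ∧ d * (w * W + (b - w + 1) * s) + v + 1 ≤ d * (b * W) ∧
      0 < min (d * (b * n * (n - 1)) - 2 * u) (d * (2 * b * G)) ∧
      θ * ((min (d * (b * n * (n - 1)) - 2 * u) (d * (2 * b * G)) : ℕ) : ℝ) <
        ((d * (b * W) - v - d * ((b - w) * s) : ℕ) : ℝ) := by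
  have hdR : (1 : ℝ) ≤ d := by exact_mod_cast hd
  have hd0 : (0 : ℝ) < d := by linarith
  have hbR : (1 : ℝ) ≤ b := by exact_mod_cast hb1
  have hb0 : (0 : ℝ) < b := by linarith
  have hGR : (1 : ℝ) ≤ G := by exact_mod_cast hG
  have huvR : (u : ℝ) ≤ v := by exact_mod_cast huv
  have he0 : 0 ≤ e := by linarith
  obtain ⟨K, hK⟩ : ∃ K, K = (1 + (d : ℝ) * s) / (W - s) + d := ⟨_, rfl⟩
  obtain ⟨m, hm⟩ : ∃ m, m = min ((n : ℝ) * (n - 1) - 2 * M) (2 * (G : ℝ)) := ⟨_, rfl⟩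
  rw [← hK, ← hm] at hb3
  -- choice of w
  obtain ⟨R, hR⟩ : ∃ R, W = R + s := by
    have : s < W := by exact_mod_cast hsW
    exact ⟨W - s, by omega⟩
  have hRR : (W : ℝ) = R + s := by exact_mod_cast hR
  have hR0 : 0 < R := by
    have : (0 : ℝ) < R := by linarith
    exact_mod_cast this
  have hR0R : (0 : ℝ) < R := by exact_mod_cast hR0
  obtain ⟨X, hX⟩ : ∃ X, d * (b * W) = X + (v + 1 + d * ((b + 1) * s)) := by
    have h1 : (v : ℝ) + 1 + d * ((b + 1) * s) ≤ d * (b * W) := by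
      have : ((W : ℝ) - s - M) * d * b = d * (b * W) - d * (b * s) - d * b * M := by ring
      linarith
    have h2 : v + 1 + d * ((b + 1) * s) ≤ d * (b * W) := by exact_mod_cast h1
    exact ⟨d * (b * W) - (v + 1 + d * ((b + 1) * s)), by omega⟩
  have hP0 : 0 < d * R := Nat.mul_pos (by omega) hR0
  obtain ⟨w, hw1, hw2⟩ : ∃ w, d * R * w ≤ X ∧ X < d * R * w + d * R :=
    ⟨X / (d * R), Nat.mul_div_le _ _, Nat.lt_mul_div_succ _ hP0⟩
  have hXR : (d : ℝ) * (b * W) = X + (v + 1 + d * ((b + 1) * s)) := by exact_mod_cast hX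
  have hXb : X ≤ d * R * b := by
    have h1 : d * (b * W) = d * R * b + d * (b * s) := by rw [hR]; ring
    have h2 : d * ((b + 1) * s) = d * (b * s) + d * s := by ring
    omega
  have hwb : w ≤ b := by
    have : d * R * w ≤ d * R * b := hw1.trans hXb
    exact Nat.le_of_mul_le_mul_left this hP0
  obtain ⟨z, hz⟩ : ∃ z, b = w + z := ⟨b - w, by omega⟩
  have hzR : (b : ℝ) = w + z := by exact_mod_cast hz
  have hbw : b - w = z := by omega
  have hzle : (d : ℝ) * z ≤ M * d * b / (W - s) + K := by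
    have h1 : (X : ℝ) < d * R * w + d * R := by exact_mod_cast hw2
    have h2 : (d : ℝ) * R * z < v + 1 + d * s + d * R := by
      have : (d : ℝ) * R * z = d * R * b - d * R * w := by rw [hzR]; ring
      rw [hRR] at hXR
      linarith
    have h3 : (d : ℝ) * R * z ≤ M * d * b + (1 + d * s) + d * R := by linarith
    have h4 : (W : ℝ) - s = R := by linarith
    rw [hK, h4]
    have h5 : M * d * b / R + ((1 + (d : ℝ) * s) / R + d) =
        (M * d * b + (1 + d * s) + d * R) / R := by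
      field_simp
      ring
    rw [h5, le_div_iff₀ hR0R]
    linarith
  have hmain : d * (w * W + (z + 1) * s) + v + 1 ≤ d * (b * W) := by
    have h1 : d * (w * W + (z + 1) * s) = d * R * w + d * ((b + 1) * s) := by rw [hR, hz]; ring
    omega
  have hn1 : ((n - 1 : ℕ) : ℝ) = (n : ℝ) - 1 := by
    rw [Nat.cast_sub (by omega)]; norm_num
  have hdb : 0 < (d : ℝ) * b := by positivity
  have hum : (2 : ℝ) * u < d * (b * n * (n - 1)) := by
    have h1 : 0 < ((n : ℝ) * (n - 1) - 2 * M) * (d * b) := mul_pos hm1 hdb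
    have : ((n : ℝ) * (n - 1) - 2 * M) * (d * b) =
      d * (b * n * (n - 1)) - 2 * (d * b * M) := by ring
    linarith
  have humN : 2 * u < d * (b * n * (n - 1)) := by
    rw [← hn1] at hum
    exact_mod_cast hum
  refine ⟨w, hwb, ?_, ?_, ?_⟩
  · rw [hbw]; exact hmain
  · refine lt_min (by omega) ?_
    positivity
  · have h3 : 2 * u ≤ d * (b * n * (n - 1)) := by omega
    have e1 : ((d * (b * n * (n - 1)) - 2 * u : ℕ) : ℝ) =
        d * (b * n * (n - 1)) - 2 * u := by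
      rw [Nat.cast_sub h3]; push_cast; rw [hn1]
    rw [hbw]
    have e2 : ((d * (b * W) - v - d * (z * s) : ℕ) : ℝ) =
        d * (b * W) - v - d * (z * s) := by
      have h4 : d * (w * W + (z + 1) * s) = d * (w * W) + d * (z * s) + d * s := by ring
      have h5 : v + d * (z * s) ≤ d * (b * W) := by omega
      have h6 : d * (b * W) - v - d * (z * s) =
        d * (b * W) - (v + d * (z * s)) := by omega
      rw [h6, Nat.cast_sub h5]; push_cast; ring
    rw [Nat.cast_min, e1, e2]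
    obtain ⟨Y, hY⟩ : ∃ Y : ℝ, Y = min ((d : ℝ) * (b * n * (n - 1)) - 2 * u)
        ((d * (2 * b * G) : ℕ) : ℝ) := ⟨_, rfl⟩
    rw [← hY]
    have hY1 : d * b * m ≤ Y := by
      rw [hY]
      refine le_min ?_ ?_
      · have h1 : d * b * m ≤ d * b * ((n : ℝ) * (n - 1) - 2 * M) := by
          rw [hm]
          exact mul_le_mul_of_nonneg_left (min_le_left _ _) hdb.le
        have h2 : d * b * ((n : ℝ) * (n - 1) - 2 * M) =
          d * (b * n * (n - 1)) - 2 * (d * b * M) := by ring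
        linarith
      · have h1 : d * b * m ≤ d * b * (2 * (G : ℝ)) := by
          rw [hm]
          exact mul_le_mul_of_nonneg_left (min_le_right _ _) hdb.le
        have h2 : ((d * (2 * b * G) : ℕ) : ℝ) = d * b * (2 * (G : ℝ)) := by
          push_cast; ring
        linarith
    have hY2 : Y ≤ d * b * m + 2 * e := by
      rcases le_total ((n : ℝ) * (n - 1) - 2 * M) (2 * (G : ℝ)) with h | h
      · have hm' : m = (n : ℝ) * (n - 1) - 2 * M := by rw [hm]; exact min_eq_left h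
        have h1 : Y ≤ (d : ℝ) * (b * n * (n - 1)) - 2 * u := by rw [hY]; exact min_le_left _ _
        have h2 : d * b * ((n : ℝ) * (n - 1) - 2 * M) =
          d * (b * n * (n - 1)) - 2 * (d * b * M) := by ring
        rw [hm', h2]
        linarith
      · have hm' : m = 2 * (G : ℝ) := by rw [hm]; exact min_eq_right h
        have h1 : Y ≤ ((d * (2 * b * G) : ℕ) : ℝ) := by rw [hY]; exact min_le_right _ _
        have h2 : ((d * (2 * b * G) : ℕ) : ℝ) = d * b * (2 * (G : ℝ)) := by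
          push_cast; ring
        rw [hm']
        linarith
    have k1 : θ * Y ≤ θ * (d * b * m) + |θ| * (2 * e) := by
      have h7 : θ * Y = θ * (d * b * m) + θ * (Y - d * b * m) := by ring
      rw [h7]
      have h8 : θ * (Y - d * b * m) ≤ |θ| * (2 * e) := by
        have h9 : θ * (Y - d * b * m) ≤ |θ| * (Y - d * b * m) := by
          apply mul_le_mul_of_nonneg_right (le_abs_self _)
          linarith
        refine h9.trans ?_
        apply mul_le_mul_of_nonneg_left _ (abs_nonneg _)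
        linarith
      linarith
    have k2 : d * b * ((W : ℝ) - M * W / (W - s)) - s * K ≤
        d * (b * W) - v - d * (z * s) := by
      have h10 : (d : ℝ) * z * s ≤ (M * d * b / (W - s) + K) * s := by gcongr
      have hWs : (W : ℝ) - s ≠ 0 := by
        have : 0 < (W : ℝ) - s := by linarith
        exact this.ne'
      have h11 : M * (W : ℝ) / (W - s) = M + s * M / (W - s) := by
        field_simp; ring
      have h12 : d * b * ((W : ℝ) - M * W / (W - s)) =
          d * (b * W) - d * b * M - M * d * b / (W - s) * s := by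
        rw [h11]; ring
      rw [h12]
      linarith
    have k3 : ((W : ℝ) - M * W / (W - s) - θ * m) * d * b =
        d * b * ((W : ℝ) - M * W / (W - s)) - θ * (d * b * m) := by ring
    linarith

theorem params_sup4 (D n : ℕ) (hD : 1 ≤ D) (hn : 5 ≤ n) (θ : ℝ)
    (hθ : ∀ s : ℕ, 1 ≤ s → s ≤ n - 1 → θ < eL4 n s) : ∃ (b g tA : ℕ) (w : ℕ → ℕ),
      CondR D n b g tA 0 ∧ ∀ s : ℕ, 1 ≤ s → s ≤ n - 1 → w s ≤ 2 * b ∧
      D * (w s * (n * (n + 1) / 2 - 1) + (2 * b - w s + 1) * s) +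
        ((n - 1) ^ 2 * g * tA + 3 * tA) + 1 ≤ D * (2 * b * (n * (n + 1) / 2 - 1)) ∧
      0 < min (D * (2 * b * n * (n - 1)) - 2 * ((n - 1) ^ 2 * g * tA))
        (D * (2 * (2 * b) * gg n s)) ∧
      θ * ((min (D * (2 * b * n * (n - 1)) - 2 * ((n - 1) ^ 2 * g * tA))
        (D * (2 * (2 * b) * gg n s)) : ℕ) : ℝ) <
        ((D * (2 * b * (n * (n + 1) / 2 - 1)) - ((n - 1) ^ 2 * g * tA + 3 * tA) -
          D * ((2 * b - w s) * s) : ℕ) : ℝ) := by
  -- the integer W
  obtain ⟨W, hW⟩ : ∃ W, W = n * (n + 1) / 2 - 1 := ⟨_, rfl⟩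
  rw [← hW]
  obtain ⟨N, rfl⟩ : ∃ N, n = N + 1 := ⟨n - 1, by omega⟩
  rw [Nat.add_sub_cancel]
  rw [Nat.add_sub_cancel] at hθ
  have hW2 : 2 * W = (N + 3) * N := by
    have h1 : 2 ∣ (N + 1) * (N + 1 + 1) := (Nat.even_mul_succ_self (N + 1)).two_dvd
    obtain ⟨m, hm⟩ := h1
    have h2 : 4 * 5 ≤ (N + 1) * (N + 1 + 1) := Nat.mul_le_mul (by omega) (by omega)
    have h3 : (N + 1) * (N + 1 + 1) = (N + 3) * N + 2 := by ring
    rw [hW, hm]; omega
  have hN : 4 ≤ N := by omega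
  have hNR : (4 : ℝ) ≤ N := by exact_mod_cast hN
  have hN0 : (0 : ℝ) < N := by linarith
  have hDR : (1 : ℝ) ≤ D := by exact_mod_cast hD
  have hD0 : (0 : ℝ) < D := by linarith
  have hWR2 : (2 : ℝ) * W = (N + 3) * N := by exact_mod_cast hW2
  have hWR : WW (N + 1) = (W : ℝ) := by
    unfold WW; push_cast; linarith
  obtain ⟨M, hM⟩ : ∃ M, M = (W : ℝ) / 3 := ⟨_, rfl⟩
  have hM3 : 3 * M = W := by rw [hM]; ring
  have hM6 : 6 * M = (N + 3) * N := by linarith
  have hden : 0 < (((N + 1 : ℕ) : ℝ)) * (((N + 1 : ℕ) : ℝ) - 1) - 2 * M := by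
    push_cast
    have : 4 * (N : ℝ) ≤ N * N := mul_le_mul_of_nonneg_right hNR hN0.le
    linarith
  have hsn : ∀ s ∈ Finset.Icc 1 N, 1 ≤ s ∧ s ≤ N ∧ (1 : ℝ) ≤ s ∧ (s : ℝ) ≤ N := by
    intro s hs
    rw [Finset.mem_Icc] at hs
    exact ⟨hs.1, hs.2, by exact_mod_cast hs.1, by exact_mod_cast hs.2⟩
  have hNN : 4 * (N : ℝ) ≤ N * N := mul_le_mul_of_nonneg_right hNR hN0.le
  have hWs : ∀ s ∈ Finset.Icc 1 N, 0 < (W : ℝ) - s := by
    intro s hs
    obtain ⟨h1, h2, h3, h4⟩ := hsn s hs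
    linarith
  have hWsM : ∀ s ∈ Finset.Icc 1 N, 0 < (W : ℝ) - s - M := by
    intro s hs
    obtain ⟨h1, h2, h3, h4⟩ := hsn s hs
    linarith
  -- the gap
  obtain ⟨γ, hγ⟩ : ∃ γ : ℕ → ℝ, γ = fun s => (((W : ℝ) - M * W / (W - s)) -
        θ * min ((((N + 1 : ℕ) : ℝ)) * (((N + 1 : ℕ) : ℝ) - 1) - 2 * M)
          (2 * (gg (N + 1) s : ℝ))) := ⟨_, rfl⟩
  have hg0 : ∀ s ∈ Finset.Icc 1 N, 0 < γ s := by
    intro s hs
    obtain ⟨h1, h2, h3, h4⟩ := hsn s hs
    have h5 := hθ s h1 h2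
    have hgg : (1 : ℝ) ≤ gg (N + 1) s := by exact_mod_cast rl24_gg (N + 1) s (by omega) h1
    have hmin : 0 < min ((((N + 1 : ℕ) : ℝ)) * (((N + 1 : ℕ) : ℝ) - 1) - 2 * M)
        (2 * (gg (N + 1) s : ℝ)) := lt_min hden (by linarith)
    rw [eL4, hWR, ← hM, lt_div_iff₀ hmin] at h5
    rw [hγ]
    simp only
    linarith
  -- choice of g
  obtain ⟨g, hg1, hg2, hg3⟩ : ∃ g : ℕ, N + 3 ≤ g ∧ D * (N + 3) ^ 2 ≤ g ∧
      ∀ s ∈ Finset.Icc 1 N, |θ| * (D * (N + 3) ^ 2) < γ s * g := by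
    have hall : ∀ᶠ g : ℕ in Filter.atTop, ∀ s ∈ Finset.Icc 1 N,
        |θ| * ((D : ℝ) * ((N : ℝ) + 3) ^ 2) < γ s * (g : ℝ) := by
      rw [Filter.eventually_all_finset]
      intro s hs
      exact rl24_ev (hg0 s hs)
    obtain ⟨g, hg⟩ := (((Filter.eventually_ge_atTop (N + 3)).and
      (Filter.eventually_ge_atTop (D * (N + 3) ^ 2))).and hall).exists
    exact ⟨g, hg.1.1, hg.1.2, hg.2⟩
  have hg0' : 0 < g := by omega
  have hgR0 : (0 : ℝ) < g := by exact_mod_cast hg0'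
  obtain ⟨c, hc⟩ : ∃ c, c = 3 * N * g + D * (N + 3) := ⟨_, rfl⟩
  obtain ⟨C, hC⟩ : ∃ C, C = D * (4 * g * N ^ 4 + 3 * N + N * D + 3) := ⟨_, rfl⟩
  obtain ⟨F, hF⟩ : ∃ F : ℝ, F = N * (C + c) / 3 := ⟨_, rfl⟩
  -- choice of b
  obtain ⟨b, hb0, hb1, hb2, hb3⟩ : ∃ b : ℕ, 1 ≤ b ∧ C + c ≤ D * b ∧
      8 * g * N ^ 3 + 6 ≤ D * b ∧
      ∀ s ∈ Finset.Icc 1 N,
        (|θ| * (2 * F) + s * ((1 + (D : ℝ) * s) / (W - s) + D) < (γ s * (4 / 9) * D) * b) ∧
        (1 + (D : ℝ) * s < ((W - s - M) * D) * b) := by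
    have hall : ∀ᶠ b : ℕ in Filter.atTop, ∀ s ∈ Finset.Icc 1 N,
        (|θ| * (2 * F) + s * ((1 + (D : ℝ) * s) / (W - s) + D) < (γ s * (4 / 9) * D) * b) ∧
        (1 + (D : ℝ) * s < ((W - s - M) * D) * b) := by
      rw [Filter.eventually_all_finset]
      intro s hs
      have h1 := hg0 s hs
      exact (rl24_ev (by positivity)).and (rl24_ev (mul_pos (hWsM s hs) hD0))
    obtain ⟨b, hb⟩ := ((((Filter.eventually_ge_atTop 1).and
      (Filter.eventually_ge_atTop (C + c))).and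
      (Filter.eventually_ge_atTop (8 * g * N ^ 3 + 6))).and hall).exists
    have hDb : b ≤ D * b := Nat.le_mul_of_pos_left _ (by omega)
    exact ⟨b, hb.1.1.1, hb.1.1.2.trans hDb, hb.1.2.trans hDb, hb.2⟩
  have hbR : (1 : ℝ) ≤ b := by exact_mod_cast hb0
  have hbR0 : (0 : ℝ) < b := by linarith
  -- choice of tA
  have hCb : C ≤ D * (b * (N + 3)) := by
    have h1 : D * b ≤ D * (b * (N + 3)) :=
      Nat.mul_le_mul_left _ (Nat.le_mul_of_pos_right _ (by omega))
    omega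
  obtain ⟨T, hT⟩ : ∃ T, D * (b * (N + 3)) = T + C := ⟨D * (b * (N + 3)) - C, by omega⟩
  have hc0 : 0 < c := by rw [hc]; positivity
  obtain ⟨t, ht1, ht2⟩ : ∃ t, c * t ≤ T ∧ T < c * t + c :=
    ⟨T / c, Nat.mul_div_le _ _, Nat.lt_mul_div_succ _ hc0⟩
  have hTR : (D : ℝ) * (b * (N + 3)) = T + C := by exact_mod_cast hT
  have ht1R : (c : ℝ) * t ≤ T := by exact_mod_cast ht1
  have ht2R : (T : ℝ) < c * t + c := by exact_mod_cast ht2
  have hcR : (c : ℝ) = 3 * N * g + D * (N + 3) := by rw [hc]; push_cast; ring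
  have hC0 : (0 : ℝ) ≤ C := Nat.cast_nonneg _
  have ht0 : (0 : ℝ) ≤ t := Nat.cast_nonneg _
  -- upper bound for t
  have htu : 3 * N * g * (t : ℝ) ≤ D * (b * (N + 3)) := by
    have h1 : 0 ≤ (D : ℝ) * (N + 3) * t := by positivity
    rw [hcR] at ht1R
    linarith
  -- the lower bound for U
  have hlow : D * (b * (N + 3)) - (C + c) - D * (N + 3) * t < 3 * N * g * (t : ℝ) := by
    have h1 : (c : ℝ) * t = 3 * N * g * t + D * (N + 3) * t := by rw [hcR]; ring
    linarith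
  have hcq : D * b ≤ g * (3 * t + 2 * 0) := by
    have h1 : (D : ℝ) * (N + 3) * t ≤ D * b := by
      have h2 : (D : ℝ) * (N + 3) ^ 2 ≤ g := by exact_mod_cast hg2
      have h3 : 3 * N * g * ((D : ℝ) * (N + 3) * t) ≤ 3 * N * g * (D * b) := by
        calc 3 * N * g * ((D : ℝ) * (N + 3) * t) = (D * (N + 3)) * (3 * N * g * t) := by ring
          _ ≤ (D * (N + 3)) * (D * (b * (N + 3))) := by gcongr
          _ = (D * (N + 3) ^ 2) * (D * b) := by ring
          _ ≤ g * (D * b) := by gcongr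
          _ ≤ 3 * N * g * (D * b) := by
            apply mul_le_mul_of_nonneg_right _ (by positivity)
            have : 1 * (g : ℝ) ≤ (3 * N) * g := by
              apply mul_le_mul_of_nonneg_right _ hgR0.le
              linarith
            linarith
      exact le_of_mul_le_mul_left h3 (by positivity)
    have h4 : ((C : ℝ) + c) ≤ D * b := by exact_mod_cast hb1
    have h5 : (N : ℝ) * (D * b) ≤ N * (g * (3 * t)) := by
      have h6 : (D : ℝ) * (b * (N + 3)) = N * (D * b) + 3 * (D * b) := by ring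
      have h7 : 0 ≤ (D : ℝ) * b := by positivity
      linarith
    have h6 := le_of_mul_le_mul_left h5 hN0
    have h7 : D * b ≤ g * (3 * t) := by exact_mod_cast h6
    omega
  have htb : 2 * t ≤ D * b := by
    have h1 : (3 * (N : ℝ) * g) * (2 * t) ≤ (3 * N * g) * (D * b) := by
      have h2 : ((N : ℝ) + 3) ≤ g := by exact_mod_cast hg1
      calc (3 * (N : ℝ) * g) * (2 * t) = 2 * (3 * N * g * t) := by ring
        _ ≤ 2 * (D * (b * (N + 3))) := by gcongr
        _ = (2 * (N + 3)) * (D * b) := by ring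
        _ ≤ (3 * N * g) * (D * b) := by
          apply mul_le_mul_of_nonneg_right _ (by positivity)
          calc 2 * ((N : ℝ) + 3) ≤ (3 * N) * (N + 3) := by
                apply mul_le_mul_of_nonneg_right _ (by positivity)
                linarith
            _ ≤ (3 * N) * g := by gcongr
    have h2 := le_of_mul_le_mul_left h1 (by positivity)
    exact_mod_cast h2
  -- bounds for U and V
  have hV : ((N ^ 2 * g * t + 3 * t : ℕ) : ℝ) ≤ D * ((2 * b : ℕ) : ℝ) * M := by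
    push_cast
    have h1 : (D : ℝ) * (2 * b) * (6 * M) = 2 * N * (D * (b * (N + 3))) := by rw [hM6]; ring
    have h2 : (N : ℝ) * (c * t) ≤ N * (D * (b * (N + 3))) := by
      apply mul_le_mul_of_nonneg_left _ hN0.le
      linarith
    have h3 : (N : ℝ) * (c * t) = 3 * (N ^ 2 * g * t) + N * D * (N + 3) * t := by
      rw [hcR]; ring
    have h4 : 9 * (t : ℝ) ≤ N * D * (N + 3) * t := by
      apply mul_le_mul_of_nonneg_right _ ht0
      have h5 : (N : ℝ) * 1 ≤ N * D := by gcongr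
      have h6 : (9 : ℝ) ≤ N * (N + 3) := by nlinarith
      have h7 : (N : ℝ) * 1 * (N + 3) ≤ N * D * (N + 3) := by gcongr
      linarith
    linarith
  have hU : D * ((2 * b : ℕ) : ℝ) * M - (F + D ^ 2 * b * (N + 3) ^ 2 / (9 * g)) ≤
      ((N ^ 2 * g * t : ℕ) : ℝ) := by
    push_cast
    have h1 : (D : ℝ) * (2 * b) * (6 * M) = 2 * N * (D * (b * (N + 3))) := by rw [hM6]; ring
    have h2 : (D : ℝ) * (N + 3) * (N * t) ≤ 3 * (D ^ 2 * b * (N + 3) ^ 2 / (9 * g)) := by
      have h3 : 3 * ((D : ℝ) ^ 2 * b * (N + 3) ^ 2 / (9 * g)) =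
        D * (N + 3) * (D * (b * (N + 3))) / (3 * g) := by
        field_simp; ring
      rw [h3, le_div_iff₀ (by positivity)]
      calc (D : ℝ) * (N + 3) * (N * t) * (3 * g) = D * (N + 3) * (3 * N * g * t) := by ring
        _ ≤ D * (N + 3) * (D * (b * (N + 3))) := by gcongr
    have h4 : (N : ℝ) * (D * (b * (N + 3)) - (C + c) - D * (N + 3) * t) <
      N * (3 * N * g * (t : ℝ)) := mul_lt_mul_of_pos_left hlow hN0
    have h5 : 3 * F = N * (C + c) := by rw [hF]; ring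
    linarith
  have hw : ∀ s : ℕ, ∃ w : ℕ, s ∈ Finset.Icc 1 N →
      w ≤ 2 * b ∧ D * (w * W + (2 * b - w + 1) * s) + (N ^ 2 * g * t + 3 * t) + 1 ≤
        D * (2 * b * W) ∧
      0 < min (D * (2 * b * (N + 1) * (N + 1 - 1)) - 2 * (N ^ 2 * g * t))
        (D * (2 * (2 * b) * gg (N + 1) s)) ∧
      θ * ((min (D * (2 * b * (N + 1) * (N + 1 - 1)) - 2 * (N ^ 2 * g * t))
        (D * (2 * (2 * b) * gg (N + 1) s)) : ℕ) : ℝ) <
        ((D * (2 * b * W) - (N ^ 2 * g * t + 3 * t) - D * ((2 * b - w) * s) : ℕ) : ℝ) := by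
    intro s
    by_cases hs : s ∈ Finset.Icc 1 N
    · obtain ⟨h1, h2, h3, h4⟩ := hsn s hs
      have h5 := hb3 s hs
      have h6 := hg3 s hs
      have h7 : |θ| * (2 * (F + D ^ 2 * b * (N + 3) ^ 2 / (9 * g))) +
          s * ((1 + (D : ℝ) * s) / (W - s) + D) < γ s * D * ((2 * b : ℕ) : ℝ) := by
        push_cast
        have h8 : |θ| * (2 * ((D : ℝ) ^ 2 * b * (N + 3) ^ 2 / (9 * g))) ≤
            γ s * D * b * (2 / 9) := by
          have h9 : |θ| * (2 * ((D : ℝ) ^ 2 * b * (N + 3) ^ 2 / (9 * g))) =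
            (|θ| * (D * (N + 3) ^ 2)) * (D * b) * (2 / 9) / g := by
            field_simp
          rw [h9, div_le_iff₀ hgR0]
          calc (|θ| * ((D : ℝ) * (N + 3) ^ 2)) * (D * b) * (2 / 9) ≤
              (γ s * g) * (D * b) * (2 / 9) := by gcongr
            _ = γ s * D * b * (2 / 9) * g := by ring
        have h10 : 0 < γ s * D * b := by
          have := hg0 s hs
          positivity
        have h11 := h5.1
        linarith
      have h12 : 1 + (D : ℝ) * s ≤ (W - s - M) * D * ((2 * b : ℕ) : ℝ) := by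
        push_cast
        have h13 := h5.2
        have h14 : 0 < ((W : ℝ) - s - M) * D * b := by
          have := hWsM s hs
          positivity
        linarith
      rw [hγ] at h7
      obtain ⟨w, hw⟩ := rl24_one D (N + 1) s (2 * b) (N ^ 2 * g * t) (N ^ 2 * g * t + 3 * t) W
        (gg (N + 1) s) θ M (F + D ^ 2 * b * (N + 3) ^ 2 / (9 * g)) hD (by omega)
        (rl24_gg (N + 1) s (by omega) h1) (by linarith [hWs s hs]) hden (by omega)
        h7 h12 hV (by omega) hU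
      exact ⟨w, fun _ => hw⟩
    · exact ⟨0, fun h => absurd h hs⟩
  choose w hw using hw
  refine ⟨b, g, t, w, ⟨hn, by omega, hcq, ?_, ?_⟩, ?_⟩
  · rw [Nat.add_sub_cancel]
    have h1 : 4 * g * N ^ 3 * 2 = 8 * g * N ^ 3 := by ring
    omega
  · rw [Nat.add_sub_cancel]
    have h1 : N * g * (3 * t + 2 * 0) + D * (3 * t + 2 * 0 + 4 * g * N ^ 4 +
      N * (t + 0 + 3) + N * D + 3) = c * t + C := by
      rw [hc, hC]; ring
    have h2 : N + 1 + 2 = N + 3 := rfl
    rw [h1, h2]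
    omega
  · intro s hs1 hs2
    exact hw s (Finset.mem_Icc.mpr ⟨hs1, hs2⟩)

end Pool.Agent.H26.RL
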