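import Pool.Agent.H26.RL.Defs
import Pool.Agent.H26.RL.Classes
import Pool.Agent.H26.RL.NoSmall
import Pool.Agent.H96.T3.RankG

/-! Project RL (MP_a3214d), row RL-13: full rank in the lattice of all conditions. -/

set_option autoImplicit false

open Polynomial IsDedekindDomain NumberField Pool.Agent.H35.AN
open Pool.Agent.H67.MU (Bdd)
open Pool.Agent.H92.SQ2 (gg WW)
open Pool.Agent.H98.TQ
open Pool.Agent.H96.T3 (D1)

namespace Pool.Agent.H26.RL

section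

variable (k : Type) [Field k] [NumberField k]

/-! ### RL-13 RankN.lean -/

theorem full_rankN (N b g a0 t ρ κ : ℕ) (τ : Fin t → Bool) (hN : 1 ≤ N) (hg : 1 ≤ g) (E s : ℕ)
    (ha : ρ + 2 * b * (N - 1) ≤ a0)
    (hc : Module.finrank ℚ k * (ρ + (N - 1) * b) + (N - 1) * E + s + 2 ≤ N * g * qq τ)
    (hc2 : (N ^ 2 * g + 1) * qq τ + 1 ≤ Module.finrank ℚ k * (ρ * N + κ + b * N * (N - 1))) :
    ∃ h0 : ℕ, ∀ h ≥ h0, ∀ S : Finset (HeightOneSpectrum (𝓞 k)), PS h (N ^ 2 * g + 1) S →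
      ∀ e : Fin t → HeightOneSpectrum (𝓞 k) × ℕ, (∀ i, (e i).1 ∈ S) →
      Rd h b N g a0 (qq τ) E s (LL τ e) →
      ∃ y : Fin N → (𝓞 k)[X], LinearIndependent (𝓞 k) y ∧
        ∀ i, InBox h (2 * b) (N - 1) (ρ + κ) (y i) ∧ y i ∈ LL τ e := by
  classical
  obtain ⟨h1, H1⟩ := no_small k N b g a0 (qq τ) E s ρ hN ha hc
  obtain ⟨d, rfl⟩ : ∃ d, N = d + 1 := ⟨N - 1, by omega⟩
  obtain ⟨h2, H2⟩ := Pool.Agent.H96.T3.full_rank_gen k d ρ κ (2 * b)
  refine ⟨max h1 (max h2 1), fun h hh S hS e he hR => ?_⟩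
  have hh1 : h1 ≤ h := le_trans (le_max_left _ _) hh
  have hh2 : h2 ≤ h := le_trans ((le_max_left _ _).trans (le_max_right _ _)) hh
  have hh3 : 1 ≤ h := le_trans ((le_max_right _ _).trans (le_max_right _ _)) hh
  obtain ⟨cl, hcl⟩ := exists_cl τ e
  have hQ : ∏ i, Ideal.absNorm (e i).1.asIdeal ^ ct (τ i) ≤
      h ^ (((d + 1) ^ 2 * g + 1) * qq τ) := by
    calc ∏ i, Ideal.absNorm (e i).1.asIdeal ^ ct (τ i)
        ≤ ∏ i, (h ^ ((d + 1) ^ 2 * g + 1)) ^ ct (τ i) :=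
          Finset.prod_le_prod' fun i _ => Nat.pow_le_pow_left (hS.hi _ (he i)) _
      _ = _ := by rw [Finset.prod_pow_eq_pow_sum, ← pow_mul]; rfl
  have hfin := H2 h hh2 (LL τ e).toAddSubgroup _ cl (fun g g' h => hcl g g' h)
    (fun g hg hb hL => H1 h hh1 _ hR g hL hg hb) ?_
  · exact hfin
  · have hD : (d + 1 - 1) = d := rfl
    rw [hD] at hc2
    calc (∏ i, Ideal.absNorm (e i).1.asIdeal ^ ct (τ i)) ^ 2 *
          h ^ (2 * (Module.finrank ℚ k * (κ * d) + 1))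
        ≤ (h ^ (((d + 1) ^ 2 * g + 1) * qq τ)) ^ 2 *
          h ^ (2 * (Module.finrank ℚ k * (κ * d) + 1)) :=
          Nat.mul_le_mul_right _ (Nat.pow_le_pow_left hQ 2)
      _ = h ^ (2 * (((d + 1) ^ 2 * g + 1) * qq τ + 1) + 2 * (Module.finrank ℚ k * (κ * d))) := by
          rw [← pow_mul, ← pow_add]; congr 1; ring
      _ ≤ h ^ (2 * (Module.finrank ℚ k * (ρ * (d + 1) + κ + b * (d + 1) * d)) +
          2 * (Module.finrank ℚ k * (κ * d))) :=
          Nat.pow_le_pow_right hh3 (by omega)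
      _ = _ := by congr 1; ring

end

end Pool.Agent.H26.RL
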