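import Pool.Agent.H26.RL.Defs
import Pool.Agent.H67.MU.Bdd

/-!
# Project RL (MP_a3214d), row RL-6

The Wronskian of two independent polynomials, and the number of roots of a fixed polynomial modulo
many primes.
-/

set_option autoImplicit false

open Polynomial IsDedekindDomain NumberField Pool.Agent.H35.AN
open Pool.Agent.H67.MU (Bdd)
open Pool.Agent.H92.SQ2 (gg WW)
open Pool.Agent.H98.TQ
open Pool.Agent.H96.T3 (D1)

namespace Pool.Agent.H26.RL

section

variable {k : Type} [Field k] [NumberField k]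

omit [NumberField k] in
theorem wron_ne [CharZero k] {u v : k[X]} (h : LinearIndependent k ![u, v]) :
    u * derivative v - derivative u * v ≠ 0 := by
  classical
  intro h0
  rw [LinearIndependent.pair_iff] at h
  by_cases hu : u = 0
  · have := h 1 0 (by rw [hu]; simp)
    exact one_ne_zero this.1
  set d : k[X] := EuclideanDomain.gcd u v with hd
  have hd0 : d ≠ 0 := by
    intro h1
    rw [hd, EuclideanDomain.gcd_eq_zero_iff] at h1
    exact hu h1.1
  obtain ⟨u1, hu1⟩ : d ∣ u := EuclideanDomain.gcd_dvd_left u v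
  obtain ⟨v1, hv1⟩ : d ∣ v := EuclideanDomain.gcd_dvd_right u v
  have hcop : IsCoprime u1 v1 := by
    refine ⟨EuclideanDomain.gcdA u v, EuclideanDomain.gcdB u v, ?_⟩
    have h2 := EuclideanDomain.gcd_eq_gcd_ab u v
    rw [← hd] at h2
    refine mul_left_cancel₀ hd0 ?_
    calc d * (EuclideanDomain.gcdA u v * u1 + EuclideanDomain.gcdB u v * v1)
        = (d * u1) * EuclideanDomain.gcdA u v + (d * v1) * EuclideanDomain.gcdB u v := by ring
      _ = u * EuclideanDomain.gcdA u v + v * EuclideanDomain.gcdB u v := by rw [← hu1, ← hv1]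
      _ = d * 1 := by rw [mul_one]; exact h2.symm
  have hw : wronskian u1 v1 = 0 := by
    rw [wronskian]
    have h3 : d ^ 2 * (u1 * derivative v1 - derivative u1 * v1) = 0 := by
      rw [← h0]
      conv_rhs => rw [hu1, hv1]
      rw [derivative_mul, derivative_mul]
      ring
    rcases mul_eq_zero.1 h3 with h4 | h4
    · exact absurd (pow_eq_zero_iff (two_ne_zero)|>.1 h4) hd0
    · exact h4
  obtain ⟨h5, h6⟩ := hcop.wronskian_eq_zero_iff.1 hw
  have h7 := derivative_eq_zero.1 h5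
  have h8 := derivative_eq_zero.1 h6
  obtain ⟨a, ha⟩ := natDegree_eq_zero.1 h7
  obtain ⟨b, hb⟩ := natDegree_eq_zero.1 h8
  have h9 := h b (-a) (by
    rw [hu1, hv1, ← ha, ← hb, smul_eq_C_mul, smul_eq_C_mul, map_neg]
    ring)
  have ha0 : a = 0 := neg_eq_zero.1 h9.2
  exact hu (by rw [hu1, ← ha, ha0, map_zero, mul_zero])

/-- few large primes contain a fixed nonzero integer -/
private theorem rl_6_few_dvd {h j K : ℕ} (hh : 2 ≤ h) (hj : 2 ≤ j) {a : 𝓞 k} (ha : a ≠ 0)
    (hK : Bdd ((h : ℝ) ^ K) a) {S : Finset (HeightOneSpectrum (𝓞 k))} (hS : PS h j S)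
    (T : Finset (HeightOneSpectrum (𝓞 k))) (hTS : T ⊆ S) (hT : ∀ p ∈ T, a ∈ p.asIdeal) :
    T.card ≤ Module.finrank ℚ k * K := by
  classical
  set N : HeightOneSpectrum (𝓞 k) → ℕ := fun p => Ideal.absNorm p.asIdeal with hN
  have hinj : Set.InjOn N (T : Set (HeightOneSpectrum (𝓞 k))) := fun p hp q hq h =>
    hS.inj p (hTS hp) q (hTS hq) h
  have h1 : (∏ p ∈ T.image N, p) ∣ Ideal.absNorm (Ideal.span {a}) := by
    refine Finset.prod_primes_dvd _ (fun p hp => ?_) fun p hp => ?_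
    · obtain ⟨q, hq, rfl⟩ := Finset.mem_image.1 hp
      exact (hS.prime q (hTS hq)).prime
    · obtain ⟨q, hq, rfl⟩ := Finset.mem_image.1 hp
      refine Ideal.absNorm_dvd_absNorm_of_le ?_
      rw [Ideal.span_singleton_le_iff_mem]
      exact hT q hq
  have h0 : Ideal.absNorm (Ideal.span {a}) ≠ 0 := by
    intro h
    rw [Ideal.absNorm_eq_zero_iff, Ideal.span_singleton_eq_bot] at h
    exact ha h
  have h2 : (∏ p ∈ T.image N, p) ≤ Ideal.absNorm (Ideal.span {a}) :=
    Nat.le_of_dvd (Nat.pos_of_ne_zero h0) h1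
  have h3 : h ^ (T.image N).card ≤ ∏ p ∈ T.image N, p := by
    refine Finset.pow_card_le_prod _ _ _ fun p hp => ?_
    obtain ⟨q, hq, rfl⟩ := Finset.mem_image.1 hp
    have h4 := hS.lo q (hTS hq)
    have h5 : h ^ 1 ≤ h ^ (j - 1) := Nat.pow_le_pow_right (by omega) (by omega)
    rw [pow_one] at h5
    exact (h5.trans h4.le)
  rw [Finset.card_image_of_injOn hinj] at h3
  have h4 : (Ideal.absNorm (Ideal.span {a}) : ℝ) ≤ ((h : ℝ) ^ K) ^ Module.finrank ℚ k :=
    Pool.Agent.H67.MU.mu8_norm _ a (Ideal.mem_span_singleton_self a) ha _ hK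
  have h5 : Ideal.absNorm (Ideal.span {a}) ≤ h ^ (Module.finrank ℚ k * K) := by
    have h6 : ((h : ℝ) ^ K) ^ Module.finrank ℚ k = ((h ^ (Module.finrank ℚ k * K) : ℕ) : ℝ) := by
      push_cast
      rw [← pow_mul, mul_comm]
    rw [h6] at h4
    exact_mod_cast h4
  exact (Nat.pow_le_pow_iff_right (by omega)).mp (h3.trans (h2.trans h5))

/-- residues modulo an ideal of prime norm -/
private theorem rl_6_inj {m : Ideal (𝓞 k)} (hp : (Ideal.absNorm m).Prime) {x y : ℕ}
    (hx : x < Ideal.absNorm m) (hy : y < Ideal.absNorm m)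
    (h : Ideal.Quotient.mk m (x : 𝓞 k) = Ideal.Quotient.mk m (y : 𝓞 k)) : x = y := by
  have hne : m ≠ ⊤ := by
    intro h0
    rw [h0, Ideal.absNorm_top] at hp
    exact Nat.not_prime_one hp
  have : Nontrivial (𝓞 k ⧸ m) := Ideal.Quotient.nontrivial_iff.2 hne
  have hchar : CharP (𝓞 k ⧸ m) (Ideal.absNorm m) := by
    rw [CharP.charP_iff_prime_eq_zero hp]
    have h1 := Ideal.absNorm_mem m
    have h2 := Ideal.Quotient.eq_zero_iff_mem.2 h1
    rwa [map_natCast] at h2
  rw [map_natCast, map_natCast, CharP.natCast_eq_natCast (𝓞 k ⧸ m) (Ideal.absNorm m)] at h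
  have h3 : x % Ideal.absNorm m = y % Ideal.absNorm m := h
  rwa [Nat.mod_eq_of_lt hx, Nat.mod_eq_of_lt hy] at h3

open scoped Classical in
/-- a polynomial which is not zero modulo `m` has few roots modulo `m` -/
private theorem rl_6_few_roots {m : HeightOneSpectrum (𝓞 k)} {d : ℕ}
    (hp : (Ideal.absNorm m.asIdeal).Prime) {g : (𝓞 k)[X]} (hd : g.natDegree ≤ d) {i : ℕ}
    (hi : g.coeff i ∉ m.asIdeal) :
    ((Finset.range (Ideal.absNorm m.asIdeal)).filter
      fun x : ℕ => g.eval (x : 𝓞 k) ∈ m.asIdeal).card ≤ d := by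
  have hprime : m.asIdeal.IsPrime := m.isPrime
  have hdom : IsDomain (𝓞 k ⧸ m.asIdeal) := Ideal.Quotient.isDomain m.asIdeal
  set G : (𝓞 k ⧸ m.asIdeal)[X] := g.map (Ideal.Quotient.mk m.asIdeal) with hG
  have hG0 : G ≠ 0 := by
    intro h0
    apply hi
    have h1 : G.coeff i = 0 := by rw [h0, coeff_zero]
    rw [hG, coeff_map] at h1
    exact Ideal.Quotient.eq_zero_iff_mem.1 h1
  have h1 : ((Finset.range (Ideal.absNorm m.asIdeal)).filter
      fun x : ℕ => g.eval (x : 𝓞 k) ∈ m.asIdeal).card ≤ G.roots.toFinset.card := by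
    refine Finset.card_le_card_of_injOn
      (fun x : ℕ => Ideal.Quotient.mk m.asIdeal (x : 𝓞 k)) ?_ ?_
    · intro x hx
      rw [Finset.mem_coe, Finset.mem_filter] at hx
      rw [Finset.mem_coe, Multiset.mem_toFinset, mem_roots hG0, IsRoot.def, hG, eval_map,
        eval₂_hom]
      exact Ideal.Quotient.eq_zero_iff_mem.2 hx.2
    · intro x hx y hy hxy
      rw [Finset.mem_coe, Finset.mem_filter, Finset.mem_range] at hx hy
      exact rl_6_inj hp hx.1 hy.1 hxy
  have h2 : G.roots.toFinset.card ≤ G.natDegree :=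
    (Multiset.toFinset_card_le _).trans (card_roots' G)
  have h3 : G.natDegree ≤ g.natDegree := natDegree_map_le
  omega

end

section

variable (k : Type) [Field k] [NumberField k]

open scoped Classical in
theorem few_roots (d M J : ℕ) (hJ : 2 ≤ J) : ∃ C h0 : ℕ, ∀ h ≥ h0,
    ∀ S : Finset (HeightOneSpectrum (𝓞 k)), PS h J S → ∀ w : (𝓞 k)[X], w ≠ 0 →
      w.natDegree ≤ d → (∀ j, Bdd ((h : ℝ) ^ M) (w.coeff j)) →
      (∑ m ∈ S, ((Finset.range (Ideal.absNorm m.asIdeal)).filter fun x : ℕ =>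
        w.eval (x : 𝓞 k) ∈ m.asIdeal).card) ≤ C * h ^ J := by
  refine ⟨d + Module.finrank ℚ k * M, 2, ?_⟩
  intro h hh S hS g hg hdeg hbox
  rw [← Finset.sum_filter_add_sum_filter_not S
    (fun m : HeightOneSpectrum (𝓞 k) => ∀ i, g.coeff i ∈ m.asIdeal)]
  have hlc : g.leadingCoeff ≠ 0 := leadingCoeff_ne_zero.mpr hg
  have h1 : (S.filter fun m : HeightOneSpectrum (𝓞 k) => ∀ i, g.coeff i ∈ m.asIdeal).card ≤
      Module.finrank ℚ k * M := by
    refine rl_6_few_dvd hh hJ (a := g.leadingCoeff) hlc (hbox _) hS _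
      (Finset.filter_subset _ _) ?_
    intro p hp
    rw [Finset.mem_filter] at hp
    exact hp.2 _
  have h2 : ∑ m ∈ S.filter (fun m : HeightOneSpectrum (𝓞 k) => ∀ i, g.coeff i ∈ m.asIdeal),
      ((Finset.range (Ideal.absNorm m.asIdeal)).filter
        fun x : ℕ => g.eval (x : 𝓞 k) ∈ m.asIdeal).card ≤
      (Module.finrank ℚ k * M) * h ^ J := by
    refine (Finset.sum_le_card_nsmul _ _ (h ^ J) ?_).trans ?_
    · intro m hm
      rw [Finset.mem_filter] at hm
      refine (Finset.card_filter_le _ _).trans ?_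
      rw [Finset.card_range]
      exact hS.hi m hm.1
    · rw [smul_eq_mul]
      exact Nat.mul_le_mul_right _ h1
  have hcard : S.card ≤ h ^ J := by
    have h5 : S.card ≤ (Finset.Icc 1 (h ^ J)).card := by
      refine Finset.card_le_card_of_injOn (fun p => Ideal.absNorm p.asIdeal) ?_ ?_
      · intro p hp
        rw [Finset.mem_coe, Finset.mem_Icc]
        exact ⟨(hS.prime p hp).one_lt.le, hS.hi p hp⟩
      · intro p hp q hq h
        exact hS.inj p hp q hq h
    rwa [Nat.card_Icc, Nat.add_sub_cancel] at h5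
  have h3 : ∑ m ∈ S.filter (fun m : HeightOneSpectrum (𝓞 k) => ¬ ∀ i, g.coeff i ∈ m.asIdeal),
      ((Finset.range (Ideal.absNorm m.asIdeal)).filter
        fun x : ℕ => g.eval (x : 𝓞 k) ∈ m.asIdeal).card ≤ h ^ J * d := by
    refine (Finset.sum_le_card_nsmul _ _ d ?_).trans ?_
    · intro m hm
      rw [Finset.mem_filter] at hm
      obtain ⟨i, hi⟩ := not_forall.mp hm.2
      exact rl_6_few_roots (hS.prime m hm.1) hdeg hi
    · rw [smul_eq_mul]
      exact Nat.mul_le_mul_right _ ((Finset.card_filter_le _ _).trans hcard)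
  have h4 : Module.finrank ℚ k * M * h ^ J + h ^ J * d =
      (d + Module.finrank ℚ k * M) * h ^ J := by ring
  omega

end

end Pool.Agent.H26.RL
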