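import Pool.Agent.H26.RL.Double

/-! # Project RL, row RL-7a: two independent small vectors in a subspace with many lattice points -/

set_option autoImplicit false

open Polynomial IsDedekindDomain NumberField Pool.Agent.H35.AN
open Pool.Agent.H67.MU (Bdd)
open Pool.Agent.H92.SQ2 (gg WW)
open Pool.Agent.H98.TQ
open Pool.Agent.H96.T3 (D1)

namespace Pool.Agent.H26.RL

section

variable {k : Type} [Field k] [NumberField k]

private theorem rl_7a_mono {B : ℝ} (hB : 0 < B) (N : ℕ) {T T' : ℝ} (hT : T ≤ T')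
    (L : Submodule (𝓞 k) (𝓞 k)[X]) (V V' : Submodule k k[X]) (hV' : V' ≤ degreeLT k N)
    (hVV : ∀ g ∈ L, FK g ∈ V → Bx B N T g → FK g ∈ V') :
    nu B N T L V ≤ nu B N T' L V' := by
  unfold nu
  apply Set.ncard_le_ncard _ (nu_finite hB N T' L V' hV')
  rintro g ⟨h1, h2, h3⟩
  exact ⟨h1, hVV g h1 h2 h3, fun j hj φ => (h3 j hj φ).trans hT⟩

private theorem rl_7a_iter {B : ℝ} (hB : 0 < B) (N : ℕ) {T : ℝ} (hT : 0 ≤ T)
    (L : Submodule (𝓞 k) (𝓞 k)[X]) (V : Submodule k k[X]) (hV : V ≤ degreeLT k N) (m : ℕ) :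
    nu B N (2 ^ m * T) L V ≤ (4 ^ (Module.finrank ℚ k * N)) ^ m * nu B N T L V := by
  induction m with
  | zero => simp
  | succ m ih =>
    have h1 := nu_double hB N (T := 2 ^ m * T) (by positivity) L V hV
    rw [← mul_assoc, ← pow_succ'] at h1
    refine h1.trans ?_
    rw [pow_succ' (4 ^ (Module.finrank ℚ k * N)) m, mul_assoc]
    exact Nat.mul_le_mul_left _ ih

private theorem rl_7a_red (N b g a0 h : ℕ) (hJ : 2 * (N ^ 2 * g) + 3 ≤ a0) (hh : 2 ≤ h)
    (L : Submodule (𝓞 k) (𝓞 k)[X]) (V : Submodule k k[X]) (hV : V ≤ degreeLT k N) :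
    nu ((h : ℝ) ^ (2 * b)) N ((h : ℝ) ^ a0) L V ≤
      h ^ (Module.finrank ℚ k * N * (4 * (N ^ 2 * g) + 8)) *
        nu ((h : ℝ) ^ (2 * b)) N ((h : ℝ) ^ (a0 - (2 * (N ^ 2 * g) + 3))) L V := by
  have hh0 : (0 : ℝ) < h := by
    have : 0 < h := by omega
    exact_mod_cast this
  have hB : (0 : ℝ) < (h : ℝ) ^ (2 * b) := by positivity
  set J := 2 * (N ^ 2 * g) + 3 with hJdef
  have hpow : 1 < h ^ J := Nat.one_lt_pow (by omega) (by omega)
  set m := Nat.clog 2 (h ^ J) with hm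
  have h1 : h ^ J ≤ 2 ^ m := Nat.le_pow_clog one_lt_two _
  have hm0 : 0 < m := Nat.clog_pos one_lt_two hpow
  have h2 : 2 ^ m ≤ 2 * h ^ J := by
    have h3 := Nat.pow_pred_clog_lt_self one_lt_two hpow
    rw [← hm] at h3
    obtain ⟨m', hm'⟩ : ∃ m', m = m' + 1 := ⟨m - 1, by omega⟩
    rw [hm'] at h3 ⊢
    rw [Nat.pred_succ] at h3
    rw [pow_succ']
    omega
  have h4 : (h : ℝ) ^ a0 ≤ 2 ^ m * (h : ℝ) ^ (a0 - J) := by
    have h5 : (h : ℝ) ^ a0 = (h : ℝ) ^ J * (h : ℝ) ^ (a0 - J) := by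
      rw [← pow_add]; congr 1; omega
    rw [h5]
    have h6 : (h : ℝ) ^ J ≤ 2 ^ m := by exact_mod_cast h1
    exact mul_le_mul_of_nonneg_right h6 (by positivity)
  have h7 := rl_7a_mono hB N h4 L V V hV (fun g _ hg _ => hg)
  have h8 := rl_7a_iter hB N (T := (h : ℝ) ^ (a0 - J)) (by positivity) L V hV m
  refine (h7.trans h8).trans (Nat.mul_le_mul_right _ ?_)
  calc (4 ^ (Module.finrank ℚ k * N)) ^ m = (2 ^ m) ^ (2 * (Module.finrank ℚ k * N)) := by
        rw [show (4 : ℕ) = 2 ^ 2 by norm_num, ← pow_mul, ← pow_mul, ← pow_mul]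
        congr 1
        ring
    _ ≤ (h ^ (J + 1)) ^ (2 * (Module.finrank ℚ k * N)) := by
        apply Nat.pow_le_pow_left
        rw [pow_succ']
        exact h2.trans (Nat.mul_le_mul_right _ hh)
    _ = h ^ (Module.finrank ℚ k * N * (4 * (N ^ 2 * g) + 8)) := by
        rw [← pow_mul]
        congr 1
        rw [hJdef]
        ring

end

private theorem rl_7a_ar1 (D N b g a0 q E κ s : ℕ) (hD : 1 ≤ D) (hκ : 2 ≤ κ) (hκN : κ ≤ N)
    (hA : cA D N b g a0 q E) :
    D * N * (4 * (N ^ 2 * g) + 8) + ((D * (a0 + b) + N * E) * 1 + s) +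
      (E * (κ ^ 2 + 1) + (N * g * q + D * (N * b)) * κ) ≤
    ((D * (a0 + b) + N * E) * κ + s + 1) + (E * 1 ^ 2 + (N * g * q + D * (N * b)) * 1) := by
  unfold cA at hA
  obtain ⟨j, rfl⟩ : ∃ j, κ = j + 1 := ⟨κ - 1, by omega⟩
  have hj : 1 ≤ j := by omega
  set c := N * g * q + D * (N * b) with hc
  set Q := D * N * (4 * (N ^ 2 * g) + 8) with hQ
  have h1 : c + Q + N ^ 2 * E ≤ a0 := by
    have : D * N * (4 * (N ^ 2 * g) + 10) = Q + 2 * (D * N) := by rw [hQ]; ring
    have h2 : N ^ 2 * (3 * g + E) = N ^ 2 * (3 * g) + N ^ 2 * E := by ring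
    omega
  have h2 : (j + 1) ^ 2 ≤ N ^ 2 := Nat.pow_le_pow_left hκN 2
  have h3 : a0 ≤ D * (a0 + b) := by nlinarith
  have h4 : (c + Q + N ^ 2 * E) * j ≤ (D * (a0 + b) + N * E) * j :=
    Nat.mul_le_mul_right _ (by omega)
  have h5 : Q * 1 ≤ Q * j := Nat.mul_le_mul_left _ hj
  have h6 : (j + 1) ^ 2 * E ≤ N ^ 2 * E := Nat.mul_le_mul_right _ h2
  have h7 : N ^ 2 * E * 1 ≤ N ^ 2 * E * j := Nat.mul_le_mul_left _ hj
  nlinarith

private theorem rl_7a_ar2 (D N b g a0 q E κ s : ℕ) (hD : 1 ≤ D) (hN : 2 ≤ N) (hκ : 1 ≤ κ)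
    (hκN : κ ≤ N) (hA : cA D N b g a0 q E) :
    D * N * (4 * (N ^ 2 * g) + 8) + (E * (κ ^ 2 + 1) + (N * g * q + D * (N * b)) * κ) ≤
    (D * (a0 + b) + N * E) * κ + s + 1 := by
  unfold cA at hA
  set c := N * g * q + D * (N * b) with hc
  set Q := D * N * (4 * (N ^ 2 * g) + 8) with hQ
  have h1 : c + Q + N ^ 2 * E ≤ a0 := by
    have : D * N * (4 * (N ^ 2 * g) + 10) = Q + 2 * (D * N) := by rw [hQ]; ring
    have h2 : N ^ 2 * (3 * g + E) = N ^ 2 * (3 * g) + N ^ 2 * E := by ring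
    omega
  have h3 : a0 ≤ D * (a0 + b) := by nlinarith
  have h4 : (c + Q + N ^ 2 * E) * κ ≤ (D * (a0 + b) + N * E) * κ :=
    Nat.mul_le_mul_right _ (by omega)
  have h5 : Q * 1 ≤ Q * κ := Nat.mul_le_mul_left _ hκ
  have h2 : κ ^ 2 + 1 ≤ N ^ 2 * κ := by
    have e1 : κ * κ ≤ N * κ := Nat.mul_le_mul_right _ hκN
    have e2 : N + 1 ≤ N ^ 2 := by nlinarith
    have e3 : (N + 1) * κ ≤ N ^ 2 * κ := Nat.mul_le_mul_right _ e2
    have e4 : (N + 1) * κ = N * κ + κ := by ring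
    have e5 : κ ^ 2 = κ * κ := by ring
    omega
  have h6 : (κ ^ 2 + 1) * E ≤ N ^ 2 * κ * E := Nat.mul_le_mul_right _ h2
  nlinarith

section

variable (k : Type) [Field k] [NumberField k]

theorem small_vec (N b g a0 q E s : ℕ) (hN : 2 ≤ N)
    (hA : cA (Module.finrank ℚ k) N b g a0 q E) : ∃ h0 : ℕ, ∀ h ≥ h0,
    ∀ L : Submodule (𝓞 k) (𝓞 k)[X], Rd h b N g a0 q E s L → ∀ V : Submodule k k[X],
      V ≤ degreeLT k N → 1 ≤ Module.finrank k V → Big h b N g a0 q E s L V →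
      ∃ u v : (𝓞 k)[X], u ∈ L ∧ v ∈ L ∧ FK u ∈ V ∧ FK v ∈ V ∧
        Bx ((h : ℝ) ^ (2 * b)) N ((h : ℝ) ^ (a0 - (2 * (N ^ 2 * g) + 3))) u ∧
        Bx ((h : ℝ) ^ (2 * b)) N ((h : ℝ) ^ (a0 - (2 * (N ^ 2 * g) + 3))) v ∧ v ≠ 0 ∧
        (2 ≤ Module.finrank k V → LinearIndependent k ![FK u, FK v]) := by
  refine ⟨2, fun h hh L hR V hV hκ1 hBig => ?_⟩
  have hD : 1 ≤ Module.finrank ℚ k := Module.finrank_pos
  have hJ : 2 * (N ^ 2 * g) + 3 ≤ a0 := by
    unfold cA at hA
    have h1 : 1 * 2 ≤ Module.finrank ℚ k * N := Nat.mul_le_mul hD hN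
    have h2 : 1 * (4 * (N ^ 2 * g) + 10) ≤ Module.finrank ℚ k * N * (4 * (N ^ 2 * g) + 10) :=
      Nat.mul_le_mul_right _ (by omega)
    omega
  have hh0 : (0 : ℝ) < h := by
    have : 0 < h := by omega
    exact_mod_cast this
  have hh1 : (1 : ℝ) ≤ h := by
    have : 1 ≤ h := by omega
    exact_mod_cast this
  have hB : (0 : ℝ) < (h : ℝ) ^ (2 * b) := by positivity
  have hinj : Function.Injective (FK : (𝓞 k)[X] → k[X]) :=
    Polynomial.map_injective _ (FaithfulSMul.algebraMap_injective (𝓞 k) k)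
  have hκN : Module.finrank k V ≤ N := by
    have h1 : Module.finrank k (degreeLT k N) = N := by
      rw [(degreeLTEquiv k N).finrank_eq, Module.finrank_fin_fun]
    have : FiniteDimensional k (degreeLT k N) := FiniteDimensional.of_injective
      (degreeLTEquiv k N).toLinearMap (degreeLTEquiv k N).injective
    rw [← h1]
    exact Submodule.finrank_mono hV
  have hred := rl_7a_red N b g a0 h hJ hh L V hV
  have hTT : (h : ℝ) ^ (a0 - (2 * (N ^ 2 * g) + 3)) ≤ (h : ℝ) ^ a0 :=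
    pow_le_pow_right₀ hh1 (by omega)
  have h1h : 1 < h := by omega
  by_cases hex : ∃ v ∈ L, FK v ∈ V ∧
      Bx ((h : ℝ) ^ (2 * b)) N ((h : ℝ) ^ (a0 - (2 * (N ^ 2 * g) + 3))) v ∧ v ≠ 0
  · obtain ⟨v, hvL, hvV, hvB, hv0⟩ := hex
    have hFv : FK v ≠ 0 := by
      intro h0
      exact hv0 (hinj (h0.trans (by rw [FK, Polynomial.map_zero])))
    by_cases hκ2 : 2 ≤ Module.finrank k V
    · by_cases hex2 : ∃ u ∈ L, FK u ∈ V ∧
          Bx ((h : ℝ) ^ (2 * b)) N ((h : ℝ) ^ (a0 - (2 * (N ^ 2 * g) + 3))) u ∧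
          LinearIndependent k ![FK u, FK v]
      · obtain ⟨u, huL, huV, huB, hli⟩ := hex2
        exact ⟨u, v, huL, hvL, huV, hvV, huB, hvB, hv0, fun _ => hli⟩
      · exfalso
        push Not at hex2
        have hW : Submodule.span k {FK v} ≤ degreeLT k N := by
          rw [Submodule.span_le, Set.singleton_subset_iff]
          exact hV hvV
        have hrk : Module.finrank k (Submodule.span k {FK v}) = 1 := finrank_span_singleton hFv
        have h1 := rl_7a_mono hB N hTT L V (Submodule.span k {FK v}) hW (by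
          intro u huL huV huB
          have h2 := hex2 u huL huV huB
          rw [LinearIndependent.pair_symm_iff, LinearIndependent.pair_iff' hFv] at h2
          push Not at h2
          obtain ⟨a, ha⟩ := h2
          exact Submodule.mem_span_singleton.2 ⟨a, ha⟩)
        have h2 := hR _ hW
        unfold RdV at h2
        rw [hrk] at h2
        unfold Big at hBig
        set ν1 := nu ((h : ℝ) ^ (2 * b)) N ((h : ℝ) ^ a0) L V with hν1
        set ν2 := nu ((h : ℝ) ^ (2 * b)) N ((h : ℝ) ^ (a0 - (2 * (N ^ 2 * g) + 3))) L V with hν2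
        set ν3 := nu ((h : ℝ) ^ (2 * b)) N ((h : ℝ) ^ a0) L (Submodule.span k {FK v}) with hν3
        set κ := Module.finrank k V with hκ
        set D := Module.finrank ℚ k with hDdef
        have h3 := rl_7a_ar1 D N b g a0 q E κ s hD hκ2 hκN hA
        have h4 : h ^ (((D * (a0 + b) + N * E) * κ + s + 1) +
            (E * 1 ^ 2 + (N * g * q + D * (N * b)) * 1)) <
            h ^ (D * N * (4 * (N ^ 2 * g) + 8) + ((D * (a0 + b) + N * E) * 1 + s) +
              (E * (κ ^ 2 + 1) + (N * g * q + D * (N * b)) * κ)) := by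
          calc h ^ (((D * (a0 + b) + N * E) * κ + s + 1) +
                (E * 1 ^ 2 + (N * g * q + D * (N * b)) * 1))
              = h ^ ((D * (a0 + b) + N * E) * κ + s + 1) *
                h ^ (E * 1 ^ 2 + (N * g * q + D * (N * b)) * 1) := pow_add _ _ _
            _ < (ν1 * h ^ (E * (κ ^ 2 + 1) + (N * g * q + D * (N * b)) * κ)) *
                h ^ (E * 1 ^ 2 + (N * g * q + D * (N * b)) * 1) :=
                Nat.mul_lt_mul_of_pos_right hBig (by positivity)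
            _ ≤ ((h ^ (D * N * (4 * (N ^ 2 * g) + 8)) * ν3) *
                h ^ (E * (κ ^ 2 + 1) + (N * g * q + D * (N * b)) * κ)) *
                h ^ (E * 1 ^ 2 + (N * g * q + D * (N * b)) * 1) := by
                apply Nat.mul_le_mul_right
                apply Nat.mul_le_mul_right
                exact hred.trans (Nat.mul_le_mul_left _ h1)
            _ = h ^ (D * N * (4 * (N ^ 2 * g) + 8)) *
                (ν3 * h ^ (E * 1 ^ 2 + (N * g * q + D * (N * b)) * 1)) *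
                h ^ (E * (κ ^ 2 + 1) + (N * g * q + D * (N * b)) * κ) := by ring
            _ ≤ h ^ (D * N * (4 * (N ^ 2 * g) + 8)) *
                h ^ ((D * (a0 + b) + N * E) * 1 + s) *
                h ^ (E * (κ ^ 2 + 1) + (N * g * q + D * (N * b)) * κ) := by
                apply Nat.mul_le_mul_right
                exact Nat.mul_le_mul_left _ h2
            _ = _ := by rw [← pow_add, ← pow_add]
        exact absurd h3 (not_le.2 ((Nat.pow_lt_pow_iff_right h1h).1 h4))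
    · exact ⟨v, v, hvL, hvL, hvV, hvV, hvB, hvB, hv0, fun h2 => absurd h2 hκ2⟩
  · exfalso
    push Not at hex
    have h1 : nu ((h : ℝ) ^ (2 * b)) N ((h : ℝ) ^ (a0 - (2 * (N ^ 2 * g) + 3))) L V ≤ 1 := by
      unfold nu
      refine (Set.ncard_le_ncard (t := {0}) ?_ (Set.finite_singleton _)).trans
        (by rw [Set.ncard_singleton])
      rintro u ⟨hu1, hu2, hu3⟩
      exact hex u hu1 hu2 hu3
    unfold Big at hBig
    set ν1 := nu ((h : ℝ) ^ (2 * b)) N ((h : ℝ) ^ a0) L V with hν1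
    set κ := Module.finrank k V with hκ
    set D := Module.finrank ℚ k with hDdef
    have h3 := rl_7a_ar2 D N b g a0 q E κ s hD hN hκ1 hκN hA
    have h4 : h ^ ((D * (a0 + b) + N * E) * κ + s + 1) <
        h ^ (D * N * (4 * (N ^ 2 * g) + 8) +
          (E * (κ ^ 2 + 1) + (N * g * q + D * (N * b)) * κ)) := by
      refine hBig.trans_le ?_
      rw [pow_add h (D * N * (4 * (N ^ 2 * g) + 8))]
      apply Nat.mul_le_mul_right
      refine hred.trans ?_
      calc _ ≤ h ^ (D * N * (4 * (N ^ 2 * g) + 8)) * 1 := Nat.mul_le_mul_left _ h1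
        _ = _ := mul_one _
    exact absurd h3 (not_le.2 ((Nat.pow_lt_pow_iff_right h1h).1 h4))

end

end Pool.Agent.H26.RL
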