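import Pool.Agent.H26.RL.Unique
import Pool.Agent.H26.RL.Index
import Pool.Agent.H26.RL.Grid
import Pool.Agent.H26.RL.Roots
import Pool.Agent.H26.RL.Small

/-! # Project RL (MP_a3214d), row RL-7b: one condition, subspaces of one dimension -/

set_option autoImplicit false

open Polynomial IsDedekindDomain NumberField Pool.Agent.H35.AN
open Pool.Agent.H67.MU (Bdd)
open Pool.Agent.H92.SQ2 (gg WW)
open Pool.Agent.H98.TQ

namespace Pool.Agent.H26.RL

section

/-- exponent arithmetic: subspaces with few points -/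
theorem rl_7b_few {h ν ν' κ N g q ct c E A s d : ℕ} (hh : 1 ≤ h) (hν : ν' ≤ ν) (hκ : κ ≤ N)
    (hc : c ≤ g * ct) (hct : ct ≤ 3) (hE : 4 * g * N ^ 2 ≤ E + c)
    (hb : ν * h ^ ((E + c) * (κ ^ 2 + 1) + (N * g * q + d) * κ) ≤
      h ^ ((A + N * (E + c)) * κ + s + 1)) :
    ν' * h ^ (E * κ ^ 2 + (N * g * (q + ct) + d) * κ) ≤ h ^ ((A + N * E) * κ + (s + 1)) := by
  obtain ⟨m, rfl⟩ := Nat.exists_eq_add_of_le hκ
  have h1 : E * κ ^ 2 + ((κ + m) * g * (q + ct) + d) * κ + (κ + m) * c * κ ≤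
      (E + c) * (κ ^ 2 + 1) + ((κ + m) * g * q + d) * κ := by
    have h2 : m * c * κ ≤ m * (g * ct) * κ := by gcongr
    have h3 : (g * ct) * (κ ^ 2 + 2 * m * κ) ≤ (g * 3) * (κ ^ 2 + 2 * m * κ) := by gcongr
    nlinarith [Nat.zero_le (g * m ^ 2), Nat.zero_le (g * κ ^ 2), Nat.zero_le (g * m * κ)]
  have hpos : 0 < h ^ ((κ + m) * c * κ) := pow_pos hh _
  refine Nat.le_of_mul_le_mul_right ?_ hpos
  calc ν' * h ^ (E * κ ^ 2 + ((κ + m) * g * (q + ct) + d) * κ) * h ^ ((κ + m) * c * κ)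
      = ν' * h ^ (E * κ ^ 2 + ((κ + m) * g * (q + ct) + d) * κ + (κ + m) * c * κ) := by
        rw [mul_assoc, ← pow_add]
    _ ≤ ν * h ^ ((E + c) * (κ ^ 2 + 1) + ((κ + m) * g * q + d) * κ) :=
        Nat.mul_le_mul hν (Nat.pow_le_pow_right hh h1)
    _ ≤ h ^ ((A + (κ + m) * (E + c)) * κ + s + 1) := hb
    _ = h ^ ((A + (κ + m) * E) * κ + (s + 1)) * h ^ ((κ + m) * c * κ) := by
        rw [← pow_add]; congr 1; ring

/-- exponent arithmetic: the subspace with many points -/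
theorem rl_7b_many {h ν ν' κ N g q ct c E A s d X : ℕ} (hh : 1 ≤ h)
    (hX : N * g * ct * κ + N * c * κ ≤ X + c * κ ^ 2) (h1 : h ^ X * ν' ≤ h * ν)
    (hb : ν * h ^ ((E + c) * κ ^ 2 + (N * g * q + d) * κ) ≤ h ^ ((A + N * (E + c)) * κ + s)) :
    ν' * h ^ (E * κ ^ 2 + (N * g * (q + ct) + d) * κ) ≤ h ^ ((A + N * E) * κ + (s + 1)) := by
  have h2 : E * κ ^ 2 + (N * g * (q + ct) + d) * κ + N * c * κ ≤
      X + ((E + c) * κ ^ 2 + (N * g * q + d) * κ) := by
    nlinarith
  have hpos : 0 < h ^ (N * c * κ) := pow_pos hh _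
  refine Nat.le_of_mul_le_mul_right ?_ hpos
  calc ν' * h ^ (E * κ ^ 2 + (N * g * (q + ct) + d) * κ) * h ^ (N * c * κ)
      = ν' * h ^ (E * κ ^ 2 + (N * g * (q + ct) + d) * κ + N * c * κ) := by
        rw [mul_assoc, ← pow_add]
    _ ≤ ν' * h ^ (X + ((E + c) * κ ^ 2 + (N * g * q + d) * κ)) :=
        Nat.mul_le_mul_left _ (Nat.pow_le_pow_right hh h2)
    _ = (h ^ X * ν') * h ^ ((E + c) * κ ^ 2 + (N * g * q + d) * κ) := by
        rw [pow_add]; ring
    _ ≤ (h * ν) * h ^ ((E + c) * κ ^ 2 + (N * g * q + d) * κ) := Nat.mul_le_mul_right _ h1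
    _ = h * (ν * h ^ ((E + c) * κ ^ 2 + (N * g * q + d) * κ)) := by ring
    _ ≤ h * h ^ ((A + N * (E + c)) * κ + s) := Nat.mul_le_mul_left _ hb
    _ = h ^ ((A + N * E) * κ + (s + 1)) * h ^ (N * c * κ) := by
        rw [← pow_succ', ← pow_add]; congr 1; ring

variable {k : Type} [Field k] [NumberField k]

theorem rl_7b_FK_inj {u : (𝓞 k)[X]} (h : FK u = 0) : u = 0 := by
  have h1 : Function.Injective (algebraMap (𝓞 k) k) := FaithfulSMul.algebraMap_injective _ _
  exact (Polynomial.map_eq_zero_iff h1).mp h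

theorem rl_7b_deg {N : ℕ} {u : (𝓞 k)[X]} (h : FK u ∈ degreeLT k N) : u.degree < N := by
  rw [Polynomial.mem_degreeLT] at h
  have h1 : Function.Injective (algebraMap (𝓞 k) k) := FaithfulSMul.algebraMap_injective _ _
  rwa [FK, Polynomial.degree_map_eq_of_injective h1] at h

theorem rl_7b_coeff {N : ℕ} {u : (𝓞 k)[X]} (h : FK u ∈ degreeLT k N) {B T : ℝ} (hB : 1 ≤ B)
    (hT : 0 ≤ T) (hu : Bx B N T u) (j : ℕ) (φ : k →+* ℂ) : ‖φ (u.coeff j : k)‖ ≤ T := by
  by_cases hj : j < N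
  · have h1 := hu j hj φ
    have h2 : (1 : ℝ) ≤ B ^ j := one_le_pow₀ hB
    nlinarith [norm_nonneg (φ (u.coeff j : k))]
  · have h1 : u.coeff j = 0 := by
      apply Polynomial.coeff_eq_zero_of_degree_lt
      exact lt_of_lt_of_le (rl_7b_deg h) (by exact_mod_cast not_lt.mp hj)
    rw [h1]
    simpa using hT

/-- the product of a polynomial and a derivative -/
theorem rl_7b_prod {N : ℕ} {u v : (𝓞 k)[X]} (hu : FK u ∈ degreeLT k N) (hv : FK v ∈ degreeLT k N)
    {B T : ℝ} (hB : 1 ≤ B) (hT : 0 ≤ T) (hbu : Bx B N T u) (hbv : Bx B N T v) (j : ℕ)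
    (φ : k →+* ℂ) : ‖φ ((u * derivative v).coeff j : k)‖ ≤ ((j : ℝ) + 1) * (N * T ^ 2) := by
  rw [Polynomial.coeff_mul]
  have h1 : φ ((∑ x ∈ Finset.HasAntidiagonal.antidiagonal j, u.coeff x.1 * (derivative v).coeff x.2 : 𝓞 k) : k) =
      ∑ x ∈ Finset.HasAntidiagonal.antidiagonal j, φ (u.coeff x.1 : k) * φ ((derivative v).coeff x.2 : k) := by
    push_cast
    rw [map_sum]
    refine Finset.sum_congr rfl fun x _ => ?_
    rw [map_mul]
  rw [h1]
  refine (norm_sum_le _ _).trans ?_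
  have h2 : ∀ x ∈ Finset.HasAntidiagonal.antidiagonal j,
      ‖φ (u.coeff x.1 : k) * φ ((derivative v).coeff x.2 : k)‖ ≤ N * T ^ 2 := by
    intro x _
    rw [norm_mul, Polynomial.coeff_derivative]
    have h3 := rl_7b_coeff hu hB hT hbu x.1 φ
    have h4 := rl_7b_coeff hv hB hT hbv (x.2 + 1) φ
    have h5 : ‖φ ((v.coeff (x.2 + 1) * ((x.2 : 𝓞 k) + 1) : 𝓞 k) : k)‖ ≤ N * T := by
      by_cases hx : x.2 + 1 < N
      · have h6 : φ ((v.coeff (x.2 + 1) * ((x.2 : 𝓞 k) + 1) : 𝓞 k) : k) =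
            φ (v.coeff (x.2 + 1) : k) * ((x.2 : ℂ) + 1) := by
          push_cast
          rw [map_mul, map_add, map_natCast, map_one]
        rw [h6, norm_mul]
        have h7 : ‖(x.2 : ℂ) + 1‖ ≤ N := by
          have h8 : ((x.2 : ℂ) + 1) = ((x.2 + 1 : ℕ) : ℂ) := by push_cast; ring
          rw [h8, Complex.norm_natCast]
          exact_mod_cast hx.le
        calc ‖φ (v.coeff (x.2 + 1) : k)‖ * ‖(x.2 : ℂ) + 1‖ ≤ T * N :=
              mul_le_mul h4 h7 (norm_nonneg _) hT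
          _ = N * T := mul_comm _ _
      · have h6 : v.coeff (x.2 + 1) = 0 := by
          apply Polynomial.coeff_eq_zero_of_degree_lt
          exact lt_of_lt_of_le (rl_7b_deg hv) (by exact_mod_cast not_lt.mp hx)
        rw [h6]
        simp only [zero_mul, map_zero, norm_zero]
        positivity
    calc ‖φ (u.coeff x.1 : k)‖ * ‖φ ((v.coeff (x.2 + 1) * ((x.2 : 𝓞 k) + 1) : 𝓞 k) : k)‖
        ≤ T * (N * T) := mul_le_mul h3 h5 (norm_nonneg _) hT
      _ = N * T ^ 2 := by ring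
  refine (Finset.sum_le_card_nsmul _ _ _ h2).trans ?_
  rw [Finset.Nat.card_antidiagonal, nsmul_eq_mul]
  push_cast
  exact le_rfl

theorem rl_7b_wron_deg {N : ℕ} {u v : (𝓞 k)[X]} (hu : FK u ∈ degreeLT k N)
    (hv : FK v ∈ degreeLT k N) : (u * derivative v - derivative u * v).natDegree ≤ 2 * N := by
  have h1 : u.natDegree ≤ N := Polynomial.natDegree_le_of_degree_le (rl_7b_deg hu).le
  have h2 : v.natDegree ≤ N := Polynomial.natDegree_le_of_degree_le (rl_7b_deg hv).le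
  have h3 : (derivative v).natDegree ≤ N := by
    have := Polynomial.natDegree_derivative_le v
    omega
  have h4 : (derivative u).natDegree ≤ N := by
    have := Polynomial.natDegree_derivative_le u
    omega
  refine (Polynomial.natDegree_sub_le _ _).trans (max_le ?_ ?_)
  · refine Polynomial.natDegree_mul_le.trans ?_
    omega
  · refine Polynomial.natDegree_mul_le.trans ?_
    omega

theorem rl_7b_wron {N : ℕ} {u v : (𝓞 k)[X]} (hu : FK u ∈ degreeLT k N) (hv : FK v ∈ degreeLT k N)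
    {B T : ℝ} (hB : 1 ≤ B) (hT : 0 ≤ T) (hbu : Bx B N T u) (hbv : Bx B N T v) (j : ℕ) :
    Bdd (2 * (((2 * N : ℕ) : ℝ) + 1) * (N * T ^ 2))
      ((u * derivative v - derivative u * v).coeff j) := by
  intro φ
  by_cases hj : j ≤ 2 * N
  · rw [Polynomial.coeff_sub]
    have h1 := rl_7b_prod hu hv hB hT hbu hbv j φ
    have h2 := rl_7b_prod hv hu hB hT hbv hbu j φ
    rw [mul_comm v (derivative u)] at h2
    have h3 : φ (((u * derivative v).coeff j - (derivative u * v).coeff j : 𝓞 k) : k) =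
        φ ((u * derivative v).coeff j : k) - φ ((derivative u * v).coeff j : k) := by
      push_cast
      rw [map_sub]
    rw [h3]
    have h4 : (j : ℝ) ≤ ((2 * N : ℕ) : ℝ) := by exact_mod_cast hj
    have h5 : 0 ≤ (N : ℝ) * T ^ 2 := by positivity
    calc ‖φ ((u * derivative v).coeff j : k) - φ ((derivative u * v).coeff j : k)‖
        ≤ ‖φ ((u * derivative v).coeff j : k)‖ + ‖φ ((derivative u * v).coeff j : k)‖ :=
          norm_sub_le _ _
      _ ≤ ((j : ℝ) + 1) * (N * T ^ 2) + ((j : ℝ) + 1) * (N * T ^ 2) := add_le_add h1 h2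
      _ ≤ 2 * (((2 * N : ℕ) : ℝ) + 1) * (N * T ^ 2) := by nlinarith
  · have h1 : (u * derivative v - derivative u * v).coeff j = 0 :=
      Polynomial.coeff_eq_zero_of_natDegree_lt
        (lt_of_le_of_lt (rl_7b_wron_deg hu hv) (not_le.mp hj))
    rw [h1]
    simp only [map_zero, norm_zero]
    positivity

theorem rl_7b_wron_ne {u v : (𝓞 k)[X]} (h : LinearIndependent k ![FK u, FK v]) :
    u * derivative v - derivative u * v ≠ 0 := by
  intro h0
  apply wron_ne h
  have h1 : FK (u * derivative v - derivative u * v) = 0 := by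
    rw [h0]; exact Polynomial.map_zero _
  rw [FK, Polynomial.map_sub, Polynomial.map_mul, Polynomial.map_mul, ← Polynomial.derivative_map,
    ← Polynomial.derivative_map] at h1
  exact h1

/-- the elements of the grid are in the box -/
theorem rl_7b_grid {B T C : ℝ} {N : ℕ} (hB : 0 < B) (hC : 0 ≤ C) {u v : (𝓞 k)[X]}
    (hu : Bx B N T u) (hv : Bx B N T v) {c d : 𝓞 k} (hc : Bdd C c) (hd : Bdd C d) :
    Bx B N (2 * C * T) (c • u + d • v) := by
  intro j hj φ
  have h1 := hu j hj φ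
  have h2 := hv j hj φ
  have h3 : φ ((c • u + d • v).coeff j : k) = φ (c : k) * φ (u.coeff j : k) +
      φ (d : k) * φ (v.coeff j : k) := by
    rw [Polynomial.coeff_add, Polynomial.coeff_smul, Polynomial.coeff_smul, smul_eq_mul,
      smul_eq_mul]
    push_cast
    rw [map_add, map_mul, map_mul]
  rw [h3]
  have hBj : 0 ≤ B ^ j := (pow_pos hB j).le
  calc ‖φ (c : k) * φ (u.coeff j : k) + φ (d : k) * φ (v.coeff j : k)‖ * B ^ j
      ≤ (‖φ (c : k)‖ * ‖φ (u.coeff j : k)‖ + ‖φ (d : k)‖ * ‖φ (v.coeff j : k)‖) * B ^ j := by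
        refine mul_le_mul_of_nonneg_right ((norm_add_le _ _).trans ?_) hBj
        rw [norm_mul, norm_mul]
    _ = ‖φ (c : k)‖ * (‖φ (u.coeff j : k)‖ * B ^ j) + ‖φ (d : k)‖ * (‖φ (v.coeff j : k)‖ * B ^ j) := by
        ring
    _ ≤ C * T + C * T := add_le_add
        (mul_le_mul (hc φ) h1 (by positivity) hC) (mul_le_mul (hd φ) h2 (by positivity) hC)
    _ = 2 * C * T := by ring

theorem rl_7b_grid1 {B T C : ℝ} {N : ℕ} (hB : 0 < B) (hC : 0 ≤ C) {v : (𝓞 k)[X]}
    (hv : Bx B N T v) {c : 𝓞 k} (hc : Bdd C c) : Bx B N (C * T) (c • v) := by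
  intro j hj φ
  have h2 := hv j hj φ
  have h3 : φ ((c • v).coeff j : k) = φ (c : k) * φ (v.coeff j : k) := by
    rw [Polynomial.coeff_smul, smul_eq_mul]
    push_cast
    rw [map_mul]
  rw [h3, norm_mul]
  have hBj : 0 ≤ B ^ j := (pow_pos hB j).le
  calc ‖φ (c : k)‖ * ‖φ (v.coeff j : k)‖ * B ^ j = ‖φ (c : k)‖ * (‖φ (v.coeff j : k)‖ * B ^ j) := by
        ring
    _ ≤ C * T := mul_le_mul (hc φ) h2 (by positivity) hC

theorem rl_7b_mono {B T T' : ℝ} {N : ℕ} (hT : T ≤ T') {u : (𝓞 k)[X]} (hu : Bx B N T u) :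
    Bx B N T' u := fun j hj φ => (hu j hj φ).trans hT

theorem rl_7b_FK_add (u v : (𝓞 k)[X]) : FK (u + v) = FK u + FK v := Polynomial.map_add _

theorem rl_7b_FK_smul (c : 𝓞 k) (v : (𝓞 k)[X]) : FK (c • v) = (c : k) • FK v :=
  Polynomial.map_smul _ c

end

section

variable (k : Type) [Field k] [NumberField k]

theorem step_dim (N b g a0 q E c s κ : ℕ) (hN : 4 ≤ N) (hg : 1 ≤ g) (τ : Bool)
    (hc : c ≤ g * ct τ) (hE : 4 * g * N ^ 2 ≤ E + c)
    (hA : cA (Module.finrank ℚ k) N b g a0 q (E + c)) : ∃ h0 : ℕ, ∀ h ≥ h0,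
    ∀ L : Submodule (𝓞 k) (𝓞 k)[X], Rd h b N g a0 q (E + c) s L →
      ∃ w : (𝓞 k)[X], w ≠ 0 ∧ w.natDegree ≤ 2 * N ∧
        (∀ j, Bdd ((h : ℝ) ^ (2 * a0 + 1)) (w.coeff j)) ∧
        ∀ p : HeightOneSpectrum (𝓞 k), h ^ (N ^ 2 * g) ≤ Ideal.absNorm p.asIdeal →
          Ideal.absNorm p.asIdeal ≤ h ^ (N ^ 2 * g + 1) → ∀ x : 𝓞 k,
          w.eval x ∉ p.asIdeal → ∀ V : Submodule k k[X], V ≤ degreeLT k N →
            Module.finrank k V = κ →
            RdV h b N g a0 (q + ct τ) E (s + 1) (L ⊓ cut τ p.asIdeal x) V := by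
  obtain ⟨h1, hsm⟩ := small_vec (k := k) N b g a0 q (E + c) s (by omega) hA
  obtain ⟨C2, hC2, hg2⟩ := grid2 (k := k)
  obtain ⟨C1, hC1, hg1⟩ := grid1 (k := k)
  have hD : 1 ≤ Module.finrank ℚ k := Module.finrank_pos
  have hct : ct τ ≤ 3 := by cases τ <;> simp [ct]
  have hct2 : 2 ≤ ct τ := by cases τ <;> simp [ct]
  have ha0 : 2 * (N ^ 2 * g) + 3 ≤ a0 := by
    unfold cA at hA
    have h2 : 1 * 1 * (4 * (N ^ 2 * g) + 10) ≤ Module.finrank ℚ k * N * (4 * (N ^ 2 * g) + 10) := by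
      gcongr
      omega
    omega
  refine ⟨max (max h1 (4 ^ (Module.finrank ℚ k * N)))
    (max (max ⌈2 * C2⌉₊ ⌈2 * C1⌉₊) (2 * (2 * N + 1) * N)), fun h hh L hR => ?_⟩
  have hh1 : h1 ≤ h := (le_max_left _ _).trans ((le_max_left _ _).trans hh)
  have hh2 : 4 ^ (Module.finrank ℚ k * N) ≤ h :=
    (le_max_right _ _).trans ((le_max_left _ _).trans hh)
  have hh3 : 2 * C2 ≤ (h : ℝ) := (Nat.le_ceil _).trans (by
    exact_mod_cast (le_max_left _ _).trans ((le_max_left _ _).trans ((le_max_right _ _).trans hh)))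
  have hh4 : 2 * C1 ≤ (h : ℝ) := (Nat.le_ceil _).trans (by
    exact_mod_cast (le_max_right _ _).trans ((le_max_left _ _).trans ((le_max_right _ _).trans hh)))
  have hh5 : 2 * (2 * N + 1) * N ≤ h := (le_max_right _ _).trans ((le_max_right _ _).trans hh)
  have hhp : 1 ≤ h := le_trans (Nat.one_le_pow _ _ (by norm_num)) hh2
  have hhr : (1 : ℝ) ≤ (h : ℝ) := by exact_mod_cast hhp
  have hB : (1 : ℝ) ≤ (h : ℝ) ^ (2 * b) := one_le_pow₀ hhr
  have hB0 : (0 : ℝ) < (h : ℝ) ^ (2 * b) := lt_of_lt_of_le one_pos hB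
  have hT0 : (0 : ℝ) ≤ (h : ℝ) ^ a0 := by positivity
  set T2 : ℝ := (h : ℝ) ^ (a0 - (2 * (N ^ 2 * g) + 3)) with hT2
  have hT20 : 0 ≤ T2 := by positivity
  have hT2le : T2 ≤ (h : ℝ) ^ a0 := pow_le_pow_right₀ hhr (Nat.sub_le _ _)
  -- the bound for subspaces with few points
  have few : ∀ (L' : Submodule (𝓞 k) (𝓞 k)[X]) (V : Submodule k k[X]), L' ≤ L →
      V ≤ degreeLT k N → ¬ Big h b N g a0 q (E + c) s L V →
      RdV h b N g a0 (q + ct τ) E (s + 1) L' V := by
    intro L' V hL hV hnb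
    have hκ : Module.finrank k V ≤ N := by
      have h2 : Module.finrank k (degreeLT k N) = N := by
        rw [(Polynomial.degreeLTEquiv k N).finrank_eq]
        simp
      haveI : Module.Finite k (degreeLT k N) :=
        Module.Finite.equiv (Polynomial.degreeLTEquiv k N).symm
      rw [← h2]
      exact Submodule.finrank_mono hV
    have hν : nu ((h : ℝ) ^ (2 * b)) N ((h : ℝ) ^ a0) L' V ≤
        nu ((h : ℝ) ^ (2 * b)) N ((h : ℝ) ^ a0) L V :=
      Set.ncard_le_ncard (fun f hf => ⟨hL hf.1, hf.2⟩) (nu_finite hB0 N _ L V hV)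
    unfold Big at hnb
    unfold RdV
    exact rl_7b_few hhp hν hκ hc hct hE (not_lt.mp hnb)
  by_cases hex : ∃ V0 : Submodule k k[X], V0 ≤ degreeLT k N ∧ Module.finrank k V0 = κ ∧
      Big h b N g a0 q (E + c) s L V0
  swap
  · -- no subspace with many points
    refine ⟨1, one_ne_zero, by simp, fun j φ => ?_, ?_⟩
    · rw [Polynomial.coeff_one]
      split_ifs
      · have : φ ((1 : 𝓞 k) : k) = 1 := by simp
        rw [this, norm_one]
        exact one_le_pow₀ hhr
      · have : φ ((0 : 𝓞 k) : k) = 0 := by simp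
        rw [this, norm_zero]
        positivity
    · intro p _ _ x _ V hV hVκ
      exact few _ V inf_le_left hV fun hb => hex ⟨V, hV, hVκ, hb⟩
  obtain ⟨V0, hV0, hV0κ, hbig⟩ := hex
  rcases Nat.eq_zero_or_pos κ with hκ0 | hκ1
  · -- dimension zero
    subst hκ0
    refine ⟨1, one_ne_zero, by simp, fun j φ => ?_, ?_⟩
    · rw [Polynomial.coeff_one]
      split_ifs
      · have : φ ((1 : 𝓞 k) : k) = 1 := by simp
        rw [this, norm_one]
        exact one_le_pow₀ hhr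
      · have : φ ((0 : 𝓞 k) : k) = 0 := by simp
        rw [this, norm_zero]
        positivity
    · intro p _ _ x _ V hV hVκ
      haveI : Module.Finite k (degreeLT k N) :=
        Module.Finite.equiv (Polynomial.degreeLTEquiv k N).symm
      haveI : Module.Finite k V := Submodule.finiteDimensional_of_le hV
      have hVb : V = ⊥ := Submodule.finrank_eq_zero.mp hVκ
      have hν : nu ((h : ℝ) ^ (2 * b)) N ((h : ℝ) ^ a0) (L ⊓ cut τ p.asIdeal x) V ≤ 1 := by
        have h2 : {f : (𝓞 k)[X] | f ∈ (L ⊓ cut τ p.asIdeal x) ∧ FK f ∈ V ∧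
            Bx ((h : ℝ) ^ (2 * b)) N ((h : ℝ) ^ a0) f} ⊆ {0} := by
          rintro f ⟨_, hf, _⟩
          rw [hVb, Submodule.mem_bot] at hf
          exact rl_7b_FK_inj hf
        exact (Set.ncard_le_ncard h2 (Set.finite_singleton _)).trans (Set.ncard_singleton _).le
      unfold RdV
      rw [hVκ]
      simp only [ne_eq, OfNat.ofNat_ne_zero, not_false_eq_true, zero_pow, mul_zero, add_zero,
        pow_zero, mul_one, zero_add]
      exact hν.trans (Nat.one_le_pow _ _ hhp)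
  obtain ⟨u, v, huL, hvL, huV, hvV, hub, hvb, hv0, hli⟩ := hsm h hh1 L hR V0 hV0 (hV0κ ▸ hκ1) hbig
  have huT := hV0 huV
  have hvT := hV0 hvV
  have hpow : (h : ℝ) * ((h : ℝ) ^ (N ^ 2 * g + 1)) ^ 2 * T2 = (h : ℝ) ^ a0 := by
    rw [hT2, ← pow_mul, ← pow_succ', ← pow_add]
    congr 1
    omega
  rcases Nat.lt_or_ge κ 2 with hκ2 | hκ2
  · -- dimension one
    have hκe : κ = 1 := by omega
    subst hκe
    refine ⟨v, hv0, ?_, fun j φ => ?_, ?_⟩
    · have : v.natDegree ≤ N := Polynomial.natDegree_le_of_degree_le (rl_7b_deg hvT).le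
      omega
    · exact (rl_7b_coeff hvT hB hT20 hvb j φ).trans (hT2le.trans
        (pow_le_pow_right₀ hhr (by omega)))
    · intro p hp1 hp2 x hx V hV hVκ
      by_cases hbV : Big h b N g a0 q (E + c) s L V
      · have hVe : V = V0 := big_unique hh2 hR hV hV0 (hVκ.trans hV0κ.symm) hbV hbig
        subst hVe
        obtain ⟨d, hd1, hd2⟩ := hg1 p x v τ hx
        have hNp : (Ideal.absNorm p.asIdeal : ℝ) ≤ (h : ℝ) ^ (N ^ 2 * g + 1) := by
          exact_mod_cast hp2
        have hz : ∀ i, d i • v ∈ L ∧ FK (d i • v) ∈ V ∧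
            Bx ((h : ℝ) ^ (2 * b)) N ((h : ℝ) ^ a0) (d i • v) := by
          intro i
          refine ⟨L.smul_mem _ hvL, ?_, ?_⟩
          · rw [rl_7b_FK_smul]
            exact V.smul_mem _ hvV
          · refine rl_7b_mono ?_ (rl_7b_grid1 hB0 (by positivity) hvb (hd1 i))
            calc C1 * (Ideal.absNorm p.asIdeal : ℝ) ^ 2 * T2
                ≤ (h : ℝ) * ((h : ℝ) ^ (N ^ 2 * g + 1)) ^ 2 * T2 := by
                  gcongr
                  linarith
              _ = (h : ℝ) ^ a0 := hpow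
        have hidx := nu_index hB0 N hT0 L (L ⊓ cut τ p.asIdeal x) inf_le_left V hV _
          (fun i => d i • v) hz (fun i j hij => hd2 i j hij.2)
        unfold RdV
        have hRV := hR V hV
        unfold RdV at hRV
        refine rl_7b_many (X := N ^ 2 * g * (ct τ - 1)) hhp ?_ ?_ hRV
        · rw [hVκ]
          obtain ⟨m, hm⟩ := Nat.exists_eq_add_of_le hN
          obtain ⟨e, he⟩ := Nat.exists_eq_add_of_le hct2
          have h3 : e ≤ 1 := by omega
          have h4 : (N - 1) * c ≤ (N - 1) * (g * ct τ) := Nat.mul_le_mul_left _ hc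
          have h5 : ct τ - 1 = e + 1 := by omega
          have h6 : N - 1 = m + 3 := by omega
          rw [h5]
          rw [h6, he] at h4
          rw [he]
          subst hm
          have h7 : 0 ≤ g * m := Nat.zero_le _
          have h8 : e = 0 ∨ e = 1 := by omega
          rcases h8 with h8 | h8
          · subst h8
            nlinarith [Nat.zero_le (g * m ^ 2)]
          · subst h8
            nlinarith [Nat.zero_le (g * m ^ 2)]
        · calc h ^ (N ^ 2 * g * (ct τ - 1)) *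
                nu ((h : ℝ) ^ (2 * b)) N ((h : ℝ) ^ a0) (L ⊓ cut τ p.asIdeal x) V
              ≤ Ideal.absNorm p.asIdeal ^ (ct τ - 1) *
                nu ((h : ℝ) ^ (2 * b)) N ((h : ℝ) ^ a0) (L ⊓ cut τ p.asIdeal x) V := by
                rw [pow_mul]
                exact Nat.mul_le_mul_right _ (Nat.pow_le_pow_left hp1 _)
            _ ≤ 4 ^ (Module.finrank ℚ k * N) * nu ((h : ℝ) ^ (2 * b)) N ((h : ℝ) ^ a0) L V := hidx
            _ ≤ h * nu ((h : ℝ) ^ (2 * b)) N ((h : ℝ) ^ a0) L V := Nat.mul_le_mul_right _ hh2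
      · exact few _ V inf_le_left hV hbV
  · -- dimension at least two
    refine ⟨u * derivative v - derivative u * v, rl_7b_wron_ne (hli (hV0κ ▸ hκ2)),
      rl_7b_wron_deg huT hvT, fun j φ => ?_, ?_⟩
    · refine (rl_7b_wron huT hvT hB hT20 hub hvb j φ).trans ?_
      have h2 : 2 * (((2 * N : ℕ) : ℝ) + 1) * (N : ℝ) ≤ (h : ℝ) := by
        have h3 : ((2 * (2 * N + 1) * N : ℕ) : ℝ) ≤ (h : ℝ) := by exact_mod_cast hh5
        push_cast at h3 ⊢
        linarith
      calc 2 * (((2 * N : ℕ) : ℝ) + 1) * (N * T2 ^ 2)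
          = (2 * (((2 * N : ℕ) : ℝ) + 1) * N) * T2 ^ 2 := by ring
        _ ≤ (h : ℝ) * ((h : ℝ) ^ a0) ^ 2 := by gcongr
        _ = (h : ℝ) ^ (2 * a0 + 1) := by ring
    · intro p hp1 hp2 x hx V hV hVκ
      by_cases hbV : Big h b N g a0 q (E + c) s L V
      · have hVe : V = V0 := big_unique hh2 hR hV hV0 (hVκ.trans hV0κ.symm) hbV hbig
        subst hVe
        obtain ⟨d, hd1, hd2⟩ := hg2 p x u v τ hx
        have hNp : (Ideal.absNorm p.asIdeal : ℝ) ≤ (h : ℝ) ^ (N ^ 2 * g + 1) := by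
          exact_mod_cast hp2
        have hz : ∀ i, (d i).1 • u + (d i).2 • v ∈ L ∧ FK ((d i).1 • u + (d i).2 • v) ∈ V ∧
            Bx ((h : ℝ) ^ (2 * b)) N ((h : ℝ) ^ a0) ((d i).1 • u + (d i).2 • v) := by
          intro i
          refine ⟨L.add_mem (L.smul_mem _ huL) (L.smul_mem _ hvL), ?_, ?_⟩
          · rw [rl_7b_FK_add, rl_7b_FK_smul, rl_7b_FK_smul]
            exact V.add_mem (V.smul_mem _ huV) (V.smul_mem _ hvV)
          · refine rl_7b_mono ?_ (rl_7b_grid hB0 (by positivity) hub hvb (hd1 i).1 (hd1 i).2)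
            calc 2 * (C2 * (Ideal.absNorm p.asIdeal : ℝ) ^ 2) * T2
                = (2 * C2) * (Ideal.absNorm p.asIdeal : ℝ) ^ 2 * T2 := by ring
              _ ≤ (h : ℝ) * ((h : ℝ) ^ (N ^ 2 * g + 1)) ^ 2 * T2 := by gcongr
              _ = (h : ℝ) ^ a0 := hpow
        have hidx := nu_index hB0 N hT0 L (L ⊓ cut τ p.asIdeal x) inf_le_left V hV _
          (fun i => (d i).1 • u + (d i).2 • v) hz (fun i j hij => hd2 i j hij.2)
        unfold RdV
        have hRV := hR V hV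
        unfold RdV at hRV
        have hκN : κ ≤ N := by
          have h2 : Module.finrank k (degreeLT k N) = N := by
            rw [(Polynomial.degreeLTEquiv k N).finrank_eq]
            simp
          haveI : Module.Finite k (degreeLT k N) :=
            Module.Finite.equiv (Polynomial.degreeLTEquiv k N).symm
          rw [← hVκ]
          calc Module.finrank k V ≤ Module.finrank k (degreeLT k N) := Submodule.finrank_mono hV
            _ = N := h2
        refine rl_7b_many (X := N ^ 2 * g * ct τ) hhp ?_ ?_ hRV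
        · rw [hVκ]
          obtain ⟨m, hm⟩ := Nat.exists_eq_add_of_le hκN
          subst hm
          have h3 : m * c * κ ≤ m * (g * ct τ) * κ := by gcongr
          nlinarith [Nat.zero_le (g * ct τ * m ^ 2)]
        · calc h ^ (N ^ 2 * g * ct τ) *
                nu ((h : ℝ) ^ (2 * b)) N ((h : ℝ) ^ a0) (L ⊓ cut τ p.asIdeal x) V
              ≤ Ideal.absNorm p.asIdeal ^ ct τ *
                nu ((h : ℝ) ^ (2 * b)) N ((h : ℝ) ^ a0) (L ⊓ cut τ p.asIdeal x) V := by
                rw [pow_mul]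
                exact Nat.mul_le_mul_right _ (Nat.pow_le_pow_left hp1 _)
            _ ≤ 4 ^ (Module.finrank ℚ k * N) * nu ((h : ℝ) ^ (2 * b)) N ((h : ℝ) ^ a0) L V := hidx
            _ ≤ h * nu ((h : ℝ) ^ (2 * b)) N ((h : ℝ) ^ a0) L V := Nat.mul_le_mul_right _ hh2
      · exact few _ V inf_le_left hV hbV

end

end Pool.Agent.H26.RL
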