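import Pool.Agent.H26.RL.Defs
import Pool.Agent.H26.RL.Roots
import Pool.Agent.H26.RL.StepD

/-!
# Project RL (MP_a3214d), row RL-8: one more condition keeps the lattice round for almost all
classes
-/

set_option autoImplicit false

open Polynomial IsDedekindDomain NumberField Pool.Agent.H35.AN
open Pool.Agent.H67.MU (Bdd)
open Pool.Agent.H98.TQ

namespace Pool.Agent.H26.RL

section

variable (k : Type) [Field k] [NumberField k]

open scoped Classical in
theorem step (N b g a0 q E c s : ℕ) (hN : 4 ≤ N) (hg : 1 ≤ g) (τ : Bool)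
    (hc : c ≤ g * ct τ) (hE : 4 * g * N ^ 2 ≤ E + c)
    (hA : cA (Module.finrank ℚ k) N b g a0 q (E + c)) : ∃ C h0 : ℕ, ∀ h ≥ h0,
    ∀ S : Finset (HeightOneSpectrum (𝓞 k)), PS h (N ^ 2 * g + 1) S →
    ∀ L : Submodule (𝓞 k) (𝓞 k)[X], Rd h b N g a0 q (E + c) s L →
      (∑ m ∈ S, ((Finset.range (Ideal.absNorm m.asIdeal)).filter fun x : ℕ =>
        ¬ Rd h b N g a0 (q + ct τ) E (s + 1) (L ⊓ cut τ m.asIdeal (x : 𝓞 k))).card) ≤
        C * h ^ (N ^ 2 * g + 1) := by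
  have hJ : 2 ≤ N ^ 2 * g + 1 := by
    have h1 : 1 ≤ N ^ 2 := Nat.one_le_pow _ _ (by omega)
    have h2 : 1 ≤ N ^ 2 * g := Nat.mul_pos h1 hg
    omega
  obtain ⟨C, h1, hfew⟩ := few_roots k (2 * N) (2 * a0 + 1) (N ^ 2 * g + 1) hJ
  choose h2 hstep using fun κ : ℕ => step_dim k N b g a0 q E c s κ hN hg τ hc hE hA
  refine ⟨(N + 1) * C, h1 + ∑ κ ∈ Finset.range (N + 1), h2 κ, ?_⟩
  intro h hh S hS L hL
  have hh1 : h ≥ h1 := by omega
  have hh2 : ∀ κ ∈ Finset.range (N + 1), h ≥ h2 κ := by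
    intro κ hκ
    have := Finset.single_le_sum (f := h2) (fun i _ => Nat.zero_le _) hκ
    omega
  -- the polynomials
  have hw : ∀ κ : ℕ, ∃ w : (𝓞 k)[X], κ ∈ Finset.range (N + 1) → (w ≠ 0 ∧ w.natDegree ≤ 2 * N ∧
        (∀ j, Bdd ((h : ℝ) ^ (2 * a0 + 1)) (w.coeff j)) ∧
        ∀ p : HeightOneSpectrum (𝓞 k), h ^ (N ^ 2 * g) ≤ Ideal.absNorm p.asIdeal →
          Ideal.absNorm p.asIdeal ≤ h ^ (N ^ 2 * g + 1) → ∀ x : 𝓞 k,
          w.eval x ∉ p.asIdeal → ∀ V : Submodule k k[X], V ≤ degreeLT k N →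
            Module.finrank k V = κ →
            RdV h b N g a0 (q + ct τ) E (s + 1) (L ⊓ cut τ p.asIdeal x) V) := by
    intro κ
    by_cases hκ : κ ∈ Finset.range (N + 1)
    · obtain ⟨w, hw⟩ := hstep κ h (hh2 κ hκ) L hL
      exact ⟨w, fun _ => hw⟩
    · exact ⟨0, fun h => absurd h hκ⟩
  choose w hw using hw
  have key : ∀ m ∈ S, ((Finset.range (Ideal.absNorm m.asIdeal)).filter fun x : ℕ =>
        ¬ Rd h b N g a0 (q + ct τ) E (s + 1) (L ⊓ cut τ m.asIdeal (x : 𝓞 k))).card ≤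
      ∑ κ ∈ Finset.range (N + 1), ((Finset.range (Ideal.absNorm m.asIdeal)).filter fun x : ℕ =>
        (w κ).eval (x : 𝓞 k) ∈ m.asIdeal).card := by
    intro m hm
    refine (Finset.card_le_card ?_).trans Finset.card_biUnion_le
    intro x hx
    rw [Finset.mem_filter] at hx
    obtain ⟨hx1, hx2⟩ := hx
    rw [Rd] at hx2
    push Not at hx2
    obtain ⟨V, hV, hVn⟩ := hx2
    have hfin : Module.finrank k V ≤ N := by
      have : Module.Finite k (degreeLT k N) :=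
        Module.Finite.equiv (degreeLTEquiv k N).symm
      have h3 := Submodule.finrank_mono hV
      have h4 : Module.finrank k (degreeLT k N) = N := by
        rw [(degreeLTEquiv k N).finrank_eq, Module.finrank_fin_fun]
      rwa [h4] at h3
    have hκ : Module.finrank k V ∈ Finset.range (N + 1) := Finset.mem_range.2 (by omega)
    rw [Finset.mem_biUnion]
    refine ⟨_, hκ, ?_⟩
    rw [Finset.mem_filter]
    refine ⟨hx1, ?_⟩
    by_contra hcon
    obtain ⟨-, -, -, h5⟩ := hw _ hκ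
    have h6 := hS.lo m hm
    rw [Nat.add_sub_cancel] at h6
    exact hVn (h5 m h6.le (hS.hi m hm) (x : 𝓞 k) hcon V hV rfl)
  refine (Finset.sum_le_sum key).trans ?_
  rw [Finset.sum_comm]
  refine (Finset.sum_le_sum (g := fun _ => C * h ^ (N ^ 2 * g + 1)) ?_).trans ?_
  · intro κ hκ
    obtain ⟨h3, h4, h5, -⟩ := hw κ hκ
    exact hfew h hh1 S hS (w κ) h3 h4 h5
  · rw [Finset.sum_const, Finset.card_range, smul_eq_mul, mul_assoc]

end

end Pool.Agent.H26.RL
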