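import Pool.Agent.H26.RL.Double

/-! # Project RL (MP_a3214d), row RL-2: fibres of addition -/

set_option autoImplicit false

open Polynomial IsDedekindDomain NumberField Pool.Agent.H35.AN
open Pool.Agent.H67.MU (Bdd)
open Pool.Agent.H92.SQ2 (gg WW)
open Pool.Agent.H98.TQ
open Pool.Agent.H96.T3 (D1)

namespace Pool.Agent.H26.RL

section

variable {k : Type} [Field k] [NumberField k]

theorem rl_2_FK_add (f g : (𝓞 k)[X]) : FK (f + g) = FK f + FK g := by
  unfold FK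
  rw [Polynomial.map_add]

theorem rl_2_FK_sub (f g : (𝓞 k)[X]) : FK (f - g) = FK f - FK g := by
  unfold FK
  rw [Polynomial.map_sub]

theorem rl_2_add {B : ℝ} (hB : 0 < B) {N : ℕ} {T : ℝ} {f g : (𝓞 k)[X]} (hf : Bx B N T f)
    (hg : Bx B N T g) : Bx B N (2 * T) (f + g) := by
  intro j hj φ
  have h1 := hf j hj φ
  have h2 := hg j hj φ
  have h3 : 0 ≤ B ^ j := by positivity
  have h4 : ‖φ (((f + g).coeff j : 𝓞 k) : k)‖ ≤ ‖φ (f.coeff j : k)‖ + ‖φ (g.coeff j : k)‖ := by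
    have e : (((f + g).coeff j : 𝓞 k) : k) = (f.coeff j : k) + (g.coeff j : k) := by
      rw [coeff_add]
      exact map_add (algebraMap (𝓞 k) k) _ _
    rw [e, map_add]
    exact norm_add_le _ _
  calc _ ≤ (‖φ (f.coeff j : k)‖ + ‖φ (g.coeff j : k)‖) * B ^ j :=
        mul_le_mul_of_nonneg_right h4 h3
    _ ≤ 2 * T := by linarith

theorem rl_2_sub {B : ℝ} (hB : 0 < B) {N : ℕ} {T : ℝ} {f g : (𝓞 k)[X]} (hf : Bx B N T f)
    (hg : Bx B N T g) : Bx B N (2 * T) (f - g) := by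
  intro j hj φ
  have h1 := hf j hj φ
  have h2 := hg j hj φ
  have h3 : 0 ≤ B ^ j := by positivity
  have h4 : ‖φ (((f - g).coeff j : 𝓞 k) : k)‖ ≤ ‖φ (f.coeff j : k)‖ + ‖φ (g.coeff j : k)‖ := by
    have e : (((f - g).coeff j : 𝓞 k) : k) = (f.coeff j : k) - (g.coeff j : k) := by
      rw [coeff_sub]
      exact map_sub (algebraMap (𝓞 k) k) _ _
    rw [e, map_sub]
    exact norm_sub_le _ _
  calc _ ≤ (‖φ (f.coeff j : k)‖ + ‖φ (g.coeff j : k)‖) * B ^ j :=
        mul_le_mul_of_nonneg_right h4 h3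
    _ ≤ 2 * T := by linarith

theorem nu_sub {B : ℝ} (hB : 0 < B) (N : ℕ) {T : ℝ} (hT : 0 ≤ T)
    (L : Submodule (𝓞 k) (𝓞 k)[X]) (V1 V2 : Submodule k k[X]) (h1 : V1 ≤ degreeLT k N)
    (h2 : V2 ≤ degreeLT k N) :
    nu B N T L V1 * nu B N T L V2 ≤
      16 ^ (Module.finrank ℚ k * N) * (nu B N T L (V1 ⊔ V2) * nu B N T L (V1 ⊓ V2)) := by
  classical
  have hs : V1 ⊔ V2 ≤ degreeLT k N := sup_le h1 h2
  have hi : V1 ⊓ V2 ≤ degreeLT k N := inf_le_left.trans h1
  have f1 := nu_finite hB N T L V1 h1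
  have f2 := nu_finite hB N T L V2 h2
  have f3 := nu_finite hB N (2 * T) L (V1 ⊔ V2) hs
  have f4 := nu_finite hB N (2 * T) L (V1 ⊓ V2) hi
  have d1 := nu_double hB N hT L (V1 ⊔ V2) hs
  have d2 := nu_double hB N hT L (V1 ⊓ V2) hi
  have key : nu B N T L V1 * nu B N T L V2 ≤
      nu B N (2 * T) L (V1 ⊓ V2) * nu B N (2 * T) L (V1 ⊔ V2) := by
    unfold nu
    rw [Set.ncard_eq_toFinset_card _ f1, Set.ncard_eq_toFinset_card _ f2,
      Set.ncard_eq_toFinset_card _ f3, Set.ncard_eq_toFinset_card _ f4, ← Finset.card_product]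
    refine (Finset.card_le_mul_card_image (f := fun q : (𝓞 k)[X] × (𝓞 k)[X] => q.1 + q.2)
      (f1.toFinset ×ˢ f2.toFinset) f4.toFinset.card ?_).trans
      (Nat.mul_le_mul_left _ (Finset.card_le_card ?_))
    · intro b hb
      rw [Finset.mem_image] at hb
      obtain ⟨q0, hq0, rfl⟩ := hb
      rw [Finset.mem_product, Set.Finite.mem_toFinset, Set.Finite.mem_toFinset] at hq0
      obtain ⟨⟨a1, a2, a3⟩, ⟨b1, b2, b3⟩⟩ := hq0
      refine Finset.card_le_card_of_injOn (fun q => q.1 - q0.1) ?_ ?_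
      · intro q hq
        rw [Finset.mem_coe, Finset.mem_filter, Finset.mem_product, Set.Finite.mem_toFinset,
          Set.Finite.mem_toFinset] at hq
        obtain ⟨⟨⟨c1, c2, c3⟩, ⟨e1, e2, e3⟩⟩, hq2⟩ := hq
        have hq3 : q.1 - q0.1 = q0.2 - q.2 := by
          have : q.1 + q.2 = q0.1 + q0.2 := hq2
          linear_combination this
        rw [Finset.mem_coe, Set.Finite.mem_toFinset]
        refine ⟨L.sub_mem c1 a1, ⟨?_, ?_⟩, rl_2_sub hB c3 a3⟩
        · show FK (q.1 - q0.1) ∈ V1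
          rw [rl_2_FK_sub]
          exact V1.sub_mem c2 a2
        · show FK (q.1 - q0.1) ∈ V2
          rw [hq3, rl_2_FK_sub]
          exact V2.sub_mem b2 e2
      · intro q hq q' hq' h
        rw [Finset.mem_coe, Finset.mem_filter] at hq hq'
        have e1 : q.1 + q.2 = q0.1 + q0.2 := hq.2
        have e2 : q'.1 + q'.2 = q0.1 + q0.2 := hq'.2
        have e3 : q.1 - q0.1 = q'.1 - q0.1 := h
        have e4 : q.1 = q'.1 := sub_left_injective e3
        have e5 : q.2 = q'.2 := by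
          have : q.1 + q.2 = q'.1 + q'.2 := e1.trans e2.symm
          rw [e4] at this
          exact add_left_cancel this
        exact Prod.ext e4 e5
    · intro s hsm
      rw [Finset.mem_image] at hsm
      obtain ⟨q, hq, rfl⟩ := hsm
      rw [Finset.mem_product, Set.Finite.mem_toFinset, Set.Finite.mem_toFinset] at hq
      obtain ⟨⟨a1, a2, a3⟩, ⟨b1, b2, b3⟩⟩ := hq
      rw [Set.Finite.mem_toFinset]
      refine ⟨L.add_mem a1 b1, ?_, rl_2_add hB a3 b3⟩
      rw [rl_2_FK_add]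
      exact Submodule.add_mem_sup a2 b2
  have e16 : (16 : ℕ) ^ (Module.finrank ℚ k * N) =
      4 ^ (Module.finrank ℚ k * N) * 4 ^ (Module.finrank ℚ k * N) := by
    rw [← mul_pow]
    norm_num
  calc nu B N T L V1 * nu B N T L V2 ≤
      nu B N (2 * T) L (V1 ⊓ V2) * nu B N (2 * T) L (V1 ⊔ V2) := key
    _ ≤ (4 ^ (Module.finrank ℚ k * N) * nu B N T L (V1 ⊓ V2)) *
        (4 ^ (Module.finrank ℚ k * N) * nu B N T L (V1 ⊔ V2)) := Nat.mul_le_mul d2 d1
    _ = _ := by rw [e16]; ring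

end

end Pool.Agent.H26.RL
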