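import Pool.Agent.H26.RL.Sub

/-! # RL-3: subspaces with many lattice points are unique -/

set_option autoImplicit false

open Polynomial IsDedekindDomain NumberField Pool.Agent.H35.AN
open Pool.Agent.H67.MU (Bdd)
open Pool.Agent.H92.SQ2 (gg WW)
open Pool.Agent.H98.TQ
open Pool.Agent.H96.T3 (D1)

namespace Pool.Agent.H26.RL

section

variable {k : Type} [Field k] [NumberField k]

private theorem rl3_arith {h E c A s d i x1 x2 ns ni W : ℕ} (h0 : 0 < h) (hW : W ≤ h ^ 2)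
    (hi : 1 ≤ i) (hx : x1 * x2 ≤ W * (ns * ni))
    (hb1 : h ^ (A * (d + i) + s + 1) < x1 * h ^ (E * ((d + i) ^ 2 + 1) + c * (d + i)))
    (hb2 : h ^ (A * (d + i) + s + 1) < x2 * h ^ (E * ((d + i) ^ 2 + 1) + c * (d + i)))
    (hs : ns * h ^ (E * (d + 2 * i) ^ 2 + c * (d + 2 * i)) ≤ h ^ (A * (d + 2 * i) + s))
    (hn : ni * h ^ (E * d ^ 2 + c * d) ≤ h ^ (A * d + s)) : False := by
  have e1 : h ^ (A * (d + i) + s + 1) * h ^ (A * (d + i) + s + 1) =
      h ^ 2 * h ^ (2 * (A * (d + i)) + 2 * s) := by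
    rw [← pow_add, ← pow_add]
    congr 1
    ring
  have e2 : h ^ (A * (d + 2 * i) + s) * h ^ (A * d + s) = h ^ (2 * (A * (d + i)) + 2 * s) := by
    rw [← pow_add]
    congr 1
    ring
  have e3 : x1 * h ^ (E * ((d + i) ^ 2 + 1) + c * (d + i)) *
      (x2 * h ^ (E * ((d + i) ^ 2 + 1) + c * (d + i))) =
      x1 * x2 * h ^ (2 * (E * ((d + i) ^ 2 + 1)) + 2 * (c * (d + i))) := by
    rw [mul_mul_mul_comm, ← pow_add]
    congr 2
    ring
  have e4 : ns * h ^ (E * (d + 2 * i) ^ 2 + c * (d + 2 * i)) * (ni * h ^ (E * d ^ 2 + c * d)) =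
      ns * ni * h ^ (2 * (E * ((d + i) ^ 2 + i ^ 2)) + 2 * (c * (d + i))) := by
    rw [mul_mul_mul_comm, ← pow_add]
    congr 2
    ring
  have l1 : h ^ 2 * h ^ (2 * (A * (d + i)) + 2 * s) <
      x1 * x2 * h ^ (2 * (E * ((d + i) ^ 2 + 1)) + 2 * (c * (d + i))) := by
    rw [← e1, ← e3]
    exact Nat.mul_lt_mul'' hb1 hb2
  have l2 : ns * ni * h ^ (2 * (E * ((d + i) ^ 2 + i ^ 2)) + 2 * (c * (d + i))) ≤
      h ^ (2 * (A * (d + i)) + 2 * s) := by
    rw [← e2, ← e4]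
    exact Nat.mul_le_mul hs hn
  have l3 : h ^ (2 * (E * ((d + i) ^ 2 + 1)) + 2 * (c * (d + i))) ≤
      h ^ (2 * (E * ((d + i) ^ 2 + i ^ 2)) + 2 * (c * (d + i))) := by
    apply Nat.pow_le_pow_right h0
    have hi2 : 1 ≤ i ^ 2 := Nat.one_le_pow _ _ hi
    exact Nat.add_le_add_right (Nat.mul_le_mul_left _ (Nat.mul_le_mul_left _
      (Nat.add_le_add_left hi2 _))) _
  have l4 : x1 * x2 * h ^ (2 * (E * ((d + i) ^ 2 + 1)) + 2 * (c * (d + i))) ≤
      h ^ 2 * h ^ (2 * (A * (d + i)) + 2 * s) := by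
    calc x1 * x2 * h ^ (2 * (E * ((d + i) ^ 2 + 1)) + 2 * (c * (d + i)))
        ≤ (W * (ns * ni)) * h ^ (2 * (E * ((d + i) ^ 2 + i ^ 2)) + 2 * (c * (d + i))) :=
          Nat.mul_le_mul hx l3
      _ = W * (ns * ni * h ^ (2 * (E * ((d + i) ^ 2 + i ^ 2)) + 2 * (c * (d + i)))) := by
          rw [mul_assoc]
      _ ≤ h ^ 2 * h ^ (2 * (A * (d + i)) + 2 * s) := Nat.mul_le_mul hW l2
  exact absurd l4 (not_le.mpr l1)

theorem big_unique {h b N g a0 q E s : ℕ} {L : Submodule (𝓞 k) (𝓞 k)[X]}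
    (hh : 4 ^ (Module.finrank ℚ k * N) ≤ h) (hR : Rd h b N g a0 q E s L)
    {V1 V2 : Submodule k k[X]} (h1 : V1 ≤ degreeLT k N) (h2 : V2 ≤ degreeLT k N)
    (h12 : Module.finrank k V1 = Module.finrank k V2) (hb1 : Big h b N g a0 q E s L V1)
    (hb2 : Big h b N g a0 q E s L V2) : V1 = V2 := by
  by_contra hne
  have h0 : 0 < h := lt_of_lt_of_le (by positivity) hh
  have h0R : (0 : ℝ) < (h : ℝ) := by exact_mod_cast h0
  have : FiniteDimensional k (degreeLT k N) :=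
    Module.Finite.of_basis (degreeLT.basis k N)
  have f1 : FiniteDimensional k V1 := Submodule.finiteDimensional_of_le h1
  have f2 : FiniteDimensional k V2 := Submodule.finiteDimensional_of_le h2
  have hsup : V1 ⊔ V2 ≤ degreeLT k N := sup_le h1 h2
  have f3 : FiniteDimensional k (V1 ⊔ V2 : Submodule k k[X]) :=
    Submodule.finiteDimensional_of_le hsup
  have hinf : V1 ⊓ V2 ≤ degreeLT k N := inf_le_left.trans h1
  have hdim := Submodule.finrank_sup_add_finrank_inf_eq V1 V2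
  have hlt : Module.finrank k V1 < Module.finrank k (V1 ⊔ V2 : Submodule k k[X]) := by
    apply Submodule.finrank_lt_finrank_of_lt
    refine lt_of_le_of_ne le_sup_left fun heq => hne ?_
    have h3 : V2 ≤ V1 := by
      rw [heq]
      exact le_sup_right
    exact (Submodule.eq_of_le_of_finrank_eq h3 h12.symm).symm
  have hnu := nu_sub (B := (h : ℝ) ^ (2 * b)) (pow_pos h0R _) N (T := (h : ℝ) ^ a0)
    (pow_pos h0R _).le L V1 V2 h1 h2
  have hs := hR _ hsup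
  have hn := hR _ hinf
  unfold RdV at hs hn
  unfold Big at hb1 hb2
  rw [← h12] at hb2
  have hW : 16 ^ (Module.finrank ℚ k * N) ≤ h ^ 2 := by
    calc 16 ^ (Module.finrank ℚ k * N) = (4 ^ 2) ^ (Module.finrank ℚ k * N) := by norm_num
      _ = (4 ^ (Module.finrank ℚ k * N)) ^ 2 := by rw [← pow_mul, ← pow_mul, mul_comm]
      _ ≤ h ^ 2 := Nat.pow_le_pow_left hh 2
  obtain ⟨i, hi⟩ := Nat.exists_eq_add_of_lt hlt
  have hd1 : Module.finrank k V1 =
      Module.finrank k (V1 ⊓ V2 : Submodule k k[X]) + (i + 1) := by omega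
  have hd2 : Module.finrank k (V1 ⊔ V2 : Submodule k k[X]) =
      Module.finrank k (V1 ⊓ V2 : Submodule k k[X]) + 2 * (i + 1) := by omega
  rw [hd1] at hb1 hb2
  rw [hd2] at hs
  exact rl3_arith h0 hW (Nat.le_add_left 1 i) hnu hb1 hb2 hs hn

end

end Pool.Agent.H26.RL
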